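import Pool.Agent.T2H06.AUT.CuspGlob

/-!
# Package C: the cusp form
-/

set_option autoImplicit false

open Polynomial IsDedekindDomain WithZero

namespace Pool.Agent.T2H06.AUT.Cusp

open Pool.Agent.T2H06.AUT

variable (hL : D1Stmt)

/-- `H = H_f × N_∞` -/
noncomputable def HH : Subgroup G := Hf.prod (Nw hL)

/-- the character `χ` of `H` -/
noncomputable def chi (x : G) : ℂ := eps (vv (pl 0)) (evG (pl 0) x.1) * sgn vinf x.2

theorem chi_mul {x y : G} (hx : x.1 ∈ Kf) (hy : y.1 ∈ Kf) : chi (x * y) = chi x * chi y := by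
  unfold chi
  rw [Prod.fst_mul, Prod.snd_mul, map_mul, eps_mul (res_pl 0) (hx _) (hy _), sgn_mul]
  ring

variable {hL}

theorem mem_HH {x : G} : x ∈ HH hL ↔ x.1 ∈ Hf ∧ x.2 ∈ Nw hL := Iff.rfl

theorem fst_mem {x : G} (h : x ∈ HH hL) : x.1 ∈ Kf := (mem_Hf.1 (mem_HH.1 h).1).1

variable (hL)

open Classical in
/-- the cusp form -/
noncomputable def ff (x : G) : ℂ :=
  if h : ∃ γ : GL (Fin 2) K, diagG γ * x ∈ HH hL then chi (diagG h.choose * x) else 0

theorem poly_of_le {p : R} (h : RatFunc.inftyValuation (ZMod 2) (algebraMap R K p) ≤ 1) :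
    ∃ c : ZMod 2, p = C c := by
  by_cases hp : p = 0
  · exact ⟨0, by rw [hp, map_zero]⟩
  rw [RatFunc.inftyValuation_apply, RatFunc.inftyValuation.polynomial _ hp, ← exp_zero,
    exp_le_exp] at h
  have h0 : p.natDegree = 0 := by omega
  exact ⟨p.coeff 0, eq_C_of_natDegree_eq_zero h0⟩

theorem poly_of_lt {p : R} (h : RatFunc.inftyValuation (ZMod 2) (algebraMap R K p) < 1) :
    p = 0 := by
  by_contra hp
  rw [RatFunc.inftyValuation_apply, RatFunc.inftyValuation.polynomial _ hp, ← exp_zero,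
    exp_lt_exp] at h
  omega

theorem triv (h2 : S2Stmt) {γ : GL (Fin 2) K} (h : diagG γ ∈ HH hL) : γ = 1 := by
  obtain ⟨h1, h3⟩ := mem_HH.1 h
  obtain ⟨h4, h5⟩ := mem_Hf.1 h1
  obtain ⟨γ', rfl⟩ := h2 γ h4
  have hinf : ∀ i j, (diagG (Matrix.GeneralLinearGroup.map (algebraMap R K) γ')).2.1 i j
      = algebraMap K Kinf (algebraMap R K (γ'.1 i j)) := fun i j => rfl
  have hu : IsUnit γ'.1.det := γ'.isUnit.map Matrix.detMonoidHom
  have hv : vinf (diagG (Matrix.GeneralLinearGroup.map (algebraMap R K) γ')).2.1.det = 1 := by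
    have e : (diagG (Matrix.GeneralLinearGroup.map (algebraMap R K) γ')).2.1.det
        = algebraMap K Kinf (algebraMap R K γ'.1.det) := by
      rw [Matrix.det_fin_two, Matrix.det_fin_two, hinf, hinf, hinf, hinf]
      simp only [map_sub, map_mul]
    rw [e, vinf_coe]
    have hne : γ'.1.det ≠ 0 := hu.ne_zero
    rw [RatFunc.inftyValuation_apply, RatFunc.inftyValuation.polynomial _ hne,
      natDegree_eq_zero_of_isUnit hu]
    rfl
  have hIw := mem_Iw_of_Nw hL h3 hv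
  have hle : ∀ i j, ∃ c : ZMod 2, γ'.1 i j = C c := by
    intro i j
    refine poly_of_le ?_
    rw [← vinf_coe, ← hinf]
    exact hIw.1.1 i j
  have h01 : γ'.1 0 1 = 0 := by
    refine poly_of_lt ?_
    rw [← vinf_coe, ← hinf]
    exact hIw.2
  have h10 : γ'.1 1 0 = 0 := by
    obtain ⟨c, hc⟩ := hle 1 0
    have h6 : vv (pl 1) (algebraMap K (Kv (pl 1)) (algebraMap R K (γ'.1 1 0))) < 1 := h5
    rw [vv_coeR, pl_lt_iff, hc, eval_C] at h6
    rw [hc, h6, map_zero]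
  have hd : γ'.1.det = γ'.1 0 0 * γ'.1 1 1 := by
    rw [Matrix.det_fin_two, h01, zero_mul, sub_zero]
  rw [hd] at hu
  have key : ∀ a : ZMod 2, a ≠ 0 → a = 1 := by decide
  have h00 : γ'.1 0 0 = 1 := by
    obtain ⟨c, hc⟩ := hle 0 0
    have : c ≠ 0 := by
      rintro rfl
      rw [hc, map_zero, zero_mul] at hu
      exact hu.ne_zero rfl
    rw [hc, key c this, map_one]
  have h11 : γ'.1 1 1 = 1 := by
    obtain ⟨c, hc⟩ := hle 1 1
    have : c ≠ 0 := by
      rintro rfl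
      rw [hc, map_zero, mul_zero] at hu
      exact hu.ne_zero rfl
    rw [hc, key c this, map_one]
  have : γ' = 1 := by
    ext i j
    fin_cases i <;> fin_cases j <;> simp [h00, h01, h10, h11]
  rw [this, map_one]

variable (h2 : S2Stmt)
include h2

theorem uniq {γ γ' : GL (Fin 2) K} {x : G} (h : diagG γ * x ∈ HH hL)
    (h' : diagG γ' * x ∈ HH hL) : γ = γ' := by
  have e : diagG (γ * γ'⁻¹) = (diagG γ * x) * (diagG γ' * x)⁻¹ := by
    rw [map_mul, map_inv]
    group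
  have := triv hL h2 (γ := γ * γ'⁻¹) (by rw [e]; exact mul_mem h (inv_mem h'))
  rwa [mul_inv_eq_one] at this

theorem ff_eq {γ : GL (Fin 2) K} {x : G} (h : diagG γ * x ∈ HH hL) :
    ff hL x = chi (diagG γ * x) := by
  unfold ff
  have hex : ∃ γ : GL (Fin 2) K, diagG γ * x ∈ HH hL := ⟨γ, h⟩
  rw [dif_pos hex, uniq hL h2 hex.choose_spec h]

omit h2 in
theorem ff_zero {x : G} (h : ¬ ∃ γ : GL (Fin 2) K, diagG γ * x ∈ HH hL) : ff hL x = 0 := by
  unfold ff
  rw [dif_neg h]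

theorem ff_left (γ : GL (Fin 2) K) (x : G) : ff hL (diagG γ * x) = ff hL x := by
  by_cases h : ∃ γ' : GL (Fin 2) K, diagG γ' * x ∈ HH hL
  · obtain ⟨γ', hγ'⟩ := h
    have e : diagG (γ' * γ⁻¹) * (diagG γ * x) = diagG γ' * x := by
      rw [map_mul, map_inv]
      group
    rw [ff_eq hL h2 hγ', ff_eq hL h2 (γ := γ' * γ⁻¹) (by rw [e]; exact hγ'), e]
  · rw [ff_zero hL h, ff_zero hL]
    rintro ⟨γ', hγ'⟩
    refine h ⟨γ' * γ, ?_⟩
    rw [map_mul, mul_assoc]
    exact hγ'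

theorem ff_right (x : G) {y : G} (hy : y ∈ HH hL) : ff hL (x * y) = ff hL x * chi y := by
  by_cases h : ∃ γ' : GL (Fin 2) K, diagG γ' * x ∈ HH hL
  · obtain ⟨γ', hγ'⟩ := h
    have e : diagG γ' * (x * y) ∈ HH hL := by
      rw [← mul_assoc]; exact mul_mem hγ' hy
    rw [ff_eq hL h2 hγ', ff_eq hL h2 e, ← mul_assoc, chi_mul (fst_mem hγ') (fst_mem hy)]
  · rw [ff_zero hL h, ff_zero hL, zero_mul]
    rintro ⟨γ', hγ'⟩
    refine h ⟨γ', ?_⟩
    have : diagG γ' * x = diagG γ' * (x * y) * y⁻¹ := by group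
    rw [this]
    exact mul_mem hγ' (inv_mem hy)

theorem ff_one : ff hL 1 = 1 := by
  rw [ff_eq hL h2 (γ := 1) (by rw [map_one, one_mul]; exact one_mem _), map_one, one_mul]
  unfold chi
  rw [Prod.fst_one, Prod.snd_one, map_one, eps_one, sgn_of_intGL (one_mem _), mul_one]

/-! ## The invariance properties -/

omit h2 in
theorem mem_HH_inf {n : Ginf} (hn : n ∈ Nw hL) : ((1, n) : G) ∈ HH hL :=
  mem_HH.2 ⟨one_mem _, hn⟩

omit h2 in
theorem mem_HH_fin {n : Gf} (hn : n ∈ Hf) : ((n, 1) : G) ∈ HH hL :=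
  mem_HH.2 ⟨hn, one_mem _⟩

omit h2 in
theorem Iw_le {i : Ginf} (hi : i ∈ Iw vinf) : i ∈ Nw hL :=
  ⟨1, i, hi, Or.inl (by rw [zz_one, one_mul])⟩

omit h2 in
theorem zz_mem (z : Kinfˣ) : zz z ∈ Nw hL :=
  ⟨z, 1, one_mem _, Or.inl (by rw [mul_one])⟩

omit h2 in
theorem ww_mem : ww piInf ∈ Nw hL :=
  ⟨1, 1, one_mem _, Or.inr (by rw [zz_one, one_mul, mul_one])⟩

omit h2 in
theorem chi_inf (n : Ginf) : chi ((1, n) : G) = sgn vinf n := by
  unfold chi
  rw [map_one, eps_one, one_mul]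

omit h2 in
theorem chi_fin (n : Gf) : chi ((n, 1) : G) = eps (vv (pl 0)) (evG (pl 0) n) := by
  unfold chi
  rw [sgn_of_intGL (one_mem _), mul_one]

theorem ff_iw (x : G) {κ : Ginf} (hκ : κ ∈ Iw vinf) : ff hL (x * (1, κ)) = ff hL x := by
  rw [ff_right hL h2 x (mem_HH_inf hL (Iw_le hL hκ)), chi_inf, sgn_of_intGL hκ.1, mul_one]

theorem ff_zz (x : G) (z : Kinfˣ) : ff hL (x * (1, zz z)) = ff hL x := by
  rw [ff_right hL h2 x (mem_HH_inf hL (zz_mem hL z)), chi_inf, sgn_zz, mul_one]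

theorem ff_ww (x : G) : ff hL (x * (1, ww piInf)) = - ff hL x := by
  rw [ff_right hL h2 x (mem_HH_inf hL (ww_mem hL)), chi_inf, sgn_ww hL]
  ring

theorem ff_open (h4 : S4Stmt) : ∃ U : Subgroup G, IsOpen (U : Set G) ∧
    ∀ u ∈ U, ∀ x, ff hL (x * u) = ff hL x := by
  refine ⟨Uf.prod (Iw vinf), ?_, ?_⟩
  · rw [Subgroup.coe_prod]
    exact (isOpen_Uf h4).prod isOpen_Iw
  · intro u hu x
    obtain ⟨h1, h3⟩ := Subgroup.mem_prod.1 hu
    obtain ⟨h5, h6, h7, h8⟩ := mem_Uf.1 h1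
    have hm : u ∈ HH hL := mem_HH.2 ⟨mem_Hf.2 ⟨h5, h6⟩, Iw_le hL h3⟩
    rw [ff_right hL h2 x hm]
    unfold chi
    rw [eps_of_cong h7 h8, sgn_of_intGL h3.1, mul_one, mul_one]

/-! ## The sum relation -/

/-- the sum over `GL₂(O_∞)/Iw` -/
noncomputable def FF (x : G) : ℂ := ff hL x + ff hL (x * (1, ss)) + ff hL (x * (1, nn 1))

theorem FF_int (x : G) {u : Ginf} (hu : u ∈ intGL vinf) : FF hL (x * (1, u)) = FF hL x := by
  have h := phi_sum (v := vinf) hL.res (fun g => ff hL (x * (1, g))) (fun g i hi => by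
    have e : x * (1, g * i) = (x * (1, g)) * (1, i) :=
      Prod.ext (by simp) (by simp [mul_assoc])
    change ff hL (x * (1, g * i)) = _
    rw [e, ff_iw hL h2 _ hi]) hu
  have e1 : x * ((1, 1) : G) = x := mul_one x
  unfold FF
  simp only [mul_assoc, Prod.mk_mul_mk, mul_one]
  simp only [e1] at h
  exact h

theorem FF_left (γ : GL (Fin 2) K) (x : G) : FF hL (diagG γ * x) = FF hL x := by
  unfold FF
  rw [mul_assoc, mul_assoc, ff_left hL h2, ff_left hL h2, ff_left hL h2]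

theorem FF_zz (x : G) (z : Kinfˣ) : FF hL (x * (1, zz z)) = FF hL x := by
  have e : ∀ r : Ginf, x * (1, zz z) * (1, r) = x * (1, r) * (1, zz z) := by
    intro r
    refine Prod.ext (by simp) ?_
    change x.2 * zz z * r = x.2 * r * zz z
    rw [mul_assoc, mul_assoc, zz_comm]
  unfold FF
  rw [e, e, ff_zz hL h2, ff_zz hL h2, ff_zz hL h2]

theorem FF_fin (x : G) {n : Gf} (hn : n ∈ Hf) :
    FF hL (x * (n, 1)) = eps (vv (pl 0)) (evG (pl 0) n) * FF hL x := by
  have e : ∀ r : Ginf, x * (n, 1) * (1, r) = x * (1, r) * (n, 1) := by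
    intro r
    exact Prod.ext (by simp) (by simp)
  unfold FF
  rw [e, e, ff_right hL h2 _ (mem_HH_fin hL hn), ff_right hL h2 _ (mem_HH_fin hL hn),
    ff_right hL h2 _ (mem_HH_fin hL hn), chi_fin]
  ring

omit h2 in
theorem Kf_of_R (γ : GL (Fin 2) R) :
    Matrix.GeneralLinearGroup.map (algebraMap K Af)
      (Matrix.GeneralLinearGroup.map (algebraMap R K) γ) ∈ Kf := by
  intro v
  have he : ∀ i j, (evG v (Matrix.GeneralLinearGroup.map (algebraMap K Af)
      (Matrix.GeneralLinearGroup.map (algebraMap R K) γ))).1 i j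
      = algebraMap K (Kv v) (algebraMap R K (γ.1 i j)) := fun i j => rfl
  refine ⟨fun i j => ?_, ?_⟩
  · rw [he, vv_coeR]
    exact v.intValuation_le_one _
  · rw [Matrix.det_fin_two, he, he, he, he]
    simp only [← map_mul, ← map_sub]
    rw [vv_coeR, ← Matrix.det_fin_two]
    have hu : IsUnit γ.1.det := γ.isUnit.map Matrix.detMonoidHom
    rw [HeightOneSpectrum.intValuation_eq_one_iff]
    intro hm
    exact v.isPrime.ne_top (Ideal.eq_top_of_isUnit_mem _ hm hu)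

omit h2 in
theorem rd_R (c : ZMod 2) (r : R) :
    rd (vv (pl c)) (algebraMap K (Kv (pl c)) (algebraMap R K r)) = r.eval c := by
  by_cases h : r.eval c = 0
  · rw [h, rd_eq_zero, vv_coeR, pl_lt_iff, h]
  · have key : ∀ a : ZMod 2, a ≠ 0 → a = 1 := by decide
    rw [key _ h, rd_eq_one, vv_coeR, pl_lt_iff]
    exact h

omit h2 in
theorem eps_R (γ : GL (Fin 2) R) :
    eps (vv (pl 0)) (evG (pl 0) (Matrix.GeneralLinearGroup.map (algebraMap K Af)
      (Matrix.GeneralLinearGroup.map (algebraMap R K) γ))) =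
      (epsF ((γ.1 0 0).eval 0) ((γ.1 0 1).eval 0) ((γ.1 1 0).eval 0) ((γ.1 1 1).eval 0) : ℤ) := by
  have he : ∀ i j, (evG (pl 0) (Matrix.GeneralLinearGroup.map (algebraMap K Af)
      (Matrix.GeneralLinearGroup.map (algebraMap R K) γ))).1 i j
      = algebraMap K (Kv (pl 0)) (algebraMap R K (γ.1 i j)) := fun i j => rfl
  unfold eps
  rw [he, he, he, he, rd_R, rd_R, rd_R, rd_R]

omit h2 in
theorem Hf_of_R (γ : GL (Fin 2) R) (h : (γ.1 1 0).eval 1 = 0) :
    Matrix.GeneralLinearGroup.map (algebraMap K Af)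
      (Matrix.GeneralLinearGroup.map (algebraMap R K) γ) ∈ Hf := by
  refine mem_Hf.2 ⟨Kf_of_R γ, ?_⟩
  change vv (pl 1) (algebraMap K (Kv (pl 1)) (algebraMap R K (γ.1 1 0))) < 1
  rw [vv_coeR, pl_lt_iff, h]

theorem FF_one : FF hL 1 = 0 := by
  have h1 := FF_left hL h2 (Matrix.GeneralLinearGroup.map (algebraMap R K) (nn 1)) 1
  have e : diagG (Matrix.GeneralLinearGroup.map (algebraMap R K) (nn 1)) * 1 =
      1 * (Matrix.GeneralLinearGroup.map (algebraMap K Af)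
        (Matrix.GeneralLinearGroup.map (algebraMap R K) (nn 1)), 1) * (1, nn 1) := by
    rw [mul_one, one_mul, Prod.mk_mul_mk, mul_one, one_mul]
    refine Prod.ext rfl ?_
    ext i j
    fin_cases i <;> fin_cases j <;> simp [diagG, nn]
  rw [e, FF_int hL h2 _ (nn_mem (by simp)), FF_fin hL h2, eps_R] at h1
  · simp [nn, epsF] at h1
    exact self_eq_neg.1 h1.symm
  · exact Hf_of_R _ (by simp [nn])

theorem FF_ww : FF hL (1, ww piInf) = 0 := by
  have h1 := FF_left hL h2 (Matrix.GeneralLinearGroup.map (algebraMap R K) (ss * nn (X + 1) * ss))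
    (1, ww piInf)
  have hpi : (piInf : Kinf) = algebraMap K Kinf (RatFunc.X)⁻¹ := rfl
  have e : diagG (Matrix.GeneralLinearGroup.map (algebraMap R K) (ss * nn (X + 1) * ss)) *
      (1, ww piInf) = (1, ww piInf) * (Matrix.GeneralLinearGroup.map (algebraMap K Af)
        (Matrix.GeneralLinearGroup.map (algebraMap R K) (ss * nn (X + 1) * ss)), 1) *
        (1, nn (algebraMap K Kinf (algebraMap R K (X + 1)) * piInf)) := by
    refine Prod.ext ?_ ?_
    · simp only [Prod.fst_mul, mul_one, one_mul]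
      rfl
    · simp only [Prod.snd_mul, mul_one]
      ext i j
      fin_cases i <;> fin_cases j <;> simp [diagG, nn, ww, dd, ss, Matrix.mul_apply]
  have hle : vinf (algebraMap K Kinf (algebraMap R K (X + 1)) * piInf) ≤ 1 := by
    rw [map_mul, hL.unif, vinf_coe, RatFunc.inftyValuation_apply,
      RatFunc.inftyValuation.polynomial]
    · have : (X + 1 : R).natDegree = 1 := by
        rw [← C_1]; exact natDegree_X_add_C _
      rw [this, ← exp_add]
      simp
    · rw [← C_1]; exact X_add_C_ne_zero _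
  rw [e, FF_int hL h2 _ (nn_mem hle), FF_fin hL h2, eps_R] at h1
  · simp [nn, ss, epsF, Matrix.mul_apply] at h1
    exact self_eq_neg.1 h1.symm
  · refine Hf_of_R _ ?_
    simp [nn, ss, Matrix.mul_apply]
    decide

theorem FF_inf {n : Ginf} (hn : n ∈ Nw hL) : FF hL (1, n) = 0 := by
  obtain ⟨z, i, hi, h | h⟩ := hn
  · have e : ((1, n) : G) = 1 * (1, i) * (1, zz z) := by
      refine Prod.ext (by simp) ?_
      change n = 1 * i * zz z
      rw [h, one_mul, zz_comm]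
    rw [e, FF_zz hL h2, FF_int hL h2 _ hi.1, FF_one hL h2]
  · have e : ((1, n) : G) = (1, ww piInf) * (1, i) * (1, zz z) := by
      refine Prod.ext (by simp) ?_
      change n = ww piInf * i * zz z
      rw [h, zz_comm]
    rw [e, FF_zz hL h2, FF_int hL h2 _ hi.1, FF_ww hL h2]

theorem FF_H {x : G} (hx : x ∈ HH hL) : FF hL x = 0 := by
  have e : x = (1, x.2) * (x.1, 1) := Prod.ext (by simp) (by simp)
  rw [e, FF_fin hL h2 _ (mem_HH.1 hx).1, FF_inf hL h2 (mem_HH.1 hx).2, mul_zero]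

theorem FF_ne {x : G} (hx : ff hL x ≠ 0) : FF hL x = 0 := by
  by_contra h
  apply hx
  apply ff_zero
  rintro ⟨γ, hγ⟩
  apply h
  rw [← FF_left hL h2 γ, FF_H hL h2 hγ]

theorem FF_zero (x : G) : FF hL x = 0 := by
  by_contra h
  have h1 : ff hL x = 0 := by
    by_contra h1
    exact h (FF_ne hL h2 h1)
  have h3 : ff hL (x * (1, ss)) = 0 := by
    by_contra h1
    apply h
    rw [← FF_int hL h2 x ss_mem, FF_ne hL h2 h1]
  have h5 : ff hL (x * (1, nn 1)) = 0 := by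
    by_contra h1
    apply h
    rw [← FF_int hL h2 x (nn_mem (b := 1) (by simp)), FF_ne hL h2 h1]
  apply h
  unfold FF
  rw [h1, h3, h5]
  ring

/-! ## The sign change -/

omit h2 hL in
theorem flip_loc {k : Type} [Field k] {v : Valuation k (WithZero (Multiplicative ℤ))}
    (hr : Res v) (g : GL (Fin 2) k) :
    ∃ y : k, g⁻¹ * nn y * g ∈ intGL v ∧ eps v (g⁻¹ * nn y * g) = -1 := by
  have hD : g.1.det ≠ 0 := (g.isUnit.map Matrix.detMonoidHom).ne_zero
  have hm : ∀ y : k, (g⁻¹ * nn y * g).1 =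
      !![1 + y / g.1.det * (g.1 1 0 * g.1 1 1), y / g.1.det * (g.1 1 1 * g.1 1 1);
        - (y / g.1.det * (g.1 1 0 * g.1 1 0)), 1 - y / g.1.det * (g.1 1 0 * g.1 1 1)] := by
    intro y
    have h1 : g.1 * (g⁻¹ * nn y * g).1 = (nn y).1 * g.1 := by
      rw [← Units.val_mul, ← Units.val_mul]
      congr 1
      group
    have h3 : g.1 * !![1 + y / g.1.det * (g.1 1 0 * g.1 1 1), y / g.1.det * (g.1 1 1 * g.1 1 1);
        - (y / g.1.det * (g.1 1 0 * g.1 1 0)), 1 - y / g.1.det * (g.1 1 0 * g.1 1 1)]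
        = (nn y).1 * g.1 := by
      rw [Matrix.det_fin_two] at hD ⊢
      ext i j
      fin_cases i <;> fin_cases j <;> simp [nn, Matrix.mul_apply, Fin.sum_univ_two] <;>
        field_simp <;> ring
    have h5 : (g⁻¹).1 * (g.1 * (g⁻¹ * nn y * g).1) = (g⁻¹).1 * (g.1 * !![1 + y / g.1.det * (g.1 1 0 * g.1 1 1), y / g.1.det * (g.1 1 1 * g.1 1 1);
        - (y / g.1.det * (g.1 1 0 * g.1 1 0)), 1 - y / g.1.det * (g.1 1 0 * g.1 1 1)]) := by
      rw [h1, h3]
    rwa [← mul_assoc, ← mul_assoc, ← Units.val_mul, inv_mul_cancel, Units.val_one, one_mul,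
      one_mul] at h5
  have hdet : ∀ y : k, (g⁻¹ * nn y * g).1.det = 1 := by
    intro y
    rw [Units.val_mul, Units.val_mul, Matrix.det_mul, Matrix.det_mul]
    have : (nn y : GL (Fin 2) k).1.det = 1 := by simp [nn, Matrix.det_fin_two]
    rw [this, mul_one, ← Matrix.det_mul, ← Units.val_mul, inv_mul_cancel, Units.val_one,
      Matrix.det_one]
  rcases le_or_gt (v (g.1 1 0)) (v (g.1 1 1)) with h | h
  · have hs : g.1 1 1 ≠ 0 := by
      intro h0
      rw [h0, map_zero] at h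
      have h1 : g.1 1 0 = 0 := (Valuation.zero_iff v).1 (le_antisymm h zero_le)
      apply hD
      rw [Matrix.det_fin_two, h0, h1]
      ring
    refine ⟨g.1.det / (g.1 1 1 * g.1 1 1), ?_⟩
    have hm2 := hm (g.1.det / (g.1 1 1 * g.1 1 1))
    obtain ⟨ρ, hρ⟩ : ∃ ρ, ρ = g.1 1 0 / g.1 1 1 := ⟨_, rfl⟩
    have e1 : g.1.det / (g.1 1 1 * g.1 1 1) / g.1.det * (g.1 1 0 * g.1 1 1) = ρ := by
      rw [hρ]; field_simp
    have e2 : g.1.det / (g.1 1 1 * g.1 1 1) / g.1.det * (g.1 1 1 * g.1 1 1) = 1 := by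
      field_simp
    have e3 : g.1.det / (g.1 1 1 * g.1 1 1) / g.1.det * (g.1 1 0 * g.1 1 0) = ρ * ρ := by
      rw [hρ]; field_simp
    rw [e1, e2, e3] at hm2
    have hvρ : v ρ ≤ 1 := by
      rw [hρ, map_div₀]
      exact div_le_one_of_le₀ h zero_le
    have hmem : g⁻¹ * nn (g.1.det / (g.1 1 1 * g.1 1 1)) * g ∈ intGL v := by
      refine ⟨fun i j => ?_, by rw [hdet, map_one]⟩
      rw [hm2]
      fin_cases i <;> fin_cases j
      · exact Valuation.map_add_le _ (by simp) hvρ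
      · simp
      · simpa using mul_le_one' hvρ hvρ
      · exact Valuation.map_sub_le _ (by simp) hvρ
    refine ⟨hmem, ?_⟩
    unfold eps
    rw [hm2]
    simp only [Matrix.of_apply, Matrix.cons_val', Matrix.cons_val_zero, Matrix.cons_val_one,
      Matrix.cons_val_fin_one]
    rw [rd_add hr (by simp) hvρ, rd_sub hr (by simp) hvρ, rd_neg, rd_mul hvρ hvρ, rd_one]
    have key : ∀ a : ZMod 2, epsF (1 + a) 1 (a * a) (1 + a) = -1 := by decide
    rw [key]
    norm_num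
  · have hs : g.1 1 0 ≠ 0 := by
      intro h0
      rw [h0, map_zero] at h
      exact absurd h (not_lt.2 zero_le)
    refine ⟨g.1.det / (g.1 1 0 * g.1 1 0), ?_⟩
    have hm2 := hm (g.1.det / (g.1 1 0 * g.1 1 0))
    obtain ⟨ρ, hρ⟩ : ∃ ρ, ρ = g.1 1 1 / g.1 1 0 := ⟨_, rfl⟩
    have e1 : g.1.det / (g.1 1 0 * g.1 1 0) / g.1.det * (g.1 1 0 * g.1 1 1) = ρ := by
      rw [hρ]; field_simp
    have e2 : g.1.det / (g.1 1 0 * g.1 1 0) / g.1.det * (g.1 1 1 * g.1 1 1) = ρ * ρ := by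
      rw [hρ]; field_simp
    have e3 : g.1.det / (g.1 1 0 * g.1 1 0) / g.1.det * (g.1 1 0 * g.1 1 0) = 1 := by
      field_simp
    rw [e1, e2, e3] at hm2
    have hvρ' : v ρ < 1 := by
      rw [hρ, map_div₀]
      exact (div_lt_one₀ (lt_of_le_of_lt zero_le h)).2 h
    have hvρ : v ρ ≤ 1 := hvρ'.le
    have hmem : g⁻¹ * nn (g.1.det / (g.1 1 0 * g.1 1 0)) * g ∈ intGL v := by
      refine ⟨fun i j => ?_, by rw [hdet, map_one]⟩
      rw [hm2]
      fin_cases i <;> fin_cases j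
      · exact Valuation.map_add_le _ (by simp) hvρ
      · simpa using mul_le_one' hvρ hvρ
      · simp
      · exact Valuation.map_sub_le _ (by simp) hvρ
    refine ⟨hmem, ?_⟩
    unfold eps
    rw [hm2]
    simp only [Matrix.of_apply, Matrix.cons_val', Matrix.cons_val_zero, Matrix.cons_val_one,
      Matrix.cons_val_fin_one]
    rw [rd_add hr (by simp) hvρ, rd_sub hr (by simp) hvρ, rd_neg, rd_mul hvρ hvρ, rd_one,
      rd_of_lt hvρ']
    have : epsF (1 + 0) (0 * 0) 1 (1 + 0) = -1 := by decide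
    rw [this]
    norm_num

omit h2 hL in
/-- the adele with component `y` at `t` and `0` elsewhere -/
theorem exists_single (y : Kv (pl 0)) : ∃ a : Af, evA (pl 0) a = y ∧
    ∀ v, v ≠ pl 0 → evA v a = 0 := by
  classical
  exact ⟨RestrictedProduct.single (fun v : Pl => v.adicCompletionIntegers K) (i := pl 0) y,
    RestrictedProduct.single_eq_same (fun v : Pl => v.adicCompletionIntegers K) (pl 0) y,
    fun v hv => RestrictedProduct.single_eq_of_ne (fun v : Pl => v.adicCompletionIntegers K) y hv⟩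

omit h2 in
theorem flip_glob (x : G) : ∃ a₀ : Ad, x⁻¹ * nA a₀ * x ∈ HH hL ∧ chi (x⁻¹ * nA a₀ * x) = -1 := by
  obtain ⟨y, hy1, hy2⟩ := flip_loc (res_pl 0) (evG (pl 0) x.1)
  obtain ⟨a, ha1, ha2⟩ := exists_single y
  have hev : ∀ v, evG v (nn a) = nn (evA v a) := by
    intro v
    ext i j
    fin_cases i <;> fin_cases j <;> simp [evG, nn]
  have hc : ∀ v, evG v (x.1⁻¹ * nn a * x.1) = (evG v x.1)⁻¹ * nn (evA v a) * evG v x.1 := by
    intro v
    rw [map_mul, map_mul, map_inv, hev]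
  have h0 : ∀ v, v ≠ pl 0 → evG v (x.1⁻¹ * nn a * x.1) = 1 := by
    intro v hv
    have hz : (nn (0 : Kv v) : GL (Fin 2) (Kv v)) = 1 := by
      ext i j; fin_cases i <;> fin_cases j <;> simp [nn]
    rw [hc, ha2 v hv, hz, mul_one, inv_mul_cancel]
  have h1 : evG (pl 0) (x.1⁻¹ * nn a * x.1) =
      (evG (pl 0) x.1)⁻¹ * nn y * evG (pl 0) x.1 := by
    rw [hc, ha1]
  have h3 : (x⁻¹ * nA (a, 0) * x).1 = x.1⁻¹ * nn a * x.1 := rfl
  have hz : (nn (0 : Kinf) : Ginf) = 1 := by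
    ext i j; fin_cases i <;> fin_cases j <;> simp [nn]
  have h4 : (x⁻¹ * nA (a, 0) * x).2 = 1 := by
    change x.2⁻¹ * nn 0 * x.2 = 1
    rw [hz, mul_one, inv_mul_cancel]
  have hne : pl 1 ≠ pl 0 := by
    intro h
    have h5 := (pl_lt_iff 1 (X - C 1)).2 (by simp)
    rw [h, pl_lt_iff] at h5
    simp at h5
  refine ⟨(a, 0), mem_HH.2 ⟨mem_Hf.2 ⟨?_, ?_⟩, ?_⟩, ?_⟩
  · intro v
    rw [h3]
    by_cases hv : v = pl 0
    · subst hv
      rw [h1]
      exact hy1
    · rw [h0 v hv]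
      exact one_mem _
  · rw [h3, h0 _ hne]
    simp
  · rw [h4]
    exact one_mem _
  · unfold chi
    rw [h3, h4, h1, hy2, sgn_of_intGL (one_mem _), mul_one]

theorem ff_flip (x : G) : ∃ a₀ : Ad, ∀ a : Ad, ff hL (nA (a + a₀) * x) = - ff hL (nA a * x) := by
  obtain ⟨a₀, h1, h3⟩ := flip_glob hL x
  refine ⟨a₀, fun a => ?_⟩
  have e0 : nA (a + a₀) = nA a * nA a₀ := by
    refine Prod.ext ?_ ?_
    · ext i j
      fin_cases i <;> fin_cases j <;> simp [nA, nn, Matrix.mul_apply, add_comm]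
    · ext i j
      fin_cases i <;> fin_cases j <;> simp [nA, nn, Matrix.mul_apply, add_comm]
  have e : nA (a + a₀) * x = nA a * x * (x⁻¹ * nA a₀ * x) := by
    rw [e0]
    group
  rw [e, ff_right hL h2 _ h1, h3]
  ring

omit h2 in
/-- PACKAGE C -/
theorem _root_.Pool.Agent.T2H06.AUT.c1 (hL : D1Stmt) (h2 : S2Stmt) (h4 : S4Stmt) : C1Stmt :=
  ⟨ff hL, by rw [ff_one hL h2]; exact one_ne_zero, ff_left hL h2, ff_open hL h2 h4,
    fun x κ hκ => ff_iw hL h2 x hκ, ff_ww hL h2, FF_zero hL h2, ff_flip hL h2⟩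

end Pool.Agent.T2H06.AUT.Cusp
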