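import Pool.Agent.T2H06.AUT.Defs2

/-!
# The Eisenstein function on the adelic group (package E)
-/

set_option autoImplicit false
set_option linter.unusedSectionVars false

open Polynomial IsDedekindDomain

namespace Pool.Agent.T2H06.AUT

namespace Eis

/-- `GL₂(K) → GL₂(𝔸_f)` -/
noncomputable def mf : GL (Fin 2) K →* Gf := Matrix.GeneralLinearGroup.map (algebraMap K Af)

/-- `GL₂(K) → GL₂(K_∞)` -/
noncomputable def mi : GL (Fin 2) K →* Ginf := Matrix.GeneralLinearGroup.map (algebraMap K Kinf)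

theorem diagG_eq (γ : GL (Fin 2) K) : diagG γ = (mf γ, mi γ) := rfl

theorem jR_eq (γ : GL (Fin 2) R) : jR γ = mi (Matrix.GeneralLinearGroup.map (algebraMap R K) γ) := by
  unfold jR mi
  ext i j
  rfl

/-! ### Valuations -/

theorem vinf_coe (x : K) : vinf (algebraMap K Kinf x) = RatFunc.inftyValuation (ZMod 2) x := by
  let _ := RatFunc.inftyValued (ZMod 2)
  exact Valued.valuedCompletion_apply _

theorem vinf_pi : vinf (piInf : Kinf) = WithZero.exp (-1 : ℤ) := by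
  show vinf (algebraMap K Kinf (RatFunc.X)⁻¹) = _
  rw [vinf_coe, ← RatFunc.inftyValuation.X_inv (ZMod 2), one_div]

theorem mf_mem (γ : GL (Fin 2) R) :
    mf (Matrix.GeneralLinearGroup.map (algebraMap R K) γ) ∈ Kf := by
  have key : ∀ (γ : GL (Fin 2) R) (v : Pl) (i j : Fin 2),
      vv v ((evG v (mf (Matrix.GeneralLinearGroup.map (algebraMap R K) γ))).1 i j) ≤ 1 := by
    intro γ v i j
    have : (evG v (mf (Matrix.GeneralLinearGroup.map (algebraMap R K) γ))).1 i j =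
        (((algebraMap R K) (γ.1 i j) : K) : Kv v) := rfl
    rw [this]
    show Valued.v _ ≤ _
    rw [HeightOneSpectrum.valuedAdicCompletion_eq_valuation']
    exact HeightOneSpectrum.valuation_le_one v _
  have hdet : ∀ (γ : GL (Fin 2) R) (v : Pl),
      vv v (evG v (mf (Matrix.GeneralLinearGroup.map (algebraMap R K) γ))).1.det ≤ 1 := by
    intro γ v
    rw [Matrix.det_fin_two]
    refine (Valuation.map_sub _ _ _).trans ?_
    rw [map_mul, map_mul]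
    exact max_le (mul_le_one' (key _ _ _ _) (key _ _ _ _))
      (mul_le_one' (key _ _ _ _) (key _ _ _ _))
  intro v
  refine ⟨fun i j => key γ v i j, ?_⟩
  refine le_antisymm (hdet γ v) ?_
  have h1 := hdet γ⁻¹ v
  have h2 : (evG v (mf (Matrix.GeneralLinearGroup.map (algebraMap R K) γ))).1.det *
      (evG v (mf (Matrix.GeneralLinearGroup.map (algebraMap R K) γ⁻¹))).1.det = 1 := by
    rw [← Matrix.det_mul, ← Units.val_mul, ← map_mul, ← map_mul, ← map_mul, mul_inv_cancel,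
      map_one, map_one, map_one]
    simp
  have h3 := congrArg (vv v) h2
  rw [map_mul, map_one] at h3
  calc (1 : WithZero (Multiplicative ℤ)) = _ := h3.symm
    _ ≤ _ * 1 := mul_le_mul_right h1 _
    _ = _ := mul_one _

/-! ### Elements of `GL₂(O_∞)` -/

theorem ss_mem : (ss : Ginf) ∈ intGL vinf := by
  refine ⟨fun i j => ?_, ?_⟩
  · fin_cases i <;> fin_cases j <;> simp [ss]
  · simp [ss, Matrix.det_fin_two]

theorem nn_mem : (nn 1 : Ginf) ∈ intGL vinf := by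
  refine ⟨fun i j => ?_, ?_⟩
  · fin_cases i <;> fin_cases j <;> simp [nn]
  · simp [nn, Matrix.det_fin_two]

theorem le_pi {x : Kinf} (hx : vinf x < 1) : vinf x ≤ vinf (piInf : Kinf) := by
  rw [vinf_pi]
  by_cases h0 : vinf x = 0
  · rw [h0]; exact zero_le
  · obtain ⟨n, hn⟩ : ∃ n : ℤ, vinf x = WithZero.exp n := ⟨WithZero.log (vinf x),
      (WithZero.exp_log h0).symm⟩
    rw [hn] at hx ⊢
    rw [← WithZero.exp_zero, WithZero.exp_lt_exp] at hx
    rw [WithZero.exp_le_exp]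
    omega

theorem conj_entries (a b : Kinf) (M : Matrix (Fin 2) (Fin 2) Kinf) :
    !![a, 0; 0, 1] * M * !![b, 0; 0, 1] = !![a * M 0 0 * b, a * M 0 1; M 1 0 * b, M 1 1] := by
  conv_lhs => rw [Matrix.eta_fin_two M, Matrix.mul_fin_two, Matrix.mul_fin_two]
  simp

theorem iw_conj {κ : Ginf} (hκ : κ ∈ Iw vinf) :
    ∃ κ' ∈ intGL vinf, κ * dd piInf = dd piInf * κ' := by
  refine ⟨(dd piInf)⁻¹ * κ * dd piInf, ⟨fun i j => ?_, ?_⟩, by group⟩
  · have e : ((dd piInf)⁻¹ * κ * dd piInf : Ginf).1 =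
        !![((piInf⁻¹ : Kinfˣ) : Kinf), 0; 0, 1] * κ.1 * !![(piInf : Kinf), 0; 0, 1] := rfl
    have h1 : vinf ((piInf⁻¹ : Kinfˣ) : Kinf) * vinf (piInf : Kinf) = 1 := by
      rw [← map_mul, ← Units.val_mul, inv_mul_cancel, Units.val_one, map_one]
    have h2 := le_pi hκ.2
    have h3 : vinf (piInf : Kinf) ≤ 1 := by
      rw [vinf_pi, ← WithZero.exp_zero, WithZero.exp_le_exp]; omega
    rw [e, conj_entries]
    fin_cases i <;> fin_cases j
    · show vinf (((piInf⁻¹ : Kinfˣ) : Kinf) * κ.1 0 0 * piInf) ≤ 1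
      rw [map_mul, map_mul, mul_right_comm, h1, one_mul]
      exact hκ.1.1 0 0
    · show vinf (((piInf⁻¹ : Kinfˣ) : Kinf) * κ.1 0 1) ≤ 1
      rw [map_mul]
      calc vinf ((piInf⁻¹ : Kinfˣ) : Kinf) * vinf (κ.1 0 1)
          ≤ vinf ((piInf⁻¹ : Kinfˣ) : Kinf) * vinf (piInf : Kinf) := mul_le_mul_right h2 _
        _ = 1 := h1
    · show vinf (κ.1 1 0 * piInf) ≤ 1
      rw [map_mul]
      exact mul_le_one' (hκ.1.1 1 0) h3
    · exact hκ.1.1 1 1
  · have e : ((dd piInf)⁻¹ * κ * dd piInf : Ginf).1.det =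
        κ.1.det := by
      rw [Units.val_mul, Units.val_mul, Matrix.det_mul, Matrix.det_mul, mul_right_comm,
        ← Matrix.det_mul, ← Units.val_mul, inv_mul_cancel, Units.val_one, Matrix.det_one, one_mul]
    rw [e]
    exact hκ.1.2

theorem dsd : (dd piInf * ss * dd piInf : Ginf) = zz piInf * ss := by
  ext i j
  fin_cases i <;> fin_cases j <;> simp [dd, ss, zz, Matrix.mul_apply, Fin.sum_univ_two]

/-! ### The function `h` on the adelic group -/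

theorem dec (hs1 : S1Stmt) (g : G) : ∃ (γ : GL (Fin 2) K) (κ : Gf) (x : Ginf), κ ∈ Kf ∧
    g = diagG γ * (κ, x) := by
  obtain ⟨γ, κ, hκ, h⟩ := hs1 g.1
  refine ⟨γ, κ, (mi γ)⁻¹ * g.2, hκ, ?_⟩
  rw [diagG_eq]
  ext1
  · exact h
  · show g.2 = mi γ * ((mi γ)⁻¹ * g.2)
    rw [mul_inv_cancel_left]

/-- the extension of `h0` to the adelic group -/
noncomputable def HH (hs1 : S1Stmt) (h0 : Ginf → ℂ) (g : G) : ℂ :=
  h0 ((mi (hs1 g.1).choose)⁻¹ * g.2)

theorem HH_eq (hs1 : S1Stmt) (hs2 : S2Stmt) {h0 : Ginf → ℂ} (hI : InvF h0) {g : G}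
    {γ : GL (Fin 2) K} {κ : Gf} {x : Ginf} (hκ : κ ∈ Kf) (hg : g = diagG γ * (κ, x)) :
    HH hs1 h0 g = h0 x := by
  obtain ⟨κ0, hκ0, h0'⟩ := (hs1 g.1).choose_spec
  set γ0 := (hs1 g.1).choose with hγ0
  have e1 : g.1 = mf γ * κ := by rw [hg]; rfl
  have e2 : g.2 = mi γ * x := by rw [hg]; rfl
  have e3 : mf (γ0⁻¹ * γ) = κ0 * κ⁻¹ := by
    rw [map_mul, map_inv, eq_mul_inv_iff_mul_eq, mul_assoc, ← e1, inv_mul_eq_iff_eq_mul]
    exact h0'
  obtain ⟨γ', hγ'⟩ := hs2 (γ0⁻¹ * γ) (by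
    show mf (γ0⁻¹ * γ) ∈ Kf
    rw [e3]
    exact mul_mem hκ0 (inv_mem hκ))
  have e4 : (mi γ0)⁻¹ * g.2 = jR γ' * x := by
    rw [jR_eq, hγ', e2, map_mul, map_inv, mul_assoc]
  show h0 ((mi γ0)⁻¹ * g.2) = h0 x
  rw [e4, hI.left]

/-- invariance conditions on the adelic group -/
structure InvG (u : G → ℂ) : Prop where
  left : ∀ (γ : GL (Fin 2) K) (g : G), u (diagG γ * g) = u g
  kf : ∀ (g : G), ∀ κ ∈ Kf, u (g * (κ, 1)) = u g
  int : ∀ (g : G), ∀ κ ∈ intGL vinf, u (g * (1, κ)) = u g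
  cen : ∀ (g : G) (z : Kinfˣ), u (g * (1, zz z)) = u g

theorem pm (κ κ' : Gf) (x x' : Ginf) : ((κ, x) : G) * (κ', x') = (κ * κ', x * x') := rfl

theorem cm (g : G) (y : Ginf) (κ : Gf) : g * (1, y) * (κ, 1) = g * (κ, 1) * (1, y) :=
  Prod.ext (by simp) (by simp)

theorem c11 (g : G) (y y' : Ginf) : g * (1, y) * (1, y') = g * (1, y * y') :=
  Prod.ext (by simp) (by simp [mul_assoc])

theorem cff (g : G) (κ κ' : Gf) : g * (κ, 1) * (κ', 1) = g * (κ * κ', 1) :=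
  Prod.ext (by simp [mul_assoc]) (by simp)

theorem HH_inv (hs1 : S1Stmt) (hs2 : S2Stmt) {h0 : Ginf → ℂ} (hI : InvF h0) :
    InvG (HH hs1 h0) where
  left γ g := by
    obtain ⟨γ1, κ, x, hκ, h⟩ := dec hs1 g
    rw [HH_eq hs1 hs2 hI hκ h, HH_eq hs1 hs2 hI hκ (g := diagG γ * g) (γ := γ * γ1) (x := x)]
    rw [h, map_mul, mul_assoc]
  kf g κ' hκ' := by
    obtain ⟨γ1, κ, x, hκ, h⟩ := dec hs1 g
    rw [HH_eq hs1 hs2 hI hκ h, HH_eq hs1 hs2 hI (mul_mem hκ hκ') (g := g * (κ', 1)) (γ := γ1)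
      (x := x)]
    rw [h, mul_assoc, pm κ κ' x 1, mul_one x]
  int g κ' hκ' := by
    obtain ⟨γ1, κ, x, hκ, h⟩ := dec hs1 g
    rw [HH_eq hs1 hs2 hI hκ h, HH_eq hs1 hs2 hI hκ (g := g * (1, κ')) (γ := γ1)
      (x := x * κ'), hI.right x κ' hκ']
    rw [h, mul_assoc, pm κ 1 x κ', mul_one κ]
  cen g z := by
    obtain ⟨γ1, κ, x, hκ, h⟩ := dec hs1 g
    rw [HH_eq hs1 hs2 hI hκ h, HH_eq hs1 hs2 hI hκ (g := g * (1, zz z)) (γ := γ1)
      (x := x * zz z), hI.center x z]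
    rw [h, mul_assoc, pm κ 1 x (zz z), mul_one κ]

theorem HH_lap (hs1 : S1Stmt) (hs2 : S2Stmt) {h0 : Ginf → ℂ} (hI : InvF h0)
    (hL : ∀ x : Ginf, h0 (x * dd piInf) + h0 (x * ss * dd piInf) + h0 (x * nn 1 * dd piInf)
      = 3 * h0 x + 3) (g : G) :
    HH hs1 h0 (g * (1, dd piInf)) + HH hs1 h0 (g * (1, ss * dd piInf)) +
      HH hs1 h0 (g * (1, nn 1 * dd piInf)) = 3 * HH hs1 h0 g + 3 := by
  obtain ⟨γ1, κ, x, hκ, h⟩ := dec hs1 g
  have key : ∀ y : Ginf, HH hs1 h0 (g * (1, y)) = h0 (x * y) := by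
    intro y
    refine HH_eq hs1 hs2 hI hκ (γ := γ1) ?_
    rw [h, mul_assoc, pm κ 1 x y, mul_one κ]
  rw [key, key, key, HH_eq hs1 hs2 hI hκ h, ← hL x, mul_assoc, mul_assoc]

theorem InvG.invF {u : G → ℂ} (h : InvG u) : InvF (fun x => u (1, x)) where
  left γ x := by
    have e : ((1, jR γ * x) : G) = diagG (Matrix.GeneralLinearGroup.map (algebraMap R K) γ) *
        ((1, x) * ((mf (Matrix.GeneralLinearGroup.map (algebraMap R K) γ))⁻¹, 1)) := by
      rw [diagG_eq, pm, pm, mul_one, one_mul, mul_inv_cancel, ← jR_eq]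
    show u (1, jR γ * x) = u (1, x)
    rw [e, h.left, h.kf _ _ (inv_mem (mf_mem γ))]
  right x κ hκ := by
    have := h.int (1, x) κ hκ
    rwa [pm, one_mul] at this
  center x z := by
    have := h.cen (1, x) z
    rwa [pm, one_mul] at this

theorem InvG.const (hs1 : S1Stmt) (hr2 : R2Stmt) {u : G → ℂ} (h : InvG u)
    (hL : ∀ g : G, u (g * (1, dd piInf)) + u (g * (1, ss * dd piInf)) +
      u (g * (1, nn 1 * dd piInf)) = 3 * u g) (g g' : G) : u g = u g' := by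
  have h1 : ∀ x y : Ginf, u (1, x) = u (1, y) := by
    refine hr2 (fun x => u (1, x)) h.invF (fun x => ?_)
    have := hL (1, x)
    rw [pm, pm, pm, one_mul, ← mul_assoc, ← mul_assoc] at this
    exact this
  have h2 : ∀ g : G, u g = u (1, 1) := by
    intro g
    obtain ⟨γ1, κ, x, hκ, h3⟩ := dec hs1 g
    rw [h3, h.left]
    have e : ((κ, x) : G) = (1, x) * (κ, 1) := by rw [pm, one_mul, mul_one]
    rw [e, h.kf _ _ hκ]
    exact h1 _ _
  rw [h2 g, h2 g']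

/-! ### Averages -/

theorem avg_inv {h : G → ℂ} (hh : InvG h) {a : Gf} {U : Subgroup Gf} {T : Finset Gf}
    (ha : ∀ u ∈ U, a⁻¹ * u * a ∈ Kf) (hT : IsReps U T) :
    InvG (fun g => ∑ τ ∈ T, h (g * (τ * a, 1)) - T.card * h g) where
  left γ g := by
    simp only [mul_assoc, hh.left]
  kf g κ hκ := by
    show ∑ τ ∈ T, h (g * (κ, 1) * (τ * a, 1)) - T.card * h (g * (κ, 1)) = _
    rw [hh.kf g κ hκ]
    congr 1
    -- the representative
    have hrep : ∀ κ ∈ Kf, ∃ τ, τ ∈ T ∧ τ⁻¹ * κ ∈ U := fun κ hκ => (hT.2 κ hκ).exists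
    have huniq : ∀ κ ∈ Kf, ∀ τ τ', τ ∈ T → τ⁻¹ * κ ∈ U → τ' ∈ T → τ'⁻¹ * κ ∈ U → τ = τ' :=
      fun κ hκ τ τ' h1 h2 h3 h4 => (hT.2 κ hκ).unique ⟨h1, h2⟩ ⟨h3, h4⟩
    choose! rep hrep1 hrep2 using hrep
    refine Finset.sum_nbij' (fun τ => rep (κ * τ)) (fun τ => rep (κ⁻¹ * τ)) ?_ ?_ ?_ ?_ ?_
    · intro τ hτ
      exact hrep1 _ (mul_mem hκ (hT.1 τ hτ))
    · intro τ hτ
      exact hrep1 _ (mul_mem (inv_mem hκ) (hT.1 τ hτ))
    · intro τ hτ
      have k1 : κ * τ ∈ Kf := mul_mem hκ (hT.1 τ hτ)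
      have k2 : κ⁻¹ * rep (κ * τ) ∈ Kf := mul_mem (inv_mem hκ) (hT.1 _ (hrep1 _ k1))
      refine huniq _ k2 _ _ (hrep1 _ k2) (hrep2 _ k2) hτ ?_
      have k3 := U.inv_mem (hrep2 _ k1)
      have e : τ⁻¹ * (κ⁻¹ * rep (κ * τ)) = ((rep (κ * τ))⁻¹ * (κ * τ))⁻¹ := by group
      rw [e]
      exact k3
    · intro τ hτ
      have k1 : κ⁻¹ * τ ∈ Kf := mul_mem (inv_mem hκ) (hT.1 τ hτ)
      have k2 : κ * rep (κ⁻¹ * τ) ∈ Kf := mul_mem hκ (hT.1 _ (hrep1 _ k1))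
      refine huniq _ k2 _ _ (hrep1 _ k2) (hrep2 _ k2) hτ ?_
      have k3 := U.inv_mem (hrep2 _ k1)
      have e : τ⁻¹ * (κ * rep (κ⁻¹ * τ)) = ((rep (κ⁻¹ * τ))⁻¹ * (κ⁻¹ * τ))⁻¹ := by group
      rw [e]
      exact k3
    · intro τ hτ
      have k1 : κ * τ ∈ Kf := mul_mem hκ (hT.1 τ hτ)
      have k2 := ha _ (hrep2 _ k1)
      have e : g * (κ, 1) * (τ * a, 1) = g * (rep (κ * τ) * a, 1) *
          (a⁻¹ * ((rep (κ * τ))⁻¹ * (κ * τ)) * a, 1) := by
        rw [cff, cff]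
        congr 2
        group
      rw [e, hh.kf _ _ k2]
  int g κ hκ := by
    have e : ∀ τ : Gf, g * (1, κ) * (τ * a, 1) = g * (τ * a, 1) * (1, κ) := fun τ => cm _ _ _
    simp only [e, hh.int _ κ hκ]
  cen g z := by
    have e : ∀ τ : Gf, g * (1, zz z) * (τ * a, 1) = g * (τ * a, 1) * (1, zz z) :=
      fun τ => cm _ _ _
    simp only [e, hh.cen _ z]

end Eis

open Eis in
theorem e1 (hs1 : S1Stmt) (hs2 : S2Stmt) (hr1 : R1Stmt) (hr2 : R2Stmt) : E1Stmt := by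
  obtain ⟨h0, hI, hL0, hN⟩ := hr1
  have hh := HH_inv hs1 hs2 hI
  have hL := HH_lap hs1 hs2 hI hL0
  have hone : ∀ y : Ginf, HH hs1 h0 (1, y) = h0 y := by
    intro y
    refine HH_eq hs1 hs2 hI (γ := 1) (κ := 1) (one_mem _) ?_
    rw [map_one, one_mul]
  set h := HH hs1 h0 with hdef
  have comm : ∀ (g : G) (y y' : Ginf), g * (1, y) * (1, y') = g * (1, y * y') := c11
  refine ⟨fun g => h (g * (1, dd piInf)) - h g, ?_, ?_, ?_, ?_, ?_, ?_, ?_⟩
  · intro γ x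
    show h (diagG γ * x * (1, dd piInf)) - h (diagG γ * x) = _
    rw [mul_assoc, hh.left, hh.left]
  · intro x κ hκ
    show h (x * (κ, 1) * (1, dd piInf)) - h (x * (κ, 1)) = _
    have e : x * (κ, 1) * (1, dd piInf) = x * (1, dd piInf) * (κ, 1) := (cm _ _ _).symm
    rw [e, hh.kf _ _ hκ, hh.kf _ _ hκ]
  · intro x κ hκ
    show h (x * (1, κ) * (1, dd piInf)) - h (x * (1, κ)) = _
    obtain ⟨κ', hκ', e⟩ := iw_conj hκ
    rw [comm, e, ← comm, hh.int _ _ hκ', hh.int _ _ hκ.1]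
  · intro x
    show h (x * (1, dd piInf * ss) * (1, dd piInf)) - h (x * (1, dd piInf * ss)) =
      -(h (x * (1, dd piInf)) - h x)
    rw [comm, dsd, ← comm, hh.int _ _ ss_mem, hh.cen, ← comm x (dd piInf) ss,
      hh.int _ _ ss_mem]
    ring
  · intro x
    show h (x * (1, dd piInf)) - h x + (h (x * (1, ss) * (1, dd piInf)) - h (x * (1, ss))) +
      (h (x * (1, nn 1) * (1, dd piInf)) - h (x * (1, nn 1))) = 3
    rw [comm, comm, hh.int _ _ ss_mem, hh.int _ _ nn_mem]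
    have := hL x
    linear_combination this
  · rintro ⟨c, hc⟩
    apply hN
    refine ⟨c, fun x => ?_⟩
    have h1 : h ((1, x) * (1, dd piInf)) - h (1, x) = c := hc (1, x)
    rw [pm 1 1 x (dd piInf), one_mul (1 : Gf), hone, hone] at h1
    exact h1
  · intro a U T _ ha hT x
    have hu := avg_inv hh ha hT
    have hconst := InvG.const hs1 hr2 hu (fun g => by
      have e : ∀ (y : Ginf) (τ : Gf), g * (1, y) * (τ * a, 1) = g * (τ * a, 1) * (1, y) :=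
        fun y τ => cm _ _ _
      show (∑ τ ∈ T, h (g * (1, dd piInf) * (τ * a, 1)) - T.card * h (g * (1, dd piInf))) +
        (∑ τ ∈ T, h (g * (1, ss * dd piInf) * (τ * a, 1)) - T.card * h (g * (1, ss * dd piInf))) +
        (∑ τ ∈ T, h (g * (1, nn 1 * dd piInf) * (τ * a, 1)) -
          T.card * h (g * (1, nn 1 * dd piInf))) =
        3 * (∑ τ ∈ T, h (g * (τ * a, 1)) - T.card * h g)
      simp only [e]
      have h1 : ∑ τ ∈ T, h (g * (τ * a, 1) * (1, dd piInf)) +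
          ∑ τ ∈ T, h (g * (τ * a, 1) * (1, ss * dd piInf)) +
          ∑ τ ∈ T, h (g * (τ * a, 1) * (1, nn 1 * dd piInf)) =
          3 * ∑ τ ∈ T, h (g * (τ * a, 1)) + 3 * T.card := by
        rw [← Finset.sum_add_distrib, ← Finset.sum_add_distrib,
          Finset.sum_congr rfl (fun τ _ => hL (g * (τ * a, 1))), Finset.sum_add_distrib,
          ← Finset.mul_sum, Finset.sum_const, nsmul_eq_mul]
        ring
      have h2 := hL g
      linear_combination h1 - (T.card : ℂ) * h2)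
    have h3 := hconst (x * (1, dd piInf)) x
    have e : ∀ (τ : Gf), x * (τ * a, 1) * (1, dd piInf) = x * (1, dd piInf) * (τ * a, 1) :=
      fun τ => (cm _ _ _).symm
    show ∑ τ ∈ T, (h (x * (τ * a, 1) * (1, dd piInf)) - h (x * (τ * a, 1))) =
      T.card * (h (x * (1, dd piInf)) - h x)
    rw [Finset.sum_sub_distrib]
    simp only [e]
    linear_combination h3

end Pool.Agent.T2H06.AUT
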