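import Pool.Agent.T2H06.AUT.RepDefs

/-!
# Automorphic representations of `GL₂` over `K = 𝔽₂(t)`: definitions

`G = GL₂(𝔸_K) = GL₂(𝔸_f) × GL₂(K_∞)`.
-/

set_option autoImplicit false

open Polynomial IsDedekindDomain

namespace Pool.Agent.T2H06.AUT

/-! ## Groups of matrices -/

section mat
variable {k : Type} [CommRing k]

/-- `[[1,b],[0,1]]` -/
def nn (b : k) : GL (Fin 2) k where
  val := !![1, b; 0, 1]
  inv := !![1, -b; 0, 1]
  val_inv := by ext i j; fin_cases i <;> fin_cases j <;> simp [Matrix.mul_apply]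
  inv_val := by ext i j; fin_cases i <;> fin_cases j <;> simp [Matrix.mul_apply]

/-- `[[a,0],[0,1]]` -/
def dd (a : kˣ) : GL (Fin 2) k where
  val := !![(a : k), 0; 0, 1]
  inv := !![((a⁻¹ : kˣ) : k), 0; 0, 1]
  val_inv := by ext i j; fin_cases i <;> fin_cases j <;> simp [Matrix.mul_apply]
  inv_val := by ext i j; fin_cases i <;> fin_cases j <;> simp [Matrix.mul_apply]

/-- `[[0,1],[1,0]]` -/
def ss : GL (Fin 2) k where
  val := !![0, 1; 1, 0]
  inv := !![0, 1; 1, 0]
  val_inv := by ext i j; fin_cases i <;> fin_cases j <;> simp [Matrix.mul_apply]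
  inv_val := by ext i j; fin_cases i <;> fin_cases j <;> simp [Matrix.mul_apply]

/-- `[[z,0],[0,z]]` -/
def zz (a : kˣ) : GL (Fin 2) k where
  val := !![(a : k), 0; 0, (a : k)]
  inv := !![((a⁻¹ : kˣ) : k), 0; 0, ((a⁻¹ : kˣ) : k)]
  val_inv := by ext i j; fin_cases i <;> fin_cases j <;> simp [Matrix.mul_apply]
  inv_val := by ext i j; fin_cases i <;> fin_cases j <;> simp [Matrix.mul_apply]

end mat

section val
variable {k : Type} [Field k] (v : Valuation k (WithZero (Multiplicative ℤ)))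

/-- `GL₂(O)`: integral entries and unit determinant. -/
def intGL : Subgroup (GL (Fin 2) k) where
  carrier := {g | (∀ i j, v (g.1 i j) ≤ 1) ∧ v g.1.det = 1}
  one_mem' := by
    refine ⟨fun i j => ?_, by simp⟩
    by_cases h : i = j
    · subst h; simp
    · simp [Matrix.one_apply_ne h]
  mul_mem' := by
    rintro a b ⟨ha, ha'⟩ ⟨hb, hb'⟩
    refine ⟨fun i j => ?_, by simp [Matrix.det_mul, ha', hb']⟩
    simp only [Units.val_mul, Matrix.mul_apply]
    refine v.map_sum_le fun l _ => ?_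
    rw [map_mul]
    exact mul_le_one' (ha _ _) (hb _ _)
  inv_mem' := by
    rintro a ⟨ha, ha'⟩
    have hd : v (Ring.inverse a.1.det) = 1 := by
      rw [Ring.inverse_eq_inv', map_inv₀, ha', inv_one]
    refine ⟨fun i j => ?_, ?_⟩
    · rw [Matrix.coe_units_inv, Matrix.inv_def]
      simp only [Matrix.smul_apply, smul_eq_mul, map_mul, hd, one_mul]
      fin_cases i <;> fin_cases j <;> simp [Matrix.adjugate_fin_two, ha]
    · rw [Matrix.coe_units_inv, Matrix.det_nonsing_inv, hd]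

/-- The Iwahori subgroup: `g ∈ GL₂(O)` with upper right entry in the maximal ideal. -/
def Iw : Subgroup (GL (Fin 2) k) where
  carrier := {g | g ∈ intGL v ∧ v (g.1 0 1) < 1}
  one_mem' := ⟨one_mem _, by simp⟩
  mul_mem' := by
    rintro a b ⟨ha, ha'⟩ ⟨hb, hb'⟩
    refine ⟨mul_mem ha hb, ?_⟩
    simp only [Units.val_mul, Matrix.mul_apply, Fin.sum_univ_two]
    refine v.map_add_lt ?_ ?_
    · rw [map_mul]; exact mul_lt_one_of_nonneg_of_lt_one_right (ha.1 _ _) zero_le hb'
    · rw [map_mul]; exact mul_lt_one_of_nonneg_of_lt_one_left zero_le ha' (hb.1 _ _)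
  inv_mem' := by
    rintro a ⟨ha, ha'⟩
    refine ⟨inv_mem ha, ?_⟩
    have hd : v (Ring.inverse a.1.det) = 1 := by
      rw [Ring.inverse_eq_inv', map_inv₀, ha.2, inv_one]
    rw [Matrix.coe_units_inv, Matrix.inv_def]
    simp only [Matrix.smul_apply, smul_eq_mul, map_mul, hd, one_mul]
    simpa [Matrix.adjugate_fin_two] using ha'

end val

/-! ## The global field `K = 𝔽₂(t)` and its adèles -/

/-- `𝔽₂[t]` -/
abbrev R : Type := (ZMod 2)[X]

/-- `K = 𝔽₂(t)` -/
abbrev K : Type := RatFunc (ZMod 2)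

noncomputable instance instDecK : DecidableEq K := Classical.decEq _

/-- The finite places of `K`. -/
abbrev Pl : Type := HeightOneSpectrum R

/-- The completion of `K` at a finite place. -/
abbrev Kv (v : Pl) : Type := v.adicCompletion K

/-- `K_∞ = 𝔽₂((1/t))` -/
abbrev Kinf : Type := RatFunc.CompletionAtInfty (ZMod 2)

/-- The finite adèles of `K`. -/
abbrev Af : Type := FiniteAdeleRing R K

/-- The adèles of `K`. -/
abbrev Ad : Type := Af × Kinf

/-- The valuation of `K_v`. -/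
noncomputable abbrev vv (v : Pl) : Valuation (Kv v) (WithZero (Multiplicative ℤ)) := Valued.v

/-- The valuation of `K_∞`. -/
noncomputable abbrev vinf : Valuation Kinf (WithZero (Multiplicative ℤ)) := Valued.v

/-- `GL₂(𝔸_f)` -/
abbrev Gf : Type := GL (Fin 2) Af

/-- `GL₂(K_∞)` -/
abbrev Ginf : Type := GL (Fin 2) Kinf

/-- `GL₂(𝔸_K) = GL₂(𝔸_f) × GL₂(K_∞)` -/
abbrev G : Type := Gf × Ginf

/-- The component of a finite adèle at `v`. -/
noncomputable def evA (v : Pl) : Af →+* Kv v :=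
  RestrictedProduct.evalRingHom (fun v : Pl => Kv v) v

/-- The component `g_v` of `g ∈ GL₂(𝔸_f)` at the finite place `v`. -/
noncomputable def evG (v : Pl) : Gf →* GL (Fin 2) (Kv v) :=
  Matrix.GeneralLinearGroup.map (evA v)

/-- The diagonal embedding `K → 𝔸_K`. -/
noncomputable def diagK : K →+* Ad := (algebraMap K Af).prod (algebraMap K Kinf)

/-- The diagonal embedding `GL₂(K) → GL₂(𝔸_K)`. -/
noncomputable def diagG : GL (Fin 2) K →* G :=
  (Matrix.GeneralLinearGroup.map (algebraMap K Af)).prod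
    (Matrix.GeneralLinearGroup.map (algebraMap K Kinf))

/-- The uniformizer `1/t` of `K_∞`. -/
noncomputable def piInf : Kinfˣ :=
  Units.map (algebraMap K Kinf : K →* Kinf) (Units.mk0 (RatFunc.X : K)⁻¹ (by simp [RatFunc.X_ne_zero]))

/-- `GL₂(𝔽₂[t]) → GL₂(K_∞)` -/
noncomputable def jR : GL (Fin 2) R →* Ginf :=
  Matrix.GeneralLinearGroup.map ((algebraMap K Kinf).comp (algebraMap R K))

/-- `K_f = ∏_v GL₂(O_v) ⊂ GL₂(𝔸_f)` -/
noncomputable def Kf : Subgroup Gf where
  carrier := {g | ∀ v, evG v g ∈ intGL (vv v)}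
  one_mem' := fun v => by simp [one_mem]
  mul_mem' := fun ha hb v => by rw [map_mul]; exact mul_mem (ha v) (hb v)
  inv_mem' := fun ha v => by rw [map_inv]; exact inv_mem (ha v)

/-- The unipotent element `n(a) = [[1,a],[0,1]] ∈ GL₂(𝔸_K)`. -/
noncomputable def nA (a : Ad) : G := (nn a.1, nn a.2)

/-! ## Local conditions of Steinberg type -/

section stein
variable {k : Type} [Field k]

/-- A field with a valuation such that `ϖ` is a uniformizer and the residue field has two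
elements. -/
structure LocalData (v : Valuation k (WithZero (Multiplicative ℤ))) (ϖ : kˣ) : Prop where
  unif : v (ϖ : k) = WithZero.exp (-1 : ℤ)
  res : ∀ x, v x ≤ 1 → v x < 1 ∨ v (x - 1) < 1

/-- `e` is a Steinberg vector of the representation `σ` of `GL₂(k)`: it is fixed by the Iwahori
subgroup, `[[0,ϖ],[1,0]] e = -e` and the sum of the translates of `e` over `GL₂(O)/Iw` is `0`. -/
structure SteinbergVector {N : Type} [AddCommGroup N] [Module ℂ N]
    (v : Valuation k (WithZero (Multiplicative ℤ))) (ϖ : kˣ)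
    (σ : Representation ℂ (GL (Fin 2) k) N) (e : N) : Prop where
  iw : ∀ g ∈ Iw v, σ g e = e
  ww : σ (dd ϖ * ss) e = -e
  sum : e + σ ss e + σ (nn 1) e = 0

end stein

/-! ## The packages -/

/-- PACKAGE L1 (irreducibility). -/
def L1Stmt : Prop :=
  ∀ (k : Type) [Field k] (v : Valuation k (WithZero (Multiplicative ℤ))) (ϖ : kˣ),
    LocalData v ϖ → ∀ (N : Type) [AddCommGroup N] [Module ℂ N]
      (σ : Representation ℂ (GL (Fin 2) k) N) (e : N), SteinbergVector v ϖ σ e → e ≠ 0 →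
      Submodule.span ℂ (Set.range fun g => σ g e) = ⊤ → Irr σ

/-- PACKAGE L2 (not unramified). -/
def L2Stmt : Prop :=
  ∀ (k : Type) [Field k] (v : Valuation k (WithZero (Multiplicative ℤ))) (ϖ : kˣ),
    LocalData v ϖ → ∀ (N : Type) [AddCommGroup N] [Module ℂ N]
      (σ : Representation ℂ (GL (Fin 2) k) N) (e : N), SteinbergVector v ϖ σ e →
      Submodule.span ℂ (Set.range fun g => σ g e) = ⊤ →
      ∀ x : N, (∀ g ∈ intGL v, σ g x = x) → x = 0

/-- PACKAGE S1 (strong approximation and class number one). -/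
def S1Stmt : Prop :=
  ∀ g : Gf, ∃ γ : GL (Fin 2) K, ∃ κ ∈ Kf,
    g = Matrix.GeneralLinearGroup.map (algebraMap K Af) γ * κ

/-- PACKAGE S2 (integral points). -/
def S2Stmt : Prop :=
  ∀ γ : GL (Fin 2) K, Matrix.GeneralLinearGroup.map (algebraMap K Af) γ ∈ Kf →
    ∃ γ' : GL (Fin 2) R, Matrix.GeneralLinearGroup.map (algebraMap R K) γ' = γ

/-- PACKAGE S3 (finite index). -/
def S3Stmt : Prop :=
  ∀ g : Gf, (Kf ⊓ Kf.map (MulAut.conj g).toMonoidHom).relIndex Kf ≠ 0

/-- PACKAGE S4 (openness). -/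
def S4Stmt : Prop := IsOpen (Kf : Set Gf)

/-- The invariance conditions for functions on `GL₂(𝔽₂[t]) \ GL₂(K_∞) / K_∞^× GL₂(O_∞)`. -/
structure InvF (h : Ginf → ℂ) : Prop where
  left : ∀ (γ : GL (Fin 2) R) (x : Ginf), h (jR γ * x) = h x
  right : ∀ (x κ : Ginf), κ ∈ intGL vinf → h (x * κ) = h x
  center : ∀ (x : Ginf) (z : Kinfˣ), h (x * zz z) = h x

/-- PACKAGE R1 (the Eisenstein function). -/
def R1Stmt : Prop :=
  ∃ h : Ginf → ℂ, InvF h ∧
    (∀ x : Ginf, h (x * dd piInf) + h (x * ss * dd piInf) + h (x * nn 1 * dd piInf)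
      = 3 * h x + 3) ∧
    ¬ ∃ c : ℂ, ∀ x : Ginf, h (x * dd piInf) - h x = c

/-- PACKAGE R2 (harmonic functions are constant). -/
def R2Stmt : Prop :=
  ∀ u : Ginf → ℂ, InvF u →
    (∀ x : Ginf, u (x * dd piInf) + u (x * ss * dd piInf) + u (x * nn 1 * dd piInf) = 3 * u x) →
    ∀ x y : Ginf, u x = u y

/-- PACKAGE C1 (the cusp form). -/
def C1Stmt : Prop :=
  ∃ f : G → ℂ, f 1 ≠ 0 ∧
    (∀ (γ : GL (Fin 2) K) (x : G), f (diagG γ * x) = f x) ∧
    (∃ U : Subgroup G, IsOpen (U : Set G) ∧ ∀ u ∈ U, ∀ x, f (x * u) = f x) ∧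
    (∀ x : G, ∀ κ ∈ Iw vinf, f (x * (1, κ)) = f x) ∧
    (∀ x : G, f (x * (1, dd piInf * ss)) = - f x) ∧
    (∀ x : G, f x + f (x * (1, ss)) + f (x * (1, nn 1)) = 0) ∧
    (∀ x : G, ∃ a₀ : Ad, ∀ a : Ad, f (nA (a + a₀) * x) = - f (nA a * x))

/-- PACKAGE D1 (residue field at infinity). -/
def D1Stmt : Prop := LocalData vinf piInf

end Pool.Agent.T2H06.AUT
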