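import Mathlib
import Pool.Agent.T2H06.AUT.Defs

/-!
# Reduction theory for `GL₂(𝔽₂[t]) \ GL₂(𝔽₂((1/t)))` and the Eisenstein function (package R)
-/

set_option autoImplicit false
set_option linter.unusedSectionVars false

open Polynomial WithZero

namespace Pool.Agent.T2H06.AUT.Red

/-! ## The field `K_∞` -/

theorem vinf_alg (x : K) :
    vinf (algebraMap K Kinf x) = RatFunc.inftyValuation (ZMod 2) x :=
  @Valued.extensionValuation_apply_coe (RatFunc (ZMod 2)) _ _ _ (RatFunc.inftyValued (ZMod 2)) x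

theorem dense (x : Kinf) : ∃ y : K, vinf (x - algebraMap K Kinf y) < 1 := by
  have hd : DenseRange (algebraMap K Kinf) :=
    @UniformSpace.Completion.denseRange_coe (RatFunc (ZMod 2))
      (RatFunc.inftyValued (ZMod 2)).toUniformSpace
  have hn : {y : Kinf | vinf (y - x) < 1} ∈ nhds x := by
    rw [Valued.mem_nhds]
    refine ⟨1, ?_⟩
    intro y hy
    have hy' : (Valued.v (R := Kinf)).restrict (y - x) < (Valued.v (R := Kinf)).restrict 1 := by
      rw [map_one]
      exact hy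
    rw [Valuation.restrict_lt_iff, map_one] at hy'
    exact hy'
  obtain ⟨y, hy⟩ := hd.exists_mem_open isOpen_interior ⟨x, mem_interior_iff_mem_nhds.2 hn⟩
  refine ⟨y, ?_⟩
  have h3 : algebraMap K Kinf y ∈ {y : Kinf | vinf (y - x) < 1} := interior_subset hy
  have h4 : vinf (algebraMap K Kinf y - x) < 1 := h3
  rwa [Valuation.map_sub_swap] at h4

/-- the embedding of `𝔽₂[t]` in `K_∞` -/
noncomputable def J : R →+* Kinf := (algebraMap K Kinf).comp (algebraMap R K)

theorem vJ {r : R} (hr : r ≠ 0) : vinf (J r) = exp (r.natDegree : ℤ) := by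
  rw [J, RingHom.comp_apply, vinf_alg, RatFunc.inftyValuation_apply,
    RatFunc.inftyValuation.polynomial (ZMod 2) hr]

theorem J_disc {r : R} (h : vinf (J r) < 1) : r = 0 := by
  by_contra hr
  rw [vJ hr, ← exp_zero, exp_lt_exp] at h
  omega

theorem dec (x : Kinf) : ∃ r : R, vinf (x - J r) < 1 := by
  obtain ⟨y, hy⟩ := dense x
  obtain ⟨p, q, hq, rfl⟩ : ∃ (p q : R), q ≠ 0 ∧ y = algebraMap R K p / algebraMap R K q :=
    ⟨y.num, y.denom, y.denom_ne_zero, (RatFunc.num_div_denom y).symm⟩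
  refine ⟨p / q, ?_⟩
  have hq' : algebraMap R K q ≠ 0 := by simpa using hq
  have h1 : algebraMap R K p / algebraMap R K q =
      algebraMap R K (p / q) + algebraMap R K (p % q) / algebraMap R K q := by
    have h0 : algebraMap R K p = algebraMap R K q * algebraMap R K (p / q) +
        algebraMap R K (p % q) := by
      rw [← map_mul, ← map_add, EuclideanDomain.div_add_mod]
    rw [h0]
    field_simp
  have h2 : x - J (p / q) = (x - algebraMap K Kinf (algebraMap R K p / algebraMap R K q)) +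
      algebraMap K Kinf (algebraMap R K (p % q) / algebraMap R K q) := by
    conv_rhs => rw [h1]
    rw [map_add, J, RingHom.comp_apply]
    ring
  rw [h2]
  refine (vinf).map_add_lt hy ?_
  by_cases hr : p % q = 0
  · rw [hr]; simp
  · rw [map_div₀, map_div₀]
    have e1 : vinf (algebraMap K Kinf (algebraMap R K (p % q))) = exp ((p % q).natDegree : ℤ) :=
      vJ hr
    have e2 : vinf (algebraMap K Kinf (algebraMap R K q)) = exp (q.natDegree : ℤ) := vJ hq
    rw [e1, e2, ← exp_sub, ← exp_zero, exp_lt_exp]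
    have h3 : (p % q).natDegree < q.natDegree := by
      apply Polynomial.natDegree_lt_natDegree hr
      exact EuclideanDomain.mod_lt p hq
    omega

theorem resid (x : Kinf) (hx : vinf x ≤ 1) : vinf x < 1 ∨ vinf (x - 1) < 1 := by
  obtain ⟨r, hr⟩ := dec x
  have h1 : vinf (J r) ≤ 1 := by
    have : J r = x - (x - J r) := by ring
    rw [this]
    exact (vinf).map_sub_le hx hr.le
  have h2 : r.natDegree = 0 := by
    by_cases h0 : r = 0
    · rw [h0]; simp
    · rw [vJ h0, ← exp_zero, exp_le_exp] at h1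
      omega
  rw [Polynomial.natDegree_eq_zero] at h2
  obtain ⟨c, rfl⟩ := h2
  have h2 : ∀ c : ZMod 2, c = 0 ∨ c = 1 := by decide
  rcases h2 c with rfl | rfl
  · left; simpa using hr
  · right; simpa using hr

theorem piInf_coe : (piInf : Kinf) = (J X)⁻¹ := by
  rw [piInf, J, RingHom.comp_apply, RatFunc.algebraMap_X, ← map_inv₀]
  rfl

theorem unif : vinf (piInf : Kinf) = exp (-1 : ℤ) := by
  rw [piInf_coe, map_inv₀, vJ X_ne_zero, natDegree_X, ← exp_neg]
  rfl

/-! ## Matrices -/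

section mat
variable {k : Type} [Field k] (v : Valuation k (WithZero (Multiplicative ℤ)))

theorem gl_ext {g h : GL (Fin 2) k} (h00 : g.1 0 0 = h.1 0 0) (h01 : g.1 0 1 = h.1 0 1)
    (h10 : g.1 1 0 = h.1 1 0) (h11 : g.1 1 1 = h.1 1 1) : g = h := by
  apply Units.ext
  ext i j
  fin_cases i <;> fin_cases j
  · exact h00
  · exact h01
  · exact h10
  · exact h11

theorem mul00 (g h : GL (Fin 2) k) :
    (g * h).1 0 0 = g.1 0 0 * h.1 0 0 + g.1 0 1 * h.1 1 0 := by
  rw [Units.val_mul, Matrix.mul_apply, Fin.sum_univ_two]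

theorem mul01 (g h : GL (Fin 2) k) :
    (g * h).1 0 1 = g.1 0 0 * h.1 0 1 + g.1 0 1 * h.1 1 1 := by
  rw [Units.val_mul, Matrix.mul_apply, Fin.sum_univ_two]

theorem mul10 (g h : GL (Fin 2) k) :
    (g * h).1 1 0 = g.1 1 0 * h.1 0 0 + g.1 1 1 * h.1 1 0 := by
  rw [Units.val_mul, Matrix.mul_apply, Fin.sum_univ_two]

theorem mul11 (g h : GL (Fin 2) k) :
    (g * h).1 1 1 = g.1 1 0 * h.1 0 1 + g.1 1 1 * h.1 1 1 := by
  rw [Units.val_mul, Matrix.mul_apply, Fin.sum_univ_two]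

@[simp] theorem nn00 (b : k) : (nn b).1 0 0 = 1 := rfl
@[simp] theorem nn01 (b : k) : (nn b).1 0 1 = b := rfl
@[simp] theorem nn10 (b : k) : (nn b).1 1 0 = 0 := rfl
@[simp] theorem nn11 (b : k) : (nn b).1 1 1 = 1 := rfl
@[simp] theorem dd00 (b : kˣ) : (dd b).1 0 0 = b := rfl
@[simp] theorem dd01 (b : kˣ) : (dd b).1 0 1 = 0 := rfl
@[simp] theorem dd10 (b : kˣ) : (dd b).1 1 0 = 0 := rfl
@[simp] theorem dd11 (b : kˣ) : (dd b).1 1 1 = 1 := rfl
@[simp] theorem zz00 (b : kˣ) : (zz b).1 0 0 = b := rfl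
@[simp] theorem zz01 (b : kˣ) : (zz b).1 0 1 = 0 := rfl
@[simp] theorem zz10 (b : kˣ) : (zz b).1 1 0 = 0 := rfl
@[simp] theorem zz11 (b : kˣ) : (zz b).1 1 1 = b := rfl
@[simp] theorem ss00 : (ss : GL (Fin 2) k).1 0 0 = 0 := rfl
@[simp] theorem ss01 : (ss : GL (Fin 2) k).1 0 1 = 1 := rfl
@[simp] theorem ss10 : (ss : GL (Fin 2) k).1 1 0 = 1 := rfl
@[simp] theorem ss11 : (ss : GL (Fin 2) k).1 1 1 = 0 := rfl

theorem mem_int {g : GL (Fin 2) k} : g ∈ intGL v ↔
    (v (g.1 0 0) ≤ 1 ∧ v (g.1 0 1) ≤ 1 ∧ v (g.1 1 0) ≤ 1 ∧ v (g.1 1 1) ≤ 1) ∧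
      v (g.1 0 0 * g.1 1 1 - g.1 0 1 * g.1 1 0) = 1 := by
  constructor
  · rintro ⟨h1, h2⟩
    rw [Matrix.det_fin_two] at h2
    exact ⟨⟨h1 _ _, h1 _ _, h1 _ _, h1 _ _⟩, h2⟩
  · rintro ⟨⟨h1, h2, h3, h4⟩, h5⟩
    refine ⟨fun i j => ?_, by rw [Matrix.det_fin_two]; exact h5⟩
    fin_cases i <;> fin_cases j <;> assumption

theorem nn_int {b : k} (hb : v b ≤ 1) : nn b ∈ intGL v := by
  rw [mem_int]; simp [hb]

theorem dd_int {b : kˣ} (hb : v (b : k) = 1) : dd b ∈ intGL v := by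
  rw [mem_int]; simp [hb]

theorem ss_int : (ss : GL (Fin 2) k) ∈ intGL v := by
  rw [mem_int]; simp

/-- lower unipotent matrices -/
def ll (b : k) : GL (Fin 2) k := ss * nn b * ss

theorem ll_int {b : k} (hb : v b ≤ 1) : ll b ∈ intGL v :=
  mul_mem (mul_mem (ss_int v) (nn_int v hb)) (ss_int v)

theorem zz_comm (z : kˣ) (g : GL (Fin 2) k) : zz z * g = g * zz z := by
  apply gl_ext <;> simp [mul00, mul01, mul10, mul11, mul_comm]

theorem dd_mul (a b : kˣ) : dd (a * b) = dd a * dd b := by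
  apply gl_ext <;> simp [mul00, mul01, mul10, mul11]

theorem zz_mul (a b : kˣ) : zz (a * b) = zz a * zz b := by
  apply gl_ext <;> simp [mul00, mul01, mul10, mul11]

theorem nn_add (a b : k) : nn (a + b) = nn a * nn b := by
  apply gl_ext <;> simp [mul00, mul01, mul10, mul11, add_comm]

theorem nn_dd (y : k) (a : kˣ) : nn y * dd a = dd a * nn (y * ((a⁻¹ : kˣ) : k)) := by
  apply gl_ext <;> simp [mul00, mul01, mul10, mul11]
  field_simp

theorem ss_sq : (ss : GL (Fin 2) k) * ss = 1 := by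
  apply gl_ext <;> simp [mul00, mul01, mul10, mul11]

theorem ss_dd (a : kˣ) : ss * dd a * ss = zz a * dd a⁻¹ := by
  apply gl_ext <;> simp [mul00, mul01, mul10, mul11]

/-- Iwasawa decomposition, first case -/
theorem iwa1 (g : GL (Fin 2) k) (s D : kˣ) (hs : g.1 1 1 = s)
    (hD : (D : k) = g.1 0 0 * g.1 1 1 - g.1 0 1 * g.1 1 0) :
    g = zz s * nn (g.1 0 1 * ((s⁻¹ : kˣ) : k)) * dd (D * s⁻¹ * s⁻¹) *
      ll (g.1 1 0 * ((s⁻¹ : kˣ) : k)) := by
  have hs0 : (s : k) ≠ 0 := s.ne_zero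
  rw [hs] at hD
  apply gl_ext
  · simp [mul00, mul01, mul10, mul11, ll]
    rw [hD]; field_simp; ring
  · simp [mul00, mul01, mul10, mul11, ll]
    field_simp
  · simp [mul00, mul01, mul10, mul11, ll]
    field_simp
  · simp [mul00, mul01, mul10, mul11, ll]
    exact hs

theorem det_ne (g : GL (Fin 2) k) : g.1 0 0 * g.1 1 1 - g.1 0 1 * g.1 1 0 ≠ 0 := by
  rw [← Matrix.det_fin_two]
  exact (Matrix.isUnits_det_units g).ne_zero

/-- Iwasawa decomposition -/
theorem iwa (g : GL (Fin 2) k) : ∃ (z a : kˣ) (y : k), ∃ u ∈ intGL v,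
    g = zz z * nn y * dd a * u := by
  have key : ∀ g : GL (Fin 2) k, v (g.1 1 0) ≤ v (g.1 1 1) → ∃ (z a : kˣ) (y : k),
      ∃ u ∈ intGL v, g = zz z * nn y * dd a * u := by
    intro g hg
    have hs : g.1 1 1 ≠ 0 := by
      intro h
      rw [h, map_zero] at hg
      have h2 : g.1 1 0 = 0 := by
        rw [← map_eq_zero v]
        exact le_antisymm hg zero_le
      exact det_ne g (by rw [h, h2]; ring)
    refine ⟨Units.mk0 _ hs, _, _, _, ?_, iwa1 g (Units.mk0 _ hs) (Units.mk0 _ (det_ne g)) rfl rfl⟩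
    apply ll_int
    rw [map_mul, Units.val_inv_eq_inv_val, map_inv₀, Units.val_mk0]
    have h0 : v (g.1 1 1) ≠ 0 := (map_ne_zero v).2 hs
    calc v (g.1 1 0) * (v (g.1 1 1))⁻¹ ≤ v (g.1 1 1) * (v (g.1 1 1))⁻¹ :=
          mul_le_mul_left hg _
      _ = 1 := mul_inv_cancel₀ h0
  rcases le_total (v (g.1 1 0)) (v (g.1 1 1)) with h | h
  · exact key g h
  · obtain ⟨z, a, y, u, hu, h1⟩ := key (g * ss) (by simpa [mul10, mul11] using h)
    refine ⟨z, a, y, u * ss, mul_mem hu (ss_int v), ?_⟩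
    calc g = g * ss * ss := by rw [mul_assoc, ss_sq, mul_one]
      _ = _ := by rw [h1]; group

end mat

/-! ## The double classes -/

section cls
variable {k : Type} [Field k] (v : Valuation k (WithZero (Multiplicative ℤ))) (J : R →+* k)
  (T : kˣ)

/-- `g` lies in the double class of `diag(t^n, 1)` -/
def Cls (g : GL (Fin 2) k) (n : ℤ) : Prop :=
  ∃ (γ : GL (Fin 2) R) (z : kˣ), ∃ u ∈ intGL v,
    g = Matrix.GeneralLinearGroup.map J γ * dd (T ^ n) * zz z * u

variable {v J T}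

theorem Cls.left {g : GL (Fin 2) k} {n : ℤ} (h : Cls v J T g n) (γ : GL (Fin 2) R) :
    Cls v J T (Matrix.GeneralLinearGroup.map J γ * g) n := by
  obtain ⟨γ', z, u, hu, rfl⟩ := h
  refine ⟨γ * γ', z, u, hu, ?_⟩
  rw [map_mul]
  simp only [mul_assoc]

theorem Cls.right {g : GL (Fin 2) k} {n : ℤ} (h : Cls v J T g n) {u : GL (Fin 2) k}
    (hu : u ∈ intGL v) : Cls v J T (g * u) n := by
  obtain ⟨γ', z, u', hu', rfl⟩ := h
  refine ⟨γ', z, u' * u, mul_mem hu' hu, ?_⟩
  simp only [mul_assoc]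

theorem Cls.zz {g : GL (Fin 2) k} {n : ℤ} (h : Cls v J T g n) (z : kˣ) :
    Cls v J T (zz z * g) n := by
  obtain ⟨γ', z', u', hu', rfl⟩ := h
  refine ⟨γ', z * z', u', hu', ?_⟩
  rw [zz_comm, zz_mul]
  simp only [mul_assoc]
  rw [← zz_comm z u', ← mul_assoc (AUT.zz z'), ← mul_assoc (AUT.zz z), ← zz_mul, ← zz_mul,
    mul_comm z z']

theorem cls_dd (n : ℤ) : Cls v J T (dd (T ^ n)) n :=
  ⟨1, 1, 1, one_mem _, by
    have : (AUT.zz (1 : kˣ) : GL (Fin 2) k) = 1 := by
      apply gl_ext <;> simp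
    rw [map_one, this]; simp⟩

theorem map_ss : Matrix.GeneralLinearGroup.map J (ss : GL (Fin 2) R) = ss := by
  apply gl_ext <;> simp [ss]

theorem map_nn (r : R) : Matrix.GeneralLinearGroup.map J (nn r) = nn (J r) := by
  apply gl_ext <;> simp [nn]

theorem cls_neg (n : ℤ) : Cls v J T (dd (T ^ n)) (-n) := by
  have h : dd (T ^ n) = Matrix.GeneralLinearGroup.map J ss * (AUT.zz (T ^ n) * dd (T ^ (-n))) *
      ss := by
    rw [map_ss, zpow_neg, ← ss_dd]
    calc dd (T ^ n) = (ss * ss) * dd (T ^ n) * (ss * ss) := by rw [ss_sq]; simp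
      _ = _ := by simp only [mul_assoc]
  rw [h]
  exact (((cls_dd (-n)).zz _).left _).right (ss_int v)

theorem v_exists {x : k} (hx : x ≠ 0) : ∃ n : ℤ, v x = exp n := by
  have h := (map_ne_zero v).2 hx
  exact ⟨_, (exp_log h).symm⟩

variable (hT : v (T : k) = exp (1 : ℤ)) (hdec : ∀ x, ∃ r, v (x - J r) < 1)
include hT

theorem vT (n : ℤ) : v ((T ^ n : kˣ) : k) = exp n := by
  rw [Units.val_zpow_eq_zpow_val, map_zpow₀, hT, ← exp_zsmul]
  simp

theorem split_unit (a : kˣ) : ∃ (N : ℤ) (a' : kˣ), v (a' : k) = 1 ∧ a = T ^ N * a' := by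
  obtain ⟨N, hN⟩ := v_exists (v := v) a.ne_zero
  refine ⟨N, (T ^ N)⁻¹ * a, ?_, by simp⟩
  rw [Units.val_mul, map_mul, Units.val_inv_eq_inv_val, map_inv₀, vT hT, hN, ← exp_neg,
    ← exp_add]
  simp

include hdec

theorem red (M : ℕ) : ∀ (N : ℤ), (-N).toNat ≤ M → ∀ y : k,
    ∃ n : ℕ, Cls v J T (nn y * dd (T ^ N)) n := by
  induction M with
  | zero =>
    intro N hN y
    obtain ⟨r, hr⟩ := hdec y
    have hN' : 0 ≤ N := by omega
    refine ⟨N.toNat, ?_⟩
    rw [Int.toNat_of_nonneg hN']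
    have h1 : nn y * dd (T ^ N) = Matrix.GeneralLinearGroup.map J (nn r) * (dd (T ^ N) *
        nn ((y - J r) * (((T ^ N)⁻¹ : kˣ) : k))) := by
      rw [← nn_dd, ← mul_assoc, map_nn, ← nn_add]
      congr 2
      ring
    rw [h1]
    refine ((cls_dd N).right (nn_int v ?_)).left _
    rw [map_mul, Units.val_inv_eq_inv_val, map_inv₀, vT hT, ← exp_neg]
    refine mul_le_one' hr.le ?_
    rw [← exp_zero, exp_le_exp]
    omega
  | succ M ih =>
    intro N hN y
    obtain ⟨r, hr⟩ := hdec y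
    suffices h : ∃ n : ℕ, Cls v J T (nn (y - J r) * dd (T ^ N)) n by
      obtain ⟨n, hn⟩ := h
      refine ⟨n, ?_⟩
      have h1 : nn y * dd (T ^ N) = Matrix.GeneralLinearGroup.map J (nn r) *
          (nn (y - J r) * dd (T ^ N)) := by
        rw [← mul_assoc, map_nn, ← nn_add]
        congr 2
        ring
      rw [h1]
      exact hn.left _
    generalize y - J r = μ at hr
    by_cases hμ : v μ ≤ exp N
    · have h1 : Cls v J T (nn μ * dd (T ^ N)) |N| := by
        rw [nn_dd]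
        have h2 : nn (μ * (((T ^ N)⁻¹ : kˣ) : k)) ∈ intGL v := by
          apply nn_int
          rw [map_mul, Units.val_inv_eq_inv_val, map_inv₀, vT hT]
          calc v μ * (exp N)⁻¹ ≤ exp N * (exp N)⁻¹ := mul_le_mul_left hμ _
            _ = 1 := mul_inv_cancel₀ exp_ne_zero
        rcases le_total 0 N with h | h
        · rw [abs_of_nonneg h]
          exact (cls_dd N).right h2
        · rw [abs_of_nonpos h]
          exact (cls_neg N).right h2
      refine ⟨N.natAbs, ?_⟩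
      rwa [Int.natCast_natAbs]
    · rw [not_le] at hμ
      have hμ0 : μ ≠ 0 := by
        rintro rfl
        rw [map_zero] at hμ
        exact absurd hμ not_lt_zero
      obtain ⟨j, hj⟩ := v_exists (v := v) hμ0
      rw [hj] at hμ hr
      rw [exp_lt_exp] at hμ
      rw [← exp_zero, exp_lt_exp] at hr
      let U : kˣ := Units.mk0 μ hμ0
      let D : kˣ := -(T ^ N)
      have e1 := iwa1 (ss * (nn μ * dd (T ^ N))) U D
        (by simp [mul11, mul01, U]) (by simp [mul00, mul01, mul10, mul11, D])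
      obtain ⟨N', a', ha', e2⟩ := split_unit hT (D * U⁻¹ * U⁻¹)
      have e3 : N' = N - 2 * j := by
        have h1 := congrArg (fun a : kˣ => v (a : k)) e2
        simp only [Units.val_mul, map_mul, vT hT, ha', mul_one, Units.val_inv_eq_inv_val,
          map_inv₀] at h1
        have h2 : v (D : k) = exp N := by
          simp only [D, Units.val_neg, Valuation.map_neg]
          exact vT hT N
        have h3 : v (U : k) = exp j := hj
        rw [h2, h3, ← exp_neg, ← exp_add, ← exp_add, exp_inj] at h1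
        omega
      rw [e2, dd_mul] at e1
      obtain ⟨n, hn⟩ := ih N' (by omega)
        ((ss * (nn μ * dd (T ^ N))).1 0 1 * ((U⁻¹ : kˣ) : k))
      refine ⟨n, ?_⟩
      have e4 : nn μ * dd (T ^ N) = Matrix.GeneralLinearGroup.map J ss *
          (ss * (nn μ * dd (T ^ N))) := by
        rw [map_ss, ← mul_assoc, ss_sq, one_mul]
      rw [e4]
      apply Cls.left
      rw [e1]
      have e5 := ((hn.right (dd_int v ha')).zz U).right (ll_int v
        (b := (ss * (nn μ * dd (T ^ N))).1 1 0 * ((U⁻¹ : kˣ) : k)) (by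
          have h1 : (ss * (nn μ * dd (T ^ N))).1 1 0 = ((T ^ N : kˣ) : k) := by
            simp [mul00, mul10]
          rw [h1, map_mul, Units.val_inv_eq_inv_val, map_inv₀, vT hT]
          have h3 : v (U : k) = exp j := hj
          rw [h3, ← exp_neg, ← exp_add, ← exp_zero, exp_le_exp]
          omega))
      simpa only [mul_assoc] using e5

theorem cls_exists (g : GL (Fin 2) k) : ∃ n : ℕ, Cls v J T g n := by
  obtain ⟨z, a, y, u, hu, rfl⟩ := iwa v g
  obtain ⟨N, a', ha', rfl⟩ := split_unit hT a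
  obtain ⟨n, hn⟩ := red hT hdec (-N).toNat N le_rfl y
  refine ⟨n, ?_⟩
  have := ((hn.right (dd_int v ha')).right hu).zz z
  rw [dd_mul]
  simpa only [mul_assoc] using this

omit hdec in
/-- uniqueness of the class -/
theorem cls_aux (hdisc : ∀ r : R, v (J r) < 1 → r = 0) {γ : GL (Fin 2) R} {z : kˣ}
    {u : GL (Fin 2) k} (hu : u ∈ intGL v) {n m : ℕ} (hnm : m < n)
    (h : Matrix.GeneralLinearGroup.map J γ * dd (T ^ (n : ℤ)) = dd (T ^ (m : ℤ)) * AUT.zz z * u) :
    False := by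
  have hJ : ∀ r : R, r ≠ 0 → 1 ≤ v (J r) := fun r hr => by
    by_contra hcon
    exact hr (hdisc r (not_le.1 hcon))
  obtain ⟨c, hc⟩ := v_exists (v := v) z.ne_zero
  have g00 : (Matrix.GeneralLinearGroup.map J γ).1 0 0 = J (γ.1 0 0) := rfl
  have g01 : (Matrix.GeneralLinearGroup.map J γ).1 0 1 = J (γ.1 0 1) := rfl
  have g10 : (Matrix.GeneralLinearGroup.map J γ).1 1 0 = J (γ.1 1 0) := rfl
  have g11 : (Matrix.GeneralLinearGroup.map J γ).1 1 1 = J (γ.1 1 1) := rfl
  rw [mem_int] at hu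
  -- the determinant
  have hdet : v (J (γ.1.det)) = 1 := by
    have h1 : γ.1.det * (γ⁻¹).1.det = 1 := by
      rw [← Matrix.det_mul, ← Units.val_mul, mul_inv_cancel, Units.val_one, Matrix.det_one]
    have h2 : γ.1.det ≠ 0 := left_ne_zero_of_mul_eq_one h1
    have h3 : (γ⁻¹).1.det ≠ 0 := right_ne_zero_of_mul_eq_one h1
    have h4 := congrArg (fun r => v (J r)) h1
    simp only [map_mul, map_one] at h4
    refine le_antisymm ?_ (hJ _ h2)
    calc v (J (γ.1.det)) = v (J (γ.1.det)) * 1 := (mul_one _).symm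
      _ ≤ v (J (γ.1.det)) * v (J ((γ⁻¹).1.det)) := mul_le_mul_right (hJ _ h3) _
      _ = 1 := h4
  have e00 := congrArg (fun g : GL (Fin 2) k => g.1 0 0) h
  have e01 := congrArg (fun g : GL (Fin 2) k => g.1 0 1) h
  have e10 := congrArg (fun g : GL (Fin 2) k => g.1 1 0) h
  have e11 := congrArg (fun g : GL (Fin 2) k => g.1 1 1) h
  simp only [mul00, mul01, mul10, mul11, g00, g01, g10, g11, dd00, dd01, dd10, dd11, zz00, zz01,
    zz10, zz11, mul_zero, zero_mul, add_zero, zero_add, mul_one, one_mul] at e00 e01 e10 e11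
  have hD : J (γ.1.det) * ((T ^ (n : ℤ) : kˣ) : k) = ((T ^ (m : ℤ) : kˣ) : k) * (z : k) * z *
      (u.1 0 0 * u.1 1 1 - u.1 0 1 * u.1 1 0) := by
    rw [Matrix.det_fin_two, map_sub, map_mul, map_mul]
    linear_combination J (γ.1 1 1) * e00 + ((T ^ (m : ℤ) : kˣ) : k) * z * u.1 0 0 * e11 -
      J (γ.1 0 1) * e10 - z * u.1 1 0 * e01
  have hD' := congrArg v hD
  rw [map_mul, map_mul, map_mul, map_mul, hdet, vT hT, vT hT, hc, hu.2, one_mul, mul_one,
    ← exp_add, ← exp_add, exp_inj] at hD'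
  have h00 : γ.1 0 0 = 0 := by
    by_contra h0
    have h1 := congrArg v e00
    rw [map_mul, map_mul, map_mul, vT hT, vT hT, hc] at h1
    have h2 : (exp (n : ℤ) : WithZero (Multiplicative ℤ)) ≤ exp ((m : ℤ) + c) := by
      calc (exp (n : ℤ) : WithZero (Multiplicative ℤ)) = 1 * exp (n : ℤ) := (one_mul _).symm
        _ ≤ v (J (γ.1 0 0)) * exp (n : ℤ) := mul_le_mul_left (hJ _ h0) _
        _ = exp (m : ℤ) * exp c * v (u.1 0 0) := h1
        _ ≤ exp (m : ℤ) * exp c * 1 := mul_le_mul_right hu.1.1 _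
        _ = exp ((m : ℤ) + c) := by rw [mul_one, exp_add]
    rw [exp_le_exp] at h2
    omega
  have h10 : γ.1 1 0 = 0 := by
    by_contra h0
    have h1 := congrArg v e10
    rw [map_mul, map_mul, vT hT, hc] at h1
    have h2 : (exp (n : ℤ) : WithZero (Multiplicative ℤ)) ≤ exp c := by
      calc (exp (n : ℤ) : WithZero (Multiplicative ℤ)) = 1 * exp (n : ℤ) := (one_mul _).symm
        _ ≤ v (J (γ.1 1 0)) * exp (n : ℤ) := mul_le_mul_left (hJ _ h0) _
        _ = exp c * v (u.1 1 0) := h1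
        _ ≤ exp c * 1 := mul_le_mul_right hu.1.2.2.1 _
        _ = exp c := mul_one _
    rw [exp_le_exp] at h2
    omega
  rw [Matrix.det_fin_two, h00, h10, zero_mul, mul_zero, sub_zero, map_zero, map_zero] at hdet
  exact zero_ne_one hdet

omit hdec in
theorem cls_unique (hdisc : ∀ r : R, v (J r) < 1 → r = 0) {g : GL (Fin 2) k} {n m : ℕ}
    (h1 : Cls v J T g n) (h2 : Cls v J T g m) : n = m := by
  have key : ∀ {n m : ℕ}, Cls v J T g n → Cls v J T g m → m < n → False := by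
    rintro n m ⟨γ, z, u, hu, h1⟩ ⟨γ', z', u', hu', h2⟩ hnm
    have h3 : Matrix.GeneralLinearGroup.map J (γ'⁻¹ * γ) * dd (T ^ (n : ℤ)) =
        dd (T ^ (m : ℤ)) * AUT.zz (z' * z⁻¹) * (u' * u⁻¹) := by
      have h4 : Matrix.GeneralLinearGroup.map J γ * dd (T ^ (n : ℤ)) * AUT.zz z * u =
        Matrix.GeneralLinearGroup.map J γ' * dd (T ^ (m : ℤ)) * AUT.zz z' * u' := h1.symm.trans h2
      have h5 : Matrix.GeneralLinearGroup.map J γ * dd (T ^ (n : ℤ)) =
        Matrix.GeneralLinearGroup.map J γ' * dd (T ^ (m : ℤ)) * AUT.zz z' * u' * u⁻¹ *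
          (AUT.zz z)⁻¹ := by
        rw [← h4]; group
      have h6 : (AUT.zz z : GL (Fin 2) k)⁻¹ = AUT.zz z⁻¹ := by
        rw [inv_eq_iff_mul_eq_one, ← zz_mul]
        apply gl_ext <;> simp
      rw [map_mul, map_inv, mul_assoc, h5, h6, zz_mul]
      simp only [mul_assoc]
      rw [← zz_comm z⁻¹ u⁻¹, ← mul_assoc u', ← zz_comm z⁻¹ u']
      simp only [mul_assoc]
      group
    exact cls_aux hT hdisc (mul_mem hu' (inv_mem hu)) hnm h3
  rcases lt_trichotomy n m with h | h | h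
  · exact (key h2 h1 h).elim
  · exact h
  · exact (key h1 h2 h).elim

end cls

/-! ## The three neighbours -/

section nbr
variable {k : Type} [Field k] {v : Valuation k (WithZero (Multiplicative ℤ))} {P : kˣ}

open Classical in
/-- the residue in `𝔽₂` -/
noncomputable def rs (v : Valuation k (WithZero (Multiplicative ℤ))) (x : k) : ZMod 2 :=
  if v x < 1 then 0 else 1

theorem rs_zero {x : k} (h : v x < 1) : rs v x = 0 := if_pos h

theorem rs_one {x : k} (h : ¬ v x < 1) : rs v x = 1 := if_neg h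

theorem zmod2_ne : (1 : ZMod 2) ≠ 0 := by decide

theorem of_rs_zero {x : k} (h : rs v x = 0) : v x < 1 := by
  by_contra hc
  rw [rs_one hc] at h
  exact zmod2_ne h

variable (hres : ∀ x, v x ≤ 1 → v x < 1 ∨ v (x - 1) < 1)
include hres

theorem sub_one_lt {x : k} (hx : v x ≤ 1) (h : ¬ v x < 1) : v (x - 1) < 1 :=
  (hres x hx).resolve_left h

theorem rs_add {x y : k} (hx : v x ≤ 1) (hy : v y ≤ 1) : rs v (x + y) = rs v x + rs v y := by
  have h2 : v (2 : k) < 1 := by
    rcases hres (-1) (by simp) with h | h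
    · rw [Valuation.map_neg, map_one] at h
      exact absurd h (lt_irrefl _)
    · have : (2 : k) = -(-1 - 1) := by ring
      rw [this, Valuation.map_neg]
      exact h
  have hnot : ∀ {a b : k}, v a < 1 → ¬ v b < 1 → ¬ v (a + b) < 1 := by
    intro a b ha hb hab
    apply hb
    have : b = (a + b) - a := by ring
    rw [this]
    exact v.map_sub_lt hab ha
  by_cases h1 : v x < 1 <;> by_cases h3 : v y < 1
  · rw [rs_zero h1, rs_zero h3, rs_zero (v.map_add_lt h1 h3), add_zero]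
  · rw [rs_zero h1, rs_one h3, rs_one (hnot h1 h3), zero_add]
  · rw [rs_one h1, rs_zero h3, add_comm x y, rs_one (hnot h3 h1), add_zero]
  · rw [rs_one h1, rs_one h3, rs_zero]
    · decide
    · have h4 := sub_one_lt hres hx h1
      have h5 := sub_one_lt hres hy h3
      have : x + y = (x - 1) + (y - 1) + 2 := by ring
      rw [this]
      exact v.map_add_lt (v.map_add_lt h4 h5) h2

theorem rs_mul {x y : k} (hx : v x ≤ 1) (hy : v y ≤ 1) : rs v (x * y) = rs v x * rs v y := by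
  by_cases h1 : v x < 1 <;> by_cases h3 : v y < 1
  · rw [rs_zero h1, rs_zero h3, rs_zero, mul_zero]
    rw [map_mul]; exact mul_lt_one_of_lt_of_le h1 hy
  · rw [rs_zero h1, rs_one h3, rs_zero, zero_mul]
    rw [map_mul]; exact mul_lt_one_of_lt_of_le h1 hy
  · rw [rs_one h1, rs_zero h3, rs_zero, mul_zero]
    rw [map_mul, mul_comm]; exact mul_lt_one_of_lt_of_le h3 hx
  · have h4 : v x = 1 := le_antisymm hx (not_lt.1 h1)
    have h5 : v y = 1 := le_antisymm hy (not_lt.1 h3)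
    rw [rs_one h1, rs_one h3, rs_one, mul_one]
    rw [map_mul, h4, h5, mul_one]
    exact lt_irrefl _

variable (hP : v (P : k) = exp (-1 : ℤ))
include hP

theorem conj_int {y : GL (Fin 2) k} (hy : y ∈ intGL v) (h01 : v (y.1 0 1) < 1) :
    (dd P)⁻¹ * y * dd P ∈ intGL v := by
  have h1 : ((dd P : GL (Fin 2) k))⁻¹ = dd P⁻¹ := by
    rw [inv_eq_iff_mul_eq_one, ← dd_mul]
    apply gl_ext <;> simp
  rw [mem_int] at hy
  have hle : v (y.1 0 1) ≤ exp (-1 : ℤ) := by
    by_cases h0 : y.1 0 1 = 0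
    · rw [h0, map_zero]; exact zero_le
    · obtain ⟨n, hn⟩ := v_exists (v := v) h0
      rw [hn] at h01 ⊢
      rw [← exp_zero, exp_lt_exp] at h01
      rw [exp_le_exp]
      omega
  have hP0 : (P : k) ≠ 0 := P.ne_zero
  rw [mem_int, h1]
  simp only [mul00, mul01, mul10, mul11, dd00, dd01, dd10, dd11, mul_zero, zero_mul, add_zero,
    zero_add, mul_one, one_mul, Units.val_inv_eq_inv_val]
  refine ⟨⟨?_, ?_, ?_, ?_⟩, ?_⟩
  · have : (P : k)⁻¹ * y.1 0 0 * P = y.1 0 0 := by field_simp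
    rw [this]; exact hy.1.1
  · rw [map_mul, map_inv₀, hP, ← exp_neg]
    calc (exp (-(-1) : ℤ) : WithZero (Multiplicative ℤ)) * v (y.1 0 1) ≤
        exp (-(-1) : ℤ) * exp (-1 : ℤ) := mul_le_mul_right hle _
      _ = 1 := by rw [← exp_add]; simp
  · rw [map_mul, hP]
    refine mul_le_one' hy.1.2.2.1 ?_
    rw [← exp_zero, exp_le_exp]; omega
  · exact hy.1.2.2.2
  · rw [← hy.2]
    congr 1
    field_simp

/-- the value at a neighbour depends on the second column modulo the maximal ideal -/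
theorem nbr_val {φ : GL (Fin 2) k → ℂ} (hφ : ∀ x, ∀ κ ∈ intGL v, φ (x * κ) = φ x)
    (x : GL (Fin 2) k) {y : GL (Fin 2) k} (hy : y ∈ intGL v) :
    φ (x * y * dd P) = if rs v (y.1 0 1) = 0 then φ (x * dd P) else
      if rs v (y.1 1 1) = 0 then φ (x * ss * dd P) else φ (x * nn 1 * dd P) := by
  have key : ∀ (x y : GL (Fin 2) k), y ∈ intGL v → v (y.1 0 1) < 1 →
      φ (x * y * dd P) = φ (x * dd P) := by
    intro x y hy h
    have : x * y * dd P = x * dd P * ((dd P)⁻¹ * y * dd P) := by group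
    rw [this]
    exact hφ _ _ (conj_int hres hP hy h)
  split_ifs with h1 h2
  · exact key x y hy (of_rs_zero h1)
  · have h3 : x * y * dd P = x * ss * (ss * y) * dd P := by
      congr 1
      rw [mul_assoc x ss, ← mul_assoc ss ss, ss_sq, one_mul]
    rw [h3]
    refine key _ _ (mul_mem (ss_int v) hy) ?_
    simpa [mul01] using of_rs_zero h2
  · have h3 : x * y * dd P = x * nn 1 * (nn (-1) * y) * dd P := by
      congr 1
      have : (nn 1 : GL (Fin 2) k) * nn (-1) = 1 := by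
        rw [← nn_add]
        apply gl_ext <;> simp
      rw [mul_assoc x, ← mul_assoc (nn 1), this, one_mul]
    rw [h3]
    refine key _ _ (mul_mem (nn_int v (by simp)) hy) ?_
    have hy' := (mem_int v).1 hy
    have e1 : ¬ v (y.1 0 1) < 1 := fun h => h1 (rs_zero h)
    have e2 : ¬ v (y.1 1 1) < 1 := fun h => h2 (rs_zero h)
    have e3 := sub_one_lt hres hy'.1.2.1 e1
    have e4 := sub_one_lt hres hy'.1.2.2.2 e2
    rw [mul01, nn00, nn01]
    have : 1 * y.1 0 1 + -1 * y.1 1 1 = (y.1 0 1 - 1) - (y.1 1 1 - 1) := by ring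
    rw [this]
    exact v.map_sub_lt e3 e4

/-- the sum over the three neighbours -/
theorem nbr_sum {φ : GL (Fin 2) k → ℂ} (hφ : ∀ x, ∀ κ ∈ intGL v, φ (x * κ) = φ x)
    (x : GL (Fin 2) k) {u : GL (Fin 2) k} (hu : u ∈ intGL v) :
    φ (x * u * dd P) + φ (x * u * ss * dd P) + φ (x * u * nn 1 * dd P) =
      φ (x * dd P) + φ (x * ss * dd P) + φ (x * nn 1 * dd P) := by
  have hu' := (mem_int v).1 hu
  have e1 := nbr_val hres hP hφ x hu
  have e2 := nbr_val hres hP hφ x (mul_mem hu (ss_int v))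
  have e3 := nbr_val hres hP hφ x (mul_mem hu (nn_int v (b := 1) (by simp)))
  rw [← mul_assoc] at e2 e3
  rw [e1, e2, e3]
  simp only [mul01, mul11, ss01, ss11, nn01, nn11, mul_one, mul_zero, add_zero]
  rw [rs_add hres hu'.1.1 hu'.1.2.1, rs_add hres hu'.1.2.2.1 hu'.1.2.2.2]
  have hd : rs v (u.1 0 0 * u.1 1 1 - u.1 0 1 * u.1 1 0) = 1 := by
    apply rs_one
    rw [hu'.2]
    exact lt_irrefl _
  have hd2 : rs v (u.1 0 0) * rs v (u.1 1 1) + rs v (u.1 0 1) * rs v (u.1 1 0) = 1 := by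
    have h1 : v (u.1 0 0 * u.1 1 1) ≤ 1 := by
      rw [map_mul]; exact mul_le_one' hu'.1.1 hu'.1.2.2.2
    have h2 : v (u.1 0 1 * u.1 1 0) ≤ 1 := by
      rw [map_mul]; exact mul_le_one' hu'.1.2.1 hu'.1.2.2.1
    have h3 : rs v (-(u.1 0 1 * u.1 1 0)) = rs v (u.1 0 1 * u.1 1 0) := by
      rw [rs, rs, Valuation.map_neg]
    rw [sub_eq_add_neg, rs_add hres h1 (by rw [Valuation.map_neg]; exact h2), h3,
      rs_mul hres hu'.1.1 hu'.1.2.2.2, rs_mul hres hu'.1.2.1 hu'.1.2.2.1] at hd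
    exact hd
  generalize rs v (u.1 0 0) = a at *
  generalize rs v (u.1 0 1) = b at *
  generalize rs v (u.1 1 0) = c at *
  generalize rs v (u.1 1 1) = d at *
  generalize φ (x * dd P) = X1
  generalize φ (x * ss * dd P) = X2
  generalize φ (x * nn 1 * dd P) = X3
  have hz : ∀ a : ZMod 2, a = 0 ∨ a = 1 := by decide
  have h11 : (1 : ZMod 2) + 1 = 0 := by decide
  rcases hz a with rfl | rfl <;> rcases hz b with rfl | rfl <;> rcases hz c with rfl | rfl <;>
    rcases hz d with rfl | rfl <;> simp [h11] at hd2 ⊢ <;> ring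

end nbr

/-! ## The functions on `GL₂(𝔽₂[t]) \ GL₂(K_∞)` -/

section fin

/-- `t` as a unit of `K_∞` -/
noncomputable def TT : Kinfˣ := piInf⁻¹

theorem vTT : vinf (TT : Kinf) = exp (1 : ℤ) := by
  rw [TT, Units.val_inv_eq_inv_val, map_inv₀, unif, ← exp_neg]
  rfl

theorem J_X : J X = (TT : Kinf) := by
  rw [TT, Units.val_inv_eq_inv_val, piInf_coe, inv_inv]

theorem jR_eq : jR = Matrix.GeneralLinearGroup.map J := rfl

/-- the class of an element -/
noncomputable def cl (x : Ginf) : ℕ := Classical.choose (cls_exists vTT dec x)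

theorem cl_spec (x : Ginf) : Cls vinf J TT x (cl x) :=
  Classical.choose_spec (cls_exists vTT dec x)

theorem cl_eq {x : Ginf} {n : ℕ} (h : Cls vinf J TT x n) : cl x = n :=
  cls_unique vTT (fun _ h => J_disc h) (cl_spec x) h

theorem cl_dd (n : ℕ) : cl (dd (TT ^ (n : ℤ))) = n := cl_eq (cls_dd _)

section inv
variable {h : Ginf → ℂ} (hh : InvF h)
include hh

theorem val_of_cls {x : Ginf} {n : ℤ} (hx : Cls vinf J TT x n) : h x = h (dd (TT ^ n)) := by
  obtain ⟨γ, z, u, hu, rfl⟩ := hx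
  rw [hh.right _ _ hu, hh.center, ← jR_eq, hh.left]

theorem val_cl (x : Ginf) : h x = h (dd (TT ^ (cl x : ℤ))) := val_of_cls hh (cl_spec x)

theorem nb1 (n : ℤ) : h (dd (TT ^ n) * dd piInf) = h (dd (TT ^ (n - 1))) := by
  rw [← dd_mul]
  congr 2
  rw [zpow_sub_one, TT, inv_inv]

theorem nb2 (n : ℤ) : h (dd (TT ^ n) * ss * dd piInf) = h (dd (TT ^ (n + 1))) := by
  have : dd (TT ^ n) * ss * dd piInf = dd (TT ^ (n + 1)) * zz piInf * ss := by
    have h0 : (piInf : Kinf) ≠ 0 := piInf.ne_zero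
    have h1 : ((TT ^ (n + 1) : Kinfˣ) : Kinf) = ((TT ^ n : Kinfˣ) : Kinf) * (piInf : Kinf)⁻¹ := by
      rw [zpow_add_one, Units.val_mul, TT, Units.val_inv_eq_inv_val]
    apply gl_ext <;> simp only [mul00, mul01, mul10, mul11, dd00, dd01, dd10, dd11, ss00, ss01,
      ss10, ss11, zz00, zz01, zz10, zz11, mul_zero, zero_mul, add_zero, zero_add, mul_one, one_mul]
    rw [h1]; field_simp
  rw [this, hh.right _ _ (ss_int _), hh.center]

theorem nb3 (n : ℕ) : h (dd (TT ^ (n : ℤ)) * nn 1 * dd piInf) = h (dd (TT ^ ((n : ℤ) - 1))) := by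
  have : dd (TT ^ (n : ℤ)) * nn 1 * dd piInf = jR (nn (X ^ n)) * (dd (TT ^ (n : ℤ)) * dd piInf) := by
    rw [jR_eq, map_nn, map_pow, J_X, ← mul_assoc]
    congr 1
    apply gl_ext <;> simp only [mul00, mul01, mul10, mul11, dd00, dd01, dd10, dd11, nn00, nn01,
      nn10, nn11, mul_zero, zero_mul, add_zero, zero_add, mul_one, one_mul]
    rw [zpow_natCast, Units.val_pow_eq_pow_val]
  rw [this, hh.left, nb1 hh]

theorem neg_one : h (dd (TT ^ (-1 : ℤ))) = h (dd (TT ^ (1 : ℤ))) :=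
  val_of_cls hh (cls_neg (-1))

theorem sum_nb {x : Ginf} {n : ℕ} (hx : Cls vinf J TT x n) :
    h (x * dd piInf) + h (x * ss * dd piInf) + h (x * nn 1 * dd piInf) =
      2 * h (dd (TT ^ ((n : ℤ) - 1))) + h (dd (TT ^ ((n : ℤ) + 1))) := by
  obtain ⟨γ, z, u, hu, rfl⟩ := hx
  have key : ∀ r : Ginf, h (Matrix.GeneralLinearGroup.map J γ * dd (TT ^ (n : ℤ)) * zz z * u * r) =
      h (dd (TT ^ (n : ℤ)) * u * r) := by
    intro r
    have : Matrix.GeneralLinearGroup.map J γ * dd (TT ^ (n : ℤ)) * zz z * u * r =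
        jR γ * (dd (TT ^ (n : ℤ)) * u * r * zz z) := by
      rw [← jR_eq, ← zz_comm z (dd (TT ^ (n : ℤ)) * u * r)]
      simp only [← mul_assoc]
      rw [mul_assoc (jR γ) (zz z), zz_comm z]
      simp only [mul_assoc]
    rw [this, hh.left, hh.center]
  have k1 := key (dd piInf)
  have k2 := key (ss * dd piInf)
  have k3 := key (nn 1 * dd piInf)
  rw [← mul_assoc, ← mul_assoc] at k2 k3
  rw [k1, k2, k3, nbr_sum resid unif (fun x κ hκ => hh.right x κ hκ) _ hu, nb1 hh, nb2 hh, nb3 hh]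
  ring

end inv

/-- the Eisenstein function -/
noncomputable def hE (x : Ginf) : ℂ := 2 ^ (cl x + 2) - 3 * (cl x : ℂ)

theorem hE_inv : InvF hE where
  left γ x := by
    have : cl (jR γ * x) = cl x := cl_eq ((cl_spec x).left γ)
    rw [hE, hE, this]
  right x κ hκ := by
    have : cl (x * κ) = cl x := cl_eq ((cl_spec x).right hκ)
    rw [hE, hE, this]
  center x z := by
    have : cl (x * zz z) = cl x := by
      rw [← zz_comm]
      exact cl_eq ((cl_spec x).zz z)
    rw [hE, hE, this]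

theorem hE_dd (n : ℕ) : hE (dd (TT ^ (n : ℤ))) = 2 ^ (n + 2) - 3 * (n : ℂ) := by
  rw [hE, cl_dd]

end fin

end Pool.Agent.T2H06.AUT.Red

namespace Pool.Agent.T2H06.AUT

open Red

theorem r1 : R1Stmt := by
  refine ⟨hE, hE_inv, ?_, ?_⟩
  · intro x
    have h3 : hE x = 2 ^ (cl x + 2) - 3 * (cl x : ℂ) := rfl
    rw [sum_nb hE_inv (cl_spec x), h3]
    generalize cl x = n
    rcases n with _ | m
    · have h1 := hE_dd 1
      have h2 := neg_one hE_inv
      simp only [Nat.cast_zero, zero_sub, zero_add, Nat.cast_one] at h1 ⊢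
      rw [h2, h1]
      norm_num
    · have h1 := hE_dd m
      have h2 := hE_dd (m + 2)
      have e1 : ((m + 1 : ℕ) : ℤ) - 1 = (m : ℤ) := by push_cast; ring
      have e2 : ((m + 1 : ℕ) : ℤ) + 1 = ((m + 2 : ℕ) : ℤ) := by push_cast; ring
      rw [e1, e2, h1, h2]
      push_cast
      ring
  · rintro ⟨c, hc⟩
    have h0 := hE_dd 0
    have h1 := hE_dd 1
    have h2 := neg_one hE_inv
    have c1 := hc (dd (TT ^ (0 : ℤ)))
    have c2 := hc (dd (TT ^ (1 : ℤ)))
    rw [nb1 hE_inv] at c1 c2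
    simp only [Nat.cast_zero, Nat.cast_one, zero_sub, sub_self] at h0 h1 c1 c2
    rw [h2, h1, h0] at c1
    rw [h1, h0, ← c1] at c2
    norm_num at c2

theorem r2 : R2Stmt := by
  intro u hu hs x y
  have step : ∀ n : ℕ, u (dd (TT ^ ((n + 1 : ℕ) : ℤ))) = u (dd (TT ^ (n : ℤ))) := by
    intro n
    induction n with
    | zero =>
      have h1 := hs (dd (TT ^ (0 : ℤ)))
      have h2 := sum_nb hu (n := 0) (x := dd (TT ^ (0 : ℤ))) (cls_dd _)
      rw [h1] at h2
      simp only [Nat.cast_zero, zero_sub, zero_add, neg_one hu, Nat.cast_one] at h2 ⊢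
      linear_combination (-1 / 3 : ℂ) * h2
    | succ m ih =>
      have h1 := hs (dd (TT ^ ((m + 1 : ℕ) : ℤ)))
      have h2 := sum_nb hu (n := m + 1) (x := dd (TT ^ ((m + 1 : ℕ) : ℤ))) (cls_dd _)
      rw [h1] at h2
      have e1 : ((m + 1 : ℕ) : ℤ) - 1 = (m : ℤ) := by push_cast; ring
      have e2 : ((m + 1 : ℕ) : ℤ) + 1 = ((m + 1 + 1 : ℕ) : ℤ) := by push_cast; ring
      rw [e1, e2] at h2
      linear_combination 2 * ih - h2
  have all : ∀ n : ℕ, u (dd (TT ^ (n : ℤ))) = u (dd (TT ^ ((0 : ℕ) : ℤ))) := by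
    intro n
    induction n with
    | zero => rfl
    | succ m ih => rw [step m, ih]
  rw [val_cl hu x, val_cl hu y, all (cl x), all (cl y)]

theorem d1 : D1Stmt := ⟨Red.unif, Red.resid⟩

end Pool.Agent.T2H06.AUT
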