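import Pool.Agent.T2H06.AUT.S

/-!
# Package S: integral points, finite index, openness
-/

set_option autoImplicit false

open Polynomial IsDedekindDomain

namespace Pool.Agent.T2H06.AUT

theorem mem_R {x : K} (h : ∀ v : Pl, vv v (x : Kv v) ≤ 1) : ∃ r : R, algebraMap R K r = x := by
  refine HeightOneSpectrum.mem_integers_of_valuation_le_one K x fun v => ?_
  rw [← HeightOneSpectrum.valuedAdicCompletion_eq_valuation' v]
  exact h v

theorem s2 : S2Stmt := by
  intro γ hγ
  choose r hr using fun i j => mem_R (fun v => (hγ v).1 i j)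
  have hdet : ∀ v : Pl, vv v ((γ.1.det : K) : Kv v) = 1 := by
    intro v
    have := (hγ v).2
    have e : (evG v (Matrix.GeneralLinearGroup.map (algebraMap K Af) γ)).1.det =
        ((γ.1.det : K) : Kv v) := by
      rw [Matrix.det_fin_two, Matrix.det_fin_two, T2H23.LL.coe_sub', T2H23.LL.coe_mul',
        T2H23.LL.coe_mul']
      rfl
    rw [← e]; exact this
  have hdet0 : γ.1.det ≠ 0 := (Matrix.isUnits_det_units γ).ne_zero
  obtain ⟨d, hd⟩ := mem_R (x := (γ.1.det)⁻¹) fun v => by
    have e : (((γ.1.det)⁻¹ : K) : Kv v) = ((γ.1.det : K) : Kv v)⁻¹ :=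
      map_inv₀ (algebraMap K (Kv v)) _
    rw [e, map_inv₀, hdet v, inv_one]
  let M : Matrix (Fin 2) (Fin 2) R := fun i j => r i j
  have hM : (algebraMap R K).mapMatrix M = γ.1 := Matrix.ext fun i j => hr i j
  have hMd : algebraMap R K M.det = γ.1.det := by
    rw [RingHom.map_det, hM]
  have hu : IsUnit M.det := by
    refine IsUnit.of_mul_eq_one d ?_
    apply IsFractionRing.injective R K
    rw [map_mul, hMd, hd, map_one, mul_inv_cancel₀ hdet0]
  refine ⟨Matrix.GeneralLinearGroup.mk'' M hu, ?_⟩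
  apply Units.ext
  exact hM

theorem continuous_val : Continuous fun g : Gf => g.1 := Units.continuous_val

theorem isOpen_integral : IsOpen {a : Af | ∀ v, vv v (a v) ≤ 1} := by
  have h := RestrictedProduct.isOpen_forall_mem (R := fun v : Pl => Kv v)
    (A := fun v : Pl => (v.adicCompletionIntegers K : Set (Kv v)))
    (fun v => Valued.isOpen_valuationSubring _)
  exact h

theorem mem_Kf_iff (g : Gf) : g ∈ Kf ↔ (∀ i j v, vv v (g.1 i j v) ≤ 1) ∧
    (∀ i j v, vv v (g⁻¹.1 i j v) ≤ 1) := by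
  constructor
  · intro h
    exact ⟨fun i j v => (h v).1 i j, fun i j v => (inv_mem h v).1 i j⟩
  · rintro ⟨h1, h2⟩ v
    refine ⟨fun i j => h1 i j v, ?_⟩
    have hle : ∀ x : Gf, (∀ i j v, vv v (x.1 i j v) ≤ 1) → vv v ((evG v x).1.det) ≤ 1 := by
      intro x hx
      rw [Matrix.det_fin_two]
      refine (Valuation.map_sub _ _ _).trans (max_le ?_ ?_)
      · rw [map_mul]; exact mul_le_one' (hx _ _ v) (hx _ _ v)
      · rw [map_mul]; exact mul_le_one' (hx _ _ v) (hx _ _ v)
    have hmul : vv v ((evG v g).1.det) * vv v ((evG v g⁻¹).1.det) = 1 := by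
      rw [← map_mul, ← Matrix.det_mul, ← Units.val_mul, ← map_mul, mul_inv_cancel, map_one]
      simp
    refine le_antisymm (hle g h1) ?_
    have h3 := hle g⁻¹ h2
    calc (1 : WithZero (Multiplicative ℤ)) = vv v ((evG v g).1.det) * vv v ((evG v g⁻¹).1.det) := hmul.symm
      _ ≤ vv v ((evG v g).1.det) * 1 := mul_le_mul_right h3 _
      _ = _ := mul_one _

theorem s4 : S4Stmt := by
  have e : (Kf : Set Gf) = (⋂ i, ⋂ j, {g : Gf | ∀ v, vv v (g.1 i j v) ≤ 1}) ∩
      ⋂ i, ⋂ j, {g : Gf | ∀ v, vv v (g⁻¹.1 i j v) ≤ 1} := by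
    ext g
    simp only [SetLike.mem_coe, mem_Kf_iff, Set.mem_inter_iff, Set.mem_iInter, Set.mem_ofPred_eq]
  unfold S4Stmt
  rw [e]
  have hc : ∀ i j, Continuous fun g : Gf => g.1 i j := fun i j =>
    continuous_val.matrix_elem i j
  have hc' : ∀ i j, Continuous fun g : Gf => g⁻¹.1 i j := fun i j =>
    (hc i j).comp continuous_inv
  refine IsOpen.inter ?_ ?_
  · exact isOpen_iInter_of_finite fun i => isOpen_iInter_of_finite fun j =>
      isOpen_integral.preimage (hc i j)
  · exact isOpen_iInter_of_finite fun i => isOpen_iInter_of_finite fun j =>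
      isOpen_integral.preimage (hc' i j)

/-- The residue class ring modulo a nonzero polynomial is finite. -/
theorem finite_quot (D : R) (hD : D ≠ 0) : Finite (R ⧸ Ideal.span {D}) := by
  have : Module.Finite (ZMod 2) (AdjoinRoot D) := (AdjoinRoot.powerBasis hD).finite
  exact Module.finite_of_finite (ZMod 2) (M := AdjoinRoot D)

/-- A common denominator of the entries of a matrix. -/
theorem exists_denom (g : Gf) : ∃ d : R, d ≠ 0 ∧
    ∀ i j (v : Pl), vv v (g.1 i j v * ((algebraMap R K d : K) : Kv v)) ≤ 1 := by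
  choose d hd0 hd using fun i j => T2H23.LL.exists_mul_integral (g.1 i j)
  refine ⟨∏ i, ∏ j, d i j, Finset.prod_ne_zero_iff.2 fun i _ => Finset.prod_ne_zero_iff.2
    fun j _ => hd0 i j, fun i j v => ?_⟩
  have h1 : d i j ∣ ∏ i, ∏ j, d i j :=
    (Finset.dvd_prod_of_mem (fun j => d i j) (Finset.mem_univ j)).trans
      (Finset.dvd_prod_of_mem (fun i => ∏ j, d i j) (Finset.mem_univ i))
  obtain ⟨c, hc⟩ := h1
  rw [hc, map_mul (algebraMap R K), T2H23.LL.coe_mul', ← mul_assoc, map_mul]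
  exact mul_le_one' (hd i j v) (HeightOneSpectrum.coe_algebraMap_mem R K v c)

theorem s3 : S3Stmt := by
  classical
  intro g
  obtain ⟨d1, hd1, h1⟩ := exists_denom g
  obtain ⟨d2, hd2, h2⟩ := exists_denom g⁻¹
  set D : R := d1 * d2 with hDdef
  have hD : D ≠ 0 := mul_ne_zero hd1 hd2
  have hDK : algebraMap R K D ≠ 0 := by
    rwa [Ne, IsFractionRing.to_map_eq_zero_iff]
  -- reduction modulo `D`
  have hred : ∀ a : Af, (∀ v, vv v (a v) ≤ 1) → ∃ r : R, ∀ v : Pl,
      vv v (a v - ((algebraMap R K r : K) : Kv v)) ≤ vv v ((algebraMap R K D : K) : Kv v) := by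
    intro a ha
    obtain ⟨k, hk⟩ := T2H23.LL.exists_sub_integral (K := K) (a * algebraMap K Af (algebraMap R K D)⁻¹)
    have hk' : ∀ v : Pl, vv v (a v - ((k * algebraMap R K D : K) : Kv v)) ≤
        vv v ((algebraMap R K D : K) : Kv v) := by
      intro v
      have hDv : ((algebraMap R K D : K) : Kv v) ≠ 0 := T2H23.LL.coe_ne_zero' v hDK
      have e : a v - ((k * algebraMap R K D : K) : Kv v) =
          ((a * algebraMap K Af (algebraMap R K D)⁻¹) v - (k : Kv v)) *
            ((algebraMap R K D : K) : Kv v) := by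
        have e1 : ((algebraMap K Af (algebraMap R K D)⁻¹) v : Kv v) =
          ((algebraMap R K D : K) : Kv v)⁻¹ := map_inv₀ (algebraMap K (Kv v)) _
        rw [Af_mul, e1, T2H23.LL.coe_mul', sub_mul, mul_assoc, inv_mul_cancel₀ hDv, mul_one]
      rw [e, map_mul]
      exact (mul_le_mul_left (hk v) _).trans (by rw [one_mul])
    obtain ⟨r, hr⟩ := mem_R (x := k * algebraMap R K D) fun v => by
      have e : ((k * algebraMap R K D : K) : Kv v) =
        a v - (a v - ((k * algebraMap R K D : K) : Kv v)) := by ring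
      rw [e]
      exact (Valuation.map_sub _ _ _).trans (max_le (ha v)
        ((hk' v).trans (HeightOneSpectrum.coe_algebraMap_mem R K v D)))
    exact ⟨r, fun v => by rw [hr]; exact hk' v⟩
  choose! red hredv using hred
  have hfin := finite_quot D hD
  have hfin2 : Finite (Fin 2 → Fin 2 → R ⧸ Ideal.span {D}) := inferInstance
  let Φ : Kf → (Fin 2 → Fin 2 → R ⧸ Ideal.span {D}) := fun κ i j =>
    Ideal.Quotient.mk _ (red (κ.1.1 i j))
  have hΦ : ∀ κ κ' : Kf, Φ κ = Φ κ' → ∀ i j (v : Pl),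
      vv v (κ'.1.1 i j v - κ.1.1 i j v) ≤ vv v ((algebraMap R K D : K) : Kv v) := by
    intro κ κ' h i j v
    have h3 := congrFun (congrFun h i) j
    have h4 : red (κ.1.1 i j) - red (κ'.1.1 i j) ∈ Ideal.span {D} :=
      (Ideal.Quotient.mk_eq_mk_iff_sub_mem _ _).1 h3
    obtain ⟨c, hc⟩ := Ideal.mem_span_singleton'.1 h4
    have e : κ'.1.1 i j v - κ.1.1 i j v =
        (κ'.1.1 i j v - ((algebraMap R K (red (κ'.1.1 i j)) : K) : Kv v)) -
        (κ.1.1 i j v - ((algebraMap R K (red (κ.1.1 i j)) : K) : Kv v)) -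
        ((algebraMap R K c : K) : Kv v) * ((algebraMap R K D : K) : Kv v) := by
      rw [← T2H23.LL.coe_mul', ← map_mul, hc, map_sub, T2H23.LL.coe_sub']; ring
    rw [e]
    refine (Valuation.map_sub _ _ _).trans (max_le ((Valuation.map_sub _ _ _).trans (max_le ?_ ?_)) ?_)
    · exact hredv _ (fun v => (κ'.2 v).1 i j) v
    · exact hredv _ (fun v => (κ.2 v).1 i j) v
    · rw [map_mul]
      exact (mul_le_mul_left (HeightOneSpectrum.coe_algebraMap_mem R K v c) _).trans
        (by rw [one_mul])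
  have hint : ∀ κ κ' : Kf, Φ κ = Φ κ' → ∀ i j (v : Pl),
      vv v ((g⁻¹ * (κ.1⁻¹ * κ'.1) * g).1 i j v) ≤ 1 := by
    intro κ κ' h i j v
    have hmat : (g⁻¹ * (κ.1⁻¹ * κ'.1) * g).1 =
        1 + g⁻¹.1 * (κ.1⁻¹.1 * (κ'.1.1 - κ.1.1)) * g.1 := by
      have e1 : κ.1⁻¹.1 * (κ'.1.1 - κ.1.1) = κ.1⁻¹.1 * κ'.1.1 - 1 := by
        rw [mul_sub, ← Units.val_mul κ.1⁻¹ κ.1, inv_mul_cancel, Units.val_one]
      rw [e1, mul_sub, sub_mul, mul_one, ← Units.val_mul g⁻¹ g, inv_mul_cancel, Units.val_one,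
        Units.val_mul, Units.val_mul, Units.val_mul]
      abel
    rw [hmat, Matrix.add_apply, Af_add]
    refine (Valuation.map_add _ _ _).trans (max_le ?_ ?_)
    · by_cases hij : i = j
      · subst hij; rw [Matrix.one_apply_eq, Af_one, map_one]
      · rw [Matrix.one_apply_ne hij, Af_zero, map_zero]; exact zero_le
    · have hDv : vv v ((algebraMap R K D : K) : Kv v) =
          vv v ((algebraMap R K d2 : K) : Kv v) * vv v ((algebraMap R K d1 : K) : Kv v) := by
        rw [hDdef, map_mul (algebraMap R K), T2H23.LL.coe_mul', map_mul, mul_comm]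
      -- the entries of the middle factor
      have hmid : ∀ a b, vv v ((κ.1⁻¹.1 * (κ'.1.1 - κ.1.1)) a b v) ≤
          vv v ((algebraMap R K D : K) : Kv v) := by
        intro a b
        rw [Matrix.mul_apply, Fin.sum_univ_two, Af_add, Af_mul, Af_mul]
        refine (Valuation.map_add _ _ _).trans (max_le ?_ ?_)
        · rw [map_mul]
          refine (mul_le_mul' ((inv_mem κ.2 v).1 a 0) (hΦ κ κ' h 0 b v)).trans (by rw [one_mul])
        · rw [map_mul]
          refine (mul_le_mul' ((inv_mem κ.2 v).1 a 1) (hΦ κ κ' h 1 b v)).trans (by rw [one_mul])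
      rw [Matrix.mul_apply, Fin.sum_univ_two, Af_add, Af_mul, Af_mul]
      have hterm : ∀ c, vv v ((g⁻¹.1 * (κ.1⁻¹.1 * (κ'.1.1 - κ.1.1))) i c v) ≤
          vv v ((algebraMap R K d1 : K) : Kv v) := by
        intro c
        rw [Matrix.mul_apply, Fin.sum_univ_two, Af_add, Af_mul, Af_mul]
        have hone : ∀ a, vv v (g⁻¹.1 i a v * (κ.1⁻¹.1 * (κ'.1.1 - κ.1.1)) a c v) ≤
            vv v ((algebraMap R K d1 : K) : Kv v) := by
          intro a
          rw [map_mul]
          refine (mul_le_mul' le_rfl (hmid a c)).trans ?_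
          rw [hDv, ← mul_assoc, ← map_mul]
          exact (mul_le_mul_left (h2 i a v) _).trans (by rw [one_mul])
        exact (Valuation.map_add _ _ _).trans (max_le (hone 0) (hone 1))
      have hfin : ∀ c, vv v ((g⁻¹.1 * (κ.1⁻¹.1 * (κ'.1.1 - κ.1.1))) i c v * g.1 c j v) ≤ 1 := by
        intro c
        rw [map_mul]
        refine (mul_le_mul' (hterm c) le_rfl).trans ?_
        rw [mul_comm, ← map_mul]
        exact h1 c j v
      exact (Valuation.map_add _ _ _).trans (max_le (hfin 0) (hfin 1))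
  have hfinq : Finite (Kf ⧸ (Kf ⊓ Kf.map (MulAut.conj g).toMonoidHom).subgroupOf Kf) := by
    refine Finite.of_injective (fun c => Φ c.out) ?_
    intro a b hab
    have hab' : Φ a.out = Φ b.out := hab
    have key : ((a.out : Kf) : Kf ⧸ (Kf ⊓ Kf.map (MulAut.conj g).toMonoidHom).subgroupOf Kf) =
        ((b.out : Kf) : Kf ⧸ (Kf ⊓ Kf.map (MulAut.conj g).toMonoidHom).subgroupOf Kf) := by
      rw [QuotientGroup.eq, Subgroup.mem_subgroupOf]
      refine ⟨(a.out⁻¹ * b.out).2, ?_⟩
      refine ⟨g⁻¹ * ((a.out).1⁻¹ * (b.out).1) * g, ?_, ?_⟩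
      · rw [SetLike.mem_coe, mem_Kf_iff]
        refine ⟨fun i j v => hint _ _ hab' i j v, fun i j v => ?_⟩
        have e : (g⁻¹ * ((a.out).1⁻¹ * (b.out).1) * g)⁻¹ =
            g⁻¹ * ((b.out).1⁻¹ * (a.out).1) * g := by group
        rw [e]
        exact hint _ _ hab'.symm i j v
      · simp only [MulEquiv.toMonoidHom_eq_coe, MonoidHom.coe_coe, MulAut.conj_apply,
          Subgroup.coe_mul, InvMemClass.coe_inv]
        group
    exact (QuotientGroup.out_eq' a).symm.trans (key.trans (QuotientGroup.out_eq' b))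
  exact Subgroup.index_ne_zero_of_finite

end Pool.Agent.T2H06.AUT
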