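import Pool.Agent.T2H06.AUT.Defs4
import Pool.Agent.T2H06.AUT.S2
import Pool.Agent.T2H06.AUT.Red

/-!
# PACKAGE F: the group `𝔸_K / (K + C)` is finite for every open subgroup `C`
-/

set_option autoImplicit false

open Polynomial IsDedekindDomain WithZero Topology

namespace Pool.Agent.T2H06.AUT.FF

theorem nhd_zero {F : Type} [Field F] [hv : Valued F (WithZero (Multiplicative ℤ))] {s : Set F}
    (hs : s ∈ 𝓝 (0 : F)) : ∃ n : ℕ, ∀ x : F, Valued.v x < exp (-(n : ℤ)) → x ∈ s := by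
  rw [Valued.mem_nhds_zero] at hs
  obtain ⟨γ, hγ⟩ := hs
  set g := MonoidWithZeroHom.ValueGroup₀.embedding γ.1 with hg
  have hg0 : g ≠ 0 := by
    rw [hg]
    simp
  refine ⟨(-(log g)).toNat, fun x hx => hγ ?_⟩
  show (Valued.v (R := F)).restrict x < γ.1
  rw [Valuation.restrict_lt_iff_lt_embedding, ← hg]
  have h1 : exp (-(((-(log g)).toNat : ℕ) : ℤ)) ≤ exp (log g) := by
    rw [exp_le_exp]
    omega
  rw [exp_log hg0] at h1
  exact hx.trans_le h1

theorem exists_gen (v : Pl) (n : ℕ) : ∃ d : R, d ≠ 0 ∧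
    vv v ((algebraMap R K d : K) : Kv v) < exp (-(n : ℤ)) := by
  obtain ⟨p, hp⟩ := (IsPrincipalIdealRing.principal v.asIdeal).principal
  have hp' : v.asIdeal = Ideal.span {p} := hp
  have hp0 : p ≠ 0 := by
    rintro rfl
    exact v.ne_bot (by simpa using hp')
  refine ⟨p ^ (n + 1), pow_ne_zero _ hp0, ?_⟩
  have h1 := T2H23.LL.valuation_generator (K := K) v hp'
  rw [HeightOneSpectrum.valuedAdicCompletion_eq_valuation' v, map_pow, map_pow, h1, ← exp_nsmul,
    exp_lt_exp]
  simp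

theorem exists_d (U : Set Af) (hU : IsOpen U) (h0 : (0 : Af) ∈ U) : ∃ d : R, d ≠ 0 ∧
    ∀ a : Af, (∀ v, vv v (a v) ≤ vv v ((algebraMap R K d : K) : Kv v)) → a ∈ U := by
  classical
  have hopen : ∀ v : Pl, IsOpen ((v.adicCompletionIntegers K : Set (Kv v))) :=
    fun v => Valued.isOpen_valuationSubring _
  have h1 : {x : ∀ v : Pl, (v.adicCompletionIntegers K : Set (Kv v)) |
      (RestrictedProduct.structureMap (fun v : Pl => Kv v)
        (fun v : Pl => (v.adicCompletionIntegers K : Set (Kv v))) Filter.cofinite x : Af) ∈ U} ∈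
      𝓝 (fun v => ⟨0, zero_mem (v.adicCompletionIntegers K)⟩) := by
    have hc := (RestrictedProduct.isOpenEmbedding_structureMap (R := fun v : Pl => Kv v)
      (A := fun v : Pl => (v.adicCompletionIntegers K : Set (Kv v))) hopen).continuous
    exact (hU.preimage hc).mem_nhds h0
  rw [nhds_pi, Filter.mem_pi] at h1
  obtain ⟨I, hI, t, ht, hsub⟩ := h1
  have h2 : ∀ v : Pl, ∃ d : R, d ≠ 0 ∧ ∀ y : Kv v, ∀ hy : y ∈ (v.adicCompletionIntegers K),
      vv v y ≤ vv v ((algebraMap R K d : K) : Kv v) → (⟨y, hy⟩ : (v.adicCompletionIntegers K : Set (Kv v))) ∈ t v := by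
    intro v
    have h3 := ht v
    rw [mem_nhds_subtype] at h3
    obtain ⟨u, hu, hu2⟩ := h3
    obtain ⟨n, hn⟩ := nhd_zero hu
    obtain ⟨d, hd0, hd⟩ := exists_gen v n
    exact ⟨d, hd0, fun y hy hyd => hu2 (hn y (hyd.trans_lt hd))⟩
  choose d hd0 hd using h2
  refine ⟨∏ v ∈ hI.toFinset, d v, Finset.prod_ne_zero_iff.2 fun v _ => hd0 v, fun a ha => ?_⟩
  have hle1 : ∀ (v : Pl) (r : R), vv v ((algebraMap R K r : K) : Kv v) ≤ 1 := fun v r =>
    HeightOneSpectrum.coe_algebraMap_mem R K v r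
  have ha1 : ∀ v, a v ∈ v.adicCompletionIntegers K := fun v => (ha v).trans (hle1 v _)
  have h4 : (fun v => (⟨a v, ha1 v⟩ : (v.adicCompletionIntegers K : Set (Kv v)))) ∈ I.pi t := by
    intro v hv
    refine hd v _ (ha1 v) ((ha v).trans ?_)
    rw [← Finset.mul_prod_erase _ _ (hI.mem_toFinset.2 hv), map_mul (algebraMap R K),
      T2H23.LL.coe_mul', map_mul]
    exact mul_le_of_le_one_right' (hle1 v _)
  exact hsub h4

open Red in
theorem repr (C : AddSubgroup Ad) (hC : IsOpen (C : Set Ad)) : ∃ (L n : ℕ), ∀ a : Ad,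
    ∃ p : R, p.natDegree < L ∧ ∃ k : K, ∃ c ∈ C, a - ((0 : Af), J p * ((J X) ^ n)⁻¹) = diagK k + c := by
  obtain ⟨d, hd0, hd⟩ := exists_d {a : Af | ((a, 0) : Ad) ∈ C}
    (hC.preimage (Continuous.prodMk_left (0 : Kinf))) C.zero_mem
  have hW : {z : Kinf | ((0, z) : Ad) ∈ C} ∈ 𝓝 (0 : Kinf) :=
    (hC.preimage (Continuous.prodMk_right (0 : Af))).mem_nhds C.zero_mem
  obtain ⟨n, hn⟩ := nhd_zero hW
  refine ⟨d.natDegree + n + 1, n, ?_⟩
  rintro ⟨x, y⟩
  have hdK : algebraMap R K d ≠ 0 := by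
    rwa [Ne, IsFractionRing.to_map_eq_zero_iff]
  have hJd : J d ≠ 0 := by
    intro h
    exact hd0 (J_disc (by rw [h, map_zero]; exact zero_lt_one))
  have hJX : J X ≠ 0 := by
    intro h
    exact X_ne_zero (J_disc (r := X) (by rw [h, map_zero]; exact zero_lt_one))
  obtain ⟨k1, hk1⟩ := T2H23.LL.exists_sub_integral (R := R) (K := K)
    (x * algebraMap K Af (algebraMap R K d)⁻¹)
  obtain ⟨q, hq⟩ := dec ((y - algebraMap K Kinf (algebraMap R K d * k1)) * (J d)⁻¹)
  set k : K := algebraMap R K d * k1 + algebraMap R K d * algebraMap R K q with hk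
  obtain ⟨p, hp⟩ := dec ((y - algebraMap K Kinf k) * (J X) ^ n)
  have hfin : (((x - algebraMap K Af k), 0) : Ad) ∈ C := by
    apply hd
    intro v
    have hdv : ((algebraMap R K d : K) : Kv v) ≠ 0 := T2H23.LL.coe_ne_zero' v hdK
    have h1 := hk1 v
    have h2 : vv v ((algebraMap R K q : K) : Kv v) ≤ 1 := HeightOneSpectrum.coe_algebraMap_mem R K v q
    have e1 : (x * algebraMap K Af (algebraMap R K d)⁻¹) v =
        x v * ((algebraMap R K d : K) : Kv v)⁻¹ := by
      rw [Af_mul]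
      congr 1
      exact map_inv₀ (algebraMap K (Kv v)) _
    rw [e1] at h1
    have e2 : (x - algebraMap K Af k) v = ((algebraMap R K d : K) : Kv v) *
        ((x v * ((algebraMap R K d : K) : Kv v)⁻¹ - (k1 : Kv v)) -
          ((algebraMap R K q : K) : Kv v)) := by
      rw [Af_sub]
      have e3 : (algebraMap K Af k) v = ((algebraMap R K d : K) : Kv v) * (k1 : Kv v) +
          ((algebraMap R K d : K) : Kv v) * ((algebraMap R K q : K) : Kv v) := by
        show algebraMap K (Kv v) k = _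
        rw [hk, map_add, map_mul, map_mul]
        rfl
      rw [e3]
      field_simp
      ring
    rw [e2, map_mul]
    exact mul_le_of_le_one_right' ((Valuation.map_sub_le _ h1 h2))
  have hy3 : vinf (y - algebraMap K Kinf k) < exp (d.natDegree : ℤ) := by
    have e : y - algebraMap K Kinf k =
        ((y - algebraMap K Kinf (algebraMap R K d * k1)) * (J d)⁻¹ - J q) * J d := by
      rw [sub_mul, mul_assoc, inv_mul_cancel₀ hJd, mul_one, hk, map_add,
        map_mul (algebraMap K Kinf) (algebraMap R K d) (algebraMap R K q)]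
      show _ = _ - J q * J d
      rw [mul_comm (J q)]
      show _ = _ - algebraMap K Kinf (algebraMap R K d) * algebraMap K Kinf (algebraMap R K q)
      ring
    rw [e, map_mul, vJ hd0]
    calc _ < 1 * exp (d.natDegree : ℤ) := by
          apply mul_lt_mul_of_pos_right hq
          exact exp_pos
      _ = _ := one_mul _
  have hJXn : vinf ((J X) ^ n) = exp (n : ℤ) := by
    rw [map_pow, vJ X_ne_zero, natDegree_X, ← exp_nsmul]
    simp
  have hinf : (((0 : Af), y - algebraMap K Kinf k - J p * ((J X) ^ n)⁻¹) : Ad) ∈ C := by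
    apply hn
    have e : y - algebraMap K Kinf k - J p * ((J X) ^ n)⁻¹ =
        ((y - algebraMap K Kinf k) * (J X) ^ n - J p) * ((J X) ^ n)⁻¹ := by
      rw [sub_mul, mul_assoc, mul_inv_cancel₀ (pow_ne_zero _ hJX), mul_one]
    rw [e, map_mul, map_inv₀, hJXn, ← exp_neg]
    calc _ < 1 * exp (-(n : ℤ)) := by
          apply mul_lt_mul_of_pos_right hp
          exact exp_pos
      _ = _ := one_mul _
  refine ⟨p, ?_, k, _, C.add_mem hfin hinf, ?_⟩
  · by_cases hp0 : p = 0
    · rw [hp0]; simp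
    · have h1 : vinf (J p) < exp ((d.natDegree : ℤ) + n + 1) := by
        have e : J p = (y - algebraMap K Kinf k) * (J X) ^ n -
            ((y - algebraMap K Kinf k) * (J X) ^ n - J p) := by ring
        rw [e]
        refine Valuation.map_sub_lt _ ?_ ?_
        · rw [map_mul, hJXn]
          calc _ < exp (d.natDegree : ℤ) * exp (n : ℤ) := by
                apply mul_lt_mul_of_pos_right hy3
                exact exp_pos
            _ = exp ((d.natDegree : ℤ) + n) := by rw [exp_add]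
            _ < _ := by rw [exp_lt_exp]; omega
        · refine hp.trans ?_
          rw [← exp_zero, exp_lt_exp]
          omega
      rw [vJ hp0, exp_lt_exp] at h1
      omega
  · apply Prod.ext
    · show x - 0 = algebraMap K Af k + ((x - algebraMap K Af k) + 0)
      ring
    · show y - J p * ((J X) ^ n)⁻¹ = algebraMap K Kinf k +
        (0 + (y - algebraMap K Kinf k - J p * ((J X) ^ n)⁻¹))
      ring

theorem finite_deg (L : ℕ) : Finite {p : R // p.natDegree < L} := by
  refine Finite.of_injective (fun p => fun i : Fin L => p.1.coeff i) ?_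
  rintro ⟨p, hp⟩ ⟨q, hq⟩ h
  apply Subtype.ext
  show p = q
  ext i
  by_cases hi : i < L
  · exact congrFun h ⟨i, hi⟩
  · rw [coeff_eq_zero_of_natDegree_lt (by omega), coeff_eq_zero_of_natDegree_lt (by omega)]

end Pool.Agent.T2H06.AUT.FF

namespace Pool.Agent.T2H06.AUT

/-- PACKAGE F. -/
theorem f1 : F1Stmt := by
  classical
  intro C hC
  obtain ⟨L, n, h⟩ := FF.repr C hC
  let H : AddSubgroup Ad := diagK.toAddMonoidHom.range ⊔ C
  have hH : ∀ a : Ad, a ∈ H ↔ ∃ k : K, ∃ c ∈ C, a = diagK k + c := by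
    intro a
    rw [AddSubgroup.mem_sup]
    constructor
    · rintro ⟨_, ⟨k, rfl⟩, c, hc, rfl⟩
      exact ⟨k, c, hc, rfl⟩
    · rintro ⟨k, c, hc, rfl⟩
      exact ⟨_, ⟨k, rfl⟩, c, hc, rfl⟩
  have hfin : Finite (Ad ⧸ H) := by
    have := FF.finite_deg L
    refine Finite.of_surjective (fun p : {p : R // p.natDegree < L} =>
      (((0 : Af), Red.J p.1 * ((Red.J X) ^ n)⁻¹) : Ad ⧸ H)) ?_
    intro q
    obtain ⟨a, rfl⟩ := QuotientAddGroup.mk_surjective q
    obtain ⟨p, hp, k, c, hc, hk⟩ := h a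
    refine ⟨⟨p, hp⟩, ?_⟩
    rw [QuotientAddGroup.eq, hH]
    exact ⟨k, c, hc, by rw [← hk]; abel⟩
  have := Fintype.ofFinite (Ad ⧸ H)
  refine ⟨Finset.univ.image fun q : Ad ⧸ H => q.out, fun a => ⟨(a : Ad ⧸ H).out, ?_, ?_⟩⟩
  · refine ⟨Finset.mem_image.2 ⟨_, Finset.mem_univ _, rfl⟩, ?_⟩
    rw [← hH, sub_eq_neg_add, ← QuotientAddGroup.eq, QuotientAddGroup.out_eq']
  · rintro s ⟨hs, hk⟩
    obtain ⟨q, _, rfl⟩ := Finset.mem_image.1 hs
    rw [← hH, sub_eq_neg_add, ← QuotientAddGroup.eq, QuotientAddGroup.out_eq'] at hk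
    rw [hk]

end Pool.Agent.T2H06.AUT
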