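import Pool.Agent.T2H06.AUT.G2

/-!
# Part G1: the elements of the representation generated by the cusp form are cusp forms
-/

set_option autoImplicit false

namespace Pool.Agent.T2H06.AUT

namespace G1

/-! ### Unipotent elements -/

theorem nn_add {k : Type} [CommRing k] (a b : k) : nn (a + b) = nn a * nn b := by
  refine Units.ext (Matrix.ext fun i j => ?_)
  fin_cases i <;> fin_cases j <;> simp [nn, Matrix.mul_apply, add_comm]

theorem nn_zero {k : Type} [CommRing k] : nn (0 : k) = 1 := by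
  refine Units.ext (Matrix.ext fun i j => ?_)
  fin_cases i <;> fin_cases j <;> simp [nn]

theorem nA_add (a b : Ad) : nA (a + b) = nA a * nA b :=
  Prod.ext (nn_add a.1 b.1) (nn_add a.2 b.2)

theorem nA_zero : nA 0 = 1 := Prod.ext nn_zero nn_zero

theorem nA_neg (a : Ad) : nA (-a) = (nA a)⁻¹ := by
  rw [eq_inv_iff_mul_eq_one, ← nA_add, neg_add_cancel, nA_zero]

theorem nA_diagK (k : K) : nA (diagK k) = diagG (nn k) := by
  refine Prod.ext (Units.ext (Matrix.ext fun i j => ?_)) (Units.ext (Matrix.ext fun i j => ?_))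
  · fin_cases i <;> fin_cases j <;> simp [nA, nn, diagK, diagG]
  · fin_cases i <;> fin_cases j <;> simp [nA, nn, diagK, diagG]

theorem continuous_nn {k : Type} [CommRing k] [TopologicalSpace k] [IsTopologicalRing k] :
    Continuous (nn : k → GL (Fin 2) k) := by
  rw [Units.continuous_iff]
  constructor
  · refine continuous_matrix fun i j => ?_
    fin_cases i <;> fin_cases j <;> simp [nn] <;> fun_prop
  · refine continuous_matrix fun i j => ?_
    fin_cases i <;> fin_cases j <;> simp [nn] <;> fun_prop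

theorem continuous_nA : Continuous nA :=
  (continuous_nn.comp continuous_fst).prodMk (continuous_nn.comp continuous_snd)

/-! ### The sums over the representatives -/

/-- The subgroup `K + C`. -/
noncomputable def KC (C : AddSubgroup Ad) : AddSubgroup Ad := diagK.toAddMonoidHom.range ⊔ C

theorem mem_KC {C : AddSubgroup Ad} {a : Ad} : a ∈ KC C ↔ ∃ k : K, ∃ c ∈ C, a = diagK k + c := by
  unfold KC
  rw [AddSubgroup.mem_sup]
  constructor
  · rintro ⟨_, ⟨k, rfl⟩, c, hc, rfl⟩
    exact ⟨k, c, hc, rfl⟩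
  · rintro ⟨k, c, hc, rfl⟩
    exact ⟨_, ⟨k, rfl⟩, c, hc, rfl⟩

theorem sum_zero {L : AddSubgroup Ad} {S : Finset Ad} (hS : ∀ a : Ad, ∃! s, s ∈ S ∧ a - s ∈ L)
    {F : Ad → ℂ} (hF : ∀ a, ∀ l ∈ L, F (a + l) = F a) {a₀ : Ad} (h0 : ∀ a, F (a + a₀) = - F a) :
    ∑ s ∈ S, F s = 0 := by
  choose r hr hu using hS
  have hFr : ∀ a, F (r a) = F a := by
    intro a
    have h1 := hF (r a) _ (hr a).2
    rw [← h1]
    congr 1
    abel
  have key : ∑ s ∈ S, F s = ∑ s ∈ S, F (s + a₀) := by
    symm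
    refine Finset.sum_nbij' (fun s => r (s + a₀)) (fun s => r (s - a₀)) ?_ ?_ ?_ ?_ ?_
    · intro s _
      exact (hr (s + a₀)).1
    · intro s _
      exact (hr (s - a₀)).1
    · intro s hs
      refine (hu _ s ⟨hs, ?_⟩).symm
      have h1 := L.neg_mem (hr (s + a₀)).2
      have h2 : r (s + a₀) - a₀ - s = -(s + a₀ - r (s + a₀)) := by abel
      rw [h2]
      exact h1
    · intro s hs
      refine (hu _ s ⟨hs, ?_⟩).symm
      have h1 := L.neg_mem (hr (s - a₀)).2
      have h2 : r (s - a₀) + a₀ - s = -(s - a₀ - r (s - a₀)) := by abel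
      rw [h2]
      exact h1
    · intro s _
      exact (hFr _).symm
  have h2 : ∑ s ∈ S, F s = - ∑ s ∈ S, F s := by
    conv_lhs => rw [key]
    rw [← Finset.sum_neg_distrib]
    exact Finset.sum_congr rfl fun s _ => h0 s
  have h3 : (2 : ℂ) * ∑ s ∈ S, F s = 0 := by linear_combination h2
  exact (mul_eq_zero.1 h3).resolve_left two_ne_zero

theorem cusp_of {f : G → ℂ} (hf : CuspHyp f) : CuspForm f := by
  intro x
  obtain ⟨U, hU, hinv⟩ := hf.smooth
  obtain ⟨a₀, h0⟩ := hf.flip x
  let C₀ : AddSubgroup Ad :=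
    { carrier := {c | x⁻¹ * nA c * x ∈ U}
      zero_mem' := by
        show x⁻¹ * nA 0 * x ∈ U
        rw [nA_zero, mul_one, inv_mul_cancel]
        exact one_mem _
      add_mem' := fun {a b} ha hb => by
        show x⁻¹ * nA (a + b) * x ∈ U
        have h := U.mul_mem ha hb
        have h2 : x⁻¹ * nA a * x * (x⁻¹ * nA b * x) = x⁻¹ * nA (a + b) * x := by
          rw [nA_add]; group
        rwa [h2] at h
      neg_mem' := fun {a} ha => by
        show x⁻¹ * nA (-a) * x ∈ U
        have h := U.inv_mem ha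
        have h2 : (x⁻¹ * nA a * x)⁻¹ = x⁻¹ * nA (-a) * x := by
          rw [nA_neg]; group
        rwa [h2] at h }
  refine ⟨C₀, ?_, ?_⟩
  · have hc : Continuous fun c : Ad => x⁻¹ * nA c * x :=
      (continuous_const.mul continuous_nA).mul continuous_const
    exact hU.preimage hc
  · intro C hC _ S hS
    refine sum_zero (L := KC C) (a₀ := a₀) (F := fun a => f (nA a * x)) ?_ ?_ h0
    · intro a
      obtain ⟨s, ⟨hs, hs2⟩, hu⟩ := hS a
      exact ⟨s, ⟨hs, mem_KC.2 hs2⟩, fun t ht => hu t ⟨ht.1, mem_KC.1 ht.2⟩⟩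
    · intro a l hl
      obtain ⟨k, c, hc, rfl⟩ := mem_KC.1 hl
      have h1 : nA (a + (diagK k + c)) * x = diagG (nn k) * (nA a * x * (x⁻¹ * nA c * x)) := by
        rw [← nA_diagK, show a + (diagK k + c) = diagK k + (a + c) by abel, nA_add, nA_add]
        group
      show f (nA (a + (diagK k + c)) * x) = f (nA a * x)
      rw [h1, hf.left, hinv _ (hC hc)]

/-- The functions with vanishing constant terms. -/
noncomputable def cuspFun : Submodule ℂ (G → ℂ) where
  carrier := {y | CuspForm y}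
  zero_mem' := fun _ => ⟨⊤, isOpen_univ, fun _ _ _ _ _ => Finset.sum_const_zero⟩
  add_mem' := by
    intro a b ha hb x
    obtain ⟨C₁, h1, h2⟩ := ha x
    obtain ⟨C₂, h3, h4⟩ := hb x
    refine ⟨C₁ ⊓ C₂, h1.inter h3, fun C hC hCo S hS => ?_⟩
    show ∑ s ∈ S, (a (nA s * x) + b (nA s * x)) = 0
    rw [Finset.sum_add_distrib, h2 C (hC.trans inf_le_left) hCo S hS,
      h4 C (hC.trans inf_le_right) hCo S hS, add_zero]
  smul_mem' := by
    intro c a ha x
    obtain ⟨C₁, h1, h2⟩ := ha x
    refine ⟨C₁, h1, fun C hC hCo S hS => ?_⟩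
    show ∑ s ∈ S, c * a (nA s * x) = 0
    rw [← Finset.mul_sum, h2 C hC hCo S hS, mul_zero]

theorem cuspFun_stable : Stable (rt G) cuspFun := by
  intro g y hy x
  obtain ⟨C₁, h1, h2⟩ := hy (x * g)
  refine ⟨C₁, h1, fun C hC hCo S hS => ?_⟩
  have h3 := h2 C hC hCo S hS
  rw [← h3]
  refine Finset.sum_congr rfl fun s _ => ?_
  rw [rt_apply, mul_assoc]

/-! ### Finite length -/

section
variable {f : G → ℂ} (hf : CuspHyp f) (h1 : L1Stmt) (hd : D1Stmt)
include hf h1 hd

theorem lengthLE_transl (a : Gf) : LengthLE (rt G) (GP .inf) 1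
    (orb ((rt G).comp (MonoidHom.inr Gf Ginf)) (rt G (a, 1) f)) := by
  have hst : SteinbergVector vinf piInf ((rt G).comp (MonoidHom.inr Gf Ginf))
      (rt G (a, 1) f) := by
    have hcomm : ∀ (x : G) (b : Ginf), x * (1, b) * (a, 1) = x * (a, 1) * (1, b) := by
      intro x b
      rw [mul_assoc, mul_assoc]
      congr 1
      exact Prod.ext (by simp) (by simp)
    have hact : ∀ b : Ginf, (((rt G).comp (MonoidHom.inr Gf Ginf)) b (rt G (a, 1) f) : G → ℂ) =
        fun x => f (x * (a, 1) * (1, b)) := by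
      intro b
      funext x
      show f (x * (1, b) * (a, 1)) = _
      rw [hcomm]
    refine ⟨fun g hg => ?_, ?_, ?_⟩
    · rw [hact]
      funext x
      exact hf.iw _ g hg
    · rw [hact]
      funext x
      exact hf.ww _
    · rw [hact, hact]
      funext x
      exact hf.sum (x * (a, 1))
  refine ⟨⊥, bot_le, ?_, rfl, fun U hU _ h3 => ?_⟩
  · intro g _ x hx
    rw [Submodule.mem_bot] at hx
    rw [hx, map_zero]
    exact zero_mem _
  · exact stein_sub h1 hd hst (stable_of_under hU) h3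

theorem fin_of_mem {y : G → ℂ} (hy : y ∈ orb (rt G) f) :
    ∃ (N : Submodule ℂ (G → ℂ)) (n : ℕ), StableUnder (rt G) (GP .inf) N ∧ y ∈ N ∧
      LengthLE (rt G) (GP .inf) n N := by
  unfold orb at hy
  induction hy using Submodule.span_induction with
  | mem z hz =>
    obtain ⟨g, rfl⟩ := hz
    refine ⟨_, 1, ?_, ?_, lengthLE_transl hf h1 hd g.1⟩
    · exact stableUnder_of (orb_stable _ _)
    · have h2 := mem_orb ((rt G).comp (MonoidHom.inr Gf Ginf)) (rt G (g.1, 1) f) g.2
      have h3 : ((rt G).comp (MonoidHom.inr Gf Ginf)) g.2 (rt G (g.1, 1) f) = rt G g f := by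
        funext x
        show f (x * (1, g.2) * (g.1, 1)) = f (x * g)
        rw [mul_assoc]
        congr 2
        exact Prod.ext (by simp) (by simp)
      rw [h3] at h2
      exact h2
  | zero => exact ⟨⊥, 0, fun g _ x hx => by
      rw [Submodule.mem_bot] at hx
      rw [hx, map_zero]
      exact zero_mem _, zero_mem _, rfl⟩
  | add y z _ _ hy hz =>
    obtain ⟨N, n, hN, hyN, hl⟩ := hy
    obtain ⟨N', n', hN', hzN', hl'⟩ := hz
    exact ⟨N ⊔ N', n + n', hN.sup hN', Submodule.add_mem_sup hyN hzN', LengthLE.add hl hl' hN hN'⟩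
  | smul c x _ hx =>
    obtain ⟨N, n, hN, hxN, hl⟩ := hx
    exact ⟨N, n, hN, N.smul_mem c hxN, hl⟩

end

end G1

open G1 in
theorem g1 (h1 : L1Stmt) (hd : D1Stmt) : G1Stmt := by
  intro f hf y hy
  refine ⟨⟨?_, ?_, ?_⟩, ?_⟩
  · exact (orb_le leftInv_stable hf.left : orb (rt G) f ≤ leftInv) hy
  · exact (orb_le smoothFun_stable hf.smooth : orb (rt G) f ≤ smoothFun) hy
  · obtain ⟨N, n, hN, hyN, hl⟩ := G1.fin_of_mem hf h1 hd hy
    refine ⟨.inf, n, LengthLE.mono_sub hl ?_ ?_⟩
    · intro g hg x hx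
      induction hx using Submodule.span_induction with
      | mem x hx =>
        obtain ⟨g', hg', rfl⟩ := hx
        refine Submodule.subset_span ⟨g * g', mul_mem hg hg', ?_⟩
        rw [map_mul]
        rfl
      | zero => rw [map_zero]; exact zero_mem _
      | add x z _ _ hx hz => rw [map_add]; exact add_mem hx hz
      | smul c x _ hx => rw [map_smul]; exact Submodule.smul_mem _ _ hx
    · rw [Submodule.span_le]
      rintro _ ⟨g, hg, rfl⟩
      exact hN g hg y hyN
  · exact (orb_le cuspFun_stable (cusp_of hf) : orb (rt G) f ≤ cuspFun) hy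

end Pool.Agent.T2H06.AUT
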