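import Pool.Agent.T2H06.AUT.CuspLoc

/-!
# Package C, global preliminaries: the places `t`, `t+1`, `∞`
-/

set_option autoImplicit false

open Polynomial IsDedekindDomain WithZero

namespace Pool.Agent.T2H06.AUT.Cusp

open Pool.Agent.T2H06.AUT

/-- The place `t - c`. -/
noncomputable def pl (c : ZMod 2) : Pl where
  asIdeal := Ideal.span {X - C c}
  isPrime := (Ideal.span_singleton_prime (X_sub_C_ne_zero c)).2 (prime_X_sub_C c)
  ne_bot := by
    rw [Ne, Ideal.span_singleton_eq_bot]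
    exact X_sub_C_ne_zero c

theorem vv_coe (v : Pl) (x : K) : vv v (algebraMap K (Kv v) x) = v.valuation K x :=
  HeightOneSpectrum.valuedAdicCompletion_eq_valuation' v x

theorem vv_coeR (v : Pl) (x : R) :
    vv v (algebraMap K (Kv v) (algebraMap R K x)) = v.intValuation x := by
  rw [vv_coe, HeightOneSpectrum.valuation_of_algebraMap]

theorem vinf_coe (x : K) : vinf (algebraMap K Kinf x) = RatFunc.inftyValuation (ZMod 2) x := by
  let _ := RatFunc.inftyValued (ZMod 2)
  exact Valued.extensionValuation_apply_coe (K := K) x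

section top
variable {A : Type} [Field A] [hA : Valued A (WithZero (Multiplicative ℤ))]

theorem isOpen_lt : IsOpen {x : A | hA.v x < 1} := by
  have h := Valued.isOpen_ball A (1 : MonoidWithZeroHom.ValueGroup₀ (.ofClass hA.v))
  simpa only [Valuation.restrict_lt_one_iff] using h

theorem isOpen_le : IsOpen {x : A | hA.v x ≤ 1} := by
  have h := Valued.isOpen_closedBall A
    (r := (1 : MonoidWithZeroHom.ValueGroup₀ (.ofClass hA.v))) one_ne_zero
  simpa only [Valuation.restrict_le_one_iff] using h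

theorem isOpen_eq : IsOpen {x : A | hA.v x = 1} := by
  have h := Valued.isOpen_sphere A
    (r := (1 : MonoidWithZeroHom.ValueGroup₀ (.ofClass hA.v))) one_ne_zero
  simpa only [Valuation.restrict_eq_one_iff] using h

end top

theorem pl_lt_iff (c : ZMod 2) (r : R) : (pl c).intValuation r < 1 ↔ r.eval c = 0 := by
  rw [HeightOneSpectrum.intValuation_lt_one_iff_mem]
  change r ∈ Ideal.span {X - C c} ↔ _
  rw [Ideal.mem_span_singleton, dvd_iff_isRoot, IsRoot.def]

theorem res_pl (c : ZMod 2) : Res (vv (pl c)) := by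
  intro x hx
  have ho : IsOpen {y : Kv (pl c) | vv (pl c) (x - y) < 1} :=
    (isOpen_lt (A := Kv (pl c))).preimage (continuous_const.sub continuous_id)
  obtain ⟨y, hy⟩ := (HeightOneSpectrum.denseRange_algebraMap (R := R) K (pl c)).exists_mem_open ho
    ⟨x, by simp⟩
  have hy : vv (pl c) (x - algebraMap K (Kv (pl c)) y) < 1 := hy
  have hy1 : (pl c).valuation K y ≤ 1 := by
    rw [← vv_coe]
    have : algebraMap K (Kv (pl c)) y = x - (x - algebraMap K (Kv (pl c)) y) := by ring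
    rw [this]
    exact Valuation.map_sub_le _ hx hy.le
  obtain ⟨r, hr⟩ := HeightOneSpectrum.exists_valuation_sub_lt_of_integer (pl c) hy1 1
  have hr1 : vv (pl c) (algebraMap K (Kv (pl c)) (algebraMap R K r) - algebraMap K (Kv (pl c)) y)
      < 1 := by
    rw [← map_sub, vv_coe]
    exact hr
  have hr2 : ∀ d : ZMod 2, r.eval c = d →
      vv (pl c) (algebraMap K (Kv (pl c)) (algebraMap R K (r - C d))) < 1 := by
    intro d hd
    rw [vv_coeR, pl_lt_iff]
    simp [hd]
  have key : ∀ a : ZMod 2, a = 0 ∨ a = 1 := by decide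
  rcases key (r.eval c) with h | h
  · left
    have h1 := hr2 0 h
    rw [map_zero, sub_zero] at h1
    have : x = (x - algebraMap K (Kv (pl c)) y)
      - (algebraMap K (Kv (pl c)) (algebraMap R K r) - algebraMap K (Kv (pl c)) y)
      + algebraMap K (Kv (pl c)) (algebraMap R K r) := by ring
    rw [this]
    exact Valuation.map_add_lt _ (Valuation.map_sub_lt _ hy hr1) h1
  · right
    have h1 := hr2 1 h
    rw [map_one, map_sub, map_sub, map_one, map_one] at h1
    have : x - 1 = (x - algebraMap K (Kv (pl c)) y)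
      - (algebraMap K (Kv (pl c)) (algebraMap R K r) - algebraMap K (Kv (pl c)) y)
      + (algebraMap K (Kv (pl c)) (algebraMap R K r) - 1) := by ring
    rw [this]
    exact Valuation.map_add_lt _ (Valuation.map_sub_lt _ hy hr1) h1

/-! ## Evaluation of matrices -/

theorem evG_apply (v : Pl) (g : Gf) (i j : Fin 2) : (evG v g).1 i j = evA v (g.1 i j) := rfl

theorem continuous_evA (v : Pl) : Continuous (evA v) :=
  RestrictedProduct.continuous_eval v

theorem continuous_evG (v : Pl) (i j : Fin 2) : Continuous fun g : Gf => (evG v g).1 i j := by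
  have h1 : Continuous fun g : Gf => g.1 i j :=
    (Units.continuous_val (M := Matrix (Fin 2) (Fin 2) Af)).matrix_elem i j
  exact (continuous_evA v).comp h1

theorem evG_map (v : Pl) (γ : GL (Fin 2) K) (i j : Fin 2) :
    (evG v (Matrix.GeneralLinearGroup.map (algebraMap K Af) γ)).1 i j
      = algebraMap K (Kv v) (γ.1 i j) := rfl

theorem ss_inv {k : Type} [Field k] : (ss : GL (Fin 2) k)⁻¹ = ss := rfl

theorem conj_ss {k : Type} [Field k] (v : Valuation k (WithZero (Multiplicative ℤ)))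
    (g : GL (Fin 2) k) : MulAut.conj (ss : GL (Fin 2) k) g ∈ Iw v ↔
      g ∈ intGL v ∧ v (g.1 1 0) < 1 := by
  have h01 : (MulAut.conj (ss : GL (Fin 2) k) g).1 0 1 = g.1 1 0 := by
    rw [MulAut.conj_apply, ss_inv, Units.val_mul, Units.val_mul, Matrix.mul_apply,
      Fin.sum_univ_two, Matrix.mul_apply, Matrix.mul_apply, Fin.sum_univ_two, Fin.sum_univ_two]
    simp [ss]
  constructor
  · intro h
    refine ⟨?_, h01 ▸ h.2⟩
    have h2 : g = ss * MulAut.conj (ss : GL (Fin 2) k) g * ss := by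
      rw [MulAut.conj_apply, ss_inv]
      have e : (ss * ss : GL (Fin 2) k) = 1 := by
        ext i j; fin_cases i <;> fin_cases j <;> simp [ss, Matrix.mul_apply]
      calc g = (ss * ss) * g * (ss * ss) := by rw [e, one_mul, mul_one]
        _ = _ := by simp only [mul_assoc]
    rw [h2]
    exact mul_mem (mul_mem ss_mem h.1) ss_mem
  · rintro ⟨h1, h2⟩
    refine ⟨?_, by rw [h01]; exact h2⟩
    rw [MulAut.conj_apply, ss_inv]
    exact mul_mem (mul_mem ss_mem h1) ss_mem

/-- `H_f` -/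
noncomputable def Hf : Subgroup Gf :=
  Kf ⊓ (Iw (vv (pl 1))).comap ((MulAut.conj (ss : GL (Fin 2) (Kv (pl 1)))).toMonoidHom.comp
    (evG (pl 1)))

theorem mem_Hf {g : Gf} : g ∈ Hf ↔ g ∈ Kf ∧ vv (pl 1) ((evG (pl 1) g).1 1 0) < 1 := by
  rw [Hf, Subgroup.mem_inf, Subgroup.mem_comap]
  constructor
  · rintro ⟨h1, h2⟩
    exact ⟨h1, ((conj_ss _ _).1 h2).2⟩
  · rintro ⟨h1, h2⟩
    exact ⟨h1, (conj_ss _ _).2 ⟨h1 _, h2⟩⟩

/-- The open subgroup which fixes the cusp form, finite part. -/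
noncomputable def Uf : Subgroup Gf :=
  Hf ⊓ (Iw (vv (pl 0))).comap (evG (pl 0)) ⊓
    (Iw (vv (pl 0))).comap ((MulAut.conj (ss : GL (Fin 2) (Kv (pl 0)))).toMonoidHom.comp
    (evG (pl 0)))

theorem mem_Uf {g : Gf} : g ∈ Uf ↔ g ∈ Kf ∧ vv (pl 1) ((evG (pl 1) g).1 1 0) < 1 ∧
    vv (pl 0) ((evG (pl 0) g).1 0 1) < 1 ∧ vv (pl 0) ((evG (pl 0) g).1 1 0) < 1 := by
  rw [Uf, Subgroup.mem_inf, Subgroup.mem_inf, mem_Hf, Subgroup.mem_comap, Subgroup.mem_comap]
  constructor
  · rintro ⟨⟨⟨h1, h2⟩, h3⟩, h4⟩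
    exact ⟨h1, h2, h3.2, ((conj_ss _ _).1 h4).2⟩
  · rintro ⟨h1, h2, h3, h4⟩
    exact ⟨⟨⟨h1, h2⟩, ⟨h1 _, h3⟩⟩, (conj_ss _ _).2 ⟨h1 _, h4⟩⟩

theorem isOpen_Uf (h4 : S4Stmt) : IsOpen (Uf : Set Gf) := by
  have e : (Uf : Set Gf) = (Kf : Set Gf) ∩ ({g | vv (pl 1) ((evG (pl 1) g).1 1 0) < 1} ∩
      ({g | vv (pl 0) ((evG (pl 0) g).1 0 1) < 1} ∩
        {g | vv (pl 0) ((evG (pl 0) g).1 1 0) < 1})) := by
    ext g
    exact mem_Uf
  rw [e]
  refine IsOpen.inter h4 (IsOpen.inter ?_ (IsOpen.inter ?_ ?_))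
  · exact (isOpen_lt (A := Kv (pl 1))).preimage (continuous_evG (pl 1) 1 0)
  · exact (isOpen_lt (A := Kv (pl 0))).preimage (continuous_evG (pl 0) 0 1)
  · exact (isOpen_lt (A := Kv (pl 0))).preimage (continuous_evG (pl 0) 1 0)

theorem isOpen_Iw : IsOpen (Iw vinf : Set Ginf) := by
  have hc : ∀ i j : Fin 2, Continuous fun g : Ginf => g.1 i j := fun i j =>
    (Units.continuous_val (M := Matrix (Fin 2) (Fin 2) Kinf)).matrix_elem i j
  have hd : Continuous fun g : Ginf => g.1.det := by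
    have : (fun g : Ginf => g.1.det) = fun g : Ginf => g.1 0 0 * g.1 1 1 - g.1 0 1 * g.1 1 0 := by
      funext g
      exact Matrix.det_fin_two _
    rw [this]
    exact ((hc 0 0).mul (hc 1 1)).sub ((hc 0 1).mul (hc 1 0))
  have e : (Iw vinf : Set Ginf) = (⋂ i : Fin 2, ⋂ j : Fin 2, {g : Ginf | vinf (g.1 i j) ≤ 1}) ∩
      ({g | vinf g.1.det = 1} ∩ {g | vinf (g.1 0 1) < 1}) := by
    ext g
    constructor
    · rintro ⟨⟨h1, h2⟩, h3⟩
      exact ⟨Set.mem_iInter.2 fun i => Set.mem_iInter.2 fun j => h1 i j, h2, h3⟩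
    · rintro ⟨h1, h2, h3⟩
      exact ⟨⟨fun i j => Set.mem_iInter.1 (Set.mem_iInter.1 h1 i) j, h2⟩, h3⟩
  rw [e]
  refine IsOpen.inter (isOpen_iInter_of_finite fun i => isOpen_iInter_of_finite fun j => ?_)
    (IsOpen.inter ?_ ?_)
  · exact (isOpen_le (A := Kinf)).preimage (hc i j)
  · exact (isOpen_eq (A := Kinf)).preimage hd
  · exact (isOpen_lt (A := Kinf)).preimage (hc 0 1)

end Pool.Agent.T2H06.AUT.Cusp
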