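import Pool.Agent.T2H06.AUT.Defs3
import Pool.Agent.T2H06.AUT.CuspGlob

/-!
# Part G2: the elements of `V1 e` are automorphic forms
-/

set_option autoImplicit false

namespace Pool.Agent.T2H06.AUT

theorem rt_apply {H : Type} [Group H] (g : H) (f : H → ℂ) (x : H) : rt H g f x = f (x * g) := rfl

/-- The left invariant functions. -/
noncomputable def leftInv : Submodule ℂ (G → ℂ) where
  carrier := {y | ∀ (γ : GL (Fin 2) K) (x : G), y (diagG γ * x) = y x}
  zero_mem' := fun _ _ => rfl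
  add_mem' := fun {a b} ha hb γ x => by
    show a _ + b _ = a x + b x
    rw [ha γ x, hb γ x]
  smul_mem' := fun c a ha γ x => by
    show c • a _ = c • a x
    rw [ha γ x]

theorem leftInv_stable : Stable (rt G) leftInv := fun g y hy γ x => by
  rw [rt_apply, rt_apply, mul_assoc]
  exact hy γ (x * g)

/-- The smooth functions. -/
noncomputable def smoothFun : Submodule ℂ (G → ℂ) where
  carrier := {y | ∃ U : Subgroup G, IsOpen (U : Set G) ∧ ∀ u ∈ U, ∀ x, y (x * u) = y x}
  zero_mem' := ⟨⊤, isOpen_univ, fun _ _ _ => rfl⟩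
  add_mem' := by
    rintro a b ⟨U, hU, ha⟩ ⟨U', hU', hb⟩
    refine ⟨U ⊓ U', hU.inter hU', fun u hu x => ?_⟩
    show a _ + b _ = a x + b x
    rw [ha u hu.1 x, hb u hu.2 x]
  smul_mem' := by
    rintro c a ⟨U, hU, ha⟩
    refine ⟨U, hU, fun u hu x => ?_⟩
    show c • a _ = c • a x
    rw [ha u hu x]

theorem smoothFun_stable : Stable (rt G) smoothFun := by
  rintro g y ⟨U, hU, hy⟩
  refine ⟨U.comap (MulAut.conj g⁻¹).toMonoidHom, ?_, ?_⟩
  · have hc : Continuous fun u : G => g⁻¹ * u * g⁻¹⁻¹ :=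
      (continuous_const.mul continuous_id).mul continuous_const
    exact hU.preimage hc
  · intro u hu x
    rw [rt_apply, rt_apply]
    have h1 : g⁻¹ * u * g⁻¹⁻¹ ∈ U := hu
    have h2 : x * u * g = x * g * (g⁻¹ * u * g⁻¹⁻¹) := by group
    rw [h2, hy _ h1]

theorem stable_cst : Stable (rt G) cst := by
  intro g y hy
  unfold cst at hy ⊢
  rw [Submodule.mem_span_singleton] at hy ⊢
  obtain ⟨c, rfl⟩ := hy
  exact ⟨c, by funext x; rfl⟩

theorem stableUnder_of {ρ : Representation ℂ G (G → ℂ)} {N : Submodule ℂ (G → ℂ)}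
    (h : Stable (ρ.comp (MonoidHom.inr Gf Ginf)) N) : StableUnder ρ (GP .inf) N := by
  intro g hg x hx
  have h1 : g.1 = 1 := hg
  have h2 : g = MonoidHom.inr Gf Ginf g.2 := Prod.ext h1 rfl
  rw [h2]
  exact h g.2 x hx

theorem stable_of_under {ρ : Representation ℂ G (G → ℂ)} {N : Submodule ℂ (G → ℂ)}
    (h : StableUnder ρ (GP .inf) N) : Stable (ρ.comp (MonoidHom.inr Gf Ginf)) N :=
  fun g x hx => h (MonoidHom.inr Gf Ginf g) rfl x hx

theorem lengthLE_cst : LengthLE (rt G) (GP .inf) 1 cst := by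
  refine ⟨⊥, bot_le, fun g _ x hx => ?_, rfl, fun U _ _ hU => ?_⟩
  · rw [Submodule.mem_bot] at hx
    rw [hx, map_zero]
    exact zero_mem _
  · by_cases h : U = ⊥
    · exact Or.inl h
    · right
      refine le_antisymm hU ?_
      obtain ⟨y, hy, hy0⟩ := (Submodule.ne_bot_iff U).1 h
      have h1 := hU hy
      unfold cst at h1 ⊢
      obtain ⟨c, rfl⟩ := Submodule.mem_span_singleton.1 h1
      have hc : c ≠ 0 := by
        rintro rfl
        exact hy0 (zero_smul _ _)
      rw [Submodule.span_singleton_le_iff_mem]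
      have h2 := U.smul_mem c⁻¹ hy
      rwa [smul_smul, inv_mul_cancel₀ hc, one_smul] at h2

section
variable {e : G → ℂ} (he : EisHyp e) (h1 : L1Stmt) (hd : D1Stmt)
include he h1 hd

theorem lengthLE_transl (a : Gf) : LengthLE (rt G) (GP .inf) 2
    (cst ⊔ orb ((rt G).comp (MonoidHom.inr Gf Ginf)) (rt G (a, 1) e)) := by
  have hC : Stable ((rt G).comp (MonoidHom.inr Gf Ginf)) cst := fun g x hx => stable_cst _ x hx
  have hst : SteinbergVector vinf piInf (quoRep ((rt G).comp (MonoidHom.inr Gf Ginf)) cst hC)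
      (cst.mkQ (rt G (a, 1) e)) := by
    have hcomm : ∀ (x : G) (b : Ginf), x * (1, b) * (a, 1) = x * (a, 1) * (1, b) := by
      intro x b
      rw [mul_assoc, mul_assoc]
      congr 1
      exact Prod.ext (by simp) (by simp)
    have hact : ∀ b : Ginf, (((rt G).comp (MonoidHom.inr Gf Ginf)) b (rt G (a, 1) e) : G → ℂ) =
        fun x => e (x * (a, 1) * (1, b)) := by
      intro b
      funext x
      show e (x * (1, b) * (a, 1)) = _
      rw [hcomm]
    refine ⟨fun g hg => ?_, ?_, ?_⟩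
    · rw [quoRep_mk, hact]
      congr 1
      funext x
      exact he.iw _ g hg
    · rw [quoRep_mk, hact, ← map_neg]
      congr 1
      funext x
      exact he.ww _
    · rw [quoRep_mk, quoRep_mk, hact, hact, ← map_add, ← map_add, Submodule.mkQ_apply,
        Submodule.Quotient.mk_eq_zero]
      unfold cst
      rw [Submodule.mem_span_singleton]
      refine ⟨3, ?_⟩
      funext x
      have h2 := he.sum (x * (a, 1))
      show (3 : ℂ) * 1 = e (x * (a, 1)) + e (x * (a, 1) * (1, ss)) + e (x * (a, 1) * (1, nn 1))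
      rw [h2, mul_one]
  refine ⟨cst, le_sup_left, stableUnder_of hC, lengthLE_cst, fun U hU h2 h3 => ?_⟩
  exact stein_mod h1 hd hC hst (stable_of_under hU) h2 h3

/-- The functions which lie in a subspace of finite length under `GL₂(K_∞)`. -/
theorem fin_of_mem {y : G → ℂ} (hy : y ∈ V1 e) :
    ∃ (N : Submodule ℂ (G → ℂ)) (n : ℕ), StableUnder (rt G) (GP .inf) N ∧ y ∈ N ∧
      LengthLE (rt G) (GP .inf) n N := by
  have hadd : ∀ y z : G → ℂ, (∃ (N : Submodule ℂ (G → ℂ)) (n : ℕ),
        StableUnder (rt G) (GP .inf) N ∧ y ∈ N ∧ LengthLE (rt G) (GP .inf) n N) →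
      (∃ (N : Submodule ℂ (G → ℂ)) (n : ℕ),
        StableUnder (rt G) (GP .inf) N ∧ z ∈ N ∧ LengthLE (rt G) (GP .inf) n N) →
      ∃ (N : Submodule ℂ (G → ℂ)) (n : ℕ),
        StableUnder (rt G) (GP .inf) N ∧ y + z ∈ N ∧ LengthLE (rt G) (GP .inf) n N := by
    rintro y z ⟨N, n, hN, hyN, hl⟩ ⟨N', n', hN', hzN', hl'⟩
    exact ⟨N ⊔ N', n + n', hN.sup hN', Submodule.add_mem_sup hyN hzN', LengthLE.add hl hl' hN hN'⟩
  unfold V1 at hy
  obtain ⟨c, hc, z, hz, rfl⟩ := Submodule.mem_sup.1 hy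
  refine hadd c z ⟨cst, 1, fun g _ => stable_cst g, hc, lengthLE_cst⟩ ?_
  clear hy hc
  unfold orb at hz
  induction hz using Submodule.span_induction with
  | mem z hz =>
    obtain ⟨g, rfl⟩ := hz
    refine ⟨_, 2, ?_, ?_, lengthLE_transl he h1 hd g.1⟩
    · have hC : Stable ((rt G).comp (MonoidHom.inr Gf Ginf)) cst := fun g x hx => stable_cst _ x hx
      exact stableUnder_of (Stable.sup hC (orb_stable _ _))
    · refine Submodule.mem_sup_right ?_
      have h2 := mem_orb ((rt G).comp (MonoidHom.inr Gf Ginf)) (rt G (g.1, 1) e) g.2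
      have h3 : ((rt G).comp (MonoidHom.inr Gf Ginf)) g.2 (rt G (g.1, 1) e) = rt G g e := by
        funext x
        show e (x * (1, g.2) * (g.1, 1)) = e (x * g)
        rw [mul_assoc]
        congr 2
        exact Prod.ext (by simp) (by simp)
      rw [h3] at h2
      exact h2
  | zero => exact ⟨⊥, 0, fun g _ x hx => by
      rw [Submodule.mem_bot] at hx
      rw [hx, map_zero]
      exact zero_mem _, zero_mem _, rfl⟩
  | add x z _ _ hx hz => exact hadd x z hx hz
  | smul c x _ hx =>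
    obtain ⟨N, n, hN, hxN, hl⟩ := hx
    exact ⟨N, n, hN, N.smul_mem c hxN, hl⟩

end

theorem g2 (h1 : L1Stmt) (hd : D1Stmt) (h4 : S4Stmt) : G2Stmt := by
  intro e he y hy
  refine ⟨?_, ?_, ?_⟩
  · have h2 : V1 e ≤ leftInv := by
      refine sup_le ?_ (orb_le leftInv_stable he.left)
      unfold cst
      rw [Submodule.span_singleton_le_iff_mem]
      exact fun _ _ => rfl
    exact h2 hy
  · have h2 : V1 e ≤ smoothFun := by
      refine sup_le ?_ (orb_le smoothFun_stable ?_)
      · unfold cst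
        rw [Submodule.span_singleton_le_iff_mem]
        exact ⟨⊤, isOpen_univ, fun _ _ _ => rfl⟩
      · refine ⟨Kf.prod (Iw vinf), h4.prod Pool.Agent.T2H06.AUT.Cusp.isOpen_Iw, ?_⟩
        rintro u ⟨hu1, hu2⟩ x
        have h3 : u = (u.1, 1) * (1, u.2) := Prod.ext (by simp) (by simp)
        rw [h3, ← mul_assoc, he.iw _ _ hu2, he.kf _ _ hu1]
    exact h2 hy
  · obtain ⟨N, n, hN, hyN, hl⟩ := fin_of_mem he h1 hd hy
    refine ⟨.inf, n, LengthLE.mono_sub hl ?_ ?_⟩
    · intro g hg x hx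
      induction hx using Submodule.span_induction with
      | mem x hx =>
        obtain ⟨g', hg', rfl⟩ := hx
        refine Submodule.subset_span ⟨g * g', mul_mem hg hg', ?_⟩
        rw [map_mul]
        rfl
      | zero => rw [map_zero]; exact zero_mem _
      | add x z _ _ hx hz => rw [map_add]; exact add_mem hx hz
      | smul c x _ hx => rw [map_smul]; exact Submodule.smul_mem _ _ hx
    · rw [Submodule.span_le]
      rintro _ ⟨g, hg, rfl⟩
      exact hN g hg y hyN

end Pool.Agent.T2H06.AUT
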