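import Pool.Agent.T2H06.AUT.Defs3

/-!
# Part G3: the Eisenstein function does not lie in the subspace by which we divide
-/

set_option autoImplicit false
set_option linter.unusedSectionVars false

namespace Pool.Agent.T2H06.AUT

namespace G3

/-- averages over all small subgroups of `K_f` are constant -/
def PP (y : G → ℂ) : Prop :=
  ∃ c : ℂ, ∃ U0 : Subgroup Gf, U0 ≤ Kf ∧ U0.relIndex Kf ≠ 0 ∧ ∀ U ≤ U0, U.relIndex Kf ≠ 0 →
    ∀ T : Finset Gf, IsReps U T → ∀ x : G, ∑ τ ∈ T, y (x * (τ, 1)) = T.card * c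

theorem PP_const (c : ℂ) : PP (fun _ => c) := by
  refine ⟨c, Kf, le_rfl, ?_, fun U _ _ T _ x => ?_⟩
  · rw [Subgroup.relIndex_self]; exact one_ne_zero
  · rw [Finset.sum_const, nsmul_eq_mul]

theorem PP_zero : PP (0 : G → ℂ) := PP_const 0

theorem PP_add {y z : G → ℂ} (hy : PP y) (hz : PP z) : PP (y + z) := by
  obtain ⟨c, U1, h1, h2, h3⟩ := hy
  obtain ⟨c', U2, h1', h2', h3'⟩ := hz
  refine ⟨c + c', U1 ⊓ U2, inf_le_left.trans h1, Subgroup.relIndex_inf_ne_zero h2 h2',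
    fun U hU hi T hT x => ?_⟩
  simp only [Pi.add_apply]
  rw [Finset.sum_add_distrib, h3 U (hU.trans inf_le_left) hi T hT x,
    h3' U (hU.trans inf_le_right) hi T hT x]
  ring

theorem PP_smul (a : ℂ) {y : G → ℂ} (hy : PP y) : PP (a • y) := by
  obtain ⟨c, U1, h1, h2, h3⟩ := hy
  refine ⟨a * c, U1, h1, h2, fun U hU hi T hT x => ?_⟩
  simp only [Pi.smul_apply, smul_eq_mul]
  rw [← Finset.mul_sum, h3 U hU hi T hT x]
  ring

theorem PP_sub {y z : G → ℂ} (hy : PP y) (hz : PP z) : PP (y - z) := by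
  have h := PP_add hy (PP_smul (-1) hz)
  rwa [neg_one_smul, ← sub_eq_add_neg] at h

theorem PP_cst {y : G → ℂ} (hy : y ∈ cst) : PP y := by
  obtain ⟨c, rfl⟩ := Submodule.mem_span_singleton.mp hy
  exact PP_smul c (PP_const 1)

theorem cst_fix {y : G → ℂ} (hy : y ∈ cst) (g : G) : rt G g y = y := by
  obtain ⟨c, rfl⟩ := Submodule.mem_span_singleton.mp hy
  rfl

theorem PP_gen (h3 : S3Stmt) {e : G → ℂ} (he : EisHyp e) (a : Gf) (b : Ginf) :
    PP (rt G (a, b) e - rt G (1, b) e) := by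
  refine ⟨0, Kf ⊓ Kf.map (MulAut.conj a).toMonoidHom, inf_le_left, h3 a,
    fun U hU hi T hT x => ?_⟩
  have e1 : ∀ τ : Gf, rt G (a, b) e (x * (τ, 1)) = e (x * (1, b) * (τ * a, 1)) := by
    intro τ
    show e (x * (τ, 1) * (a, b)) = _
    congr 1
    exact Prod.ext (by simp [mul_assoc]) (by simp)
  have e2 : ∀ τ ∈ T, rt G (1, b) e (x * (τ, 1)) = e (x * (1, b)) := by
    intro τ hτ
    rw [← he.kf (x * (1, b)) τ (hT.1 τ hτ)]
    show e (x * (τ, 1) * (1, b)) = _
    congr 1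
    exact Prod.ext (by simp) (by simp)
  have hav := he.avg a U T (hU.trans inf_le_left) (fun u hu => by
    obtain ⟨k, hk, hku⟩ := (hU hu).2
    have : a⁻¹ * u * a = k := by
      rw [← hku]
      show a⁻¹ * (a * k * a⁻¹) * a = k
      group
    rw [this]
    exact hk) hT (x * (1, b))
  simp only [Pi.sub_apply]
  rw [Finset.sum_sub_distrib, Finset.sum_congr rfl (fun τ _ => e1 τ), hav,
    Finset.sum_congr rfl e2, Finset.sum_const, nsmul_eq_mul]
  ring

theorem PP_orb (h3 : S3Stmt) {e : G → ℂ} (he : EisHyp e) (a : Gf) {z : G → ℂ}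
    (hz : z ∈ orb (rt G) e) : PP (rt G (a, 1) z - z) := by
  induction hz using Submodule.span_induction with
  | mem z hz =>
    obtain ⟨⟨a', b'⟩, rfl⟩ := hz
    have h1 := PP_gen h3 he (a * a') b'
    have h2 := PP_gen h3 he a' b'
    have h := PP_sub h1 h2
    have e1 : rt G (a, 1) (rt G (a', b') e) = rt G (a * a', b') e := by
      rw [← Module.End.mul_apply, ← map_mul]
      congr 2
      exact Prod.ext rfl (one_mul _)
    have e2 : rt G (a, 1) ((fun g => rt G g e) (a', b')) - (fun g => rt G g e) (a', b') =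
        (rt G (a * a', b') e - rt G (1, b') e) - (rt G (a', b') e - rt G (1, b') e) := by
      show rt G (a, 1) (rt G (a', b') e) - rt G (a', b') e = _
      rw [e1]
      abel
    rw [e2]
    exact h
  | zero =>
    rw [map_zero, sub_zero]
    exact PP_zero
  | add y z _ _ hy hz =>
    have e2 : rt G (a, 1) (y + z) - (y + z) = (rt G (a, 1) y - y) + (rt G (a, 1) z - z) := by
      rw [map_add]
      abel
    rw [e2]
    exact PP_add hy hz
  | smul c y _ hy =>
    have e2 : rt G (a, 1) (c • y) - c • y = c • (rt G (a, 1) y - y) := by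
      rw [map_smul, smul_sub]
    rw [e2]
    exact PP_smul c hy

theorem PP_V2 (h3 : S3Stmt) {e : G → ℂ} (he : EisHyp e) {y : G → ℂ} (hy : y ∈ V2 e) : PP y := by
  obtain ⟨y1, h1, y2, h2, rfl⟩ := Submodule.mem_sup.mp hy
  refine PP_add (PP_cst h1) ?_
  clear hy h1
  induction h2 using Submodule.span_induction with
  | mem z hz =>
    obtain ⟨a, x, hx, rfl⟩ := hz
    obtain ⟨c, hc, w, hw, rfl⟩ := Submodule.mem_sup.mp hx
    have e2 : rt G (a, 1) (c + w) - (c + w) = rt G (a, 1) w - w := by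
      rw [map_add, cst_fix hc]
      abel
    rw [e2]
    exact PP_orb h3 he a hw
  | zero => exact PP_zero
  | add y z _ _ hy hz => exact PP_add hy hz
  | smul c y _ hy => exact PP_smul c hy

theorem exists_reps {U : Subgroup Gf} (hi : U.relIndex Kf ≠ 0) :
    ∃ T : Finset Gf, IsReps U T := by
  classical
  have hfi : (U.subgroupOf Kf).FiniteIndex := ⟨hi⟩
  have : Finite (Kf ⧸ U.subgroupOf Kf) := inferInstance
  have : Fintype (Kf ⧸ U.subgroupOf Kf) := Fintype.ofFinite _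
  refine ⟨(Finset.univ : Finset (Kf ⧸ U.subgroupOf Kf)).image fun q => ((q.out : Kf) : Gf),
    ?_, ?_⟩
  · intro τ hτ
    obtain ⟨q, _, rfl⟩ := Finset.mem_image.mp hτ
    exact q.out.2
  · intro κ hκ
    have key : ∀ q : Kf ⧸ U.subgroupOf Kf, ((q.out : Kf) : Gf)⁻¹ * κ ∈ U ↔
        q = QuotientGroup.mk (⟨κ, hκ⟩ : Kf) := by
      intro q
      conv_rhs => rw [← QuotientGroup.out_eq' q]
      rw [QuotientGroup.eq, Subgroup.mem_subgroupOf]
      rfl
    refine ⟨((QuotientGroup.mk (⟨κ, hκ⟩ : Kf) : Kf ⧸ U.subgroupOf Kf).out : Kf),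
      ⟨Finset.mem_image.mpr ⟨_, Finset.mem_univ _, rfl⟩, (key _).mpr rfl⟩, ?_⟩
    rintro τ ⟨hτ, hτ2⟩
    obtain ⟨q, _, rfl⟩ := Finset.mem_image.mp hτ
    rw [(key q).mp hτ2]

end G3

open G3 in
theorem g3 (h3 : S3Stmt) : G3Stmt := by
  intro e he hmem
  obtain ⟨c, U0, h1, h2, h⟩ := PP_V2 h3 he hmem
  obtain ⟨T, hT⟩ := exists_reps h2
  apply he.ncst
  refine ⟨c, fun x => ?_⟩
  have h4 := h U0 le_rfl h2 T hT x
  rw [Finset.sum_congr rfl (fun τ hτ => he.kf x τ (hT.1 τ hτ)), Finset.sum_const,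
    nsmul_eq_mul] at h4
  have hne : T.card ≠ 0 := by
    obtain ⟨τ, ⟨hτ, _⟩, _⟩ := hT.2 1 (one_mem _)
    exact Finset.card_ne_zero_of_mem hτ
  have hne' : (T.card : ℂ) ≠ 0 := by exact_mod_cast hne
  exact mul_left_cancel₀ hne' h4

end Pool.Agent.T2H06.AUT
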