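import Pool.Agent.T2H06.AUT.LBase

/-!
# PACKAGE L1: irreducibility of the module generated by a Steinberg vector
-/

set_option autoImplicit false

namespace Pool.Agent.T2H06.AUT

section win
variable {k : Type} [Field k] {v : Valuation k (WithZero (Multiplicative ℤ))} {ϖ : kˣ}
  {N : Type} [AddCommGroup N] [Module ℂ N] {σ : Representation ℂ (GL (Fin 2) k) N} {e : N}

/-- `∏_{a ≤ i < a + n} (1 + nn(ϖ^i))` -/
noncomputable def TT (σ : Representation ℂ (GL (Fin 2) k) N) (ϖ : kˣ) : ℕ → ℤ → N →ₗ[ℂ] N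
  | 0, _ => LinearMap.id
  | n + 1, a => (LinearMap.id + σ (nn ((ϖ ^ a : kˣ) : k))) ∘ₗ TT σ ϖ n (a + 1)

theorem TT_succ (n : ℕ) (a : ℤ) (x : N) : TT σ ϖ (n + 1) a x =
    TT σ ϖ n (a + 1) x + σ (nn ((ϖ ^ a : kˣ) : k)) (TT σ ϖ n (a + 1) x) := rfl

theorem TT_zero (a : ℤ) (x : N) : TT σ ϖ 0 a x = x := rfl

theorem TT_nn (n : ℕ) : ∀ (a : ℤ) (b : k) (x : N),
    TT σ ϖ n a (σ (nn b) x) = σ (nn b) (TT σ ϖ n a x) := by
  induction n with
  | zero => intro a b x; rfl
  | succ n ih =>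
    intro a b x
    rw [TT_succ, TT_succ, ih, map_add, nn_nn, nn_nn, add_comm (_ : k) b]

theorem TT_mem {W : Submodule ℂ N} (hW : Stable σ W) (n : ℕ) : ∀ (a : ℤ) (x : N), x ∈ W →
    TT σ ϖ n a x ∈ W := by
  induction n with
  | zero => intro a x hx; exact hx
  | succ n ih =>
    intro a x hx
    rw [TT_succ]
    exact W.add_mem (ih _ _ hx) (hW _ _ (ih _ _ hx))

theorem TT_fix (n : ℕ) (a : ℤ) (x : N)
    (hx : ∀ i : ℤ, a ≤ i → σ (nn ((ϖ ^ i : kˣ) : k)) x = x) : TT σ ϖ n a x = (2 : ℂ) ^ n • x := by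
  induction n generalizing a with
  | zero => simp [TT_zero]
  | succ n ih =>
    rw [TT_succ, ih (a + 1) (fun i hi => hx i (by omega)), map_smul, hx a le_rfl, ← two_smul ℂ,
      smul_smul, pow_succ, mul_comm]

theorem TT_EE (hL : LocalData v ϖ) (he : SteinbergVector v ϖ σ e) (n : ℕ) : ∀ (a j : ℤ),
    a ≤ j + 1 → j + 1 ≤ a + n →
    TT σ ϖ n a (EE σ ϖ e j) = (2 : ℂ) ^ (a + n - 1 - j) • EE σ ϖ e (a - 1) := by
  induction n with
  | zero =>
    intro a j h1 h2
    have : a = j + 1 := by simp at h2; omega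
    subst this
    rw [TT_zero]
    have : (j + 1 + ((0 : ℕ) : ℤ) - 1 - j) = 0 := by simp
    rw [this]
    simp
  | succ n ih =>
    intro a j h1 h2
    rcases eq_or_lt_of_le h1 with h | h
    · have : j = a - 1 := by omega
      subst this
      rw [TT_fix]
      · congr 1
        rw [← zpow_natCast]
        congr 1
        push_cast
        ring
      · intro i hi
        apply nn_EE hL he
        rw [v_zpow hL, WithZero.exp_lt_exp]
        omega
    · rw [TT_succ, ih (a + 1) j (by omega) (by push_cast at h2; omega)]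
      have h3 : a + 1 - 1 = a := by ring
      rw [h3, map_smul, ← smul_add, ← split he]
      congr 2
      push_cast
      ring

/-- The weight of a vector. -/
def Wt (σ : Representation ℂ (GL (Fin 2) k) N) (ϖ : kˣ) (e : N) (m : N) (l : ℂ) : Prop :=
  ∃ n0 : ℕ, ∀ n ≥ n0, TT σ ϖ (2 * n + 1) (-n) m = (l * 2 ^ n) • EE σ ϖ e (-n - 1)

theorem Wt.add {m m' : N} {l l' : ℂ} (h : Wt σ ϖ e m l) (h' : Wt σ ϖ e m' l') :
    Wt σ ϖ e (m + m') (l + l') := by
  obtain ⟨a, ha⟩ := h
  obtain ⟨b, hb⟩ := h'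
  refine ⟨max a b, fun n hn => ?_⟩
  rw [map_add, ha n (le_trans (le_max_left _ _) hn), hb n (le_trans (le_max_right _ _) hn),
    ← add_smul, add_mul]

theorem Wt.smul {m : N} {l : ℂ} (c : ℂ) (h : Wt σ ϖ e m l) : Wt σ ϖ e (c • m) (c * l) := by
  obtain ⟨a, ha⟩ := h
  refine ⟨a, fun n hn => ?_⟩
  rw [map_smul, ha n hn, smul_smul, mul_assoc]

theorem Wt.neg {m : N} {l : ℂ} (h : Wt σ ϖ e m l) : Wt σ ϖ e (-m) (-l) := by
  have := h.smul (-1)
  simpa using this

theorem Wt.zero : Wt σ ϖ e 0 0 := ⟨0, fun n _ => by simp⟩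

theorem Wt.sum {ι : Type} (s : Finset ι) (m : ι → N) (l : ι → ℂ)
    (h : ∀ i ∈ s, Wt σ ϖ e (m i) (l i)) : Wt σ ϖ e (∑ i ∈ s, m i) (∑ i ∈ s, l i) := by
  classical
  induction s using Finset.induction_on with
  | empty => simpa using Wt.zero
  | insert a s ha ih =>
    rw [Finset.sum_insert ha, Finset.sum_insert ha]
    exact (h a (Finset.mem_insert_self _ _)).add
      (ih fun i hi => h i (Finset.mem_insert_of_mem hi))

theorem exists_bd (x : k) : ∃ n0 : ℕ, ∀ n : ℕ, n0 ≤ n → v x ≤ WithZero.exp (n : ℤ) := by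
  by_cases hx : x = 0
  · exact ⟨0, fun n _ => by rw [hx, map_zero]; exact zero_le⟩
  · obtain ⟨j, hj⟩ := exists_ord (v := v) (Units.mk0 x hx)
    refine ⟨(-j).toNat, fun n hn => ?_⟩
    rw [Units.val_mk0] at hj
    rw [hj, WithZero.exp_le_exp]
    omega

theorem Wt_nn (hL : LocalData v ϖ) (he : SteinbergVector v ϖ σ e) (x : k) (j : ℤ) :
    Wt σ ϖ e (σ (nn x) (EE σ ϖ e j)) (2 ^ (-j)) := by
  obtain ⟨n0, hn0⟩ := exists_bd (v := v) x
  refine ⟨max n0 (max j.toNat (-j).toNat), fun n hn => ?_⟩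
  have h1 : n0 ≤ n := le_trans (le_max_left _ _) hn
  have h2 : j.toNat ≤ n := le_trans (le_trans (le_max_left _ _) (le_max_right _ _)) hn
  have h3 : (-j).toNat ≤ n := le_trans (le_trans (le_max_right _ _) (le_max_right _ _)) hn
  rw [TT_nn, TT_EE hL he _ _ _ (by omega) (by push_cast; omega), map_smul, nn_EE hL he]
  · congr 1
    rw [← zpow_natCast, ← zpow_add₀ (by norm_num)]
    congr 1
    push_cast
    ring
  · refine lt_of_le_of_lt (hn0 n h1) ?_
    rw [WithZero.exp_lt_exp]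
    omega

theorem EE_mem_top {W : Submodule ℂ N} (hW : Stable σ W)
    (hspan : Submodule.span ℂ (Set.range fun g => σ g e) = ⊤) {j : ℤ} (hj : EE σ ϖ e j ∈ W) :
    W = ⊤ := by
  have he : e ∈ W := by
    have := hW (dd (ϖ ^ (-j))) _ hj
    rw [dd_EE, neg_add_cancel, EE_zero] at this
    exact this
  rw [eq_top_iff, ← hspan, Submodule.span_le]
  rintro _ ⟨g, rfl⟩
  exact hW g e he

theorem Wt_eq_zero {W : Submodule ℂ N} (hW : Stable σ W)
    (hspan : Submodule.span ℂ (Set.range fun g => σ g e) = ⊤) (hT : W ≠ ⊤) {m : N} {l : ℂ}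
    (hm : m ∈ W) (h : Wt σ ϖ e m l) : l = 0 := by
  by_contra hl
  obtain ⟨n, hn⟩ := h
  have h1 := TT_mem (ϖ := ϖ) hW (2 * n + 1) (-n) m hm
  rw [hn n le_rfl] at h1
  have h2 : (l * 2 ^ n) ≠ 0 := mul_ne_zero hl (pow_ne_zero _ two_ne_zero)
  rw [Submodule.smul_mem_iff _ h2] at h1
  exact hT (EE_mem_top hW hspan h1)

end win

section mm
variable {k : Type} [Field k] {v : Valuation k (WithZero (Multiplicative ℤ))} {ϖ : kˣ}
  {N : Type} [AddCommGroup N] [Module ℂ N] {σ : Representation ℂ (GL (Fin 2) k) N} {e : N}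

/-- `span {nn(x).E_J : x ∈ ϖ^r O}` -/
def MM (v : Valuation k (WithZero (Multiplicative ℤ))) (σ : Representation ℂ (GL (Fin 2) k) N)
    (ϖ : kˣ) (e : N) (J r : ℤ) : Submodule ℂ N :=
  Submodule.span ℂ {z | ∃ x : k, v x ≤ WithZero.exp (-r) ∧ z = σ (nn x) (EE σ ϖ e J)}

theorem mem_MM {J r : ℤ} {x : k} (hx : v x ≤ WithZero.exp (-r)) :
    σ (nn x) (EE σ ϖ e J) ∈ MM v σ ϖ e J r := Submodule.subset_span ⟨x, hx, rfl⟩

theorem MM_anti {J r r' : ℤ} (h : r' ≤ r) : MM v σ ϖ e J r ≤ MM v σ ϖ e J r' := by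
  apply Submodule.span_mono
  rintro _ ⟨x, hx, rfl⟩
  refine ⟨x, hx.trans ?_, rfl⟩
  rw [WithZero.exp_le_exp]; omega

theorem MM_succ (hL : LocalData v ϖ) (he : SteinbergVector v ϖ σ e) {J r : ℤ} (h : r ≤ J + 1) :
    MM v σ ϖ e J r ≤ MM v σ ϖ e (J + 1) r := by
  rw [MM, Submodule.span_le]
  rintro _ ⟨x, hx, rfl⟩
  have h1 := split he (J + 1)
  rw [add_sub_cancel_right] at h1
  rw [h1, map_add, nn_nn]
  refine Submodule.add_mem _ (mem_MM hx) (mem_MM ?_)
  refine v.map_add_le hx ?_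
  rw [v_zpow hL, WithZero.exp_le_exp]
  omega

theorem MM_mono (hL : LocalData v ϖ) (he : SteinbergVector v ϖ σ e) {J r : ℤ} (h : r ≤ J + 1)
    (n : ℕ) : MM v σ ϖ e J r ≤ MM v σ ϖ e (J + n) r := by
  induction n with
  | zero => simp
  | succ n ih =>
    refine ih.trans ?_
    have := MM_succ hL he (J := J + n) (r := r) (by omega)
    rw [show J + ((n + 1 : ℕ) : ℤ) = J + n + 1 by push_cast; ring]
    exact this

theorem exists_MM (hL : LocalData v ϖ) (he : SteinbergVector v ϖ σ e)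
    (hspan : Submodule.span ℂ (Set.range fun g => σ g e) = ⊤) (m : N) :
    ∃ n0 : ℕ, ∀ n : ℕ, n0 ≤ n → m ∈ MM v σ ϖ e n (-n) := by
  have hm : m ∈ Submodule.span ℂ (Set.range fun g => σ g e) := by rw [hspan]; trivial
  have key : ∀ (x : k) (j : ℤ), ∃ n0 : ℕ, ∀ n : ℕ, n0 ≤ n →
      σ (nn x) (EE σ ϖ e j) ∈ MM v σ ϖ e n (-n) := by
    intro x j
    obtain ⟨n0, hn0⟩ := exists_bd (v := v) x
    refine ⟨max n0 (max j.toNat (-j).toNat), fun n hn => ?_⟩
    have h1 : n0 ≤ n := le_trans (le_max_left _ _) hn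
    have h2 : j.toNat ≤ n := le_trans (le_trans (le_max_left _ _) (le_max_right _ _)) hn
    have h3 : (-j).toNat ≤ n := le_trans (le_trans (le_max_right _ _) (le_max_right _ _)) hn
    have h4 : σ (nn x) (EE σ ϖ e j) ∈ MM v σ ϖ e j (-n) :=
      mem_MM (by rw [neg_neg]; exact hn0 n h1)
    have h5 := MM_mono hL he (J := j) (r := -(n : ℤ)) (by omega) ((n : ℤ) - j).toNat h4
    rwa [show j + (((n : ℤ) - j).toNat : ℤ) = n by omega] at h5
  induction hm using Submodule.span_induction with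
  | mem x hx =>
    obtain ⟨g, rfl⟩ := hx
    obtain ⟨b, j, h | h⟩ := act_form hL he g
    · obtain ⟨n0, h0⟩ := key b j
      exact ⟨n0, fun n hn => by simp only [h]; exact h0 n hn⟩
    · obtain ⟨n0, h0⟩ := key b j
      exact ⟨n0, fun n hn => by simp only [h]; exact Submodule.neg_mem _ (h0 n hn)⟩
  | zero => exact ⟨0, fun n _ => Submodule.zero_mem _⟩
  | add x y _ _ hx hy =>
    obtain ⟨a, ha⟩ := hx
    obtain ⟨b, hb⟩ := hy
    exact ⟨max a b, fun n hn => Submodule.add_mem _ (ha n (le_trans (le_max_left _ _) hn))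
      (hb n (le_trans (le_max_right _ _) hn))⟩
  | smul c x _ hx =>
    obtain ⟨a, ha⟩ := hx
    exact ⟨a, fun n hn => Submodule.smul_mem _ _ (ha n hn)⟩

end mm

section main
variable {k : Type} [Field k] {v : Valuation k (WithZero (Multiplicative ℤ))} {ϖ : kˣ}
  {N : Type} [AddCommGroup N] [Module ℂ N] {σ : Representation ℂ (GL (Fin 2) k) N} {e : N}

/-- `h_J = E_J - nn(ϖ^J).E_J` -/
def hh (σ : Representation ℂ (GL (Fin 2) k) N) (ϖ : kˣ) (e : N) (J : ℤ) : N :=
  EE σ ϖ e J - σ (nn ((ϖ ^ J : kˣ) : k)) (EE σ ϖ e J)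

theorem nn_hh_small (hL : LocalData v ϖ) (he : SteinbergVector v ϖ σ e) {x : k} {J : ℤ}
    (hx : v x < WithZero.exp (-J)) : σ (nn x) (hh σ ϖ e J) = hh σ ϖ e J := by
  rw [hh, map_sub, nn_nn, add_comm, ← nn_nn, nn_EE hL he hx]

theorem nn_hh_pi (hL : LocalData v ϖ) (he : SteinbergVector v ϖ σ e) (J : ℤ) :
    σ (nn ((ϖ ^ J : kˣ) : k)) (hh σ ϖ e J) = - hh σ ϖ e J := by
  have h2 : v (((ϖ ^ J : kˣ) : k) + ((ϖ ^ J : kˣ) : k)) < WithZero.exp (-J) := by
    rw [← two_mul, map_mul, v_zpow hL]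
    calc v (2 : k) * WithZero.exp (-J) < 1 * WithZero.exp (-J) := by
          apply mul_lt_mul_of_pos_right (v_two hL)
          exact WithZero.exp_pos
      _ = _ := one_mul _
  rw [hh, map_sub, nn_nn, nn_EE hL he h2]
  abel

theorem nn_hh_int (hL : LocalData v ϖ) (he : SteinbergVector v ϖ σ e) {x : k} {J : ℤ}
    (hx : v x ≤ WithZero.exp (-J)) :
    σ (nn x) (hh σ ϖ e J) = hh σ ϖ e J ∨ σ (nn x) (hh σ ϖ e J) = - hh σ ϖ e J := by
  set p : k := ((ϖ ^ J : kˣ) : k) with hp
  have hp0 : p ≠ 0 := (ϖ ^ J).ne_zero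
  have hvp : v p = WithZero.exp (-J) := v_zpow hL J
  have hx' : v (x / p) ≤ 1 := by
    rw [map_div₀, hvp]
    exact div_le_one_of_le₀ hx zero_le
  have hmul : ∀ z : k, v z < 1 → v (z * p) < WithZero.exp (-J) := by
    intro z hz
    rw [map_mul, hvp]
    calc v z * WithZero.exp (-J) < 1 * WithZero.exp (-J) := by
          apply mul_lt_mul_of_pos_right hz
          exact WithZero.exp_pos
      _ = _ := one_mul _
  rcases hL.res _ hx' with h | h
  · left
    apply nn_hh_small hL he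
    have := hmul _ h
    rwa [div_mul_cancel₀ _ hp0] at this
  · right
    have h1 := hmul _ h
    have h2 : (x / p - 1) * p = x - p := by field_simp
    rw [h2] at h1
    have h3 : x = p + (x - p) := by ring
    rw [h3, ← nn_nn, nn_hh_small hL he h1, hp, nn_hh_pi hL he]

theorem Wt_big (hL : LocalData v ϖ) (he : SteinbergVector v ϖ σ e) {x : k} {J : ℤ}
    (hx : WithZero.exp (-J) < v x) :
    Wt σ ϖ e (σ ss (σ (nn x) (hh σ ϖ e J))) 0 := by
  have hx0 : x ≠ 0 := by
    rintro rfl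
    rw [map_zero] at hx
    exact absurd hx (not_lt.2 zero_le)
  set y : k := x + ((ϖ ^ J : kˣ) : k) with hy
  have hvy : v y = v x := by
    rw [hy, Valuation.map_add_eq_of_lt_left]
    rw [v_zpow hL]
    exact hx
  have hy0 : y ≠ 0 := by
    rw [← Valuation.ne_zero_iff v, hvy, Valuation.ne_zero_iff]; exact hx0
  obtain ⟨r, hr⟩ := exists_ord (v := v) (Units.mk0 x hx0)
  have hry : v ((Units.mk0 y hy0 : kˣ) : k) = WithZero.exp (-r) := by
    rw [Units.val_mk0, hvy]; exact hr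
  have hrJ : r ≤ J := by
    rw [Units.val_mk0] at hr
    rw [hr, WithZero.exp_lt_exp] at hx
    omega
  have h1 := ss_nn_EE hL he _ hr hrJ
  have h2 := ss_nn_EE hL he _ hry hrJ
  rw [Units.val_mk0] at h1 h2
  rw [hh, map_sub, nn_nn, ← hy, map_sub, h1, h2]
  have h3 := Wt_nn hL he (((Units.mk0 x hx0)⁻¹ : kˣ) : k) (J - 2 * r)
  have h4 := Wt_nn hL he (((Units.mk0 y hy0)⁻¹ : kˣ) : k) (J - 2 * r)
  have h5 := h3.add h4.neg
  rw [add_neg_cancel, ← sub_eq_add_neg] at h5
  exact h5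

theorem Wt_hh (hL : LocalData v ϖ) (he : SteinbergVector v ϖ σ e) (J : ℤ) :
    Wt σ ϖ e (σ ss (hh σ ϖ e J)) (-(3 * 2 ^ J)) := by
  have h1 := ss_EE hL he J
  have h2 := ss_nn_EE hL he (ϖ ^ J) (v_zpow hL J) le_rfl
  rw [hh, map_sub, h1, h2]
  have h3 := (Wt_nn hL he (0 : k) (-J - 1)).neg
  rw [nn_zero, act_one] at h3
  have h4 := (Wt_nn hL he (((ϖ ^ J)⁻¹ : kˣ) : k) (J - 2 * J)).neg
  have h5 := h3.add h4
  rw [← sub_eq_add_neg] at h5
  convert h5 using 1
  rw [show -(-J - 1) = J + 1 by ring, show -(J - 2 * J) = J by ring, zpow_add_one₀ (by norm_num)]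
  ring

/-- `ϖ^J O` -/
def ballJ (v : Valuation k (WithZero (Multiplicative ℤ))) (J : ℤ) : AddSubgroup k where
  carrier := {x | v x ≤ WithZero.exp (-J)}
  zero_mem' := by simp
  add_mem' := fun hx hy => v.map_add_le hx hy
  neg_mem' := by
    intro x hx
    simpa using hx

theorem span_hh (hL : LocalData v ϖ) (he : SteinbergVector v ϖ σ e) (J : ℤ) (x : k) :
    σ (nn x) (hh σ ϖ e J) ∈ Submodule.span ℂ
      (Set.range fun q : k ⧸ ballJ v J => σ (nn q.out) (hh σ ϖ e J)) := by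
  set q : k ⧸ ballJ v J := (x : k ⧸ ballJ v J) with hq
  have h1 : -q.out + x ∈ ballJ v J := by
    rw [← QuotientAddGroup.eq]
    rw [hq, QuotientAddGroup.out_eq']
  have h2 : v (-q.out + x) ≤ WithZero.exp (-J) := h1
  have h3 : x = q.out + (-q.out + x) := by ring
  rw [h3, ← nn_nn]
  rcases nn_hh_int hL he h2 with h | h
  · rw [h]
    exact Submodule.subset_span ⟨q, rfl⟩
  · rw [h, map_neg]
    exact Submodule.neg_mem _ (Submodule.subset_span ⟨q, rfl⟩)

theorem hh_zero (hL : LocalData v ϖ) (he : SteinbergVector v ϖ σ e) {W : Submodule ℂ N}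
    (hW : Stable σ W) (hspan : Submodule.span ℂ (Set.range fun g => σ g e) = ⊤) (hT : W ≠ ⊤)
    {J : ℤ} {m : N} (hm : m ∈ W)
    (hm2 : m ∈ Submodule.span ℂ (Set.range fun x : k => σ (nn x) (hh σ ϖ e J))) : m = 0 := by
  have hm3 : m ∈ Submodule.span ℂ
      (Set.range fun q : k ⧸ ballJ v J => σ (nn q.out) (hh σ ϖ e J)) := by
    refine (Submodule.span_le.2 ?_) hm2
    rintro _ ⟨x, rfl⟩
    exact span_hh hL he J x
  rw [Finsupp.mem_span_range_iff_exists_finsupp] at hm3
  obtain ⟨c, rfl⟩ := hm3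
  have hc : ∀ q0, c q0 = 0 := by
    classical
    intro q0
    by_cases hq0 : q0 ∈ c.support
    swap
    · simpa using hq0
    have h1 : σ ss (σ (nn (-q0.out)) (c.sum fun q a => a • σ (nn q.out) (hh σ ϖ e J))) ∈ W :=
      hW _ _ (hW _ _ hm)
    have h2 : Wt σ ϖ e
        (σ ss (σ (nn (-q0.out)) (c.sum fun q a => a • σ (nn q.out) (hh σ ϖ e J))))
        (∑ q ∈ c.support, if q = q0 then c q * (-(3 * 2 ^ J)) else 0) := by
      rw [Finsupp.sum, map_sum, map_sum]
      apply Wt.sum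
      intro q _
      rw [map_smul, map_smul, nn_nn]
      by_cases hq : q = q0
      · subst hq
        rw [if_pos rfl, neg_add_cancel, nn_zero, act_one]
        exact (Wt_hh hL he J).smul _
      · rw [if_neg hq]
        have h3 : WithZero.exp (-J) < v (-q0.out + q.out) := by
          by_contra hcon
          push Not at hcon
          have h4 : -q0.out + q.out ∈ ballJ v J := hcon
          rw [← QuotientAddGroup.eq, QuotientAddGroup.out_eq', QuotientAddGroup.out_eq'] at h4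
          exact hq h4.symm
        have h5 := (Wt_big hL he h3).smul (c q)
        rwa [mul_zero] at h5
    have h3 := Wt_eq_zero hW hspan hT h1 h2
    rw [Finset.sum_ite_eq' , if_pos hq0] at h3
    have h4 : (-(3 * 2 ^ J) : ℂ) ≠ 0 := by
      apply neg_ne_zero.2
      apply mul_ne_zero (by norm_num)
      apply zpow_ne_zero
      norm_num
    exact (mul_eq_zero.1 h3).resolve_right h4
  have : c = 0 := by ext q; exact hc q
  rw [this]
  simp

theorem MM_zero (hL : LocalData v ϖ) (he : SteinbergVector v ϖ σ e) {W : Submodule ℂ N}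
    (hW : Stable σ W) (hspan : Submodule.span ℂ (Set.range fun g => σ g e) = ⊤) (hT : W ≠ ⊤)
    (n : ℕ) : ∀ (J : ℤ) (m : N), m ∈ W → m ∈ MM v σ ϖ e J (J + 1 - n) → m = 0 := by
  induction n with
  | zero =>
    intro J m hm hm2
    have h1 : MM v σ ϖ e J (J + 1 - (0 : ℕ)) ≤ Submodule.span ℂ {EE σ ϖ e J} := by
      rw [MM, Submodule.span_le]
      rintro _ ⟨x, hx, rfl⟩
      rw [nn_EE hL he]
      · exact Submodule.mem_span_singleton_self _
      · refine lt_of_le_of_lt hx ?_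
        rw [WithZero.exp_lt_exp]
        simp
    obtain ⟨c, rfl⟩ := Submodule.mem_span_singleton.1 (h1 hm2)
    by_cases hc : c = 0
    · rw [hc, zero_smul]
    · rw [Submodule.smul_mem_iff _ hc] at hm
      exact absurd (EE_mem_top hW hspan hm) hT
  | succ n ih =>
    intro J m hm hm2
    set p : k := ((ϖ ^ J : kˣ) : k) with hp
    have h2p : v (p + p) < WithZero.exp (-J) := by
      rw [← two_mul, map_mul, hp, v_zpow hL]
      calc v (2 : k) * WithZero.exp (-J) < 1 * WithZero.exp (-J) := by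
            apply mul_lt_mul_of_pos_right (v_two hL)
            exact WithZero.exp_pos
        _ = _ := one_mul _
    have key : m + σ (nn p) m ∈ MM v σ ϖ e (J - 1) (J - 1 + 1 - n) ∧
        m - σ (nn p) m ∈ Submodule.span ℂ (Set.range fun x : k => σ (nn x) (hh σ ϖ e J)) := by
      clear hm
      induction hm2 using Submodule.span_induction with
      | mem x hx =>
        obtain ⟨b, hb, rfl⟩ := hx
        constructor
        · rw [nn_nn, add_comm p b, ← nn_nn, ← map_add, hp, ← split he]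
          apply mem_MM
          refine hb.trans ?_
          rw [WithZero.exp_le_exp]
          push_cast
          omega
        · rw [nn_nn, add_comm p b, ← nn_nn, ← map_sub, hp]
          exact Submodule.subset_span ⟨b, rfl⟩
      | zero => simp
      | add x y _ _ hx hy =>
        refine ⟨?_, ?_⟩
        · rw [map_add]
          have := Submodule.add_mem _ hx.1 hy.1
          convert this using 1
          abel
        · rw [map_add]
          have := Submodule.add_mem _ hx.2 hy.2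
          convert this using 1
          abel
      | smul c x _ hx =>
        refine ⟨?_, ?_⟩
        · rw [map_smul, ← smul_add]
          exact Submodule.smul_mem _ _ hx.1
        · rw [map_smul, ← smul_sub]
          exact Submodule.smul_mem _ _ hx.2
    have h1 := ih (J - 1) _ (W.add_mem hm (hW (nn p) _ hm)) key.1
    have h2 := hh_zero hL he hW hspan hT (W.sub_mem hm (hW (nn p) _ hm)) key.2
    have h3 : (2 : ℂ) • m = 0 := by
      rw [two_smul]
      have : m + m = (m + σ (nn p) m) + (m - σ (nn p) m) := by abel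
      rw [this, h1, h2, add_zero]
    exact (smul_eq_zero.1 h3).resolve_left two_ne_zero

end main

/-- PACKAGE L1. -/
theorem l1 : L1Stmt := by
  intro k _ v ϖ hL N _ _ σ e he he0 hspan
  refine ⟨⟨e, he0⟩, fun W hW => ?_⟩
  by_cases hT : W = ⊤
  · exact Or.inr hT
  left
  rw [eq_bot_iff]
  intro m hm
  obtain ⟨n, hn⟩ := exists_MM hL he hspan m
  have h1 := hn n le_rfl
  have h2 := MM_zero hL he hW hspan hT (2 * n + 1) n m hm
    (by
      convert h1 using 1
      push_cast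
      ring_nf)
  exact h2

end Pool.Agent.T2H06.AUT
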