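import Pool.Agent.T2H06.AUT.L1

/-!
# PACKAGE L2: a module generated by a Steinberg vector has no vector fixed by `GL₂(O)`
-/

set_option autoImplicit false

namespace Pool.Agent.T2H06.AUT

section two
variable {k : Type} [Field k] {v : Valuation k (WithZero (Multiplicative ℤ))} {ϖ : kˣ}
  {N : Type} [AddCommGroup N] [Module ℂ N] {σ : Representation ℂ (GL (Fin 2) k) N} {e : N}

/-- `span {nn(y).E_j : y ∈ ϖ O, j ≥ 0}` -/
def Mm (v : Valuation k (WithZero (Multiplicative ℤ))) (σ : Representation ℂ (GL (Fin 2) k) N)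
    (ϖ : kˣ) (e : N) : Submodule ℂ N :=
  Submodule.span ℂ {z | ∃ (y : k) (j : ℤ), v y < 1 ∧ 0 ≤ j ∧ z = σ (nn y) (EE σ ϖ e j)}

theorem low_Mm (hL : LocalData v ϖ) (he : SteinbergVector v ϖ σ e) {c : k} (hc : v c ≤ 1) {z : N}
    (hz : z ∈ Mm v σ ϖ e) : σ (low c) z ∈ Mm v σ ϖ e := by
  induction hz using Submodule.span_induction with
  | mem x hx =>
    obtain ⟨y, j, hy, hj, rfl⟩ := hx
    rw [low_nn_EE hL he hc hy hj]
    refine Submodule.subset_span ⟨_, j, ?_, hj, rfl⟩
    have hcy : v (c * y) < 1 := by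
      rw [map_mul]; exact mul_lt_one_of_nonneg_of_lt_one_right hc zero_le hy
    have h1 : v (1 + c * y) = 1 := by
      rw [Valuation.map_add_eq_of_lt_left]
      · simp
      · simpa using hcy
    rw [map_div₀, h1, div_one]
    exact hy
  | zero => simp
  | add x y _ _ hx hy => rw [map_add]; exact Submodule.add_mem _ hx hy
  | smul a x _ hx => rw [map_smul]; exact Submodule.smul_mem _ _ hx

theorem SS_succ (n : ℕ) (a : ℤ) (z : N) : σ ss (TT σ ϖ (n + 1) a (σ ss z)) =
    σ ss (TT σ ϖ n (a + 1) (σ ss z)) +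
      σ (low ((ϖ ^ a : kˣ) : k)) (σ ss (TT σ ϖ n (a + 1) (σ ss z))) := by
  rw [TT_succ, map_add, ← act_mul (low _), ← ss_nn_ss, mul_assoc, mul_assoc, ss_mul_ss, mul_one,
    act_mul]

theorem SS_Mm (hL : LocalData v ϖ) (he : SteinbergVector v ϖ σ e) (n : ℕ) : ∀ (a : ℤ) (z : N),
    0 ≤ a → z ∈ Mm v σ ϖ e → σ ss (TT σ ϖ n a (σ ss z)) ∈ Mm v σ ϖ e := by
  induction n with
  | zero =>
    intro a z _ hz
    rw [TT_zero, ← act_mul, ss_mul_ss, act_one]
    exact hz
  | succ n ih =>
    intro a z ha hz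
    rw [SS_succ]
    have h := ih (a + 1) z (by omega) hz
    refine Submodule.add_mem _ h (low_Mm hL he ?_ h)
    rw [v_zpow hL, ← WithZero.exp_zero, WithZero.exp_le_exp]
    omega

theorem SS_into (hL : LocalData v ϖ) (he : SteinbergVector v ϖ σ e)
    (hspan : Submodule.span ℂ (Set.range fun g => σ g e) = ⊤) (z : N) :
    ∃ L : ℕ, σ ss (TT σ ϖ L 0 (σ ss z)) ∈ Mm v σ ϖ e := by
  obtain ⟨n, hn⟩ := exists_MM hL he hspan z
  refine ⟨3 * n + 1, ?_⟩
  have hz := hn n le_rfl
  clear hn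
  induction hz using Submodule.span_induction with
  | mem x hx =>
    obtain ⟨y, hy, rfl⟩ := hx
    by_cases hy1 : v y < 1
    · exact SS_Mm hL he _ _ _ le_rfl (Submodule.subset_span ⟨y, n, hy1, by omega, rfl⟩)
    · push Not at hy1
      have hy0 : y ≠ 0 := by
        rintro rfl
        rw [map_zero] at hy1
        exact absurd hy1 (by simp)
      obtain ⟨r, hr⟩ := exists_ord (v := v) (Units.mk0 y hy0)
      have hr' := hr
      rw [Units.val_mk0] at hr'
      have hr0 : r ≤ 0 := by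
        rw [hr', ← WithZero.exp_zero, WithZero.exp_le_exp] at hy1
        omega
      have hrn : -(n : ℤ) ≤ r := by
        rw [hr', WithZero.exp_le_exp] at hy
        omega
      have h1 := ss_nn_EE hL he _ hr (J := n) (by omega)
      rw [Units.val_mk0] at h1
      rw [h1, TT_nn, TT_EE hL he _ _ _ (by omega) (by push_cast; omega), map_smul, nn_EE hL he,
        map_smul]
      · refine Submodule.smul_mem _ _ ?_
        rw [zero_sub, ss_EE hL he]
        refine Submodule.neg_mem _ (Submodule.subset_span ⟨0, 0, by simp, le_rfl, ?_⟩)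
        rw [nn_zero, act_one]
        rfl
      · rw [Units.val_inv_eq_inv_val, map_inv₀, hr, ← WithZero.exp_neg, WithZero.exp_lt_exp]
        omega
  | zero => simp
  | add x y _ _ hx hy =>
    rw [map_add, map_add, map_add]; exact Submodule.add_mem _ hx hy
  | smul a x _ hx => rw [map_smul, map_smul, map_smul]; exact Submodule.smul_mem _ _ hx

theorem TT_into (hL : LocalData v ϖ) (he : SteinbergVector v ϖ σ e) {z : N}
    (hz : z ∈ Mm v σ ϖ e) : ∃ L0 : ℕ, ∀ L ≥ L0, TT σ ϖ L 1 z ∈ Submodule.span ℂ {e} := by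
  induction hz using Submodule.span_induction with
  | mem x hx =>
    obtain ⟨y, j, hy, hj, rfl⟩ := hx
    refine ⟨j.toNat, fun L hL' => ?_⟩
    rw [TT_nn, TT_EE hL he _ _ _ (by omega) (by omega), map_smul, nn_EE hL he]
    · refine Submodule.smul_mem _ _ ?_
      rw [sub_self, EE_zero]
      exact Submodule.mem_span_singleton_self _
    · simpa using hy
  | zero => exact ⟨0, fun L _ => by simp⟩
  | add x y _ _ hx hy =>
    obtain ⟨a, ha⟩ := hx
    obtain ⟨b, hb⟩ := hy
    refine ⟨max a b, fun n hn => ?_⟩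
    rw [map_add]
    exact Submodule.add_mem _ (ha n (le_trans (le_max_left _ _) hn))
      (hb n (le_trans (le_max_right _ _) hn))
  | smul c x _ hx =>
    obtain ⟨a, ha⟩ := hx
    exact ⟨a, fun n hn => by rw [map_smul]; exact Submodule.smul_mem _ _ (ha n hn)⟩

end two

/-- PACKAGE L2. -/
theorem l2 : L2Stmt := by
  intro k _ v ϖ hL N _ _ σ e he hspan x hx
  have hss : σ ss x = x := hx _ ss_mem_int
  have hnn : ∀ i : ℤ, 0 ≤ i → σ (nn ((ϖ ^ i : kˣ) : k)) x = x := by
    intro i hi
    apply hx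
    apply nn_mem_int
    rw [v_zpow hL, ← WithZero.exp_zero, WithZero.exp_le_exp]
    omega
  have h1 : x ∈ Mm v σ ϖ e := by
    obtain ⟨L, hL1⟩ := SS_into hL he hspan x
    rw [hss, TT_fix L 0 x hnn, map_smul, hss,
      Submodule.smul_mem_iff _ (pow_ne_zero _ two_ne_zero)] at hL1
    exact hL1
  obtain ⟨L, hL1⟩ := TT_into hL he h1
  have h2 := hL1 L le_rfl
  rw [TT_fix L 1 x (fun i hi => hnn i (by omega)),
    Submodule.smul_mem_iff _ (pow_ne_zero _ two_ne_zero)] at h2
  obtain ⟨l, rfl⟩ := Submodule.mem_span_singleton.1 h2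
  have h3 := hnn 0 le_rfl
  rw [zpow_zero, Units.val_one] at h3
  have h4 := congrArg (fun z => l • z) he.sum
  simp only [smul_add, smul_zero] at h4
  rw [← map_smul, ← map_smul, hss, h3] at h4
  have h5 : (3 : ℂ) • (l • e) = 0 := by
    rw [← h4]
    module
  exact (smul_eq_zero.1 h5).resolve_left (by norm_num)

end Pool.Agent.T2H06.AUT
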