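import Pool.Agent.T2H06.AUT.Defs
import Pool.Agent.T2H23.LL.Approx

/-!
# Package S: the finite adèles of `𝔽₂(t)`
-/

set_option autoImplicit false

open Polynomial IsDedekindDomain

namespace Pool.Agent.T2H06.AUT

theorem evG_apply (v : Pl) (g : Gf) (i j : Fin 2) : (evG v g).1 i j = (g.1 i j) v := rfl

theorem evG_map (v : Pl) (γ : GL (Fin 2) K) (i j : Fin 2) :
    (evG v (Matrix.GeneralLinearGroup.map (algebraMap K Af) γ)).1 i j =
      ((γ.1 i j : K) : Kv v) := rfl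

/-- The finite adèle with given integral components. -/
noncomputable def mkI (x : ∀ v : Pl, Kv v) (hx : ∀ v, vv v (x v) ≤ 1) : Af :=
  ⟨x, Filter.Eventually.of_forall hx⟩

theorem mkI_apply (x : ∀ v : Pl, Kv v) (hx : ∀ v, vv v (x v) ≤ 1) (v : Pl) : mkI x hx v = x v := rfl

theorem Af_mul (a b : Af) (v : Pl) : (a * b) v = a v * b v := rfl
theorem Af_add (a b : Af) (v : Pl) : (a + b) v = a v + b v := rfl
theorem Af_sub (a b : Af) (v : Pl) : (a - b) v = a v - b v := rfl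
theorem Af_one (v : Pl) : (1 : Af) v = 1 := rfl
theorem Af_zero (v : Pl) : (0 : Af) v = 0 := rfl
theorem Af_neg (a : Af) (v : Pl) : (-a) v = - a v := rfl

theorem isUnit_local {a : Af} (h : IsUnit a) (v : Pl) : a v ≠ 0 := (FiniteAdeleRing.isUnit_iff.1 h).1 v

theorem isUnit_ev {a : Af} (h : IsUnit a) : ∀ᶠ v in Filter.cofinite, Valued.v (a v) = 1 :=
  (FiniteAdeleRing.isUnit_iff.1 h).2

/-- The Iwasawa decomposition over the finite adèles. -/
theorem iwasawa (g : Gf) : ∃ κ ∈ Kf, (g * κ).1 1 0 = 0 := by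
  classical
  -- local matrices
  let M : ∀ v : Pl, Matrix (Fin 2) (Fin 2) (Kv v) := fun v =>
    if vv v (g.1 1 0 v) ≤ vv v (g.1 1 1 v) then !![1, 0; -(g.1 1 0 v / g.1 1 1 v), 1]
    else !![-(g.1 1 1 v / g.1 1 0 v), 1; 1, 0]
  have hM : ∀ v i j, vv v (M v i j) ≤ 1 := by
    intro v i j
    simp only [M]
    split_ifs with h
    · have h2 : vv v (g.1 1 0 v / g.1 1 1 v) ≤ 1 := by
        rw [map_div₀]; exact div_le_one_of_le₀ h zero_le
      fin_cases i <;> fin_cases j <;> simp [Valuation.map_neg] <;> simpa using h2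
    · have h2 : vv v (g.1 1 1 v / g.1 1 0 v) ≤ 1 := by
        rw [map_div₀]; exact div_le_one_of_le₀ (not_le.1 h).le zero_le
      fin_cases i <;> fin_cases j <;> simp [Valuation.map_neg] <;> simpa using h2
  let N : Matrix (Fin 2) (Fin 2) Af := fun i j => mkI (fun v => M v i j) fun v => hM v i j
  have hdet : ∀ v, vv v (N.det v) = 1 := by
    intro v
    have : N.det v = (M v).det := by
      rw [Matrix.det_fin_two, Matrix.det_fin_two, Af_sub, Af_mul, Af_mul]; rfl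
    rw [this]
    simp only [M]
    split_ifs with h <;> simp [Matrix.det_fin_two]
  have hunit : IsUnit N.det := FiniteAdeleRing.isUnit_iff.2
    ⟨fun v h => by have := hdet v; rw [h, map_zero] at this; exact zero_ne_one this,
      Filter.Eventually.of_forall hdet⟩
  let κ : Gf := Matrix.GeneralLinearGroup.mk'' N hunit
  have hκ : κ ∈ Kf := by
    intro v
    refine ⟨fun i j => hM v i j, ?_⟩
    have : (evG v κ).1.det = N.det v := by
      rw [Matrix.det_fin_two, Matrix.det_fin_two, Af_sub, Af_mul, Af_mul]; rfl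
    rw [this]
    exact hdet v
  refine ⟨κ, hκ, ?_⟩
  refine FiniteAdeleRing.ext _ fun v => ?_
  have hne : g.1 1 0 v ≠ 0 ∨ g.1 1 1 v ≠ 0 := by
    by_contra hcon
    push Not at hcon
    have h1 : IsUnit g.1.det := Matrix.isUnits_det_units g
    have h2 := isUnit_local h1 v
    rw [Matrix.det_fin_two, Af_sub, Af_mul, Af_mul, hcon.1, hcon.2] at h2
    simp at h2
  have e : (g * κ).1 1 0 v = g.1 1 0 v * M v 0 0 + g.1 1 1 v * M v 1 0 := by
    rw [Units.val_mul, Matrix.mul_apply, Fin.sum_univ_two, Af_add, Af_mul, Af_mul]; rfl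
  rw [e, Af_zero]
  simp only [M]
  split_ifs with h
  · have h1 : g.1 1 1 v ≠ 0 := by
      intro h0
      rw [h0, map_zero] at h
      have := (vv v).zero_iff.1 (le_antisymm h zero_le)
      tauto
    simp
    field_simp
    ring
  · have h1 : g.1 1 0 v ≠ 0 := by
      intro h0
      rw [h0, map_zero] at h
      exact h zero_le
    simp
    field_simp
    ring

/-- `[[α, αξ],[0,δ]] ∈ GL₂(K)`. -/
noncomputable def upK (α ξ δ : K) (hα : α ≠ 0) (hδ : δ ≠ 0) : GL (Fin 2) K where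
  val := !![α, α * ξ; 0, δ]
  inv := !![α⁻¹, -(ξ * δ⁻¹); 0, δ⁻¹]
  val_inv := by
    ext i j; fin_cases i <;> fin_cases j <;> simp [Matrix.mul_apply, hα, hδ]
    ring
  inv_val := by
    ext i j; fin_cases i <;> fin_cases j <;> simp [Matrix.mul_apply, hα, hδ]

theorem s1 : S1Stmt := by
  intro g
  obtain ⟨κ, hκ, h10⟩ := iwasawa g
  set b : Gf := g * κ with hb
  have hdetu : IsUnit b.1.det := Matrix.isUnits_det_units b
  have hdet : b.1.det = b.1 0 0 * b.1 1 1 := by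
    rw [Matrix.det_fin_two, h10]; ring
  rw [hdet] at hdetu
  have ha : IsUnit (b.1 0 0) := isUnit_of_mul_isUnit_left hdetu
  have hd : IsUnit (b.1 1 1) := isUnit_of_mul_isUnit_right hdetu
  have hR : IsPrincipalIdealRing R := inferInstance
  obtain ⟨α, hα, hαv⟩ := T2H23.LL.exists_idele (K := K) hR (b.1 0 0) (isUnit_local ha) (isUnit_ev ha)
  obtain ⟨δ, hδ, hδv⟩ := T2H23.LL.exists_idele (K := K) hR (b.1 1 1) (isUnit_local hd) (isUnit_ev hd)
  obtain ⟨dinv, hdinv⟩ := hd.exists_right_inv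
  obtain ⟨ξ, hξ⟩ := T2H23.LL.exists_sub_integral (K := K)
    (b.1 0 1 * dinv * algebraMap K Af (δ / α))
  let γ := upK α ξ δ hα hδ
  have hloc : ∀ v : Pl, (evG v ((Matrix.GeneralLinearGroup.map (algebraMap K Af) γ)⁻¹ * b)).1 =
      !![(α : Kv v)⁻¹ * b.1 0 0 v, (α : Kv v)⁻¹ * b.1 0 1 v - (ξ : Kv v) * (δ : Kv v)⁻¹ * b.1 1 1 v;
        0, (δ : Kv v)⁻¹ * b.1 1 1 v] := by
    intro v
    have e1 : (evG v ((Matrix.GeneralLinearGroup.map (algebraMap K Af) γ)⁻¹ * b)).1 =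
        (evG v (Matrix.GeneralLinearGroup.map (algebraMap K Af) γ⁻¹)).1 * (evG v b).1 := by
      rw [← map_inv, map_mul, Units.val_mul]
    rw [e1]
    have e2 : (evG v (Matrix.GeneralLinearGroup.map (algebraMap K Af) γ⁻¹)).1 =
        !![(α : Kv v)⁻¹, -((ξ : Kv v) * (δ : Kv v)⁻¹); 0, (δ : Kv v)⁻¹] := by
      refine Matrix.ext fun i j => ?_
      rw [evG_map]
      have : (γ⁻¹).1 = !![α⁻¹, -(ξ * δ⁻¹); 0, δ⁻¹] := rfl
      rw [this]
      fin_cases i <;> fin_cases j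
      · exact map_inv₀ (algebraMap K (Kv v)) α
      · change algebraMap K (Kv v) (-(ξ * δ⁻¹)) =
          -(algebraMap K (Kv v) ξ * (algebraMap K (Kv v) δ)⁻¹)
        rw [map_neg, map_mul, map_inv₀]
      · exact map_zero (algebraMap K (Kv v))
      · exact map_inv₀ (algebraMap K (Kv v)) δ
    rw [e2]
    have hb10 : (evG v b).1 1 0 = 0 := by rw [evG_apply, h10]; rfl
    refine Matrix.ext fun i j => ?_
    rw [Matrix.mul_apply, Fin.sum_univ_two]
    fin_cases i <;> fin_cases j <;>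
      simp [hb10, evG_apply, sub_eq_add_neg]
  refine ⟨γ, (Matrix.GeneralLinearGroup.map (algebraMap K Af) γ)⁻¹ * b * κ⁻¹,
    mul_mem ?_ (inv_mem hκ), by rw [hb]; group⟩
  intro v
  have hαv' : (α : Kv v) ≠ 0 := T2H23.LL.coe_ne_zero' v hα
  have hδv' : (δ : Kv v) ≠ 0 := T2H23.LL.coe_ne_zero' v hδ
  have h00 : vv v ((α : Kv v)⁻¹ * b.1 0 0 v) = 1 := by
    rw [map_mul, map_inv₀]
    have := hαv v
    change vv v _ = vv v _ at this
    rw [this, inv_mul_cancel₀]
    exact (Valuation.ne_zero_iff _).2 hαv'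
  have h11 : vv v ((δ : Kv v)⁻¹ * b.1 1 1 v) = 1 := by
    rw [map_mul, map_inv₀]
    have := hδv v
    change vv v _ = vv v _ at this
    rw [this, inv_mul_cancel₀]
    exact (Valuation.ne_zero_iff _).2 hδv'
  have h01 : vv v ((α : Kv v)⁻¹ * b.1 0 1 v - (ξ : Kv v) * (δ : Kv v)⁻¹ * b.1 1 1 v) ≤ 1 := by
    have hdi : b.1 1 1 v * dinv v = 1 := by rw [← Af_mul, hdinv, Af_one]
    have hq : ((δ / α : K) : Kv v) = (δ : Kv v) / (α : Kv v) :=
      map_div₀ (algebraMap K (Kv v)) δ α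
    have e3 : (α : Kv v)⁻¹ * b.1 0 1 v - (ξ : Kv v) * (δ : Kv v)⁻¹ * b.1 1 1 v =
        ((δ : Kv v)⁻¹ * b.1 1 1 v) *
          ((b.1 0 1 * dinv * algebraMap K Af (δ / α)) v - (ξ : Kv v)) := by
      rw [Af_mul, Af_mul, FiniteAdeleRing.algebraMap_apply, hq, mul_sub]
      have : (δ : Kv v)⁻¹ * b.1 1 1 v * (b.1 0 1 v * dinv v * ((δ : Kv v) / (α : Kv v))) =
          (b.1 1 1 v * dinv v) * ((δ : Kv v)⁻¹ * (δ : Kv v)) * ((α : Kv v)⁻¹ * b.1 0 1 v) := by
        rw [div_eq_mul_inv]; ring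
      rw [this, hdi, inv_mul_cancel₀ hδv']
      ring
    rw [e3, map_mul, h11, one_mul]
    exact hξ v
  refine ⟨fun i j => ?_, ?_⟩
  · rw [hloc v]
    fin_cases i <;> fin_cases j
    · exact h00.le
    · exact h01
    · simp
    · exact h11.le
  · rw [hloc v, Matrix.det_fin_two]
    simp only [Matrix.of_apply, Matrix.cons_val_zero, Matrix.cons_val_one, Matrix.cons_val', mul_zero,
      sub_zero]
    rw [map_mul, h00, h11, one_mul]

end Pool.Agent.T2H06.AUT
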