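import Pool.Agent.T2H06.AUT.Defs3

/-!
# Assembly, part A: the Eisenstein quotient
-/

set_option autoImplicit false

namespace Pool.Agent.T2H06.AUT

theorem rt_app (g : G) (f : G → ℂ) (x : G) : rt G g f x = f (x * g) := rfl

theorem mem_cst_iff {y : G → ℂ} : y ∈ cst ↔ ∃ c : ℂ, ∀ x, y x = c := by
  rw [cst, Submodule.mem_span_singleton]
  constructor
  · rintro ⟨c, rfl⟩
    exact ⟨c, fun x => by simp⟩
  · rintro ⟨c, hc⟩
    exact ⟨c, by ext x; simp [hc]⟩

theorem cst_stable : Stable (rt G) cst := by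
  intro g y hy
  rw [mem_cst_iff] at hy ⊢
  obtain ⟨c, hc⟩ := hy
  exact ⟨c, fun x => hc _⟩

theorem rt_cst (g : G) {y : G → ℂ} (hy : y ∈ cst) : rt G g y = y := by
  rw [mem_cst_iff] at hy
  obtain ⟨c, hc⟩ := hy
  ext x
  rw [rt_app, hc, hc]

theorem V1_stable (e : G → ℂ) : Stable (rt G) (V1 e) := cst_stable.sup (orb_stable _ _)

theorem V2_stable (e : G → ℂ) : Stable (rt G) (V2 e) := by
  refine cst_stable.sup (stable_span ?_)
  rintro g _ ⟨a, x, hx, rfl⟩
  refine Submodule.subset_span ⟨g.1 * a * g.1⁻¹, rt G g x, V1_stable e g x hx, ?_⟩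
  have h1 : ((g.1 * a * g.1⁻¹, 1) : G) * g = g * (a, 1) := by
    ext1
    · simp
    · simp
  rw [map_sub, ← Module.End.mul_apply, ← map_mul, ← Module.End.mul_apply (rt G (_, 1)), ← map_mul,
    h1]

theorem cst_le_V2 (e : G → ℂ) : cst ≤ V2 e := le_sup_left

/-- The quotient representation. -/
noncomputable def QA (e : G → ℂ) : Representation ℂ G ((G → ℂ) ⧸ V2 e) :=
  quoRep (rt G) (V2 e) (V2_stable e)

/-- The image of `V1` in the quotient. -/
noncomputable def NA (e : G → ℂ) : Submodule ℂ ((G → ℂ) ⧸ V2 e) := (V1 e).map (V2 e).mkQ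

theorem NA_stable (e : G → ℂ) : Stable (QA e) (NA e) :=
  Stable.map_mkQ (V2_stable e) (V1_stable e)

/-- The representation `π` with component `St` at `∞` and trivial components elsewhere. -/
noncomputable def piA (e : G → ℂ) : Representation ℂ G (NA e) :=
  subRep (QA e) (NA e) (NA_stable e)

theorem self_mem_V1 (e : G → ℂ) : e ∈ V1 e := le_sup_right (a := cst) (self_mem_orb _ _)

/-- The image of `e`. -/
noncomputable def eA (e : G → ℂ) : NA e := ⟨(V2 e).mkQ e, e, self_mem_V1 e, rfl⟩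

/-- The projection. -/
noncomputable def qA (e : G → ℂ) : V1 e →ₗ[ℂ] NA e :=
  ((V2 e).mkQ.comp (V1 e).subtype).codRestrict (NA e) (fun x => ⟨x, x.2, rfl⟩)

theorem qA_surj (e : G → ℂ) : Function.Surjective (qA e) := by
  rintro ⟨_, x, hx, rfl⟩
  exact ⟨⟨x, hx⟩, rfl⟩

theorem qA_equi (e : G → ℂ) (g : G) (f f' : V1 e) (h : (f' : G → ℂ) = rt G g f) :
    qA e f' = piA e g (qA e f) := by
  apply Subtype.ext
  show (V2 e).mkQ (f' : G → ℂ) = (V2 e).mkQ (rt G g f)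
  rw [h]

theorem piA_f (e : G → ℂ) (a : Gf) (x : NA e) : piA e (a, 1) x = x := by
  obtain ⟨y, rfl⟩ := qA_surj e x
  rw [← qA_equi e (a, 1) y ⟨rt G (a, 1) y, V1_stable e _ _ y.2⟩ rfl]
  apply Subtype.ext
  show (V2 e).mkQ (rt G (a, 1) y) = (V2 e).mkQ (y : G → ℂ)
  rw [← sub_eq_zero, ← map_sub, Submodule.mkQ_apply, Submodule.Quotient.mk_eq_zero]
  exact le_sup_right (a := cst) (Submodule.subset_span ⟨a, y, y.2, rfl⟩)

theorem eA_eq (e : G → ℂ) : eA e = qA e ⟨e, self_mem_V1 e⟩ := rfl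

theorem eA_ne (e : G → ℂ) (h3 : G3Stmt) (he : EisHyp e) : eA e ≠ 0 := by
  intro h
  have h1 : (V2 e).mkQ e = 0 := congrArg Subtype.val h
  rw [Submodule.mkQ_apply, Submodule.Quotient.mk_eq_zero] at h1
  exact h3 e he h1

/-- The restriction to `GL₂(K_∞)`. -/
noncomputable def piAinf (e : G → ℂ) : Representation ℂ Ginf (NA e) :=
  (piA e).comp (MonoidHom.inr Gf Ginf)

theorem piAinf_apply (e : G → ℂ) (b : Ginf) (x : NA e) : piAinf e b x = piA e (1, b) x := rfl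

theorem piA_eA (e : G → ℂ) (g : G) : piA e g (eA e) = piAinf e g.2 (eA e) := by
  have h1 : g = (1, g.2) * (g.1, 1) := by ext1 <;> simp
  rw [piAinf_apply]
  conv_lhs => rw [h1, map_mul, Module.End.mul_apply, piA_f]

theorem stein_eA (e : G → ℂ) (he : EisHyp e) :
    SteinbergVector vinf piInf (piAinf e) (eA e) := by
  have key : ∀ b : Ginf, piAinf e b (eA e)
      = qA e ⟨rt G (1, b) e, V1_stable e _ _ (self_mem_V1 e)⟩ := by
    intro b
    rw [piAinf_apply, eA_eq]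
    exact (qA_equi e (1, b) _ _ rfl).symm
  refine ⟨fun g hg => ?_, ?_, ?_⟩
  · rw [key, eA_eq]
    congr 1
    apply Subtype.ext
    ext x
    exact he.iw x g hg
  · rw [key, eA_eq, ← map_neg]
    congr 1
    apply Subtype.ext
    ext x
    exact he.ww x
  · rw [key, key, eA_eq, ← map_add, ← map_add]
    apply Subtype.ext
    show (V2 e).mkQ _ = 0
    rw [Submodule.mkQ_apply, Submodule.Quotient.mk_eq_zero]
    refine cst_le_V2 e ?_
    rw [mem_cst_iff]
    exact ⟨3, fun x => he.sum x⟩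

theorem orb_eA (e : G → ℂ) : orb (piAinf e) (eA e) = ⊤ := by
  rw [eq_top_iff]
  rintro x _
  obtain ⟨⟨y, hy⟩, rfl⟩ := qA_surj e x
  have hy' : y ∈ cst ⊔ orb (rt G) e := hy
  rw [Submodule.mem_sup] at hy'
  obtain ⟨c, hc, z, hz, rfl⟩ := hy'
  have hcV : c ∈ V1 e := le_sup_left (b := orb (rt G) e) hc
  have hzV : z ∈ V1 e := le_sup_right (a := cst) hz
  have h1 : qA e ⟨c + z, hy⟩ = qA e ⟨c, hcV⟩ + qA e ⟨z, hzV⟩ := by
    rw [← map_add]; rfl
  have h2 : qA e ⟨c, hcV⟩ = 0 := by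
    apply Subtype.ext
    show (V2 e).mkQ c = 0
    rw [Submodule.mkQ_apply, Submodule.Quotient.mk_eq_zero]
    exact cst_le_V2 e hc
  rw [h1, h2, zero_add]
  have h3 : ∀ z (hz : z ∈ orb (rt G) e) (hzV : z ∈ V1 e),
      qA e ⟨z, hzV⟩ ∈ orb (piAinf e) (eA e) := by
    intro z hz
    unfold orb at hz
    induction hz using Submodule.span_induction with
    | mem z hz =>
      obtain ⟨g, rfl⟩ := hz
      intro hzV
      rw [qA_equi e g ⟨e, self_mem_V1 e⟩ ⟨rt G g e, hzV⟩ rfl, ← eA_eq, piA_eA]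
      exact mem_orb _ _ _
    | zero =>
      intro hzV
      have : qA e ⟨0, hzV⟩ = 0 := by
        rw [← map_zero (qA e)]; rfl
      rw [this]; exact zero_mem _
    | add x y hx hy hx' hy' =>
      intro hzV
      have hxV : x ∈ V1 e := le_sup_right (a := cst) hx
      have hyV : y ∈ V1 e := le_sup_right (a := cst) hy
      have : qA e ⟨x + y, hzV⟩ = qA e ⟨x, hxV⟩ + qA e ⟨y, hyV⟩ := by
        rw [← map_add]; rfl
      rw [this]
      exact add_mem (hx' hxV) (hy' hyV)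
    | smul c x hx hx' =>
      intro hzV
      have hxV : x ∈ V1 e := le_sup_right (a := cst) hx
      have : qA e ⟨c • x, hzV⟩ = c • qA e ⟨x, hxV⟩ := by
        rw [← map_smul]; rfl
      rw [this]
      exact Submodule.smul_mem _ _ (hx' hxV)
  exact h3 z hz hzV

theorem irr_piAinf (h1 : L1Stmt) (hd : D1Stmt) (h3 : G3Stmt) (e : G → ℂ) (he : EisHyp e) :
    Irr (piAinf e) :=
  h1 Kinf vinf piInf hd (NA e) (piAinf e) (eA e) (stein_eA e he) (eA_ne e h3 he) (orb_eA e)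

theorem irr_piA (h1 : L1Stmt) (hd : D1Stmt) (h3 : G3Stmt) (e : G → ℂ) (he : EisHyp e) :
    Irr (piA e) :=
  ⟨(irr_piAinf h1 hd h3 e he).1, fun U hU =>
    (irr_piAinf h1 hd h3 e he).2 U (fun b x hx => hU (1, b) x hx)⟩

theorem aut_piA (h1 : L1Stmt) (hd : D1Stmt) (h2 : G2Stmt) (h3 : G3Stmt) (e : G → ℂ)
    (he : EisHyp e) : IsAutomorphic (piA e) :=
  ⟨irr_piA h1 hd h3 e he, V1 e, V1_stable e, h2 e he, qA e, qA_surj e, qA_equi e⟩

theorem mem_GPinf {g : G} : g ∈ GP .inf ↔ g.1 = 1 := Iff.rfl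

/-- The component of `piA` at `∞`. -/
noncomputable def sigma0 (h1 : L1Stmt) (hd : D1Stmt) (h2 : G2Stmt) (h3 : G3Stmt) (e : G → ℂ)
    (he : EisHyp e) : IrrRep (GP .inf) where
  W := NA e
  ρ := (piA e).comp (GP .inf).subtype
  irr := ⟨(irr_piAinf h1 hd h3 e he).1, fun U hU =>
    (irr_piAinf h1 hd h3 e he).2 U (fun b x hx => hU ⟨(1, b), rfl⟩ x hx)⟩
  smooth := by
    intro x
    obtain ⟨⟨y, hy⟩, rfl⟩ := qA_surj e x
    obtain ⟨U, hU, hU'⟩ := (h2 e he y hy).smooth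
    refine ⟨U.comap (GP .inf).subtype, hU.preimage continuous_subtype_val, ?_⟩
    intro g hg
    show piA e (g : G) (qA e ⟨y, hy⟩) = _
    rw [← qA_equi e (g : G) ⟨y, hy⟩ ⟨rt G g y, V1_stable e _ _ hy⟩ rfl]
    congr 1
    apply Subtype.ext
    ext z
    exact hU' g hg z

theorem comp_sigma0 (h1 : L1Stmt) (hd : D1Stmt) (h2 : G2Stmt) (h3 : G3Stmt) (e : G → ℂ)
    (he : EisHyp e) : LocalComponent .inf (sigma0 h1 hd h2 h3 e he) (piA e) := by
  rw [LocalComponent, eq_top_iff]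
  refine le_trans ?_ (le_iSup _ ⟨LinearMap.id, fun g w => rfl⟩)
  intro y _
  exact ⟨y, rfl⟩

/-! ### The trivial representation -/

/-- The trivial representation of `GL₂(𝔸_K)`. -/
noncomputable def triv : Representation ℂ G ℂ := 1

theorem triv_apply (g : G) (x : ℂ) : triv g x = x := rfl

theorem irr_one {H : Type} [Group H] (ρ : Representation ℂ H ℂ) : Irr ρ := by
  refine ⟨⟨1, one_ne_zero⟩, fun U _ => ?_⟩
  rcases eq_or_ne U ⊥ with h | h
  · exact Or.inl h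
  · right
    obtain ⟨x, hx, hx0⟩ := (Submodule.ne_bot_iff U).1 h
    rw [eq_top_iff]
    intro y _
    have : y = (y / x) • x := by
      rw [smul_eq_mul, div_mul_cancel₀ _ hx0]
    rw [this]
    exact U.smul_mem _ hx

theorem aut_triv (h2 : G2Stmt) (e : G → ℂ) (he : EisHyp e) : IsAutomorphic triv := by
  refine ⟨irr_one _, cst, cst_stable, fun f hf => h2 e he f (le_sup_left (b := orb (rt G) e) hf),
    (LinearMap.proj (1 : G)).comp cst.subtype, ?_, ?_⟩
  · intro c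
    exact ⟨⟨fun _ => c, mem_cst_iff.2 ⟨c, fun _ => rfl⟩⟩, rfl⟩
  · intro g f f' h
    show (f' : G → ℂ) 1 = (f : G → ℂ) 1
    rw [h, rt_cst g f.2]

/-- The trivial representation of `GL₂(K_∞)`. -/
noncomputable def tau0 : IrrRep (GP .inf) where
  W := ℂ
  ρ := 1
  irr := irr_one _
  smooth _ := ⟨⊤, isOpen_univ, fun _ _ => rfl⟩

theorem comp_tau0 : LocalComponent .inf tau0 triv := by
  rw [LocalComponent, eq_top_iff]
  refine le_trans ?_ (le_iSup _ ⟨LinearMap.id, fun g w => rfl⟩)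
  intro y _
  exact ⟨y, rfl⟩

theorem comp_inj {V : Type} [AddCommGroup V] [Module ℂ V] {π : Representation ℂ G V} {p : Place}
    {σ : IrrRep (GP p)} (h : LocalComponent p σ π) (hV : ∃ x : V, x ≠ 0) :
    ∃ T : σ.W →ₗ[ℂ] V, (∀ (g : GP p) (w : σ.W), T (σ.ρ g w) = π (g : G) (T w)) ∧
      Function.Injective T := by
  by_contra hcon
  push Not at hcon
  have hz : ∀ T : {T : σ.W →ₗ[ℂ] V // ∀ (g : GP p) (w : σ.W), T (σ.ρ g w) = π (g : G) (T w)},
      LinearMap.range T.1 = ⊥ := by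
    rintro ⟨T, hT⟩
    have h1 := hcon T hT
    rcases σ.irr.2 (LinearMap.ker T) (fun g x hx => by
      rw [LinearMap.mem_ker] at hx ⊢
      rw [hT, hx, map_zero]) with h2 | h2
    · exact absurd (LinearMap.ker_eq_bot.1 h2) h1
    · exact LinearMap.range_eq_bot.2 (LinearMap.ker_eq_top.1 h2)
  rw [LocalComponent] at h
  obtain ⟨x, hx⟩ := hV
  have h3 : (⊤ : Submodule ℂ V) ≤ ⊥ := by
    rw [← h]
    exact iSup_le fun T => (hz T).le
  exact hx ((Submodule.mem_bot ℂ).1 (h3 Submodule.mem_top))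

theorem lift_A (hL2 : L2Stmt) (hd : D1Stmt) (h2 : G2Stmt) (h3 : G3Stmt)
    (e : G → ℂ) (he : EisHyp e) : IsGlobalLifting (piA e) triv := by
  refine ⟨Or.inr ⟨aut_triv h2 e he, Module.finrank_self ℂ⟩, ?_⟩
  intro p σ hσ hun
  obtain ⟨T, hT, hTi⟩ := comp_inj hσ ⟨eA e, eA_ne e h3 he⟩
  obtain ⟨w, hw0, hw⟩ := hun
  rcases p with _ | v
  · exfalso
    apply hw0
    apply hTi
    rw [map_zero]
    refine hL2 Kinf vinf piInf hd (NA e) (piAinf e) (eA e) (stein_eA e he) (orb_eA e) (T w) ?_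
    intro g hg
    rw [piAinf_apply]
    have h4 := hT ⟨(1, g), rfl⟩ w
    rw [← h4, hw ⟨(1, g), rfl⟩ ⟨one_mem _, hg⟩]
  · have htr : ∀ (g : GP (.fin v)) (x : σ.W), σ.ρ g x = x := by
      intro g x
      apply hTi
      rw [hT]
      have : (g : G) = ((g : G).1, 1) := Prod.ext rfl g.2.1
      rw [this, piA_f]
    obtain ⟨φ, hφ⟩ : ∃ φ : Module.Dual ℂ σ.W, φ w ≠ 0 := by
      by_contra hcon
      push Not at hcon
      exact hw0 ((Module.forall_dual_apply_eq_zero_iff ℂ w).1 hcon)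
    rw [LocalComponent, eq_top_iff]
    refine le_trans ?_ (le_iSup _ ⟨φ, fun g x => ?_⟩)
    · rintro y _
      refine ⟨(y / φ w) • w, ?_⟩
      show φ ((y / φ w) • w) = y
      rw [map_smul, smul_eq_mul, div_mul_cancel₀ _ hφ]
    · rw [htr]; rfl

end Pool.Agent.T2H06.AUT
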