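import Pool.Agent.T2H06.AUT.Defs5
import Pool.Agent.T2H06.AUT.AsmA

/-!
# Package U: the local component is unique up to isomorphism
-/

set_option autoImplicit false

namespace Pool.Agent.T2H06.AUT

section
variable {H V W₁ W₂ : Type} [Group H] [AddCommGroup V] [Module ℂ V] [AddCommGroup W₁]
  [Module ℂ W₁] [AddCommGroup W₂] [Module ℂ W₂]

/-- The sum of the images of finitely many maps. -/
def sumRange : List (W₂ →ₗ[ℂ] V) → Submodule ℂ V
  | [] => ⊥
  | t :: l => LinearMap.range t ⊔ sumRange l

theorem sumRange_stable {ρ : Representation ℂ H V} {τ : Representation ℂ H W₂} :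
    ∀ l : List (W₂ →ₗ[ℂ] V), (∀ t ∈ l, ∀ g w, t (τ g w) = ρ g (t w)) → Stable ρ (sumRange l)
  | [], _ => fun g x hx => by
    have hx : x ∈ (⊥ : Submodule ℂ V) := hx
    rw [Submodule.mem_bot] at hx
    rw [hx, map_zero]
    exact zero_mem _
  | t :: l, h => by
    refine Stable.sup ?_ (sumRange_stable l fun t' ht' => h t' (List.mem_cons_of_mem _ ht'))
    rintro g _ ⟨w, rfl⟩
    exact ⟨τ g w, h t List.mem_cons_self g w⟩

theorem iso_of_le {ρ : Representation ℂ H V} {σ : Representation ℂ H W₁}
    {τ : Representation ℂ H W₂} (hσ : Irr σ) (hτ : Irr τ) (T : W₁ →ₗ[ℂ] V)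
    (hT : ∀ g w, T (σ g w) = ρ g (T w)) (hTi : Function.Injective T) :
    ∀ l : List (W₂ →ₗ[ℂ] V), (∀ t ∈ l, ∀ g w, t (τ g w) = ρ g (t w)) →
      (∀ w, T w ∈ sumRange l) → Iso σ τ
  | [], _, hle => by
    obtain ⟨x, hx⟩ := hσ.1
    have h1 : T x ∈ (⊥ : Submodule ℂ V) := hle x
    rw [Submodule.mem_bot] at h1
    exact absurd (hTi (h1.trans (map_zero T).symm)) hx
  | t :: l, h, hle => by
    have hl : ∀ t ∈ l, ∀ g w, t (τ g w) = ρ g (t w) := fun t' ht' =>
      h t' (List.mem_cons_of_mem _ ht')
    have ht : ∀ g w, t (τ g w) = ρ g (t w) := h t List.mem_cons_self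
    have hN := sumRange_stable l hl
    rcases hσ.2 ((sumRange l).comap T) (fun g w hw => by
      rw [Submodule.mem_comap] at hw ⊢
      rw [hT]
      exact hN g _ hw) with h1 | h1
    · have hinj : ∀ w, T w ∈ sumRange l → w = 0 := by
        intro w hw
        have h2 : w ∈ (sumRange l).comap T := hw
        rw [h1] at h2
        exact (Submodule.mem_bot ℂ).1 h2
      have hex : ∀ w, ∃ u, T w - t u ∈ sumRange l := by
        intro w
        obtain ⟨_, ⟨u, rfl⟩, z, hz, hzw⟩ := Submodule.mem_sup.1 (hle w)
        refine ⟨u, ?_⟩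
        rw [← hzw, add_sub_cancel_left]
        exact hz
      have hinj2 : ∀ u, t u ∈ sumRange l → u = 0 := by
        rcases hτ.2 ((sumRange l).comap t) (fun g w hw => by
          rw [Submodule.mem_comap] at hw ⊢
          rw [ht]
          exact hN g _ hw) with h2 | h2
        · intro u hu
          have h3 : u ∈ (sumRange l).comap t := hu
          rw [h2] at h3
          exact (Submodule.mem_bot ℂ).1 h3
        · exfalso
          obtain ⟨x, hx⟩ := hσ.1
          obtain ⟨u, hu⟩ := hex x
          have h3 : t u ∈ sumRange l := by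
            have : u ∈ (sumRange l).comap t := by rw [h2]; trivial
            exact this
          have h4 := add_mem hu h3
          rw [sub_add_cancel] at h4
          exact hx (hinj x h4)
      have huniq : ∀ w u u', T w - t u ∈ sumRange l → T w - t u' ∈ sumRange l → u = u' := by
        intro w u u' h3 h4
        have h5 := sub_mem h4 h3
        have h6 : T w - t u' - (T w - t u) = t (u - u') := by rw [map_sub]; abel
        rw [h6] at h5
        exact sub_eq_zero.1 (hinj2 _ h5)
      choose φ hφ using hex
      let Φ : W₁ →ₗ[ℂ] W₂ :=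
        { toFun := φ
          map_add' := fun x y => by
            refine huniq (x + y) _ _ (hφ _) ?_
            have h3 := add_mem (hφ x) (hφ y)
            have h4 : T (x + y) - t (φ x + φ y) = T x - t (φ x) + (T y - t (φ y)) := by
              rw [map_add, map_add]; abel
            rw [h4]
            exact h3
          map_smul' := fun c x => by
            refine huniq (c • x) _ _ (hφ _) ?_
            have h3 := (sumRange l).smul_mem c (hφ x)
            have h4 : T (c • x) - t (c • φ x) = c • (T x - t (φ x)) := by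
              rw [map_smul, map_smul, smul_sub]
            rw [RingHom.id_apply, h4]
            exact h3 }
      have hΦe : ∀ g w, Φ (σ g w) = τ g (Φ w) := by
        intro g w
        refine huniq (σ g w) _ _ (hφ _) ?_
        have h3 := hN g _ (hφ w)
        rw [map_sub, ← hT, ← ht] at h3
        exact h3
      have hΦi : Function.Injective Φ := by
        rw [injective_iff_map_eq_zero]
        intro w hw
        have h3 := hφ w
        have h4 : φ w = 0 := hw
        rw [h4, map_zero, sub_zero] at h3
        exact hinj w h3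
      have hΦs : Function.Surjective Φ := by
        rw [← LinearMap.range_eq_top]
        rcases hτ.2 (LinearMap.range Φ) (by
          rintro g _ ⟨w, rfl⟩
          exact ⟨σ g w, hΦe g w⟩) with h3 | h3
        · exfalso
          obtain ⟨x, hx⟩ := hσ.1
          have h4 : Φ x ∈ LinearMap.range Φ := ⟨x, rfl⟩
          rw [h3, Submodule.mem_bot] at h4
          exact hx (hΦi (h4.trans (map_zero Φ).symm))
        · exact h3
      exact ⟨LinearEquiv.ofBijective Φ ⟨hΦi, hΦs⟩, hΦe⟩
    · refine iso_of_le hσ hτ T hT hTi l hl fun w => ?_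
      have h2 : w ∈ (sumRange l).comap T := by rw [h1]; trivial
      exact h2

end

theorem u1 : U1Stmt := by
  intro V _ _ π p σ τ hV h1 h2
  obtain ⟨T, hT, hTi⟩ := comp_inj h1 hV
  obtain ⟨x, hx⟩ := σ.irr.1
  -- the restriction of `π`
  let ρ : Representation ℂ (GP p) V := π.comp (GP p).subtype
  -- `T x` lies in a finite sum
  have h3 : T x ∈ ⨆ T' : {T' : τ.W →ₗ[ℂ] V // ∀ (g : GP p) (w : τ.W),
      T' (τ.ρ g w) = π (g : G) (T' w)}, LinearMap.range T'.1 := by
    have h4 : LocalComponent p τ π := h2
    rw [LocalComponent] at h4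
    rw [h4]
    trivial
  have h5 : ∀ y ∈ ⨆ T' : {T' : τ.W →ₗ[ℂ] V // ∀ (g : GP p) (w : τ.W),
      T' (τ.ρ g w) = π (g : G) (T' w)}, LinearMap.range T'.1,
      ∃ l : List (τ.W →ₗ[ℂ] V), (∀ t ∈ l, ∀ (g : GP p) w, t (τ.ρ g w) = ρ g (t w)) ∧
        y ∈ sumRange l := by
    intro y hy
    induction hy using Submodule.iSup_induction' with
    | mem T' y hy =>
      refine ⟨[T'.1], ?_, ?_⟩
      · intro t ht g w
        rw [List.mem_singleton] at ht
        rw [ht]
        exact T'.2 g w
      · exact Submodule.mem_sup_left hy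
    | zero => exact ⟨[], fun t ht => absurd ht List.not_mem_nil, zero_mem _⟩
    | add y z _ _ hy hz =>
      obtain ⟨l, hl, hyl⟩ := hy
      obtain ⟨l', hl', hzl⟩ := hz
      have happ : ∀ a b : List (τ.W →ₗ[ℂ] V), sumRange (a ++ b) = sumRange a ⊔ sumRange b := by
        intro a b
        induction a with
        | nil => show sumRange b = ⊥ ⊔ sumRange b; rw [bot_sup_eq]
        | cons t a ih =>
          show LinearMap.range t ⊔ sumRange (a ++ b) = LinearMap.range t ⊔ sumRange a ⊔ sumRange b
          rw [ih, sup_assoc]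
      refine ⟨l ++ l', fun t ht => ?_, ?_⟩
      · rcases List.mem_append.1 ht with h | h
        · exact hl t h
        · exact hl' t h
      · rw [happ]
        exact Submodule.add_mem_sup hyl hzl
  obtain ⟨l, hl, hxl⟩ := h5 _ h3
  have hN := sumRange_stable (ρ := ρ) l hl
  refine iso_of_le (ρ := ρ) σ.irr τ.irr T hT hTi l hl ?_
  rcases σ.irr.2 ((sumRange l).comap T) (fun g w hw => by
    rw [Submodule.mem_comap] at hw ⊢
    rw [hT]
    exact hN g _ hw) with h6 | h6
  · exfalso
    have h7 : x ∈ (sumRange l).comap T := hxl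
    rw [h6, Submodule.mem_bot] at h7
    exact hx h7
  · intro w
    have h7 : w ∈ (sumRange l).comap T := by rw [h6]; trivial
    exact h7

end Pool.Agent.T2H06.AUT
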