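import Pool.Agent.T2H06.AUT.AsmA

/-!
# Assembly, part B: the cuspidal quotient, and the final statement
-/

set_option autoImplicit false

namespace Pool.Agent.T2H06.AUT

/-- A maximal stable subspace which does not contain a given vector. -/
theorem exists_max {H V : Type} [Group H] [AddCommGroup V] [Module ℂ V] (ρ : Representation ℂ H V)
    (f : V) (h0 : f ≠ 0) : ∃ M : Submodule ℂ V, Stable ρ M ∧ M ≤ orb ρ f ∧ f ∉ M ∧
      ∀ U, Stable ρ U → M ≤ U → U ≤ orb ρ f → f ∉ U → U = M := by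
  have hz := zorn_le_nonempty₀ {U : Submodule ℂ V | Stable ρ U ∧ U ≤ orb ρ f ∧ f ∉ U} ?_ ⊥
    ⟨?_, bot_le, fun h => h0 h⟩
  · obtain ⟨M, -, hM⟩ := hz
    refine ⟨M, hM.1.1, hM.1.2.1, hM.1.2.2, fun U h1 h2 h3 h4 => ?_⟩
    exact le_antisymm (hM.2 ⟨h1, h3, h4⟩ h2) h2
  · intro c hc hch y hy
    have hne : c.Nonempty := ⟨y, hy⟩
    have hd : DirectedOn (· ≤ ·) c := hch.directedOn
    refine ⟨sSup c, ⟨?_, ?_, ?_⟩, fun z hz => le_sSup hz⟩
    · intro g x hx
      rw [Submodule.mem_sSup_of_directed hne hd] at hx ⊢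
      obtain ⟨U, hU, hxU⟩ := hx
      exact ⟨U, hU, (hc hU).1 g x hxU⟩
    · exact sSup_le fun U hU => (hc hU).2.1
    · intro hx
      rw [Submodule.mem_sSup_of_directed hne hd] at hx
      obtain ⟨U, hU, hxU⟩ := hx
      exact (hc hU).2.2 hxU
  · intro g x hx
    rw [Submodule.mem_bot] at hx
    rw [hx, map_zero]
    exact zero_mem _

section B
variable {f : G → ℂ} {M : Submodule ℂ (G → ℂ)} (hMs : Stable (rt G) M)

/-- The image of the span of `f` in the quotient. -/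
noncomputable def NB (f : G → ℂ) (M : Submodule ℂ (G → ℂ)) : Submodule ℂ ((G → ℂ) ⧸ M) :=
  (orb (rt G) f).map M.mkQ

/-- The cuspidal representation. -/
noncomputable def piB (f : G → ℂ) {M : Submodule ℂ (G → ℂ)} (hMs : Stable (rt G) M) :
    Representation ℂ G (NB f M) :=
  subRep (quoRep (rt G) M hMs) (NB f M) (Stable.map_mkQ hMs (orb_stable _ _))

/-- The projection. -/
noncomputable def qB (f : G → ℂ) (M : Submodule ℂ (G → ℂ)) : orb (rt G) f →ₗ[ℂ] NB f M :=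
  (M.mkQ.comp (orb (rt G) f).subtype).codRestrict (NB f M) (fun x => ⟨x, x.2, rfl⟩)

theorem qB_surj : Function.Surjective (qB f M) := by
  rintro ⟨_, x, hx, rfl⟩
  exact ⟨⟨x, hx⟩, rfl⟩

theorem qB_equi (g : G) (y y' : orb (rt G) f) (h : (y' : G → ℂ) = rt G g y) :
    qB f M y' = piB f hMs g (qB f M y) := by
  apply Subtype.ext
  show M.mkQ (y' : G → ℂ) = M.mkQ (rt G g y)
  rw [h]

/-- The image of `f`. -/
noncomputable def fB (f : G → ℂ) (M : Submodule ℂ (G → ℂ)) : NB f M :=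
  qB f M ⟨f, self_mem_orb _ _⟩

theorem fB_ne (hfM : f ∉ M) : fB f M ≠ 0 := by
  intro h
  have h1 : M.mkQ f = 0 := congrArg Subtype.val h
  rw [Submodule.mkQ_apply, Submodule.Quotient.mk_eq_zero] at h1
  exact hfM h1

theorem orb_fB : orb (piB f hMs) (fB f M) = ⊤ := by
  rw [eq_top_iff]
  rintro x _
  obtain ⟨⟨z, hz⟩, rfl⟩ := qB_surj x
  have h3 : ∀ z (_ : z ∈ orb (rt G) f) (hzV : z ∈ orb (rt G) f),
      qB f M ⟨z, hzV⟩ ∈ orb (piB f hMs) (fB f M) := by
    intro z hz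
    unfold orb at hz
    induction hz using Submodule.span_induction with
    | mem z hz =>
      obtain ⟨g, rfl⟩ := hz
      intro hzV
      rw [qB_equi hMs g ⟨f, self_mem_orb _ _⟩ ⟨rt G g f, hzV⟩ rfl]
      exact mem_orb _ _ _
    | zero =>
      intro hzV
      have : qB f M ⟨0, hzV⟩ = 0 := by
        rw [← map_zero (qB f M)]; rfl
      rw [this]; exact zero_mem _
    | add x y hx hy hx' hy' =>
      intro hzV
      have : qB f M ⟨x + y, hzV⟩ = qB f M ⟨x, hx⟩ + qB f M ⟨y, hy⟩ := by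
        rw [← map_add]; rfl
      rw [this]
      exact add_mem (hx' hx) (hy' hy)
    | smul c x hx hx' =>
      intro hzV
      have : qB f M ⟨c • x, hzV⟩ = c • qB f M ⟨x, hx⟩ := by
        rw [← map_smul]; rfl
      rw [this]
      exact Submodule.smul_mem _ _ (hx' hx)
  exact h3 z hz hz

theorem irr_piB (hfM : f ∉ M) (hmax : ∀ U, Stable (rt G) U → M ≤ U → U ≤ orb (rt G) f →
    f ∉ U → U = M) (hle : M ≤ orb (rt G) f) : Irr (piB f hMs) := by
  refine ⟨⟨fB f M, fB_ne hfM⟩, fun U hU => ?_⟩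
  let W : Submodule ℂ (G → ℂ) := (U.comap (qB f M)).map (orb (rt G) f).subtype
  have hW : ∀ y, y ∈ W ↔ ∃ hy : y ∈ orb (rt G) f, qB f M ⟨y, hy⟩ ∈ U := by
    intro y
    constructor
    · rintro ⟨⟨y, hy⟩, h, rfl⟩
      exact ⟨hy, h⟩
    · rintro ⟨hy, h⟩
      exact ⟨⟨y, hy⟩, h, rfl⟩
  have hWs : Stable (rt G) W := by
    intro g y hy
    rw [hW] at hy ⊢
    obtain ⟨hy, h⟩ := hy
    refine ⟨orb_stable _ _ g y hy, ?_⟩
    rw [qB_equi hMs g ⟨y, hy⟩ _ rfl]
    exact hU g _ h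
  have hWle : W ≤ orb (rt G) f := fun y hy => ((hW y).1 hy).1
  have hMW : M ≤ W := by
    intro y hy
    rw [hW]
    refine ⟨hle hy, ?_⟩
    have : qB f M ⟨y, hle hy⟩ = 0 := by
      apply Subtype.ext
      show M.mkQ y = 0
      rw [Submodule.mkQ_apply, Submodule.Quotient.mk_eq_zero]
      exact hy
    rw [this]; exact zero_mem _
  by_cases hf : f ∈ W
  · right
    have h1 : fB f M ∈ U := ((hW f).1 hf).2
    rw [eq_top_iff, ← orb_fB hMs]
    exact orb_le hU h1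
  · left
    have h1 := hmax W hWs hMW hWle hf
    rw [eq_bot_iff]
    intro x hx
    obtain ⟨⟨y, hy⟩, rfl⟩ := qB_surj x
    have h2 : y ∈ W := (hW y).2 ⟨hy, hx⟩
    rw [h1] at h2
    rw [Submodule.mem_bot]
    apply Subtype.ext
    show M.mkQ y = 0
    rw [Submodule.mkQ_apply, Submodule.Quotient.mk_eq_zero]
    exact h2

theorem stein_B (hf : CuspHyp f) (a : Gf) :
    SteinbergVector vinf piInf ((piB f hMs).comp (MonoidHom.inr Gf Ginf))
      (piB f hMs (a, 1) (fB f M)) := by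
  have key : ∀ b : Ginf, ((piB f hMs).comp (MonoidHom.inr Gf Ginf)) b
      (piB f hMs (a, 1) (fB f M))
      = qB f M ⟨rt G (a, b) f, mem_orb _ _ _⟩ := by
    intro b
    rw [qB_equi hMs (a, b) ⟨f, self_mem_orb _ _⟩ _ rfl]
    show piB f hMs (1, b) (piB f hMs (a, 1) (fB f M)) = _
    rw [← Module.End.mul_apply, ← map_mul]
    congr 3
    ext1 <;> simp
  have key0 : piB f hMs (a, 1) (fB f M) = qB f M ⟨rt G (a, 1) f, mem_orb _ _ _⟩ := by
    rw [qB_equi hMs (a, 1) ⟨f, self_mem_orb _ _⟩ _ rfl]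
    rfl
  have hx : ∀ (x : G) (b : Ginf), x * (a, b) = x * (a, 1) * (1, b) := by
    intro x b
    rw [mul_assoc]
    congr 1
    ext1 <;> simp
  refine ⟨fun g hg => ?_, ?_, ?_⟩
  · rw [key, key0]
    congr 1
    apply Subtype.ext
    ext x
    show f (x * (a, g)) = f (x * (a, 1))
    rw [hx]
    exact hf.iw _ g hg
  · rw [key, key0, ← map_neg]
    congr 1
    apply Subtype.ext
    ext x
    show f (x * (a, _)) = - f (x * (a, 1))
    rw [hx]
    exact hf.ww _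
  · rw [key, key, key0, ← map_add, ← map_add]
    rw [← map_zero (qB f M)]
    congr 1
    apply Subtype.ext
    ext x
    show f (x * (a, 1)) + f (x * (a, _)) + f (x * (a, _)) = 0
    rw [hx x ss, hx x (nn 1)]
    exact hf.sum _

end B

theorem localComponent_of {V : Type} [AddCommGroup V] [Module ℂ V] {π : Representation ℂ G V}
    {p : Place} {σ : IrrRep (GP p)}
    (h : ∀ U : Submodule ℂ V, (∀ T : σ.W →ₗ[ℂ] V, (∀ (g : GP p) (w : σ.W),
      T (σ.ρ g w) = π (g : G) (T w)) → ∀ w, T w ∈ U) → U = ⊤) : LocalComponent p σ π := by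
  rw [LocalComponent]
  apply h
  intro T hT w
  exact (le_iSup (fun T : {T : σ.W →ₗ[ℂ] V // ∀ (g : GP p) (w : σ.W),
    T (σ.ρ g w) = π (g : G) (T w)} => LinearMap.range T.1) ⟨T, hT⟩) ⟨w, rfl⟩

theorem comp_B (h1 : L1Stmt) (hd : D1Stmt) (h2 : G2Stmt) (h3 : G3Stmt) (e : G → ℂ)
    (he : EisHyp e) (f : G → ℂ) (hf : CuspHyp f) {M : Submodule ℂ (G → ℂ)}
    (hMs : Stable (rt G) M) :
    LocalComponent .inf (sigma0 h1 hd h2 h3 e he) (piB f hMs) := by
  apply localComponent_of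
  intro U hU
  rw [eq_top_iff, ← orb_fB hMs, orb, Submodule.span_le]
  rintro _ ⟨g, rfl⟩
  obtain ⟨T, hT, hTe⟩ := stein_hom h1 hd (stein_eA e he) (stein_B hMs hf g.1)
    (eA_ne e h3 he) (orb_eA e)
  have h4 := hU T (fun b w => by
    have hb : (b : G) = (1, (b : G).2) := Prod.ext b.2 rfl
    have h5 := hT (b : G).2 w
    show T (piA e (b : G) w) = _
    rw [hb]
    exact h5) (piAinf e g.2 (eA e))
  have h5 : T (piAinf e g.2 (eA e)) = piB f hMs g (fB f M) := by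
    rw [hT, hTe]
    show piB f hMs (1, g.2) (piB f hMs (g.1, 1) (fB f M)) = _
    rw [← Module.End.mul_apply, ← map_mul]
    congr 2
    ext1 <;> simp
  show piB f hMs g (fB f M) ∈ U
  rw [← h5]
  exact h4

theorem triv_of_iso {H V W : Type} [Group H] [AddCommGroup V] [Module ℂ V] [AddCommGroup W]
    [Module ℂ W] {ρ : Representation ℂ H V} {σ : Representation ℂ H W}
    (hA : Iso ρ (1 : Representation ℂ H ℂ)) (hB : Iso ρ σ) (b : H) (w : W) : σ b w = w := by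
  obtain ⟨A, hA⟩ := hA
  obtain ⟨B, hB⟩ := hB
  obtain ⟨x, rfl⟩ := B.surjective w
  rw [← hB b x]
  congr 1
  apply A.injective
  rw [hA b x]
  rfl

theorem not_triv (h3 : G3Stmt) (e : G → ℂ) (he : EisHyp e)
    (htr : ∀ (b : GP .inf) (w : NA e), (piA e).comp (GP .inf).subtype b w = w) : False := by
  have h6 : piAinf e (dd piInf * ss) (eA e) = eA e := htr ⟨(1, dd piInf * ss), rfl⟩ (eA e)
  rw [(stein_eA e he).ww] at h6
  have h7 : (2 : ℂ) • eA e = 0 := by
    rw [two_smul]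
    nth_rewrite 1 [← h6]
    exact neg_add_cancel _
  exact eA_ne e h3 he ((smul_eq_zero.1 h7).resolve_left two_ne_zero)

theorem lift_B (hg1 : G1Stmt) (f : G → ℂ) (hf : CuspHyp f) {M : Submodule ℂ (G → ℂ)}
    (hMs : Stable (rt G) M) (hirr : Irr (piB f hMs)) :
    IsAutomorphic (piB f hMs) ∧ IsGlobalLifting (piB f hMs) (piB f hMs) :=
  ⟨⟨hirr, orb (rt G) f, orb_stable _ _, fun y hy => (hg1 f hf y hy).1, qB f M, qB_surj,
      qB_equi hMs⟩, Or.inl ⟨hirr, orb (rt G) f, orb_stable _ _, hg1 f hf, qB f M, qB_surj,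
      qB_equi hMs⟩, fun _ _ h _ => h⟩

/-- The non-existence of the local lifting map, from the packages. -/
theorem final (h1 : L1Stmt) (hL2 : L2Stmt) (hd : D1Stmt) (h2 : G2Stmt) (h3 : G3Stmt)
    (hg1 : G1Stmt) (hE : E1Stmt) (hC : C1Stmt) : FinalStmt := by
  obtain ⟨e, he⟩ := exists_eis hE
  obtain ⟨f, hf⟩ := exists_cusp hC
  have hf0 : f ≠ 0 := fun h => hf.one (by rw [h]; rfl)
  obtain ⟨M, hMs, hMle, hfM, hmax⟩ := exists_max (rt G) f hf0
  rintro ⟨l, hl⟩
  have hirr : Irr (piB f hMs) := irr_piB hMs hfM hmax hMle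
  have hA := hl (NA e) ℂ (piA e) triv (aut_piA h1 hd h2 h3 e he) (lift_A hL2 hd h2 h3 e he)
    (sigma0 h1 hd h2 h3 e he) tau0 (comp_sigma0 h1 hd h2 h3 e he) comp_tau0
  have hB := hl (NB f M) (NB f M) (piB f hMs) (piB f hMs) (lift_B hg1 f hf hMs hirr).1
    (lift_B hg1 f hf hMs hirr).2 (sigma0 h1 hd h2 h3 e he) (sigma0 h1 hd h2 h3 e he)
    (comp_B h1 hd h2 h3 e he f hf hMs) (comp_B h1 hd h2 h3 e he f hf hMs)
  exact not_triv h3 e he (fun b w => triv_of_iso hA hB b w)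

end Pool.Agent.T2H06.AUT
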