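import Pool.Agent.T2H06.AUT.Aut

/-!
# The compactness of `𝔸_K / K`
-/

set_option autoImplicit false

namespace Pool.Agent.T2H06.AUT

/-- PACKAGE F: for every open subgroup `C` of `𝔸_K` the group `𝔸_K / (K + C)` is finite; so there is
a system of representatives `S` as in the definition of `CuspForm`. -/
def F1Stmt : Prop :=
  ∀ C : AddSubgroup Ad, IsOpen (C : Set Ad) →
    ∃ S : Finset Ad, ∀ a : Ad, ∃! s, s ∈ S ∧ ∃ k : K, ∃ c ∈ C, a - s = diagK k + c

end Pool.Agent.T2H06.AUT
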