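import Pool.Agent.T2H06.AUT.AsmB
import Pool.Agent.T2H06.AUT.Defs4

/-!
# Assembly, part C: the explicit form
-/

set_option autoImplicit false

namespace Pool.Agent.T2H06.AUT

/-- The explicit form of the counterexample. -/
def ExplicitStmt : Prop :=
  ∃ (V V' : Type) (_ : AddCommGroup V) (_ : Module ℂ V) (_ : AddCommGroup V') (_ : Module ℂ V')
    (π : Representation ℂ G V) (π' : Representation ℂ G V') (σ : IrrRep (GP .inf)),
    IsAutomorphic π ∧ IsCuspidal π' ∧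
    LocalComponent .inf σ π ∧ LocalComponent .inf σ π' ∧ ¬ Unramified σ ∧
    (∀ (v : Pl) (g : G), g ∈ GP (.fin v) → ∀ x, π g x = x) ∧
    IsGlobalLifting π (1 : Representation ℂ G ℂ) ∧ IsGlobalLifting π' π' ∧
    ¬ LocalComponent .inf σ (1 : Representation ℂ G ℂ)

theorem unram_sigma0 (hL2 : L2Stmt) (h1 : L1Stmt) (hd : D1Stmt) (h2 : G2Stmt) (h3 : G3Stmt)
    (e : G → ℂ) (he : EisHyp e) : ¬ Unramified (sigma0 h1 hd h2 h3 e he) := by
  rintro ⟨w, hw0, hw⟩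
  apply hw0
  refine hL2 Kinf vinf piInf hd (NA e) (piAinf e) (eA e) (stein_eA e he) (orb_eA e) w ?_
  intro g hg
  exact hw ⟨(1, g), rfl⟩ ⟨one_mem _, hg⟩

theorem explicit (h1 : L1Stmt) (hL2 : L2Stmt) (hd : D1Stmt) (h2 : G2Stmt) (h3 : G3Stmt)
    (hg1 : G1Stmt) (hE : E1Stmt) (hC : C1Stmt) : ExplicitStmt := by
  obtain ⟨e, he⟩ := exists_eis hE
  obtain ⟨f, hf⟩ := exists_cusp hC
  have hf0 : f ≠ 0 := fun h => hf.one (by rw [h]; rfl)
  obtain ⟨M, hMs, hMle, hfM, hmax⟩ := exists_max (rt G) f hf0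
  have hirr : Irr (piB f hMs) := irr_piB hMs hfM hmax hMle
  refine ⟨NA e, NB f M, inferInstance, inferInstance, inferInstance, inferInstance, piA e,
    piB f hMs, sigma0 h1 hd h2 h3 e he, aut_piA h1 hd h2 h3 e he,
    ⟨hirr, orb (rt G) f, orb_stable _ _, hg1 f hf, qB f M, qB_surj, qB_equi hMs⟩,
    comp_sigma0 h1 hd h2 h3 e he, comp_B h1 hd h2 h3 e he f hf hMs,
    unram_sigma0 hL2 h1 hd h2 h3 e he, ?_, lift_A hL2 hd h2 h3 e he,
    (lift_B hg1 f hf hMs hirr).2, ?_⟩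
  · intro v g hg x
    have : g = (g.1, 1) := Prod.ext rfl hg.1
    rw [this, piA_f]
  · intro hcomp
    obtain ⟨T, hT, hTi⟩ := comp_inj hcomp ⟨1, one_ne_zero⟩
    refine not_triv h3 e he (fun b w => ?_)
    apply hTi
    exact hT b w

end Pool.Agent.T2H06.AUT
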