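import Pool.Agent.T2H06.AUT.Defs

/-!
# Automorphic representations of `GL₂` over `K = 𝔽₂(t)`, local components, global liftings
-/

set_option autoImplicit false

namespace Pool.Agent.T2H06.AUT

/-- The places of `K = 𝔽₂(t)`: the place `∞` and the nonzero primes of `𝔽₂[t]`. -/
inductive Place
  | inf
  | fin (v : Pl)

/-- `GL₂(K_p)`, as the subgroup of `GL₂(𝔸_K)` of the elements with trivial components outside the
place `p`. -/
noncomputable def GP : Place → Subgroup G
  | .inf =>
    { carrier := {g | g.1 = 1}
      one_mem' := rfl
      mul_mem' := fun {a b} ha hb => by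
        have ha : a.1 = 1 := ha
        have hb : b.1 = 1 := hb
        show (a * b).1 = 1
        rw [Prod.fst_mul, ha, hb, one_mul]
      inv_mem' := fun {a} ha => by
        have ha : a.1 = 1 := ha
        show (a⁻¹).1 = 1
        rw [Prod.fst_inv, ha, inv_one] }
  | .fin v =>
    { carrier := {g | g.2 = 1 ∧ ∀ w, w ≠ v → evG w g.1 = 1}
      one_mem' := ⟨rfl, fun w _ => by rw [Prod.fst_one, map_one]⟩
      mul_mem' := fun {a b} ha hb => by
        refine ⟨?_, fun w hw => ?_⟩
        · show (a * b).2 = 1
          rw [Prod.snd_mul, ha.1, hb.1, one_mul]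
        · rw [Prod.fst_mul, map_mul, ha.2 w hw, hb.2 w hw, one_mul]
      inv_mem' := fun {a} ha => by
        refine ⟨?_, fun w hw => ?_⟩
        · show (a⁻¹).2 = 1
          rw [Prod.snd_inv, ha.1, inv_one]
        · rw [Prod.fst_inv, map_inv, ha.2 w hw, inv_one] }

/-- The maximal compact subgroup `∏ GL₂(O_p)` (product over all places) of `GL₂(𝔸_K)`. -/
noncomputable def Kmax : Subgroup G := Kf.prod (intGL vinf)

/-- Automorphic forms on `GL₂(𝔸_K)` (Borel-Jacquet 5.8): functions which are left invariant under
`GL₂(K)`, right invariant under an open subgroup, and whose translates under `GL₂(K_p)` span, for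
some place `p`, a representation of finite length of `GL₂(K_p)` (smooth irreducible representations
are admissible, and a smooth representation generated by one vector is admissible if and only if it
has finite length; growth conditions are automatic over function fields). -/
structure AutForm (f : G → ℂ) : Prop where
  left : ∀ (γ : GL (Fin 2) K) (x : G), f (diagG γ * x) = f x
  smooth : ∃ U : Subgroup G, IsOpen (U : Set G) ∧ ∀ u ∈ U, ∀ x, f (x * u) = f x
  fin : ∃ (p : Place) (n : ℕ),
    LengthLE (rt G) (GP p) n (Submodule.span ℂ {y | ∃ g ∈ GP p, y = rt G g f})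

/-- The vanishing of the constant terms `∫ f(n(a) x) da`, the integral over the compact group
`𝔸_K / K`, for all `x`. The function `a ↦ f(n(a) x)` is invariant under `K` and under all
sufficiently small open subgroups `C` of `𝔸_K`, so the integral is, up to a positive constant, the
sum over a system `S` of representatives of the finite group `𝔸_K / (K + C)` (such a system `S`
exists for every open subgroup `C`: the third part of the result). -/
def CuspForm (f : G → ℂ) : Prop :=
  ∀ x : G, ∃ C₀ : AddSubgroup Ad, IsOpen (C₀ : Set Ad) ∧
    ∀ C : AddSubgroup Ad, C ≤ C₀ → IsOpen (C : Set Ad) → ∀ S : Finset Ad,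
      (∀ a : Ad, ∃! s, s ∈ S ∧ ∃ k : K, ∃ c ∈ C, a - s = diagK k + c) →
        ∑ s ∈ S, f (nA s * x) = 0

section reps
variable {V : Type} [AddCommGroup V] [Module ℂ V]

/-- Automorphic representations: the irreducible subquotients of the space of automorphic forms,
with the action by right translations. -/
def IsAutomorphic (π : Representation ℂ G V) : Prop :=
  Irr π ∧ ∃ A : Submodule ℂ (G → ℂ), Stable (rt G) A ∧ (∀ f ∈ A, AutForm f) ∧
    ∃ q : A →ₗ[ℂ] V, Function.Surjective q ∧
      ∀ (g : G) (f f' : A), (f' : G → ℂ) = rt G g f → q f' = π g (q f)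

/-- Cuspidal automorphic representations: the irreducible subquotients of the space of cusp
forms. -/
def IsCuspidal (π : Representation ℂ G V) : Prop :=
  Irr π ∧ ∃ A : Submodule ℂ (G → ℂ), Stable (rt G) A ∧ (∀ f ∈ A, AutForm f ∧ CuspForm f) ∧
    ∃ q : A →ₗ[ℂ] V, Function.Surjective q ∧
      ∀ (g : G) (f f' : A), (f' : G → ℂ) = rt G g f → q f' = π g (q f)

/-- The isobaric automorphic representations of `GL₂(𝔸_K)` which we use: the cuspidal ones, and
the one dimensional ones, `ω ∘ det = ω|.|^(1/2) ⊞ ω|.|^(-1/2)` (at every place the Langlands quotient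
of the representation induced from `ω_p|.|^(1/2) ⊗ ω_p|.|^(-1/2)` is `ω_p ∘ det`). The restriction to
these two kinds of isobaric representations makes the non-existence statement stronger. -/
def IsIsobaric (π : Representation ℂ G V) : Prop :=
  IsCuspidal π ∨ (IsAutomorphic π ∧ Module.finrank ℂ V = 1)

/-- `σ` is the local component `π_p` of `π` at the place `p`: the restriction of `π` to `GL₂(K_p)`
is a sum of copies of `σ`, i.e. `π` is spanned by the images of the `GL₂(K_p)`-equivariant linear
maps `σ → π` (for `π = ⊗ π_p` this characterises `σ = π_p` up to isomorphism). -/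
def LocalComponent (p : Place) (σ : IrrRep (GP p)) (π : Representation ℂ G V) : Prop :=
  ⨆ T : {T : σ.W →ₗ[ℂ] V // ∀ (g : GP p) (w : σ.W), T (σ.ρ g w) = π (g : G) (T w)},
    LinearMap.range T.1 = ⊤

/-- `σ` is unramified: it has a nonzero vector which is fixed by `GL₂(O_p)`. -/
def Unramified {p : Place} (σ : IrrRep (GP p)) : Prop :=
  ∃ w : σ.W, w ≠ 0 ∧ ∀ g : GP p, (g : G) ∈ Kmax → σ.ρ g w = w

/-- `P` is a global lifting `l_ρ(π)` of `π`, for `G = GL₂` and `ρ` the standard representation of
the dual group `GL₂(ℂ)`: `P` is isobaric and `P_p = π_p` at all places where `π_p` is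
unramified. -/
def IsGlobalLifting {V' : Type} [AddCommGroup V'] [Module ℂ V'] (π : Representation ℂ G V)
    (P : Representation ℂ G V') : Prop :=
  IsIsobaric P ∧ ∀ (p : Place) (σ : IrrRep (GP p)), LocalComponent p σ π → Unramified σ →
    LocalComponent p σ P

end reps

/-- The final statement: there is no map `l : Irr(GL₂(F)) → Irr(GL₂(F))`, `F = K_∞ = 𝔽₂((1/t))`,
which predicts the component at `∞` of the global liftings of all automorphic representations of
`GL₂(𝔸_K)`. (The statement is about maps on representations; a map on isomorphism classes lifts to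
such a map by choosing representatives.) -/
def FinalStmt : Prop :=
  ¬ ∃ l : IrrRep (GP .inf) → IrrRep (GP .inf),
    ∀ (V V' : Type) [AddCommGroup V] [Module ℂ V] [AddCommGroup V'] [Module ℂ V']
      (π : Representation ℂ G V) (P : Representation ℂ G V'),
      IsAutomorphic π → IsGlobalLifting π P → ∀ σ τ : IrrRep (GP .inf),
        LocalComponent .inf σ π → LocalComponent .inf τ P → Iso (l σ).ρ τ.ρ

end Pool.Agent.T2H06.AUT
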