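import Pool.Agent.T2H06.AUT.Defs

/-!
# Package C, local part: reduction modulo the maximal ideal, the sign character of `GL₂(𝔽₂)`,
the normaliser of the Iwahori subgroup and its sign character.
-/

set_option autoImplicit false

namespace Pool.Agent.T2H06.AUT.Cusp

open WithZero Pool.Agent.T2H06.AUT

section red
variable {k : Type} [Field k] (v : Valuation k (WithZero (Multiplicative ℤ)))

/-- The residue field has two elements. -/
def Res : Prop := ∀ x, v x ≤ 1 → v x < 1 ∨ v (x - 1) < 1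

open Classical in
/-- reduction modulo the maximal ideal -/
noncomputable def rd (x : k) : ZMod 2 := if v x < 1 then 0 else 1

variable {v}

theorem rd_eq_zero {x : k} : rd v x = 0 ↔ v x < 1 := by
  unfold rd
  split_ifs with h
  · simp [h]
  · simp [h]

theorem rd_zero : rd v (0 : k) = 0 := rd_eq_zero.2 (by simp)

theorem rd_one : rd v (1 : k) = 1 := by simp [rd]

theorem rd_eq_one {x : k} : rd v x = 1 ↔ ¬ v x < 1 := by
  unfold rd
  split_ifs with h
  · simp [h]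
  · simp [h]

theorem rd_of_lt {x : k} (h : v x < 1) : rd v x = 0 := rd_eq_zero.2 h

theorem rd_of_eq {x : k} (h : v x = 1) : rd v x = 1 := rd_eq_one.2 (by simp [h])

theorem v_two (hr : Res v) : v (2 : k) < 1 := by
  rcases hr (-1) (by simp) with h | h
  · simp at h
  · have : (-1 - 1 : k) = -2 := by ring
    rwa [this, Valuation.map_neg] at h

theorem rd_add (hr : Res v) {x y : k} (hx : v x ≤ 1) (hy : v y ≤ 1) :
    rd v (x + y) = rd v x + rd v y := by
  by_cases h1 : v x < 1 <;> by_cases h2 : v y < 1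
  · rw [rd_of_lt h1, rd_of_lt h2, rd_of_lt (v.map_add_lt h1 h2)]; rfl
  · have h2' : v y = 1 := le_antisymm hy (not_lt.1 h2)
    have : v (x + y) = 1 := by
      rw [Valuation.map_add_eq_of_lt_right v (by rw [h2']; exact h1), h2']
    rw [rd_of_lt h1, rd_of_eq h2', rd_of_eq this]; rfl
  · have h1' : v x = 1 := le_antisymm hx (not_lt.1 h1)
    have : v (x + y) = 1 := by
      rw [Valuation.map_add_eq_of_lt_left v (by rw [h1']; exact h2), h1']
    rw [rd_of_lt h2, rd_of_eq h1', rd_of_eq this]; rfl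
  · have h1' : v x = 1 := le_antisymm hx (not_lt.1 h1)
    have h2' : v y = 1 := le_antisymm hy (not_lt.1 h2)
    have h3 := (hr x hx).resolve_left h1
    have h4 := (hr y hy).resolve_left h2
    have h5 : v (x + y) < 1 := by
      have : x + y = (x - 1) + (y - 1) + 2 := by ring
      rw [this]
      exact v.map_add_lt (v.map_add_lt h3 h4) (v_two hr)
    rw [rd_of_eq h1', rd_of_eq h2', rd_of_lt h5]; rfl

theorem rd_mul {x y : k} (hx : v x ≤ 1) (hy : v y ≤ 1) :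
    rd v (x * y) = rd v x * rd v y := by
  by_cases h1 : v x < 1
  · have : v (x * y) < 1 := by
      rw [map_mul]; exact mul_lt_one_of_nonneg_of_lt_one_left zero_le h1 hy
    rw [rd_of_lt h1, rd_of_lt this, zero_mul]
  · have h1' : v x = 1 := le_antisymm hx (not_lt.1 h1)
    rw [rd_of_eq h1', one_mul]
    have : v (x * y) = v y := by rw [map_mul, h1', one_mul]
    unfold rd
    rw [this]

theorem rd_neg {x : k} : rd v (-x) = rd v x := by
  unfold rd
  rw [Valuation.map_neg]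

theorem rd_sub (hr : Res v) {x y : k} (hx : v x ≤ 1) (hy : v y ≤ 1) :
    rd v (x - y) = rd v x + rd v y := by
  rw [sub_eq_add_neg, rd_add hr hx (by rwa [Valuation.map_neg]), rd_neg]

/-- The sign character on entries. -/
def epsF (a b c d : ZMod 2) : ℤ := if a * b + b * c + c * d = 0 then 1 else -1

theorem epsF_mul : ∀ a b c d a' b' c' d' : ZMod 2, a * d + b * c = 1 → a' * d' + b' * c' = 1 →
    epsF (a * a' + b * c') (a * b' + b * d') (c * a' + d * c') (c * b' + d * d')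
      = epsF a b c d * epsF a' b' c' d' := by
  decide

theorem epsF_sq (a b c d : ZMod 2) : epsF a b c d * epsF a b c d = 1 := by
  unfold epsF
  split_ifs <;> norm_num

variable (v) in
/-- The sign character of `GL₂(O)`. -/
noncomputable def eps (g : GL (Fin 2) k) : ℂ :=
  (epsF (rd v (g.1 0 0)) (rd v (g.1 0 1)) (rd v (g.1 1 0)) (rd v (g.1 1 1)) : ℤ)

theorem rd_det (hr : Res v) {g : GL (Fin 2) k} (hg : g ∈ intGL v) :
    rd v (g.1 0 0) * rd v (g.1 1 1) + rd v (g.1 0 1) * rd v (g.1 1 0) = 1 := by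
  have h := hg.2
  rw [Matrix.det_fin_two] at h
  have h' := rd_of_eq h
  rw [rd_sub hr, rd_mul (hg.1 _ _) (hg.1 _ _), rd_mul (hg.1 _ _) (hg.1 _ _)] at h'
  · exact h'
  · rw [map_mul]; exact mul_le_one' (hg.1 _ _) (hg.1 _ _)
  · rw [map_mul]; exact mul_le_one' (hg.1 _ _) (hg.1 _ _)

theorem rd_entry (hr : Res v) {g h : GL (Fin 2) k} (hg : g ∈ intGL v) (hh : h ∈ intGL v)
    (i j : Fin 2) : rd v ((g * h).1 i j) =
      rd v (g.1 i 0) * rd v (h.1 0 j) + rd v (g.1 i 1) * rd v (h.1 1 j) := by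
  rw [Units.val_mul, Matrix.mul_apply, Fin.sum_univ_two, rd_add hr,
    rd_mul (hg.1 _ _) (hh.1 _ _), rd_mul (hg.1 _ _) (hh.1 _ _)]
  · rw [map_mul]; exact mul_le_one' (hg.1 _ _) (hh.1 _ _)
  · rw [map_mul]; exact mul_le_one' (hg.1 _ _) (hh.1 _ _)

theorem eps_mul (hr : Res v) {g h : GL (Fin 2) k} (hg : g ∈ intGL v) (hh : h ∈ intGL v) :
    eps v (g * h) = eps v g * eps v h := by
  unfold eps
  rw [rd_entry hr hg hh, rd_entry hr hg hh, rd_entry hr hg hh, rd_entry hr hg hh,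
    epsF_mul _ _ _ _ _ _ _ _ (rd_det hr hg) (rd_det hr hh)]
  push_cast
  rfl

theorem eps_one : eps v (1 : GL (Fin 2) k) = 1 := by
  unfold eps
  simp [rd_zero, rd_one, epsF]

theorem eps_of_cong {g : GL (Fin 2) k} (h01 : v (g.1 0 1) < 1)
    (h10 : v (g.1 1 0) < 1) : eps v g = 1 := by
  unfold eps
  rw [rd_of_lt h01, rd_of_lt h10]
  simp [epsF]

/-- A right `Iw`-invariant function on `GL₂(O)`. -/
theorem phi_eq (hr : Res v) (φ : GL (Fin 2) k → ℂ) (hφ : ∀ g, ∀ i ∈ Iw v, φ (g * i) = φ g)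
    {g : GL (Fin 2) k} (hg : g ∈ intGL v) :
    φ g = if rd v (g.1 0 1) = 0 then φ 1 else if rd v (g.1 1 1) = 0 then φ ss else φ (nn 1) := by
  have hss : (ss : GL (Fin 2) k) ∈ intGL v := by
    refine ⟨fun i j => ?_, ?_⟩
    · fin_cases i <;> fin_cases j <;> simp [ss]
    · simp [ss, Matrix.det_fin_two]
  have hnn : (nn (-1) : GL (Fin 2) k) ∈ intGL v := by
    refine ⟨fun i j => ?_, ?_⟩
    · fin_cases i <;> fin_cases j <;> simp [nn]
    · simp [nn, Matrix.det_fin_two]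
  split_ifs with h1 h2
  · have : g ∈ Iw v := ⟨hg, rd_eq_zero.1 h1⟩
    rw [← hφ 1 g this, one_mul]
  · have : ss * g ∈ Iw v := by
      refine ⟨mul_mem hss hg, ?_⟩
      rw [Units.val_mul, Matrix.mul_apply, Fin.sum_univ_two]
      simpa [ss] using rd_eq_zero.1 h2
    rw [← hφ ss _ this, ← mul_assoc]
    congr 1
    have : (ss * ss : GL (Fin 2) k) = 1 := by
      ext i j; fin_cases i <;> fin_cases j <;> simp [ss, Matrix.mul_apply]
    rw [this, one_mul]
  · have : nn (-1) * g ∈ Iw v := by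
      refine ⟨mul_mem hnn hg, ?_⟩
      rw [Units.val_mul, Matrix.mul_apply, Fin.sum_univ_two]
      have h3 : v (g.1 0 1 - g.1 1 1) < 1 := by
        rw [← rd_eq_zero, rd_sub hr (hg.1 _ _) (hg.1 _ _)]
        have e1 : rd v (g.1 0 1) = 1 := by
          unfold rd at h1 ⊢
          split_ifs at h1 ⊢ <;> simp_all
        have e2 : rd v (g.1 1 1) = 1 := by
          unfold rd at h2 ⊢
          split_ifs at h2 ⊢ <;> simp_all
        rw [e1, e2]; rfl
      simpa [nn, sub_eq_add_neg] using h3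
    rw [← hφ (nn 1) _ this, ← mul_assoc]
    congr 1
    have : (nn 1 * nn (-1) : GL (Fin 2) k) = 1 := by
      ext i j; fin_cases i <;> fin_cases j <;> simp [nn, Matrix.mul_apply]
    rw [this, one_mul]

theorem ss_mem : (ss : GL (Fin 2) k) ∈ intGL v := by
  refine ⟨fun i j => ?_, ?_⟩
  · fin_cases i <;> fin_cases j <;> simp [ss]
  · simp [ss, Matrix.det_fin_two]

theorem nn_mem {b : k} (hb : v b ≤ 1) : (nn b : GL (Fin 2) k) ∈ intGL v := by
  refine ⟨fun i j => ?_, ?_⟩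
  · fin_cases i <;> fin_cases j <;> simp [nn, hb]
  · simp [nn, Matrix.det_fin_two]

theorem sum_aux (A B C : ℂ) : ∀ a b c d : ZMod 2, a * d + b * c = 1 →
    (if b = 0 then A else if d = 0 then B else C) + (if a = 0 then A else if c = 0 then B else C)
      + (if a + b = 0 then A else if c + d = 0 then B else C) = A + B + C := by
  intro a b c d h
  have key : ∀ a : ZMod 2, a = 0 ∨ a = 1 := by decide
  have h11 : (1 + 1 : ZMod 2) = 0 := rfl
  rcases key a with rfl | rfl <;> rcases key b with rfl | rfl <;> rcases key c with rfl | rfl <;>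
    rcases key d with rfl | rfl <;> first
    | exact absurd h (by decide)
    | (simp [h11]; ring)
    | simp

theorem phi_sum (hr : Res v) (φ : GL (Fin 2) k → ℂ) (hφ : ∀ g, ∀ i ∈ Iw v, φ (g * i) = φ g)
    {u : GL (Fin 2) k} (hu : u ∈ intGL v) :
    φ u + φ (u * ss) + φ (u * nn 1) = φ 1 + φ ss + φ (nn 1) := by
  rw [phi_eq hr φ hφ hu, phi_eq hr φ hφ (mul_mem hu ss_mem),
    phi_eq hr φ hφ (mul_mem hu (nn_mem (b := 1) (by simp)))]
  rw [rd_entry hr hu ss_mem, rd_entry hr hu ss_mem, rd_entry hr hu (nn_mem (by simp)),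
    rd_entry hr hu (nn_mem (by simp))]
  have := sum_aux (φ 1) (φ ss) (φ (nn 1)) _ _ _ _ (rd_det hr hu)
  simpa [ss, nn, rd_zero, rd_one] using this

end red

section norm
variable {k : Type} [Field k] {v : Valuation k (WithZero (Multiplicative ℤ))} {ϖ : kˣ}

theorem zz_mul (a b : kˣ) : zz (a * b) = zz a * zz b := by
  ext i j; fin_cases i <;> fin_cases j <;> simp [zz, Matrix.mul_apply]

theorem zz_one : zz (1 : kˣ) = 1 := by
  ext i j; fin_cases i <;> fin_cases j <;> simp [zz]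

theorem zz_comm (a : kˣ) (g : GL (Fin 2) k) : g * zz a = zz a * g := by
  ext i j; fin_cases i <;> fin_cases j <;> simp [zz, Matrix.mul_apply, mul_comm]

theorem zz_inv (a : kˣ) : (zz a)⁻¹ = zz a⁻¹ := by
  rw [inv_eq_iff_mul_eq_one, ← zz_mul, mul_inv_cancel, zz_one]

/-- `w = [[0,ϖ],[1,0]]` -/
def ww (ϖ : kˣ) : GL (Fin 2) k := dd ϖ * ss

theorem ww_sq : ww ϖ * ww ϖ = zz ϖ := by
  ext i j; fin_cases i <;> fin_cases j <;> simp [ww, ss, dd, zz, Matrix.mul_apply]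

theorem ww_inv : (ww ϖ)⁻¹ = zz ϖ⁻¹ * ww ϖ := by
  rw [inv_eq_iff_mul_eq_one, ← mul_assoc, zz_comm, mul_assoc, ww_sq, ← zz_mul, inv_mul_cancel,
    zz_one]

theorem lt_one_iff {x : k} : v x < 1 ↔ v x ≤ exp (-1 : ℤ) := by
  by_cases h : v x = 0
  · simp [h]
  · rw [← exp_log h, exp_le_exp, ← exp_zero, exp_lt_exp]
    omega

theorem ww_conj (hL : LocalData v ϖ) {i : GL (Fin 2) k} (hi : i ∈ Iw v) :
    ∃ i' ∈ Iw v, i * ww ϖ = ww ϖ * i' := by
  have hv : v (ϖ : k) = exp (-1 : ℤ) := hL.unif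
  have hv0 : v ((ϖ : k)⁻¹) = exp (1 : ℤ) := by
    rw [map_inv₀, hv]; rfl
  have hm : (zz ϖ⁻¹ * (ww ϖ * i * ww ϖ)).1 =
      !![i.1 1 1, ϖ * i.1 1 0; (ϖ : k)⁻¹ * i.1 0 1, i.1 0 0] := by
    have hi2 : i.1 = !![i.1 0 0, i.1 0 1; i.1 1 0, i.1 1 1] := Matrix.eta_fin_two i.1
    simp only [Units.val_mul, ww, zz, dd, ss]
    generalize i.1 0 0 = a at *
    generalize i.1 0 1 = b at *
    generalize i.1 1 0 = c at *
    generalize i.1 1 1 = d at *
    rw [hi2]
    simp only [Matrix.mul_fin_two]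
    ext x y
    fin_cases x <;> fin_cases y <;> simp <;> field_simp
  have e00 : (zz ϖ⁻¹ * (ww ϖ * i * ww ϖ)).1 0 0 = i.1 1 1 := by rw [hm]; rfl
  have e01 : (zz ϖ⁻¹ * (ww ϖ * i * ww ϖ)).1 0 1 = ϖ * i.1 1 0 := by rw [hm]; rfl
  have e10 : (zz ϖ⁻¹ * (ww ϖ * i * ww ϖ)).1 1 0 = (ϖ : k)⁻¹ * i.1 0 1 := by rw [hm]; rfl
  have e11 : (zz ϖ⁻¹ * (ww ϖ * i * ww ϖ)).1 1 1 = i.1 0 0 := by rw [hm]; rfl
  refine ⟨zz ϖ⁻¹ * (ww ϖ * i * ww ϖ), ⟨⟨fun a b => ?_, ?_⟩, ?_⟩, ?_⟩
  · fin_cases a <;> fin_cases b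
    · change v ((zz ϖ⁻¹ * (ww ϖ * i * ww ϖ)).1 0 0) ≤ 1
      rw [e00]; exact hi.1.1 _ _
    · change v ((zz ϖ⁻¹ * (ww ϖ * i * ww ϖ)).1 0 1) ≤ 1
      rw [e01, map_mul]
      exact mul_le_one' (lt_one_iff.2 hv.le).le (hi.1.1 _ _)
    · change v ((zz ϖ⁻¹ * (ww ϖ * i * ww ϖ)).1 1 0) ≤ 1
      rw [e10, map_mul, hv0]
      calc exp (1 : ℤ) * v (i.1 0 1) ≤ exp (1 : ℤ) * exp (-1 : ℤ) :=
            mul_le_mul' le_rfl (lt_one_iff.1 hi.2)
        _ = 1 := by rw [← exp_add]; simp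
    · change v ((zz ϖ⁻¹ * (ww ϖ * i * ww ϖ)).1 1 1) ≤ 1
      rw [e11]; exact hi.1.1 _ _
  · rw [Matrix.det_fin_two, e00, e01, e10, e11]
    have h := hi.1.2
    rw [Matrix.det_fin_two] at h
    rw [← h]
    congr 1
    field_simp
  · rw [e01, lt_one_iff, map_mul, hv]
    calc exp (-1 : ℤ) * v (i.1 1 0) ≤ exp (-1 : ℤ) * 1 := mul_le_mul' le_rfl (hi.1.1 _ _)
      _ = exp (-1 : ℤ) := mul_one _
  · have h3 : ww ϖ * (zz ϖ⁻¹ * (ww ϖ * i * ww ϖ)) = zz ϖ⁻¹ * (ww ϖ * ww ϖ) * (i * ww ϖ) := by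
      rw [← mul_assoc (ww ϖ) (zz ϖ⁻¹), zz_comm]
      simp only [mul_assoc]
    rw [h3, ww_sq, ← zz_mul, inv_mul_cancel, zz_one, one_mul]

/-- The subgroup `Z Iw ∪ Z w Iw`. -/
def Nw (hL : LocalData v ϖ) : Subgroup (GL (Fin 2) k) where
  carrier := {u | ∃ z : kˣ, ∃ i ∈ Iw v, u = zz z * i ∨ u = zz z * (ww ϖ * i)}
  one_mem' := ⟨1, 1, one_mem _, Or.inl (by rw [zz_one, one_mul])⟩
  mul_mem' := by
    rintro a b ⟨z, i, hi, h⟩ ⟨z', i', hi', h'⟩
    obtain ⟨j, hj, e⟩ := ww_conj hL hi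
    rcases h with rfl | rfl <;> rcases h' with rfl | rfl
    · refine ⟨z * z', i * i', mul_mem hi hi', Or.inl ?_⟩
      rw [zz_mul, mul_assoc, mul_assoc, ← mul_assoc i, zz_comm, mul_assoc]
    · refine ⟨z * z', j * i', mul_mem hj hi', Or.inr ?_⟩
      rw [zz_mul, mul_assoc, mul_assoc, ← mul_assoc i, zz_comm, mul_assoc, ← mul_assoc i, e,
        mul_assoc]
    · refine ⟨z * z', i * i', mul_mem hi hi', Or.inr ?_⟩
      rw [zz_mul, mul_assoc, mul_assoc, mul_assoc, ← mul_assoc i, zz_comm, mul_assoc (zz z'),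
        ← mul_assoc (ww ϖ) (zz z'), zz_comm, mul_assoc (zz z')]
    · refine ⟨z * z' * ϖ, j * i', mul_mem hj hi', Or.inl ?_⟩
      rw [zz_mul, zz_mul, mul_assoc, mul_assoc, mul_assoc, mul_assoc, ← mul_assoc i, zz_comm,
        mul_assoc (zz z'), ← mul_assoc (ww ϖ) (zz z'), zz_comm, mul_assoc (zz z'),
        ← mul_assoc i, e, mul_assoc (ww ϖ), ← mul_assoc (ww ϖ) (ww ϖ), ww_sq]
  inv_mem' := by
    rintro a ⟨z, i, hi, h⟩
    rcases h with rfl | rfl
    · refine ⟨z⁻¹, i⁻¹, inv_mem hi, Or.inl ?_⟩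
      rw [mul_inv_rev, zz_inv, zz_comm]
    · obtain ⟨j, hj, e⟩ := ww_conj hL (inv_mem hi)
      refine ⟨z⁻¹ * ϖ⁻¹, j, hj, Or.inr ?_⟩
      rw [mul_inv_rev, mul_inv_rev, zz_inv, zz_comm, ww_inv, ← mul_assoc i⁻¹, zz_comm, mul_assoc (zz ϖ⁻¹),
        e, zz_mul, mul_assoc]

/-- The sign `(-1)^(ord det g)`. -/
noncomputable def sgn (v : Valuation k (WithZero (Multiplicative ℤ))) (g : GL (Fin 2) k) : ℂ :=
  (-1 : ℂ) ^ (log (v g.1.det))

theorem det_ne (g : GL (Fin 2) k) : v g.1.det ≠ 0 := by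
  rw [Valuation.ne_zero_iff]
  exact g.isUnit.map Matrix.detMonoidHom |>.ne_zero

theorem sgn_mul (g h : GL (Fin 2) k) : sgn v (g * h) = sgn v g * sgn v h := by
  unfold sgn
  rw [Units.val_mul, Matrix.det_mul, map_mul, log_mul (det_ne g) (det_ne h),
    zpow_add₀ (by norm_num)]

theorem sgn_of_intGL {g : GL (Fin 2) k} (hg : g ∈ intGL v) : sgn v g = 1 := by
  unfold sgn
  rw [hg.2, log_one, zpow_zero]

theorem sgn_zz (z : kˣ) : sgn v (zz z) = 1 := by
  unfold sgn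
  have : v (zz z : GL (Fin 2) k).1.det = v (z : k) * v (z : k) := by
    simp [zz, Matrix.det_fin_two]
  rw [this, log_mul (by simp) (by simp), ← two_mul, zpow_mul]
  norm_num

theorem sgn_ww (hL : LocalData v ϖ) : sgn v (ww ϖ) = -1 := by
  unfold sgn
  have : v (ww ϖ : GL (Fin 2) k).1.det = exp (-1 : ℤ) := by
    rw [← hL.unif]
    simp [ww, dd, ss, Matrix.det_fin_two]
  rw [this, log_exp]
  norm_num

theorem mem_Iw_of_Nw (hL : LocalData v ϖ) {u : GL (Fin 2) k} (hu : u ∈ Nw hL)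
    (hd : v u.1.det = 1) : u ∈ Iw v := by
  obtain ⟨z, i, hi, h⟩ := hu
  have hz : v (zz z : GL (Fin 2) k).1.det = v (z : k) * v (z : k) := by
    simp [zz, Matrix.det_fin_two]
  rcases h with rfl | rfl
  · rw [Units.val_mul, Matrix.det_mul, map_mul, hz, hi.1.2, mul_one] at hd
    have hz1 : v (z : k) = 1 := by
      have h0 : v (z : k) ≠ 0 := by simp
      rw [← exp_log h0, ← exp_zero] at hd ⊢
      rw [← exp_add, exp_inj] at hd
      rw [exp_inj]
      omega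
    refine mul_mem ⟨⟨fun i j => ?_, ?_⟩, ?_⟩ hi
    · fin_cases i <;> fin_cases j <;> simp [zz, hz1]
    · rw [hz, hz1, one_mul]
    · simp [zz]
  · exfalso
    have hw : v (ww ϖ : GL (Fin 2) k).1.det = exp (-1 : ℤ) := by
      rw [← hL.unif]
      simp [ww, dd, ss, Matrix.det_fin_two]
    rw [Units.val_mul, Units.val_mul, Matrix.det_mul, Matrix.det_mul, map_mul, map_mul, hz,
      hi.1.2, mul_one, hw] at hd
    have h0 : v (z : k) ≠ 0 := by simp
    rw [← exp_log h0, ← exp_zero, ← exp_add, ← exp_add, exp_inj] at hd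
    omega

end norm

end Pool.Agent.T2H06.AUT.Cusp
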