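import Pool.Agent.T2H06.AUT.Defs

/-!
# Further package statements
-/

set_option autoImplicit false

namespace Pool.Agent.T2H06.AUT

/-- `T` is a system of representatives of `K_f / U`. -/
def IsReps (U : Subgroup Gf) (T : Finset Gf) : Prop :=
  (∀ τ ∈ T, τ ∈ Kf) ∧ ∀ κ ∈ Kf, ∃! τ, τ ∈ T ∧ τ⁻¹ * κ ∈ U

/-- PACKAGE E (the Eisenstein function on the adelic group). -/
def E1Stmt : Prop :=
  ∃ e : G → ℂ,
    (∀ (γ : GL (Fin 2) K) (x : G), e (diagG γ * x) = e x) ∧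
    (∀ x : G, ∀ κ ∈ Kf, e (x * (κ, 1)) = e x) ∧
    (∀ x : G, ∀ κ ∈ Iw vinf, e (x * (1, κ)) = e x) ∧
    (∀ x : G, e (x * (1, dd piInf * ss)) = - e x) ∧
    (∀ x : G, e x + e (x * (1, ss)) + e (x * (1, nn 1)) = 3) ∧
    (¬ ∃ c : ℂ, ∀ x, e x = c) ∧
    ∀ (a : Gf) (U : Subgroup Gf) (T : Finset Gf), U ≤ Kf → (∀ u ∈ U, a⁻¹ * u * a ∈ Kf) →
      IsReps U T → ∀ x : G, ∑ τ ∈ T, e (x * (τ * a, 1)) = T.card * e x

end Pool.Agent.T2H06.AUT
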