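import Pool.Agent.T2H06.AUT.Loc
import Pool.Agent.T2H06.AUT.Aut
import Pool.Agent.T2H06.AUT.Defs2

/-!
# Statements of the parts of the assembly
-/

set_option autoImplicit false

namespace Pool.Agent.T2H06.AUT

/-- The properties of the Eisenstein function. -/
structure EisHyp (e : G → ℂ) : Prop where
  left : ∀ (γ : GL (Fin 2) K) (x : G), e (diagG γ * x) = e x
  kf : ∀ x : G, ∀ κ ∈ Kf, e (x * (κ, 1)) = e x
  iw : ∀ x : G, ∀ κ ∈ Iw vinf, e (x * (1, κ)) = e x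
  ww : ∀ x : G, e (x * (1, dd piInf * ss)) = - e x
  sum : ∀ x : G, e x + e (x * (1, ss)) + e (x * (1, nn 1)) = 3
  ncst : ¬ ∃ c : ℂ, ∀ x, e x = c
  avg : ∀ (a : Gf) (U : Subgroup Gf) (T : Finset Gf), U ≤ Kf → (∀ u ∈ U, a⁻¹ * u * a ∈ Kf) →
      IsReps U T → ∀ x : G, ∑ τ ∈ T, e (x * (τ * a, 1)) = T.card * e x

theorem exists_eis (h : E1Stmt) : ∃ e, EisHyp e := by
  obtain ⟨e, h1, h2, h3, h4, h5, h6, h7⟩ := h
  exact ⟨e, h1, h2, h3, h4, h5, h6, h7⟩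

/-- The properties of the cusp form. -/
structure CuspHyp (f : G → ℂ) : Prop where
  one : f 1 ≠ 0
  left : ∀ (γ : GL (Fin 2) K) (x : G), f (diagG γ * x) = f x
  smooth : ∃ U : Subgroup G, IsOpen (U : Set G) ∧ ∀ u ∈ U, ∀ x, f (x * u) = f x
  iw : ∀ x : G, ∀ κ ∈ Iw vinf, f (x * (1, κ)) = f x
  ww : ∀ x : G, f (x * (1, dd piInf * ss)) = - f x
  sum : ∀ x : G, f x + f (x * (1, ss)) + f (x * (1, nn 1)) = 0
  flip : ∀ x : G, ∃ a₀ : Ad, ∀ a : Ad, f (nA (a + a₀) * x) = - f (nA a * x)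

theorem exists_cusp (h : C1Stmt) : ∃ f, CuspHyp f := by
  obtain ⟨f, h1, h2, h3, h4, h5, h6, h7⟩ := h
  exact ⟨f, h1, h2, h3, h4, h5, h6, h7⟩

/-- The constant functions. -/
noncomputable def cst : Submodule ℂ (G → ℂ) := Submodule.span ℂ {fun _ => 1}

/-- The space generated by `e` and the constants. -/
noncomputable def V1 (e : G → ℂ) : Submodule ℂ (G → ℂ) := cst ⊔ orb (rt G) e

/-- The subspace by which we divide. -/
noncomputable def V2 (e : G → ℂ) : Submodule ℂ (G → ℂ) :=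
  cst ⊔ Submodule.span ℂ {y | ∃ a : Gf, ∃ x ∈ V1 e, y = rt G (a, 1) x - x}

/-- PART G1. -/
def G1Stmt : Prop := ∀ f : G → ℂ, CuspHyp f → ∀ y ∈ orb (rt G) f, AutForm y ∧ CuspForm y

/-- PART G2. -/
def G2Stmt : Prop := ∀ e : G → ℂ, EisHyp e → ∀ y ∈ V1 e, AutForm y

/-- PART G3. -/
def G3Stmt : Prop := ∀ e : G → ℂ, EisHyp e → e ∉ V2 e

end Pool.Agent.T2H06.AUT
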