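import Pool.Agent.T2H06.AUT.Aut

/-!
# Uniqueness of the local components
-/

set_option autoImplicit false

namespace Pool.Agent.T2H06.AUT

/-- PACKAGE U: the local component is unique up to isomorphism. -/
def U1Stmt : Prop :=
  ∀ (V : Type) [AddCommGroup V] [Module ℂ V] (π : Representation ℂ G V) (p : Place)
    (σ τ : IrrRep (GP p)), (∃ x : V, x ≠ 0) → LocalComponent p σ π → LocalComponent p τ π →
    Iso σ.ρ τ.ρ

end Pool.Agent.T2H06.AUT
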