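import Pool.Agent.T2H06.AUT.RepDefs

/-!
# Automorphic representations of `GL₂` over `K = 𝔽₂(t)`: the definitions of the final statement

First the notions (automorphic forms, automorphic representations, local components, global
liftings) in terms of the groups collected in `AdelicData`; then the statements; then the data of
`GL₂(𝔸_K)` for `K = 𝔽₂(t)`.
-/

set_option autoImplicit false

open Polynomial IsDedekindDomain

namespace Pool.Agent.T2H06.AUT.Gen

/-! ## Representations of two groups -/

section two
variable {H H' V : Type} [Group H] [TopologicalSpace H] [Group H'] [AddCommGroup V] [Module ℂ V]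

/-- The restriction of the representation `π` of `H'` to `H` (along `j`) is a sum of copies of `σ`:
`π` is spanned by the images of the `H`-equivariant linear maps `σ → π`. -/
def IsSumOfCopies (j : H →* H') (σ : IrrRep H) (π : Representation ℂ H' V) : Prop :=
  Submodule.span ℂ {y : V | ∃ T : σ.W →ₗ[ℂ] V,
    (∀ (h : H) (w : σ.W), T (σ.ρ h w) = π (j h) (T w)) ∧ ∃ w, T w = y} = ⊤

/-- `σ` has a nonzero vector which is fixed by the elements `h` with `j(h) ∈ C`. -/
def HasFixedVector (j : H →* H') (C : Subgroup H') (σ : IrrRep H) : Prop :=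
  ∃ w : σ.W, w ≠ 0 ∧ ∀ h : H, j h ∈ C → σ.ρ h w = w

/-- `π` is a quotient of the representation by right translations on the space `A` of functions on
the group (every linear map on `A` extends to the space of all functions). -/
def IsQuotient (A : Submodule ℂ (H' → ℂ)) (π : Representation ℂ H' V) : Prop :=
  ∃ q : (H' → ℂ) →ₗ[ℂ] V, A.map q = ⊤ ∧ ∀ g, ∀ f ∈ A, q (rt H' g f) = π g (q f)

end two

/-! ## Automorphic representations -/

/-- The groups which occur in the definition of the automorphic representations of `GL₂(𝔸_K)`. -/
structure AdelicData : Type 1 where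
  /-- `GL₂(𝔸_K)` -/
  H : Type
  [grpH : Group H]
  [topH : TopologicalSpace H]
  /-- `GL₂(K) ⊆ GL₂(𝔸_K)` -/
  Γ : Subgroup H
  /-- the places of `K` -/
  P : Type
  /-- `GL₂(K_p) ⊆ GL₂(𝔸_K)`: trivial components outside `p` -/
  GP : P → Subgroup H
  /-- `∏ GL₂(O_p)`, the product over all places -/
  Kmax : Subgroup H
  /-- `𝔸_K` -/
  A : Type
  [grpA : AddCommGroup A]
  [topA : TopologicalSpace A]
  /-- `K ⊆ 𝔸_K` -/
  K : AddSubgroup A
  /-- `n(a) = [[1,a],[0,1]]` -/
  n : A → H

attribute [instance] AdelicData.grpH AdelicData.topH AdelicData.grpA AdelicData.topA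

section data
variable (D : AdelicData)

/-- Automorphic forms on `GL₂(𝔸_K)` (Borel-Jacquet 5.8): functions which are left invariant under
`GL₂(K)`, right invariant under an open subgroup, and whose translates under `GL₂(K_p)` span, for
some place `p`, a representation of finite length of `GL₂(K_p)` (smooth irreducible representations
are admissible, and a smooth representation generated by one vector is admissible if and only if it
has finite length; growth conditions are automatic over function fields). -/
structure AutForm (f : D.H → ℂ) : Prop where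
  left : ∀ γ ∈ D.Γ, ∀ x, f (γ * x) = f x
  smooth : ∃ U : Subgroup D.H, IsOpen (U : Set D.H) ∧ ∀ u ∈ U, ∀ x, f (x * u) = f x
  fin : ∃ (p : D.P) (n : ℕ),
    LengthLE (rt D.H) (D.GP p) n (Submodule.span ℂ {y | ∃ g ∈ D.GP p, y = rt D.H g f})

/-- `S` is a system of representatives of `𝔸_K / (K + C)`. -/
def IsReps (C : AddSubgroup D.A) (S : Finset D.A) : Prop :=
  ∀ a, ∃! s, s ∈ S ∧ ∃ k ∈ D.K, ∃ c ∈ C, a - s = k + c

/-- The vanishing of the constant terms `∫ f(n(a) x) da`, the integral over the compact group
`𝔸_K / K`, for all `x`. The function `a ↦ f(n(a) x)` is invariant under `K` and under all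
sufficiently small open subgroups `C` of `𝔸_K`, so the integral is, up to a positive constant, the
sum over a system `S` of representatives of the finite group `𝔸_K / (K + C)` (such a system `S`
exists for every open subgroup `C`: the third part of the result). -/
def CuspForm (f : D.H → ℂ) : Prop :=
  ∀ x, ∃ C₀ : AddSubgroup D.A, IsOpen (C₀ : Set D.A) ∧
    ∀ C : AddSubgroup D.A, C ≤ C₀ → IsOpen (C : Set D.A) → ∀ S : Finset D.A, IsReps D C S →
      ∑ s ∈ S, f (D.n s * x) = 0

/-- The smooth irreducible representations of `GL₂(K_p)`. -/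
abbrev LocalRep (p : D.P) : Type 1 := IrrRep (D.GP p)

/-- Two smooth irreducible representations of `GL₂(K_p)` are isomorphic. -/
def LocalIso (p : D.P) (σ τ : LocalRep D p) : Prop := Iso σ.ρ τ.ρ

variable {V : Type} [AddCommGroup V] [Module ℂ V]

/-- Automorphic representations: the irreducible subquotients of the space of automorphic forms,
with the action by right translations. -/
def IsAutomorphic (π : Representation ℂ D.H V) : Prop :=
  Irr π ∧ ∃ A : Submodule ℂ (D.H → ℂ), Stable (rt D.H) A ∧ (∀ f ∈ A, AutForm D f) ∧
    IsQuotient A π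

/-- Cuspidal automorphic representations: the irreducible subquotients of the space of cusp
forms. -/
def IsCuspidal (π : Representation ℂ D.H V) : Prop :=
  Irr π ∧ ∃ A : Submodule ℂ (D.H → ℂ), Stable (rt D.H) A ∧
    (∀ f ∈ A, AutForm D f ∧ CuspForm D f) ∧ IsQuotient A π

/-- The isobaric automorphic representations of `GL₂(𝔸_K)` which we use: the cuspidal ones, and
the one dimensional ones, `ω ∘ det = ω|.|^(1/2) ⊞ ω|.|^(-1/2)` (at every place the Langlands quotient
of the representation induced from `ω_p|.|^(1/2) ⊗ ω_p|.|^(-1/2)` is `ω_p ∘ det`). The restriction to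
these two kinds of isobaric representations makes the non-existence statement stronger. -/
def IsIsobaric (π : Representation ℂ D.H V) : Prop :=
  IsCuspidal D π ∨ (IsAutomorphic D π ∧ Module.finrank ℂ V = 1)

/-- `σ` is the local component `π_p` of `π` at the place `p`: the restriction of `π` to `GL₂(K_p)`
is a sum of copies of `σ` (for `π = ⊗ π_p` this characterises `σ = π_p` up to isomorphism). -/
def LocalComponent (p : D.P) (σ : LocalRep D p) (π : Representation ℂ D.H V) : Prop :=
  IsSumOfCopies (D.GP p).subtype σ π

/-- `σ` is unramified: it has a nonzero vector which is fixed by `GL₂(O_p)`. -/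
def Unramified (p : D.P) (σ : LocalRep D p) : Prop :=
  HasFixedVector (D.GP p).subtype D.Kmax σ

/-- `P` is a global lifting `l_ρ(π)` of `π`, for `G = GL₂` and `ρ` the standard representation of
the dual group `GL₂(ℂ)`: `P` is isobaric and `P_p = π_p` at all places where `π_p` is
unramified. -/
def IsGlobalLifting {V' : Type} [AddCommGroup V'] [Module ℂ V'] (π : Representation ℂ D.H V)
    (P : Representation ℂ D.H V') : Prop :=
  IsIsobaric D P ∧ ∀ (p : D.P) (σ : LocalRep D p), LocalComponent D p σ π → Unramified D p σ →
    LocalComponent D p σ P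

end data

/-! ## The statements -/

/-- There is no local lifting map at the place `p`: no map `l` from the smooth irreducible
representations of `GL₂(K_p)` to themselves is such that for every automorphic representation `π` of
`GL₂(𝔸_K)` and every global lifting `P` of `π` the component `P_p` is isomorphic to `l(π_p)`. (A map
on isomorphism classes lifts to such a map by choosing representatives.) -/
def NoLiftingMap (D : AdelicData) (p : D.P) : Prop :=
  ¬ ∃ l : LocalRep D p → LocalRep D p,
    ∀ (V V' : Type) [AddCommGroup V] [Module ℂ V] [AddCommGroup V'] [Module ℂ V']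
      (π : Representation ℂ D.H V) (P : Representation ℂ D.H V'),
      IsAutomorphic D π → IsGlobalLifting D π P → ∀ σ τ : LocalRep D p,
        LocalComponent D p σ π → LocalComponent D p τ P → LocalIso D p (l σ) τ

/-- An explicit counterexample at the place `p`: an automorphic representation `π` with trivial
components at all other places, and a cuspidal automorphic representation `π'`, with the same
component `σ` at `p`. The trivial representation is a global lifting of `π`, and `π'` is a global
lifting of `π'`, but `σ`, the component at `p` of `π'`, is not the component at `p` of the trivial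
representation. -/
def ExplicitCounterexample (D : AdelicData) (p : D.P) : Prop :=
  ∃ (V V' : Type) (_ : AddCommGroup V) (_ : Module ℂ V) (_ : AddCommGroup V') (_ : Module ℂ V')
    (π : Representation ℂ D.H V) (π' : Representation ℂ D.H V') (σ : LocalRep D p),
    IsAutomorphic D π ∧ IsCuspidal D π' ∧
    LocalComponent D p σ π ∧ LocalComponent D p σ π' ∧ ¬ Unramified D p σ ∧
    (∀ q : D.P, q ≠ p → ∀ g ∈ D.GP q, ∀ x, π g x = x) ∧
    IsGlobalLifting D π (1 : Representation ℂ D.H ℂ) ∧ IsGlobalLifting D π' π' ∧
    ¬ LocalComponent D p σ (1 : Representation ℂ D.H ℂ)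

/-- The systems of representatives which are used in the definition of cusp forms exist: the group
`𝔸_K / (K + C)` is finite for every open subgroup `C`. -/
def AdeleQuotientFinite (D : AdelicData) : Prop :=
  ∀ C : AddSubgroup D.A, IsOpen (C : Set D.A) → ∃ S : Finset D.A, IsReps D C S

/-- The local component at a place is unique up to isomorphism. -/
def LocalComponentUnique (D : AdelicData) : Prop :=
  ∀ (V : Type) [AddCommGroup V] [Module ℂ V] (π : Representation ℂ D.H V) (p : D.P)
    (σ τ : LocalRep D p), (∃ x : V, x ≠ 0) → LocalComponent D p σ π → LocalComponent D p τ π →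
    LocalIso D p σ τ

/-! ## The data of `GL₂` over `K = 𝔽₂(t)` -/

/-- `K = 𝔽₂(t)` -/
abbrev K : Type := RatFunc (ZMod 2)

noncomputable instance instDecK : DecidableEq K := Classical.decEq _

/-- The finite places of `K`. -/
abbrev Pl : Type := HeightOneSpectrum (ZMod 2)[X]

/-- The places of `K`: the place `∞` and the nonzero primes of `𝔽₂[t]`. -/
inductive Place
  | inf
  | fin (v : Pl)

/-- The finite adèles of `K`. -/
abbrev Af : Type := FiniteAdeleRing (ZMod 2)[X] K

/-- `K_∞ = 𝔽₂((1/t))` -/
abbrev Kinf : Type := RatFunc.CompletionAtInfty (ZMod 2)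

/-- `GL₂(𝔸_f)` -/
def GLf : Type := GL (Fin 2) Af

/-- `GL₂(K_∞)` -/
def GLinf : Type := GL (Fin 2) Kinf

noncomputable instance : Group GLf := show Group (GL (Fin 2) Af) from inferInstance
noncomputable instance : TopologicalSpace GLf := 
  show TopologicalSpace (GL (Fin 2) Af) from inferInstance
noncomputable instance : Group GLinf := show Group (GL (Fin 2) Kinf) from inferInstance
noncomputable instance : TopologicalSpace GLinf :=
  show TopologicalSpace (GL (Fin 2) Kinf) from inferInstance

/-- `GL₂(𝔸_K) = GL₂(𝔸_f) × GL₂(K_∞)` -/
def GLA : Type := GLf × GLinf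

noncomputable instance : Group GLA := show Group (GLf × GLinf) from inferInstance
noncomputable instance : TopologicalSpace GLA := 
  show TopologicalSpace (GLf × GLinf) from inferInstance

/-- The finite part of `g ∈ GL₂(𝔸_K)`. -/
noncomputable def finPart : GLA →* GLf := MonoidHom.fst GLf GLinf

/-- The component `g_∞` of `g ∈ GL₂(𝔸_K)` at `∞`. -/
noncomputable def compInf : GLA →* GLinf := MonoidHom.snd GLf GLinf

/-- The component `g_v` of `g ∈ GL₂(𝔸_K)` at the finite place `v`. -/
noncomputable def compFin (v : Pl) : GLA →* GL (Fin 2) (v.adicCompletion K) :=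
  (Matrix.GeneralLinearGroup.map
    (RestrictedProduct.evalRingHom (fun v : Pl => v.adicCompletion K) v)).comp finPart

/-- The diagonal embedding `GL₂(K) → GL₂(𝔸_K)`. -/
noncomputable def diagGL : GL (Fin 2) K →* GLA :=
  MonoidHom.prod (N := GLf) (P := GLinf) (Matrix.GeneralLinearGroup.map (algebraMap K Af))
    (Matrix.GeneralLinearGroup.map (algebraMap K Kinf))

/-- `GL₂(K_p) ⊆ GL₂(𝔸_K)`: the elements with trivial components outside the place `p`. -/
noncomputable def GLp : Place → Subgroup GLA
  | .inf => finPart.ker
  | .fin v => compInf.ker ⊓ ⨅ w : {w : Pl // w ≠ v}, (compFin w.1).ker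

/-- `GL₂(O) ⊆ GL₂(k)`, for a field `k` with a valuation and its valuation ring `O`. -/
noncomputable def GLint {k : Type} [Field k]
    (v : Valuation k (WithZero (Multiplicative ℤ))) : Subgroup (GL (Fin 2) k) :=
  (Matrix.GeneralLinearGroup.map v.integer.subtype).range

/-- `GL₂(O_∞) ⊆ GL₂(K_∞)` -/
noncomputable def GLintInf : Subgroup GLinf := GLint (k := Kinf) Valued.v

/-- `∏ GL₂(O_p) ⊆ GL₂(𝔸_K)` (product over all places). -/
noncomputable def GLO : Subgroup GLA :=
  (⨅ v : Pl, (GLint (k := v.adicCompletion K) Valued.v).comap (compFin v)) ⊓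
    GLintInf.comap compInf

/-- `𝔸_K = 𝔸_f × K_∞` -/
def AK : Type := Af × Kinf

noncomputable instance : CommRing AK := show CommRing (Af × Kinf) from inferInstance
noncomputable instance : TopologicalSpace AK := 
  show TopologicalSpace (Af × Kinf) from inferInstance

/-- The diagonal embedding `K → 𝔸_K`. -/
noncomputable def diag : K →+* AK := RingHom.prod (S := Af) (T := Kinf) (algebraMap K Af)
  (algebraMap K Kinf)

/-- `[[1,b],[0,1]]` -/
noncomputable def nmat {k : Type} [CommRing k] (b : k) : GL (Fin 2) k :=
  Matrix.GeneralLinearGroup.mk'' !![1, b; 0, 1] (by simp [Matrix.det_fin_two])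

/-- `n(a) = [[1,a],[0,1]] ∈ GL₂(𝔸_K)` for `a ∈ 𝔸_K = 𝔸_f × K_∞`, by components. -/
noncomputable def nA (a : AK) : GLA :=
  ((nmat (k := Af) a.1 : GL (Fin 2) Af), (nmat (k := Kinf) a.2 : GL (Fin 2) Kinf))

/-- The data of `GL₂` over `K = 𝔽₂(t)`. -/
noncomputable def F2t : AdelicData where
  H := GLA
  Γ := diagGL.range
  P := Place
  GP := GLp
  Kmax := GLO
  A := AK
  K := diag.toAddMonoidHom.range
  n := nA

end Pool.Agent.T2H06.AUT.Gen
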