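import Pool.Agent.T2H06.AUT.Defs

/-!
# The Steinberg module of `GL₂(k)`: the calculus of the vectors `nn(x).E_j`
-/

set_option autoImplicit false

namespace Pool.Agent.T2H06.AUT

section mat
variable {k : Type} [Field k]

/-- `[[1,0],[c,1]]` -/
def low (c : k) : GL (Fin 2) k where
  val := !![1, 0; c, 1]
  inv := !![1, 0; -c, 1]
  val_inv := by ext i j; fin_cases i <;> fin_cases j <;> simp [Matrix.mul_apply]
  inv_val := by ext i j; fin_cases i <;> fin_cases j <;> simp [Matrix.mul_apply]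

theorem nn_val (b : k) : (nn b).1 = !![1, b; 0, 1] := rfl
theorem low_val (b : k) : (low b).1 = !![1, 0; b, 1] := rfl
theorem dd_val (a : kˣ) : (dd a).1 = !![(a : k), 0; 0, 1] := rfl
theorem zz_val (a : kˣ) : (zz a).1 = !![(a : k), 0; 0, (a : k)] := rfl
theorem ss_val : (ss : GL (Fin 2) k).1 = !![0, 1; 1, 0] := rfl

theorem gl_ext {g h : GL (Fin 2) k} (h1 : g.1 0 0 = h.1 0 0) (h2 : g.1 0 1 = h.1 0 1)
    (h3 : g.1 1 0 = h.1 1 0) (h4 : g.1 1 1 = h.1 1 1) : g = h := by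
  apply Units.ext
  ext i j
  fin_cases i <;> fin_cases j
  · exact h1
  · exact h2
  · exact h3
  · exact h4

theorem nn_zero : nn (0 : k) = 1 := by
  apply gl_ext <;> simp [nn_val]

theorem nn_add (b c : k) : nn (b + c) = nn b * nn c := by
  apply gl_ext <;> simp [nn_val, add_comm]

theorem low_add (b c : k) : low (b + c) = low b * low c := by
  apply gl_ext <;> simp [low_val]

theorem dd_mul (a b : kˣ) : dd (a * b) = dd a * dd b := by
  apply gl_ext <;> simp [dd_val]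

theorem dd_one : dd (1 : kˣ) = 1 := by
  apply gl_ext <;> simp [dd_val]

theorem zz_mul (a b : kˣ) : zz (a * b) = zz a * zz b := by
  apply gl_ext <;> simp [zz_val]

theorem zz_one : zz (1 : kˣ) = 1 := by
  apply gl_ext <;> simp [zz_val]

theorem zz_comm (a : kˣ) (g : GL (Fin 2) k) : zz a * g = g * zz a := by
  apply gl_ext <;> simp [zz_val, Matrix.mul_apply, mul_comm]

theorem dd_mul_nn (a : kˣ) (b : k) : dd a * nn b = nn (a * b) * dd a := by
  apply gl_ext <;> simp [dd_val, nn_val]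

theorem nn_mul_dd (a : kˣ) (b : k) : nn b * dd a = dd a * nn (((a⁻¹ : kˣ) : k) * b) := by
  rw [dd_mul_nn, Units.mul_inv_cancel_left]

theorem ss_mul_ss : (ss : GL (Fin 2) k) * ss = 1 := by
  apply gl_ext <;> simp [ss_val]

theorem ss_nn_ss (c : k) : ss * nn c * ss = low c := by
  apply gl_ext <;> simp [ss_val, nn_val, low_val]

theorem ddss_sq (a : kˣ) : (dd a * ss) * (dd a * ss) = zz a := by
  apply gl_ext <;> simp [ss_val, dd_val, zz_val]

theorem det_ne (g : GL (Fin 2) k) : g.1 0 0 * g.1 1 1 - g.1 0 1 * g.1 1 0 ≠ 0 := by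
  rw [← Matrix.det_fin_two]
  exact (Matrix.isUnit_iff_isUnit_det _ |>.1 g.isUnit).ne_zero

/-- Iwasawa decomposition, first case. -/
theorem caseA_eq (g : GL (Fin 2) k) (d : kˣ) (hd : g.1 1 1 = d) (u : kˣ)
    (hu : (u : k) * (d * d) = g.1 0 0 * g.1 1 1 - g.1 0 1 * g.1 1 0) :
    g = zz d * nn (g.1 0 1 * ((d⁻¹ : kˣ) : k)) * dd u * low (g.1 1 0 * ((d⁻¹ : kˣ) : k)) := by
  have hd0 : (d : k) ≠ 0 := d.ne_zero
  rw [hd] at hu
  apply gl_ext
  · simp [zz_val, nn_val, dd_val, low_val]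
    field_simp
    linear_combination -hu
  · simp [zz_val, nn_val, dd_val, low_val]
    field_simp
  · simp [zz_val, nn_val, dd_val, low_val]
    field_simp
  · simp [zz_val, nn_val, dd_val, low_val, hd]

/-- Iwasawa decomposition, second case. -/
theorem caseB_eq (g : GL (Fin 2) k) (c : kˣ) (hc : g.1 1 0 = c) (u : kˣ)
    (hu : (u : k) * (c * c) = -(g.1 0 0 * g.1 1 1 - g.1 0 1 * g.1 1 0)) :
    g = zz c * nn (g.1 0 0 * ((c⁻¹ : kˣ) : k)) * dd u * ss * nn (g.1 1 1 * ((c⁻¹ : kˣ) : k)) := by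
  have hd0 : (c : k) ≠ 0 := c.ne_zero
  rw [hc] at hu
  apply gl_ext
  · simp [zz_val, nn_val, dd_val, ss_val]
    field_simp
  · simp [zz_val, nn_val, dd_val, ss_val]
    field_simp
    linear_combination -hu
  · simp [zz_val, nn_val, dd_val, ss_val, hc]
  · simp [zz_val, nn_val, dd_val, ss_val]
    field_simp

end mat

section iw
variable {k : Type} [Field k] {v : Valuation k (WithZero (Multiplicative ℤ))}

theorem nn_mem_Iw {b : k} (hb : v b < 1) : nn b ∈ Iw v := by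
  refine ⟨⟨fun i j => ?_, ?_⟩, ?_⟩
  · fin_cases i <;> fin_cases j <;> simp [nn_val, hb.le]
  · simp [nn_val, Matrix.det_fin_two]
  · simpa [nn_val] using hb

theorem nn_mem_int {b : k} (hb : v b ≤ 1) : nn b ∈ intGL v := by
  refine ⟨fun i j => ?_, ?_⟩
  · fin_cases i <;> fin_cases j <;> simp [nn_val, hb]
  · simp [nn_val, Matrix.det_fin_two]

theorem low_mem_Iw {b : k} (hb : v b ≤ 1) : low b ∈ Iw v := by
  refine ⟨⟨fun i j => ?_, ?_⟩, ?_⟩
  · fin_cases i <;> fin_cases j <;> simp [low_val, hb]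
  · simp [low_val, Matrix.det_fin_two]
  · simp [low_val]

theorem dd_mem_Iw {u : kˣ} (hu : v (u : k) = 1) : dd u ∈ Iw v := by
  refine ⟨⟨fun i j => ?_, ?_⟩, ?_⟩
  · fin_cases i <;> fin_cases j <;> simp [dd_val, hu]
  · simp [dd_val, Matrix.det_fin_two, hu]
  · simp [dd_val]

theorem zz_mem_Iw {u : kˣ} (hu : v (u : k) = 1) : zz u ∈ Iw v := by
  refine ⟨⟨fun i j => ?_, ?_⟩, ?_⟩
  · fin_cases i <;> fin_cases j <;> simp [zz_val, hu]
  · simp [zz_val, Matrix.det_fin_two, hu]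
  · simp [zz_val]

theorem ss_mem_int : ss ∈ intGL v := by
  refine ⟨fun i j => ?_, ?_⟩
  · fin_cases i <;> fin_cases j <;> simp [ss_val]
  · simp [ss_val, Matrix.det_fin_two]

end iw

section val
variable {k : Type} [Field k] {v : Valuation k (WithZero (Multiplicative ℤ))} {ϖ : kˣ}

theorem v_zpow (hL : LocalData v ϖ) (j : ℤ) : v ((ϖ ^ j : kˣ) : k) = WithZero.exp (-j) := by
  rw [Units.val_zpow_eq_zpow_val, map_zpow₀, hL.unif, ← WithZero.exp_zsmul]
  congr 1
  simp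

theorem exists_ord (u : kˣ) : ∃ j : ℤ, v (u : k) = WithZero.exp (-j) := by
  have h : v (u : k) ≠ 0 := by
    rw [Valuation.ne_zero_iff]; exact u.ne_zero
  refine ⟨-(WithZero.log (v (u : k))), ?_⟩
  rw [neg_neg, WithZero.exp_log h]

theorem exists_unit (hL : LocalData v ϖ) (u : kˣ) {j : ℤ} (hj : v (u : k) = WithZero.exp (-j)) :
    ∃ w : kˣ, v (w : k) = 1 ∧ u = ϖ ^ j * w := by
  refine ⟨(ϖ ^ j)⁻¹ * u, ?_, by group⟩
  rw [Units.val_mul, map_mul, hj, ← zpow_neg, v_zpow hL, ← WithZero.exp_add]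
  simp

theorem v_two (hL : LocalData v ϖ) : v (2 : k) < 1 := by
  rcases hL.res (-1) (by simp) with h | h
  · simp at h
  · have : (-1 - 1 : k) = -2 := by ring
    rwa [this, Valuation.map_neg] at h

end val

section clc
variable {k : Type} [Field k] {v : Valuation k (WithZero (Multiplicative ℤ))} {ϖ : kˣ}
  {N : Type} [AddCommGroup N] [Module ℂ N] {σ : Representation ℂ (GL (Fin 2) k) N} {e : N}

/-- `E_j = [[ϖ^j,0],[0,1]] e` -/
def EE (σ : Representation ℂ (GL (Fin 2) k) N) (ϖ : kˣ) (e : N) (j : ℤ) : N :=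
  σ (dd (ϖ ^ j)) e

theorem EE_zero : EE σ ϖ e 0 = e := by
  simp [EE, dd_one]

theorem dd_EE (i j : ℤ) : σ (dd (ϖ ^ i)) (EE σ ϖ e j) = EE σ ϖ e (i + j) := by
  rw [EE, EE, zpow_add, dd_mul, map_mul]; rfl

theorem act_mul (g h : GL (Fin 2) k) (x : N) : σ (g * h) x = σ g (σ h x) := by
  rw [map_mul]; rfl

theorem act_one (x : N) : σ 1 x = x := by
  rw [map_one]; rfl

theorem nn_nn (b c : k) (x : N) : σ (nn b) (σ (nn c) x) = σ (nn (b + c)) x := by
  rw [nn_add, act_mul]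

theorem zz_e (hL : LocalData v ϖ) (he : SteinbergVector v ϖ σ e) (z : kˣ) : σ (zz z) e = e := by
  have h1 : σ (zz ϖ) e = e := by
    rw [← ddss_sq, act_mul, he.ww, map_neg, he.ww, neg_neg]
  have h2 : σ (zz ϖ⁻¹) e = e := by
    conv_lhs => rw [← h1]
    rw [← act_mul, ← zz_mul, inv_mul_cancel, zz_one, act_one]
  have h3 : ∀ n : ℤ, σ (zz (ϖ ^ n)) e = e := by
    intro n
    induction n using Int.induction_on with
    | zero => rw [zpow_zero, zz_one, act_one]
    | succ n ih => rw [zpow_add_one, zz_mul, act_mul, h1, ih]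
    | pred n ih => rw [zpow_sub_one, zz_mul, act_mul, h2, ih]
  obtain ⟨j, hj⟩ := exists_ord (v := v) z
  obtain ⟨w, hw, rfl⟩ := exists_unit hL z hj
  rw [zz_mul, act_mul, he.iw _ (zz_mem_Iw hw), h3]

theorem dd_e (hL : LocalData v ϖ) (he : SteinbergVector v ϖ σ e) (u : kˣ) {j : ℤ}
    (hj : v (u : k) = WithZero.exp (-j)) : σ (dd u) e = EE σ ϖ e j := by
  obtain ⟨w, hw, rfl⟩ := exists_unit hL u hj
  rw [dd_mul, act_mul, he.iw _ (dd_mem_Iw hw), EE]

theorem nn_EE (hL : LocalData v ϖ) (he : SteinbergVector v ϖ σ e) {b : k} {j : ℤ}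
    (hb : v b < WithZero.exp (-j)) : σ (nn b) (EE σ ϖ e j) = EE σ ϖ e j := by
  rw [EE, ← act_mul, nn_mul_dd, act_mul, he.iw]
  apply nn_mem_Iw
  rw [map_mul, ← zpow_neg, v_zpow hL, neg_neg]
  calc _ < WithZero.exp j * WithZero.exp (-j) := by
        apply mul_lt_mul_of_pos_left hb
        exact WithZero.exp_pos
    _ = 1 := by rw [← WithZero.exp_add]; simp

theorem ss_e (he : SteinbergVector v ϖ σ e) : σ ss e = - EE σ ϖ e (-1) := by
  have h := he.ww
  rw [act_mul] at h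
  have h2 := congrArg (σ (dd ϖ⁻¹)) h
  rw [← act_mul, ← dd_mul, inv_mul_cancel, dd_one, act_one, map_neg] at h2
  rw [h2, EE, zpow_neg_one]

theorem split (he : SteinbergVector v ϖ σ e) (j : ℤ) :
    EE σ ϖ e (j - 1) = EE σ ϖ e j + σ (nn ((ϖ ^ j : kˣ) : k)) (EE σ ϖ e j) := by
  have h0 : EE σ ϖ e (-1) = e + σ (nn 1) e := by
    have h := he.sum
    rw [ss_e he] at h
    have : EE σ ϖ e (-1) = (e + σ (nn 1) e) - (e + -EE σ ϖ e (-1) + σ (nn 1) e) := by abel
    rw [this, h, sub_zero]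
  have h1 := congrArg (σ (dd (ϖ ^ j))) h0
  rw [dd_EE, map_add, ← act_mul (dd (ϖ ^ j)) (nn 1), dd_mul_nn, act_mul, mul_one] at h1
  exact h1

theorem act_caseA (hL : LocalData v ϖ) (he : SteinbergVector v ϖ σ e) (g : GL (Fin 2) k)
    (d : kˣ) (hd : g.1 1 1 = d) (hcd : v (g.1 1 0) ≤ v (d : k)) {j : ℤ}
    (hj : v (g.1 0 0 * g.1 1 1 - g.1 0 1 * g.1 1 0) = WithZero.exp (-j) * (v (d : k) * v (d : k))) :
    σ g e = σ (nn (g.1 0 1 * ((d⁻¹ : kˣ) : k))) (EE σ ϖ e j) := by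
  let u : kˣ := Units.mk0 _ (det_ne g) * (d * d)⁻¹
  have hu : (u : k) * (d * d) = g.1 0 0 * g.1 1 1 - g.1 0 1 * g.1 1 0 := by
    have hd0 := d.ne_zero
    simp [u]
    field_simp
  have hvd : v (d : k) ≠ 0 := by
    rw [Valuation.ne_zero_iff]; exact d.ne_zero
  have hvu : v (u : k) = WithZero.exp (-j) := by
    have := congrArg v hu
    rw [hj, map_mul, map_mul] at this
    exact mul_right_cancel₀ (mul_ne_zero hvd hvd) this
  have hlow : σ (low (g.1 1 0 * ((d⁻¹ : kˣ) : k))) e = e := by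
    apply he.iw
    apply low_mem_Iw
    rw [map_mul, Units.val_inv_eq_inv_val, map_inv₀]
    rw [← div_eq_mul_inv]
    exact div_le_one_of_le₀ hcd zero_le
  conv_lhs => rw [caseA_eq g d hd u hu]
  rw [act_mul, hlow, mul_assoc, zz_comm, act_mul, zz_e hL he, act_mul, dd_e hL he u hvu]

theorem act_caseB (hL : LocalData v ϖ) (he : SteinbergVector v ϖ σ e) (g : GL (Fin 2) k)
    (c : kˣ) (hc : g.1 1 0 = c) (hcd : v (g.1 1 1) < v (c : k)) {j : ℤ}
    (hj : v (g.1 0 0 * g.1 1 1 - g.1 0 1 * g.1 1 0) = WithZero.exp (-j) * (v (c : k) * v (c : k))) :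
    σ g e = - σ (nn (g.1 0 0 * ((c⁻¹ : kˣ) : k))) (EE σ ϖ e (j - 1)) := by
  let u : kˣ := -(Units.mk0 _ (det_ne g) * (c * c)⁻¹)
  have hu : (u : k) * (c * c) = -(g.1 0 0 * g.1 1 1 - g.1 0 1 * g.1 1 0) := by
    have hd0 := c.ne_zero
    simp only [u, Units.val_neg, Units.val_mul, Units.val_mk0, Units.val_inv_eq_inv_val]
    field_simp
  have hvd : v (c : k) ≠ 0 := by
    rw [Valuation.ne_zero_iff]; exact c.ne_zero
  have hvu : v (u : k) = WithZero.exp (-j) := by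
    have := congrArg v hu
    rw [Valuation.map_neg, hj, map_mul, map_mul] at this
    exact mul_right_cancel₀ (mul_ne_zero hvd hvd) this
  obtain ⟨w, hw, hw2⟩ := exists_unit hL u hvu
  have hn : σ (nn (g.1 1 1 * ((c⁻¹ : kˣ) : k))) e = e := by
    apply he.iw
    apply nn_mem_Iw
    rw [map_mul, Units.val_inv_eq_inv_val, map_inv₀, ← div_eq_mul_inv]
    exact (div_lt_one₀ (zero_lt_iff.2 hvd)).2 hcd
  have hdd : ∀ m : ℤ, σ (dd w) (EE σ ϖ e m) = EE σ ϖ e m := by
    intro m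
    rw [EE, ← act_mul, ← dd_mul, mul_comm, dd_mul, act_mul, he.iw _ (dd_mem_Iw hw)]
  conv_lhs => rw [caseB_eq g c hc u hu]
  rw [act_mul, hn, mul_assoc, mul_assoc, zz_comm, act_mul, zz_e hL he, act_mul, act_mul, ss_e he,
    map_neg, map_neg, hw2, dd_mul, act_mul, hdd, dd_EE]
  rfl

theorem ss_nn_EE (hL : LocalData v ϖ) (he : SteinbergVector v ϖ σ e) (x : kˣ) {r J : ℤ}
    (hx : v (x : k) = WithZero.exp (-r)) (hr : r ≤ J) :
    σ ss (σ (nn (x : k)) (EE σ ϖ e J)) = σ (nn ((x⁻¹ : kˣ) : k)) (EE σ ϖ e (J - 2 * r)) := by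
  rw [EE, ← act_mul, ← act_mul]
  have h := act_caseA hL he (ss * nn (x : k) * dd (ϖ ^ J)) x (j := J - 2 * r)
    (by simp [ss_val, nn_val, dd_val])
    (by
      simp only [Units.val_mul, ss_val, nn_val, dd_val]
      simp [Matrix.mul_apply]
      rw [hx, hL.unif, ← WithZero.exp_zsmul, WithZero.exp_le_exp]
      simpa using hr)
    (by
      simp only [Units.val_mul, ss_val, nn_val, dd_val]
      simp [Matrix.mul_apply]
      rw [hx, hL.unif, ← WithZero.exp_zsmul, ← WithZero.exp_sub, ← WithZero.exp_add,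
        ← WithZero.exp_add]
      congr 1
      simp
      ring)
  rw [mul_assoc] at h
  rw [mul_assoc, h]
  congr 3
  simp [ss_val, nn_val, dd_val]

theorem ss_EE (hL : LocalData v ϖ) (he : SteinbergVector v ϖ σ e) (J : ℤ) :
    σ ss (EE σ ϖ e J) = - EE σ ϖ e (-J - 1) := by
  have h : (ss : GL (Fin 2) k) * dd (ϖ ^ J) = (dd (ϖ ^ (-J)) * ss) * zz (ϖ ^ J) := by
    have h0 := ϖ.ne_zero
    apply gl_ext <;> simp [ss_val, dd_val, zz_val]
    field_simp
  rw [EE, ← act_mul, h, act_mul, zz_e hL he, act_mul, ss_e he, map_neg, dd_EE]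
  rfl

theorem low_nn_EE (hL : LocalData v ϖ) (he : SteinbergVector v ϖ σ e) {c y : k}
    (hc : v c ≤ 1) (hy : v y < 1) {j : ℤ} (hj : 0 ≤ j) :
    σ (low c) (σ (nn y) (EE σ ϖ e j)) = σ (nn (y / (1 + c * y))) (EE σ ϖ e j) := by
  have hcy : v (c * y) < 1 := by
    rw [map_mul]; exact mul_lt_one_of_nonneg_of_lt_one_right hc zero_le hy
  have h1 : v (1 + c * y) = 1 := by
    rw [Valuation.map_add_eq_of_lt_left]
    · simp
    · simpa using hcy
  have h1' : 1 + c * y ≠ 0 := by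
    intro h0; rw [h0, map_zero] at h1; exact zero_ne_one h1
  rw [EE, ← act_mul, ← act_mul]
  have h := act_caseA hL he (low c * nn y * dd (ϖ ^ j)) (Units.mk0 _ h1') (j := j)
    (by simp [low_val, nn_val, dd_val]; ring)
    (by
      simp only [Units.val_mul, low_val, nn_val, dd_val]
      simp [Matrix.mul_apply]
      rw [h1, hL.unif, ← WithZero.exp_zsmul]
      refine mul_le_one' hc ?_
      rw [← WithZero.exp_zero, WithZero.exp_le_exp]
      simpa using hj)
    (by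
      simp only [Units.val_mul, low_val, nn_val, dd_val]
      simp [Matrix.mul_apply]
      rw [h1, mul_one, mul_one]
      have : (ϖ : k) ^ j * (c * y + 1) - y * (c * (ϖ : k) ^ j) = (ϖ : k) ^ j := by ring
      rw [this, map_zpow₀, hL.unif, ← WithZero.exp_zsmul]
      congr 1
      simp)
  rw [mul_assoc] at h
  rw [mul_assoc, h]
  congr 3
  simp [low_val, nn_val, dd_val, div_eq_mul_inv]

/-- Every translate of `e` is, up to sign, one of the vectors `nn(b).E_j`. -/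
theorem act_form (hL : LocalData v ϖ) (he : SteinbergVector v ϖ σ e) (g : GL (Fin 2) k) :
    ∃ (b : k) (j : ℤ), σ g e = σ (nn b) (EE σ ϖ e j) ∨ σ g e = - σ (nn b) (EE σ ϖ e j) := by
  have hdet := det_ne g
  by_cases hcd : v (g.1 1 0) ≤ v (g.1 1 1)
  · have hd : g.1 1 1 ≠ 0 := by
      intro h0
      rw [h0, map_zero] at hcd
      have h1 : g.1 1 0 = 0 := by
        rw [← Valuation.zero_iff v]; exact le_antisymm hcd zero_le
      apply hdet; rw [h0, h1]; ring
    obtain ⟨i, hi⟩ := exists_ord (v := v) (Units.mk0 _ hdet * (Units.mk0 _ hd * Units.mk0 _ hd)⁻¹)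
    refine ⟨_, i, Or.inl (act_caseA hL he g (Units.mk0 _ hd) rfl (by simpa using hcd) ?_)⟩
    rw [← hi]
    have hvd : v (g.1 1 1) ≠ 0 := by rwa [Valuation.ne_zero_iff]
    simp
    field_simp
  · push Not at hcd
    have hd : g.1 1 0 ≠ 0 := by
      intro h0
      rw [h0, map_zero] at hcd
      exact absurd hcd (not_lt.2 zero_le)
    obtain ⟨i, hi⟩ := exists_ord (v := v) (Units.mk0 _ hdet * (Units.mk0 _ hd * Units.mk0 _ hd)⁻¹)
    refine ⟨_, i - 1, Or.inr (act_caseB hL he g (Units.mk0 _ hd) rfl (by simpa using hcd) ?_)⟩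
    rw [← hi]
    have hvd : v (g.1 1 0) ≠ 0 := by rwa [Valuation.ne_zero_iff]
    simp
    field_simp

end clc

end Pool.Agent.T2H06.AUT
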