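import Pool.Agent.T2H06.AUT.Rep

/-!
# Consequences of the irreducibility of the representations generated by Steinberg vectors
-/

set_option autoImplicit false

namespace Pool.Agent.T2H06.AUT

variable {k : Type} [Field k] {v : Valuation k (WithZero (Multiplicative ℤ))} {ϖ : kˣ}

theorem SteinbergVector.sub {N : Type} [AddCommGroup N] [Module ℂ N]
    {σ : Representation ℂ (GL (Fin 2) k) N} {e : N} (he : SteinbergVector v ϖ σ e)
    {S : Submodule ℂ N} (hS : Stable σ S) (hm : e ∈ S) :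
    SteinbergVector v ϖ (subRep σ S hS) ⟨e, hm⟩ where
  iw g hg := Subtype.ext (he.iw g hg)
  ww := Subtype.ext he.ww
  sum := Subtype.ext he.sum

theorem SteinbergVector.quo {N : Type} [AddCommGroup N] [Module ℂ N]
    {σ : Representation ℂ (GL (Fin 2) k) N} {e : N} (he : SteinbergVector v ϖ σ e)
    {S : Submodule ℂ N} (hS : Stable σ S) :
    SteinbergVector v ϖ (quoRep σ S hS) (S.mkQ e) where
  iw g hg := by rw [quoRep_mk, he.iw g hg]
  ww := by rw [quoRep_mk, he.ww, map_neg]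
  sum := by rw [quoRep_mk, quoRep_mk, ← map_add, ← map_add, he.sum, map_zero]

theorem stein_irr (h1 : L1Stmt) (hd : LocalData v ϖ) {N : Type} [AddCommGroup N] [Module ℂ N]
    {σ : Representation ℂ (GL (Fin 2) k) N} {e : N} (he : SteinbergVector v ϖ σ e) (h0 : e ≠ 0) :
    Irr (subRep σ (orb σ e) (orb_stable σ e)) := by
  refine h1 k v ϖ hd (orb σ e) (subRep σ (orb σ e) (orb_stable σ e)) ⟨e, self_mem_orb σ e⟩
    (he.sub _ _) (fun h => h0 (congrArg Subtype.val h)) ?_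
  rw [eq_top_iff]
  rintro ⟨x, hx⟩ _
  have h2 : ∀ y (hy : y ∈ orb σ e), (⟨y, hy⟩ : orb σ e) ∈ Submodule.span ℂ (Set.range fun g =>
      subRep σ (orb σ e) (orb_stable σ e) g ⟨e, self_mem_orb σ e⟩) := by
    intro y hy
    unfold orb at hy
    induction hy using Submodule.span_induction with
    | mem x hx =>
      obtain ⟨g, rfl⟩ := hx
      exact Submodule.subset_span ⟨g, rfl⟩
    | zero => exact zero_mem _
    | add x y hx hy hx' hy' => exact add_mem hx' hy'
    | smul c x hx hx' => exact Submodule.smul_mem _ c hx'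
  exact h2 x hx

theorem stein_sub (h1 : L1Stmt) (hd : LocalData v ϖ) {N : Type} [AddCommGroup N] [Module ℂ N]
    {σ : Representation ℂ (GL (Fin 2) k) N} {e : N} (he : SteinbergVector v ϖ σ e)
    {U : Submodule ℂ N} (hU : Stable σ U) (hle : U ≤ orb σ e) : U = ⊥ ∨ U = orb σ e := by
  by_cases h0 : e = 0
  · left
    rw [eq_bot_iff]
    refine hle.trans (orb_le ?_ ?_)
    · intro g x hx
      rw [Submodule.mem_bot] at hx
      rw [hx, map_zero]
      exact zero_mem _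
    · rw [h0]; exact zero_mem _
  · exact irr_sub (orb_stable σ e) (stein_irr h1 hd he h0) hU hle

theorem map_orb {H V : Type} [Group H] [AddCommGroup V] [Module ℂ V] (ρ : Representation ℂ H V)
    (e : V) (C : Submodule ℂ V) (hC : Stable ρ C) :
    (orb ρ e).map C.mkQ = orb (quoRep ρ C hC) (C.mkQ e) := by
  rw [orb, Submodule.map_span, orb]
  congr 1
  ext y
  constructor
  · rintro ⟨_, ⟨g, rfl⟩, rfl⟩
    exact ⟨g, rfl⟩
  · rintro ⟨g, rfl⟩
    exact ⟨_, ⟨g, rfl⟩, rfl⟩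

theorem stein_mod (h1 : L1Stmt) (hd : LocalData v ϖ) {N : Type} [AddCommGroup N] [Module ℂ N]
    {σ : Representation ℂ (GL (Fin 2) k) N} {e : N} {C : Submodule ℂ N} (hC : Stable σ C)
    (he : SteinbergVector v ϖ (quoRep σ C hC) (C.mkQ e))
    {U : Submodule ℂ N} (hU : Stable σ U) (hle : C ≤ U) (hle' : U ≤ C ⊔ orb σ e) :
    U = C ∨ U = C ⊔ orb σ e := by
  have h2 : U.map C.mkQ ≤ orb (quoRep σ C hC) (C.mkQ e) := by
    rw [← map_orb]
    calc U.map C.mkQ ≤ (C ⊔ orb σ e).map C.mkQ := Submodule.map_mono hle'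
      _ = (orb σ e).map C.mkQ := by
        rw [Submodule.map_sup]
        have : C.map C.mkQ = ⊥ := by
          rw [eq_bot_iff]
          rintro _ ⟨x, hx, rfl⟩
          rw [Submodule.mem_bot, Submodule.mkQ_apply, Submodule.Quotient.mk_eq_zero]
          exact hx
        rw [this, bot_sup_eq]
  have h3 : (U.map C.mkQ).comap C.mkQ = U := by
    rw [Submodule.comap_map_mkQ]
    exact sup_eq_right.2 hle
  rcases stein_sub h1 hd he (Stable.map_mkQ hC hU) h2 with h | h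
  · left
    rw [h] at h3
    rw [← h3, Submodule.comap_bot, Submodule.ker_mkQ]
  · right
    rw [h, ← map_orb, Submodule.comap_map_mkQ] at h3
    exact h3.symm

/-- Steinberg vectors can be mapped to each other. -/
theorem stein_hom (h1 : L1Stmt) (hd : LocalData v ϖ) {N₁ N₂ : Type} [AddCommGroup N₁]
    [Module ℂ N₁] [AddCommGroup N₂] [Module ℂ N₂]
    {σ₁ : Representation ℂ (GL (Fin 2) k) N₁} {σ₂ : Representation ℂ (GL (Fin 2) k) N₂}
    {e₁ : N₁} {e₂ : N₂} (he₁ : SteinbergVector v ϖ σ₁ e₁) (he₂ : SteinbergVector v ϖ σ₂ e₂)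
    (h0 : e₁ ≠ 0) (htop : orb σ₁ e₁ = ⊤) :
    ∃ T : N₁ →ₗ[ℂ] N₂, (∀ g x, T (σ₁ g x) = σ₂ g (T x)) ∧ T e₁ = e₂ := by
  let σ : Representation ℂ (GL (Fin 2) k) (N₁ × N₂) :=
    { toFun := fun g => (σ₁ g).prodMap (σ₂ g)
      map_one' := by ext <;> simp
      map_mul' := fun a b => by ext <;> simp }
  have hσ : ∀ g x, σ g x = (σ₁ g x.1, σ₂ g x.2) := fun g x => rfl
  have he : SteinbergVector v ϖ σ (e₁, e₂) := by
    refine ⟨fun g hg => ?_, ?_, ?_⟩
    · rw [hσ, he₁.iw g hg, he₂.iw g hg]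
    · rw [hσ, he₁.ww, he₂.ww]; rfl
    · rw [hσ, hσ]
      exact Prod.ext he₁.sum he₂.sum
  set S := orb σ (e₁, e₂) with hS
  have hSs : Stable σ S := orb_stable _ _
  have hinj : ∀ x ∈ S, x.1 = 0 → x = 0 := by
    have hK : Stable σ (S ⊓ LinearMap.ker (LinearMap.fst ℂ N₁ N₂)) := by
      intro g x hx
      refine ⟨hSs g x hx.1, ?_⟩
      have h2 : x.1 = 0 := hx.2
      show (σ g x).1 = 0
      rw [hσ, h2, map_zero]
    rcases stein_sub h1 hd he hK inf_le_left with h | h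
    · intro x hx hx1
      have : x ∈ (S ⊓ LinearMap.ker (LinearMap.fst ℂ N₁ N₂)) := ⟨hx, hx1⟩
      rw [h] at this
      exact this
    · exfalso
      have h2 : (e₁, e₂) ∈ (S ⊓ LinearMap.ker (LinearMap.fst ℂ N₁ N₂)) := by
        rw [h]; exact self_mem_orb _ _
      exact h0 h2.2
  have hsurj : ∀ y : N₁, ∃ x ∈ S, x.1 = y := by
    have hst : Stable σ₁ (S.map (LinearMap.fst ℂ N₁ N₂)) := by
      rintro g _ ⟨x, hx, rfl⟩
      exact ⟨σ g x, hSs g x hx, rfl⟩
    have h2 : orb σ₁ e₁ ≤ S.map (LinearMap.fst ℂ N₁ N₂) :=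
      orb_le hst ⟨(e₁, e₂), self_mem_orb _ _, rfl⟩
    rw [htop] at h2
    intro y
    obtain ⟨x, hx, hxy⟩ := h2 (Submodule.mem_top (x := y))
    exact ⟨x, hx, hxy⟩
  let p : S →ₗ[ℂ] N₁ := (LinearMap.fst ℂ N₁ N₂).comp S.subtype
  have hp : Function.Bijective p := by
    constructor
    · rw [injective_iff_map_eq_zero]
      rintro ⟨x, hx⟩ h
      exact Subtype.ext (hinj x hx h)
    · intro y
      obtain ⟨x, hx, rfl⟩ := hsurj y
      exact ⟨⟨x, hx⟩, rfl⟩
  let P : S ≃ₗ[ℂ] N₁ := LinearEquiv.ofBijective p hp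
  refine ⟨((LinearMap.snd ℂ N₁ N₂).comp S.subtype).comp P.symm.toLinearMap, ?_, ?_⟩
  · intro g x
    have key : P.symm (σ₁ g x) = ⟨σ g (P.symm x), hSs g _ (P.symm x).2⟩ := by
      apply P.injective
      rw [LinearEquiv.apply_symm_apply]
      show σ₁ g x = σ₁ g ((P.symm x : S) : N₁ × N₂).1
      congr 1
      exact (P.apply_symm_apply x).symm
    show ((P.symm (σ₁ g x) : S) : N₁ × N₂).2 = σ₂ g ((P.symm x : S) : N₁ × N₂).2
    rw [key]
    rfl
  · show ((P.symm e₁ : S) : N₁ × N₂).2 = e₂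
    have : P.symm e₁ = ⟨(e₁, e₂), self_mem_orb _ _⟩ := by
      apply P.injective
      rw [LinearEquiv.apply_symm_apply]
      rfl
    rw [this]

end Pool.Agent.T2H06.AUT
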