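import Pool.Agent.T2H06.AUT.Defs

/-!
# Generalities on representations
-/

set_option autoImplicit false

namespace Pool.Agent.T2H06.AUT

section gen
variable {H V W : Type} [Group H] [AddCommGroup V] [Module ℂ V] [AddCommGroup W] [Module ℂ W]

/-- The span of the orbit of a vector. -/
def orb (ρ : Representation ℂ H V) (e : V) : Submodule ℂ V :=
  Submodule.span ℂ (Set.range fun g => ρ g e)

theorem mem_orb (ρ : Representation ℂ H V) (e : V) (g : H) : ρ g e ∈ orb ρ e :=
  Submodule.subset_span ⟨g, rfl⟩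

theorem self_mem_orb (ρ : Representation ℂ H V) (e : V) : e ∈ orb ρ e := by
  simpa using mem_orb ρ e 1

theorem stable_span {ρ : Representation ℂ H V} {s : Set V} (hs : ∀ g, ∀ x ∈ s, ρ g x ∈ Submodule.span ℂ s) :
    Stable ρ (Submodule.span ℂ s) := by
  intro g x hx
  induction hx using Submodule.span_induction with
  | mem x hx => exact hs g x hx
  | zero => simp
  | add x y _ _ hx hy => rw [map_add]; exact add_mem hx hy
  | smul c x _ hx => rw [map_smul]; exact Submodule.smul_mem _ _ hx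

theorem orb_stable (ρ : Representation ℂ H V) (e : V) : Stable ρ (orb ρ e) := by
  refine stable_span ?_
  rintro g _ ⟨h, rfl⟩
  refine Submodule.subset_span ⟨g * h, ?_⟩
  simp [map_mul]

theorem orb_le {ρ : Representation ℂ H V} {e : V} {U : Submodule ℂ V} (hU : Stable ρ U)
    (he : e ∈ U) : orb ρ e ≤ U := by
  rw [orb, Submodule.span_le]
  rintro _ ⟨g, rfl⟩
  exact hU g e he

theorem Stable.sup {ρ : Representation ℂ H V} {A B : Submodule ℂ V} (hA : Stable ρ A)
    (hB : Stable ρ B) : Stable ρ (A ⊔ B) := by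
  intro g x hx
  rw [Submodule.mem_sup] at hx ⊢
  obtain ⟨a, ha, b, hb, rfl⟩ := hx
  exact ⟨ρ g a, hA g a ha, ρ g b, hB g b hb, by rw [map_add]⟩

theorem Stable.inf {ρ : Representation ℂ H V} {A B : Submodule ℂ V} (hA : Stable ρ A)
    (hB : Stable ρ B) : Stable ρ (A ⊓ B) := fun g x hx => ⟨hA g x hx.1, hB g x hx.2⟩

/-- The restriction of a representation to a stable subspace. -/
def subRep (ρ : Representation ℂ H V) (S : Submodule ℂ V) (hS : Stable ρ S) :
    Representation ℂ H S where
  toFun g := (ρ g).restrict (hS g)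
  map_one' := by ext x; simp
  map_mul' a b := by ext x; simp [map_mul]

@[simp] theorem subRep_apply (ρ : Representation ℂ H V) (S : Submodule ℂ V) (hS : Stable ρ S)
    (g : H) (x : S) : ((subRep ρ S hS g x : S) : V) = ρ g x := rfl

/-- The quotient of a representation by a stable subspace. -/
def quoRep (ρ : Representation ℂ H V) (S : Submodule ℂ V) (hS : Stable ρ S) :
    Representation ℂ H (V ⧸ S) where
  toFun g := S.mapQ S (ρ g) (fun x hx => hS g x hx)
  map_one' := by ext x; simp
  map_mul' a b := by ext x; simp [map_mul]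

@[simp] theorem quoRep_mk (ρ : Representation ℂ H V) (S : Submodule ℂ V) (hS : Stable ρ S)
    (g : H) (x : V) : quoRep ρ S hS g (S.mkQ x) = S.mkQ (ρ g x) := rfl

theorem Stable.map_mkQ {ρ : Representation ℂ H V} {S : Submodule ℂ V} (hS : Stable ρ S)
    {U : Submodule ℂ V} (hU : Stable ρ U) : Stable (quoRep ρ S hS) (U.map S.mkQ) := by
  rintro g _ ⟨x, hx, rfl⟩
  exact ⟨ρ g x, hU g x hx, rfl⟩

/-- Irreducibility of a stable subspace. -/
theorem irr_sub {ρ : Representation ℂ H V} {S : Submodule ℂ V} (hS : Stable ρ S)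
    (h : Irr (subRep ρ S hS)) {U : Submodule ℂ V} (hU : Stable ρ U) (hle : U ≤ S) :
    U = ⊥ ∨ U = S := by
  have h1 := h.2 (U.comap S.subtype) (fun g x hx => hU g x hx)
  rcases h1 with h1 | h1
  · left
    rw [eq_bot_iff]
    intro x hx
    have : (⟨x, hle hx⟩ : S) ∈ (U.comap S.subtype) := hx
    rw [h1] at this
    simpa using this
  · right
    refine le_antisymm hle fun x hx => ?_
    have : (⟨x, hx⟩ : S) ∈ (U.comap S.subtype) := by rw [h1]; trivial
    exact this

end gen

/-! ## Length -/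

section length
variable {H V : Type} [Group H] [AddCommGroup V] [Module ℂ V] {ρ : Representation ℂ H V}
  {S : Subgroup H}

theorem LengthLE.stable : ∀ {n : ℕ} {M : Submodule ℂ V}, LengthLE ρ S n M → StableUnder ρ S M →
    StableUnder ρ S M := fun _ h => h

theorem StableUnder.sup {A B : Submodule ℂ V} (hA : StableUnder ρ S A)
    (hB : StableUnder ρ S B) : StableUnder ρ S (A ⊔ B) := by
  intro g hg x hx
  rw [Submodule.mem_sup] at hx ⊢
  obtain ⟨a, ha, b, hb, rfl⟩ := hx
  exact ⟨ρ g a, hA g hg a ha, ρ g b, hB g hg b hb, by rw [map_add]⟩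

theorem StableUnder.inf {A B : Submodule ℂ V} (hA : StableUnder ρ S A)
    (hB : StableUnder ρ S B) : StableUnder ρ S (A ⊓ B) :=
  fun g hg x hx => ⟨hA g hg x hx.1, hB g hg x hx.2⟩

theorem LengthLE.mono_sub : ∀ {n : ℕ} {M N : Submodule ℂ V}, LengthLE ρ S n N →
    StableUnder ρ S M → M ≤ N → LengthLE ρ S n M
  | 0, M, N, h, _, hle => by
    have h : N = ⊥ := h
    subst h
    exact le_bot_iff.1 hle
  | n + 1, M, N, ⟨N', h1, h2, h3, h4⟩, hM, hle => by
    refine ⟨M ⊓ N', inf_le_left, hM.inf h2, LengthLE.mono_sub h3 (hM.inf h2) inf_le_right, ?_⟩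
    intro U hU hU1 hU2
    rcases h4 (U ⊔ N') (hU.sup h2) le_sup_right (sup_le (hU2.trans hle) h1) with h | h
    · left
      refine le_antisymm (le_inf hU2 ?_) hU1
      rw [← h]; exact le_sup_left
    · right
      refine le_antisymm hU2 ?_
      have h5 : M = M ⊓ (U ⊔ N') := by rw [h]; exact (inf_eq_left.2 hle).symm
      have h6 : U ⊔ (M ⊓ N') = U := sup_eq_left.2 hU1
      calc M = (U ⊔ N') ⊓ M := by rw [inf_comm]; exact h5
        _ = U ⊔ (N' ⊓ M) := sup_inf_assoc_of_le _ hU2
        _ ≤ U := by rw [inf_comm, h6]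

theorem LengthLE.add : ∀ {m n : ℕ} {M N : Submodule ℂ V}, LengthLE ρ S n M → LengthLE ρ S m N →
    StableUnder ρ S M → StableUnder ρ S N → LengthLE ρ S (n + m) (M ⊔ N)
  | 0, n, M, N, hM, hN, _, _ => by
    have h : N = ⊥ := hN
    subst h
    simpa using hM
  | m + 1, n, M, N, hM, ⟨N', h1, h2, h3, h4⟩, hMs, hNs => by
    refine ⟨M ⊔ N', sup_le_sup_left h1 _, hMs.sup h2, LengthLE.add hM h3 hMs h2, ?_⟩
    intro U hU hU1 hU2
    have hMU : M ≤ U := le_sup_left.trans hU1
    have hN'U : N' ≤ U := le_sup_right.trans hU1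
    rcases h4 (U ⊓ N) (hU.inf hNs) (le_inf hN'U h1) inf_le_right with h | h
    · left
      refine le_antisymm ?_ hU1
      calc U = (M ⊔ N) ⊓ U := (inf_eq_right.2 hU2).symm
        _ = M ⊔ (N ⊓ U) := sup_inf_assoc_of_le _ hMU
        _ = M ⊔ N' := by rw [inf_comm, h]
        _ ≤ M ⊔ N' := le_rfl
    · right
      refine le_antisymm hU2 (sup_le hMU ?_)
      rw [← h]; exact inf_le_left

end length

end Pool.Agent.T2H06.AUT
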