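import Mathlib

/-!
# Complex representations of groups: basic notions
-/

set_option autoImplicit false

namespace Pool.Agent.T2H06.AUT

section rep
variable {H V : Type} [Group H] [AddCommGroup V] [Module ℂ V]

/-- A subspace which is stable under the subgroup `S`. -/
def StableUnder (ρ : Representation ℂ H V) (S : Subgroup H) (U : Submodule ℂ V) : Prop :=
  ∀ g ∈ S, ∀ x ∈ U, ρ g x ∈ U

/-- A stable subspace. -/
def Stable (ρ : Representation ℂ H V) (U : Submodule ℂ V) : Prop :=
  ∀ g, ∀ x ∈ U, ρ g x ∈ U

/-- An irreducible representation. -/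
def Irr (ρ : Representation ℂ H V) : Prop :=
  (∃ x : V, x ≠ 0) ∧ ∀ U : Submodule ℂ V, Stable ρ U → U = ⊥ ∨ U = ⊤

/-- A smooth representation: every vector is fixed by an open subgroup. -/
def Smooth [TopologicalSpace H] (ρ : Representation ℂ H V) : Prop :=
  ∀ x : V, ∃ U : Subgroup H, IsOpen (U : Set H) ∧ ∀ g ∈ U, ρ g x = x

/-- The subspace `M` has length at most `n` as a representation of the subgroup `S`: there is a
filtration by `n` steps of `S`-stable subspaces without intermediate `S`-stable subspaces. -/
def LengthLE (ρ : Representation ℂ H V) (S : Subgroup H) : ℕ → Submodule ℂ V → Prop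
  | 0, M => M = ⊥
  | n + 1, M => ∃ M' : Submodule ℂ V, M' ≤ M ∧ StableUnder ρ S M' ∧ LengthLE ρ S n M' ∧
      ∀ U : Submodule ℂ V, StableUnder ρ S U → M' ≤ U → U ≤ M → U = M' ∨ U = M

/-- Two isomorphic representations. -/
def Iso {W : Type} [AddCommGroup W] [Module ℂ W] (ρ : Representation ℂ H V)
    (σ : Representation ℂ H W) : Prop :=
  ∃ T : V ≃ₗ[ℂ] W, ∀ g x, T (ρ g x) = σ g (T x)

end rep

/-- Right translation on functions: `(rt g f)(x) = f (x g)`. -/
def rt (H : Type) [Group H] : Representation ℂ H (H → ℂ) where
  toFun g :=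
    { toFun := fun f x => f (x * g)
      map_add' := fun _ _ => rfl
      map_smul' := fun _ _ => rfl }
  map_one' := by ext f x; simp
  map_mul' g h := by ext f x; simp [mul_assoc]

/-- Smooth irreducible complex representations. -/
structure IrrRep (H : Type) [Group H] [TopologicalSpace H] : Type 1 where
  /-- the space -/
  W : Type
  [grp : AddCommGroup W]
  [mod : Module ℂ W]
  /-- the action -/
  ρ : Representation ℂ H W
  irr : Irr ρ
  smooth : Smooth ρ

attribute [instance] IrrRep.grp IrrRep.mod

end Pool.Agent.T2H06.AUT
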