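import Pool.Agent.T2H06.AUT.Gen
import Pool.Agent.T2H06.AUT.AsmC
import Pool.Agent.T2H06.AUT.Defs5

/-!
# From the working definitions to the definitions of the final statement
-/

set_option autoImplicit false

open Polynomial IsDedekindDomain

namespace Pool.Agent.T2H06.AUT.Trans

/-- The comparison of the two types of places. -/
def cv : Gen.Place → Place
  | .inf => .inf
  | .fin v => .fin v

theorem cv_surj (p : Place) : ∃ q : Gen.Place, cv q = p := by
  cases p with
  | inf => exact ⟨.inf, rfl⟩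
  | fin v => exact ⟨.fin v, rfl⟩

/-- The data in terms of the working definitions. -/
noncomputable def mkD (a : Subgroup G) (b : Gen.Place → Subgroup G) (c : Subgroup G)
    (d : AddSubgroup Ad) (e : Ad → G) : Gen.AdelicData where
  H := G
  Γ := a
  P := Gen.Place
  GP := b
  Kmax := c
  A := Ad
  K := d
  n := e

/-- The data in terms of the working definitions. -/
noncomputable def D0 : Gen.AdelicData :=
  mkD diagG.range (fun p => GP (cv p)) Kmax (diagK : K →+* Ad).toAddMonoidHom.range nA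

theorem F2t_mk : Gen.F2t = mkD (Gen.diagGL.range : Subgroup Gen.GLA) Gen.GLp Gen.GLO
    (Gen.diag.toAddMonoidHom.range : AddSubgroup Gen.AK) Gen.nA := rfl

theorem mem_GLint {k : Type} [Field k] (v : Valuation k (WithZero (Multiplicative ℤ)))
    (g : GL (Fin 2) k) : g ∈ Gen.GLint v ↔ g ∈ intGL v := by
  constructor
  · rintro ⟨u, rfl⟩
    constructor
    · intro i j
      exact (u.1 i j).2
    · have h1 : IsUnit (u.1.det) := Matrix.isUnits_det_units u
      have h2 : (Matrix.GeneralLinearGroup.map v.integer.subtype u).1.det =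
          v.integer.subtype u.1.det := by
        show ((v.integer.subtype).mapMatrix u.1).det = _
        rw [RingHom.map_det]
      rw [h2]
      obtain ⟨w, hw⟩ := h1
      have h3 : v (w.1 : k) ≤ 1 := w.1.2
      have h4 : v ((w⁻¹).1 : k) ≤ 1 := (w⁻¹).1.2
      have h5 : v (w.1 : k) * v ((w⁻¹).1 : k) = 1 := by
        rw [← map_mul]
        have : ((w.1 * (w⁻¹).1 : v.integer) : k) = 1 := by rw [Units.mul_inv]; rfl
        rw [← map_one v, ← this]; rfl
      rw [← hw]
      show v (w.1 : k) = 1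
      apply le_antisymm h3
      rw [← h5]
      exact mul_le_of_le_one_right' h4
  · intro hg
    have hg' := inv_mem hg
    let M : Matrix (Fin 2) (Fin 2) v.integer := fun i j => ⟨g.1 i j, hg.1 i j⟩
    let N : Matrix (Fin 2) (Fin 2) v.integer := fun i j => ⟨(g⁻¹).1 i j, hg'.1 i j⟩
    have hinj : Function.Injective (v.integer.subtype.mapMatrix : Matrix (Fin 2) (Fin 2) v.integer →+*
        Matrix (Fin 2) (Fin 2) k) := by
      intro A B hAB
      ext i j
      have := congrFun (congrFun hAB i) j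
      exact this
    have h1 : M * N = 1 := by
      apply hinj
      rw [map_mul, map_one]
      show g.1 * (g⁻¹).1 = 1
      rw [Units.mul_inv]
    have h2 : N * M = 1 := by
      apply hinj
      rw [map_mul, map_one]
      show (g⁻¹).1 * g.1 = 1
      rw [Units.inv_mul]
    refine ⟨⟨M, N, h1, h2⟩, ?_⟩
    apply Units.ext
    rfl

theorem GLp_eq (p : Gen.Place) : (Gen.GLp p : Subgroup G) = GP (cv p) := by
  cases p with
  | inf => rfl
  | fin v =>
    apply SetLike.ext
    intro g
    constructor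
    · intro h
      have h1 : g.2 = 1 := (Subgroup.mem_inf.1 h).1
      have h2 := (Subgroup.mem_inf.1 h).2
      refine ⟨h1, fun w hw => ?_⟩
      have h3 := (Subgroup.mem_iInf.1 h2) ⟨w, hw⟩
      exact h3
    · rintro ⟨h1, h2⟩
      refine Subgroup.mem_inf.2 ⟨h1, Subgroup.mem_iInf.2 fun w => ?_⟩
      exact h2 w.1 w.2

theorem GLO_eq : (Gen.GLO : Subgroup G) = Kmax := by
  apply SetLike.ext
  intro g
  constructor
  · intro h
    have h1 := (Subgroup.mem_inf.1 h).1
    have h2 := (Subgroup.mem_inf.1 h).2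
    refine ⟨fun v => ?_, ?_⟩
    · have h3 := (Subgroup.mem_iInf.1 h1) v
      exact (mem_GLint _ _).1 h3
    · exact (mem_GLint _ _).1 h2
  · rintro ⟨h1, h2⟩
    refine Subgroup.mem_inf.2 ⟨Subgroup.mem_iInf.2 fun v => ?_, ?_⟩
    · exact (mem_GLint _ _).2 (h1 v)
    · exact (mem_GLint _ _).2 h2

theorem nmat_eq {k : Type} [CommRing k] (b : k) : Gen.nmat b = nn b := by
  apply Units.ext
  rfl

theorem nA_eq : (Gen.nA : Ad → G) = nA := by
  funext a
  exact Prod.ext (nmat_eq _) (nmat_eq _)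

theorem F2t_eq : Gen.F2t = D0 := by
  rw [F2t_mk]
  have h1 : (Gen.GLp : Gen.Place → Subgroup G) = fun p => GP (cv p) := funext GLp_eq
  show mkD diagG.range (Gen.GLp : Gen.Place → Subgroup G) (Gen.GLO : Subgroup G)
    (diagK : K →+* Ad).toAddMonoidHom.range (Gen.nA : Ad → G) = D0
  rw [h1, GLO_eq, nA_eq]
  rfl

/-! ## The notions -/

theorem autForm_iff (f : G → ℂ) : Gen.AutForm D0 f ↔ AutForm f := by
  constructor
  · intro h
    refine ⟨fun γ x => h.left _ ⟨γ, rfl⟩ x, h.smooth, ?_⟩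
    obtain ⟨p, n, hn⟩ := h.fin
    exact ⟨cv p, n, hn⟩
  · intro h
    refine ⟨?_, h.smooth, ?_⟩
    · rintro _ ⟨γ, rfl⟩ x
      exact h.left γ x
    · obtain ⟨p, n, hn⟩ := h.fin
      obtain ⟨q, rfl⟩ := cv_surj p
      exact ⟨q, n, hn⟩

theorem isReps_iff (C : AddSubgroup Ad) (S : Finset Ad) : Gen.IsReps D0 C S ↔
    ∀ a : Ad, ∃! s, s ∈ S ∧ ∃ k : K, ∃ c ∈ C, a - s = diagK k + c := by
  have key : ∀ a s : Ad, (∃ k ∈ (diagK : K →+* Ad).toAddMonoidHom.range, ∃ c ∈ C, a - s = k + c) ↔
      ∃ k : K, ∃ c ∈ C, a - s = diagK k + c := by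
    intro a s
    constructor
    · rintro ⟨_, ⟨k, rfl⟩, c, hc, h⟩
      exact ⟨k, c, hc, h⟩
    · rintro ⟨k, c, hc, h⟩
      exact ⟨_, ⟨k, rfl⟩, c, hc, h⟩
  refine forall_congr' fun a => ?_
  refine existsUnique_congr fun s => ?_
  exact and_congr_right' (key a s)

theorem cuspForm_iff (f : G → ℂ) : Gen.CuspForm D0 f ↔ CuspForm f := by
  refine forall_congr' fun x => exists_congr fun C₀ => and_congr_right' ?_
  refine forall_congr' fun C => forall_congr' fun h => forall_congr' fun h' =>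
    forall_congr' fun S => ?_
  exact imp_congr_left (isReps_iff C S)

section two
variable {V : Type} [AddCommGroup V] [Module ℂ V]

theorem isQuotient_iff {H : Type} [Group H] (A : Submodule ℂ (H → ℂ)) (hA : Stable (rt H) A)
    (π : Representation ℂ H V) : Gen.IsQuotient A π ↔
      ∃ q : A →ₗ[ℂ] V, Function.Surjective q ∧
        ∀ (g : H) (f f' : A), (f' : H → ℂ) = rt H g f → q f' = π g (q f) := by
  constructor
  · rintro ⟨q, h1, h2⟩
    refine ⟨q.comp A.subtype, ?_, ?_⟩
    · intro y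
      have hy : y ∈ A.map q := by rw [h1]; trivial
      obtain ⟨f, hf, rfl⟩ := hy
      exact ⟨⟨f, hf⟩, rfl⟩
    · intro g f f' hff
      show q (f' : H → ℂ) = π g (q f)
      rw [hff]
      exact h2 g f f.2
  · rintro ⟨q, h1, h2⟩
    obtain ⟨q', hq'⟩ := LinearMap.exists_extend q
    have hq : ∀ f : A, q' (f : H → ℂ) = q f := fun f => by
      rw [← hq']; rfl
    refine ⟨q', ?_, ?_⟩
    · rw [eq_top_iff]
      intro y _
      obtain ⟨f, rfl⟩ := h1 y
      exact ⟨f, f.2, hq f⟩
    · intro g f hf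
      have := h2 g ⟨f, hf⟩ ⟨rt H g f, hA g f hf⟩ rfl
      rw [← hq, ← hq] at this
      exact this

theorem isAutomorphic_iff (π : Representation ℂ G V) :
    Gen.IsAutomorphic D0 π ↔ IsAutomorphic π := by
  refine and_congr_right' (exists_congr fun A => and_congr_right fun hA => and_congr ?_ ?_)
  · exact forall_congr' fun f => forall_congr' fun _ => autForm_iff f
  · exact isQuotient_iff A hA π

theorem isCuspidal_iff (π : Representation ℂ G V) :
    Gen.IsCuspidal D0 π ↔ IsCuspidal π := by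
  refine and_congr_right' (exists_congr fun A => and_congr_right fun hA => and_congr ?_ ?_)
  · exact forall_congr' fun f => forall_congr' fun _ => and_congr (autForm_iff f) (cuspForm_iff f)
  · exact isQuotient_iff A hA π

theorem isIsobaric_iff (π : Representation ℂ G V) :
    Gen.IsIsobaric D0 π ↔ IsIsobaric π :=
  or_congr (isCuspidal_iff π) (and_congr_left' (isAutomorphic_iff π))

theorem localComponent_iff (p : Gen.Place) (σ : IrrRep (GP (cv p))) (π : Representation ℂ G V) :
    Gen.LocalComponent D0 p σ π ↔ LocalComponent (cv p) σ π := by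
  have key : Submodule.span ℂ {y : V | ∃ T : σ.W →ₗ[ℂ] V,
      (∀ (h : GP (cv p)) (w : σ.W), T (σ.ρ h w) = π (h : G) (T w)) ∧ ∃ w, T w = y} =
      ⨆ T : {T : σ.W →ₗ[ℂ] V // ∀ (g : GP (cv p)) (w : σ.W), T (σ.ρ g w) = π (g : G) (T w)},
        LinearMap.range T.1 := by
    apply le_antisymm
    · rw [Submodule.span_le]
      rintro _ ⟨T, hT, w, rfl⟩
      exact (le_iSup (fun T : {T : σ.W →ₗ[ℂ] V // ∀ (g : GP (cv p)) (w : σ.W),
        T (σ.ρ g w) = π (g : G) (T w)} => LinearMap.range T.1) ⟨T, hT⟩) ⟨w, rfl⟩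
    · refine iSup_le fun T => ?_
      rintro _ ⟨w, rfl⟩
      exact Submodule.subset_span ⟨T.1, T.2, w, rfl⟩
  show (Submodule.span ℂ {y : V | ∃ T : σ.W →ₗ[ℂ] V,
      (∀ (h : GP (cv p)) (w : σ.W), T (σ.ρ h w) = π (h : G) (T w)) ∧ ∃ w, T w = y} = ⊤) ↔
    (⨆ T : {T : σ.W →ₗ[ℂ] V // ∀ (g : GP (cv p)) (w : σ.W), T (σ.ρ g w) = π (g : G) (T w)},
        LinearMap.range T.1) = ⊤
  rw [key]

theorem unramified_iff (p : Gen.Place) (σ : IrrRep (GP (cv p))) :
    Gen.Unramified D0 p σ ↔ Unramified σ := Iff.rfl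

theorem isGlobalLifting_iff {V' : Type} [AddCommGroup V'] [Module ℂ V']
    (π : Representation ℂ G V) (P : Representation ℂ G V') :
    Gen.IsGlobalLifting D0 π P ↔ IsGlobalLifting π P := by
  refine and_congr (isIsobaric_iff P) ⟨fun h => ?_, fun h => ?_⟩
  · intro p
    obtain ⟨q, rfl⟩ := cv_surj p
    intro σ h1 h2
    exact (localComponent_iff q σ P).1 (h q σ ((localComponent_iff q σ π).2 h1) h2)
  · intro q σ h1 h2
    exact (localComponent_iff q σ P).2 (h (cv q) σ ((localComponent_iff q σ π).1 h1) h2)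

end two

/-! ## The statements -/

theorem noLiftingMap (h : FinalStmt) : Gen.NoLiftingMap D0 Gen.Place.inf := by
  rintro ⟨l, hl⟩
  refine h ⟨l, ?_⟩
  intro V V' _ _ _ _ π P h1 h2 σ τ h3 h4
  exact hl V V' π P ((isAutomorphic_iff π).2 h1) ((isGlobalLifting_iff π P).2 h2) σ τ
    ((localComponent_iff .inf σ π).2 h3) ((localComponent_iff .inf τ P).2 h4)

theorem explicitCounterexample (h : ExplicitStmt) :
    Gen.ExplicitCounterexample D0 Gen.Place.inf := by
  obtain ⟨V, V', i1, i2, i3, i4, π, π', σ, h1, h2, h3, h4, h5, h6, h7, h8, h9⟩ := h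
  refine ⟨V, V', i1, i2, i3, i4, π, π', σ, (isAutomorphic_iff π).2 h1, (isCuspidal_iff π').2 h2,
    (localComponent_iff .inf σ π).2 h3, (localComponent_iff .inf σ π').2 h4, h5, ?_,
    (isGlobalLifting_iff π _).2 h7, (isGlobalLifting_iff π' π').2 h8,
    fun h => h9 ((localComponent_iff .inf σ _).1 h)⟩
  intro q hq g hg x
  match q, hq, hg with
  | .inf, hq, _ => exact absurd rfl hq
  | .fin v, _, hg => exact h6 v g hg x

theorem adeleQuotientFinite (h : F1Stmt) : Gen.AdeleQuotientFinite D0 := by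
  intro C hC
  obtain ⟨S, hS⟩ := h C hC
  exact ⟨S, (isReps_iff C S).2 hS⟩

theorem localComponentUnique (h : U1Stmt) : Gen.LocalComponentUnique D0 := by
  intro V _ _ π p σ τ hV h1 h2
  exact h V π (cv p) σ τ hV ((localComponent_iff p σ π).1 h1) ((localComponent_iff p τ π).1 h2)

end Pool.Agent.T2H06.AUT.Trans
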